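import Pool.Agent.H47.ST.Sym
import Pool.Agent.H47.ST.Lev

/-!
# Project AC: Euler characteristic of a band of a grid modulo a lattice
-/

set_option autoImplicit false

namespace Pool.Agent.H45.AC

open Pool.Agent.H47.ST

variable {κ : Type*} [Fintype κ] [DecidableEq κ]

/-- the translates of a finite set of vertices -/
def orb (L : AddSubgroup (κ → ℤ)) (σ : Finset (κ → ℤ)) : Set (Finset (κ → ℤ)) :=
  {τ | ∃ l ∈ L, τ = tr l σ}

/-- the simplices with `j` vertices in `B`, not all in `A` -/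
def bs (B A : Set (κ → ℤ)) (j : ℕ) : Set (Finset (κ → ℤ)) :=
  {σ | In B σ ∧ ¬ (∀ v ∈ σ, v ∈ A) ∧ σ.card = j}

/-- their number modulo `L` -/
noncomputable def nc (L : AddSubgroup (κ → ℤ)) (B A : Set (κ → ℤ)) (j : ℕ) : ℕ :=
  (orb L '' bs B A j).ncard

/-- the Euler characteristic of the band `(B, A)` modulo `L` -/
noncomputable def ech (L : AddSubgroup (κ → ℤ)) (B A : Set (κ → ℤ)) : ℤ :=
  ∑ j ∈ Finset.range (Fintype.card κ + 2), (-1) ^ (j + 1) * (nc L B A j : ℤ)

theorem Ech_orb_tr {L : AddSubgroup (κ → ℤ)} {l : κ → ℤ} (hl : l ∈ L) (σ : Finset (κ → ℤ)) :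
    orb L (tr l σ) = orb L σ := by
  ext τ
  constructor
  · rintro ⟨m, hm, h⟩
    exact ⟨l + m, L.add_mem hl hm, by rw [h, Sym_tr_tr]⟩
  · rintro ⟨m, hm, h⟩
    refine ⟨-l + m, L.add_mem (L.neg_mem hl) hm, ?_⟩
    rw [h, Sym_tr_tr]
    congr 1
    rw [← add_assoc, add_neg_cancel, zero_add]

theorem Ech_orb_eq {L : AddSubgroup (κ → ℤ)} {σ τ : Finset (κ → ℤ)}
    (h : orb L σ = orb L τ) : ∃ l ∈ L, τ = tr l σ := by
  have h1 : τ ∈ orb L τ := ⟨0, L.zero_mem, (Sym_tr_zero τ).symm⟩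
  rw [← h] at h1
  exact h1

theorem Ech_Icc {σ : Finset (κ → ℤ)} (hS : Simp σ) {v w : κ → ℤ} (hv : v ∈ σ) (hw : w ∈ σ) :
    w ∈ Finset.Icc (v - 1) (v + 1) := by
  have h := StarR_near (hS v hv w hw)
  rw [Finset.mem_Icc]
  constructor
  · intro i
    have h1 := (abs_le.1 (h i)).1
    simp only [Pi.sub_apply, Pi.one_apply]
    linarith
  · intro i
    have h1 := (abs_le.1 (h i)).2
    simp only [Pi.add_apply, Pi.one_apply]
    linarith

theorem nc_finite {L : AddSubgroup (κ → ℤ)} {B A : Set (κ → ℤ)} (hB : Inv L B) (hA : Inv L A)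
    (hfin : FinMod L B A) (j : ℕ) : (orb L '' bs B A j).Finite := by
  obtain ⟨D, hD⟩ := hfin
  let P : Finset (Finset (κ → ℤ)) := (D.biUnion fun u => Finset.Icc (u - 1) (u + 1)).powerset
  refine (((P : Set (Finset (κ → ℤ))).toFinite).image (orb L)).subset ?_
  rintro _ ⟨σ, hσ, rfl⟩
  have h1 := hσ.2.1
  push Not at h1
  obtain ⟨v, hv, hvA⟩ := h1
  obtain ⟨l, hl, hlD⟩ := hD v (hσ.1.2 v hv) hvA
  refine ⟨tr l σ, ?_, Ech_orb_tr hl σ⟩
  rw [Finset.mem_coe, Finset.mem_powerset]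
  intro w hw
  rw [Finset.mem_biUnion]
  refine ⟨v + l, hlD, ?_⟩
  refine Ech_Icc ((Sym_simp_tr l σ).2 hσ.1.1) ?_ hw
  rw [Sym_mem_tr, add_sub_cancel_right]
  exact hv

theorem nc_big {L : AddSubgroup (κ → ℤ)} {B A : Set (κ → ℤ)} {j : ℕ}
    (hj : Fintype.card κ + 1 < j) : nc L B A j = 0 := by
  have h : bs B A j = ∅ := by
    ext σ
    constructor
    · rintro ⟨h1, -, h3⟩
      have := h1.1.card_le
      omega
    · intro h
      exact absurd h (Set.notMem_empty σ)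
  unfold nc
  rw [h, Set.image_empty, Set.ncard_empty]

theorem nc_add {L : AddSubgroup (κ → ℤ)} {A B C : Set (κ → ℤ)} (hA : Inv L A) (hB : Inv L B)
    (hC : Inv L C) (hAB : A ⊆ B) (hBC : B ⊆ C) (hfin : FinMod L C A) (j : ℕ) :
    nc L C A j = nc L C B j + nc L B A j := by
  have h1 : bs C A j = bs C B j ∪ bs B A j := by
    ext σ
    constructor
    · rintro ⟨h1, h2, h3⟩
      by_cases h : ∀ v ∈ σ, v ∈ B
      · exact Or.inr ⟨⟨h1.1, h⟩, h2, h3⟩
      · exact Or.inl ⟨h1, h, h3⟩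
    · rintro (⟨h1, h2, h3⟩ | ⟨h1, h2, h3⟩)
      · exact ⟨h1, fun h => h2 fun v hv => hAB (h v hv), h3⟩
      · exact ⟨⟨h1.1, fun v hv => hBC (h1.2 v hv)⟩, h2, h3⟩
  have hf := nc_finite hC hA hfin j
  rw [h1, Set.image_union] at hf
  have hd : Disjoint (orb L '' bs C B j) (orb L '' bs B A j) := by
    rw [Set.disjoint_left]
    rintro _ ⟨σ, hσ, rfl⟩ ⟨τ, hτ, h⟩
    obtain ⟨l, hl, h2⟩ := Ech_orb_eq h
    refine hσ.2.1 ?_
    rw [h2]
    exact (Sym_all_tr hB hl τ).2 hτ.1.2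
  unfold nc
  rw [h1, Set.image_union]
  exact Set.ncard_union_eq hd (hf.subset Set.subset_union_left)
    (hf.subset Set.subset_union_right)

theorem ech_add {L : AddSubgroup (κ → ℤ)} {A B C : Set (κ → ℤ)} (hA : Inv L A) (hB : Inv L B)
    (hC : Inv L C) (hAB : A ⊆ B) (hBC : B ⊆ C) (hfin : FinMod L C A) :
    ech L C A = ech L C B + ech L B A := by
  unfold ech
  rw [← Finset.sum_add_distrib]
  refine Finset.sum_congr rfl fun j _ => ?_
  rw [nc_add hA hB hC hAB hBC hfin j]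
  push_cast
  ring

theorem ech_self (L : AddSubgroup (κ → ℤ)) (A : Set (κ → ℤ)) : ech L A A = 0 := by
  unfold ech
  refine Finset.sum_eq_zero fun j _ => ?_
  have h : bs A A j = ∅ := by
    ext σ
    constructor
    · rintro ⟨h1, h2, -⟩
      exact absurd h1.2 h2
    · intro h
      exact absurd h (Set.notMem_empty σ)
  unfold nc
  rw [h, Set.image_empty, Set.ncard_empty]
  simp

/-- the lower star of `v` is finite -/
theorem star_finite (Lo : Set (κ → ℤ)) (v : κ → ℤ) : {σ | LS Lo v σ}.Finite := by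
  refine (((Finset.Icc (v - 1) (v + 1)).powerset : Set (Finset (κ → ℤ))).toFinite).subset ?_
  intro σ hσ
  rw [Finset.mem_coe, Finset.mem_powerset]
  intro w hw
  exact Ech_Icc hσ.1 hσ.2.1 hw

/-- One level: `B` is `A` together with the orbit of `v`. -/
theorem nc_level {L : AddSubgroup (κ → ℤ)} (hW : Wide L) {A B : Set (κ → ℤ)} (hA : Inv L A)
    (v : κ → ℤ) (hv : v ∉ A) (hB : ∀ w, w ∈ B ↔ w ∈ A ∨ w - v ∈ L) (j : ℕ) :
    nc L B A j = {σ | LS A v σ ∧ σ.card = j}.ncard := by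
  have hinj : Set.InjOn (orb L) {σ | LS A v σ ∧ σ.card = j} := by
    intro σ hσ τ hτ h
    obtain ⟨l, hl, h2⟩ := Ech_orb_eq h
    have h3 : v + l ∈ τ := by
      rw [h2, Sym_mem_tr, add_sub_cancel_right]
      exact hσ.1.2.1
    have h4 : v + 0 ∈ τ := by
      rw [add_zero]
      exact hτ.1.2.1
    have h5 := Lev_unique hW hτ.1.1 hl L.zero_mem h3 h4
    rw [h2, h5, Sym_tr_zero]
  have himg : orb L '' bs B A j = orb L '' {σ | LS A v σ ∧ σ.card = j} := by
    apply Set.Subset.antisymm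
    · rintro _ ⟨σ, ⟨hIn, hnA, hc⟩, rfl⟩
      push Not at hnA
      obtain ⟨w, hw, hwA⟩ := hnA
      have hwL : w - v ∈ L := ((hB w).1 (hIn.2 w hw)).resolve_left hwA
      have hm : -(w - v) ∈ L := L.neg_mem hwL
      refine ⟨tr (-(w - v)) σ, ⟨⟨(Sym_simp_tr _ σ).2 hIn.1, ?_, ?_⟩, ?_⟩, Ech_orb_tr hm σ⟩
      · rw [Sym_mem_tr]
        have h1 : v - -(w - v) = w := by abel
        rw [h1]
        exact hw
      · intro x hx hxv
        rw [Sym_mem_tr] at hx
        rcases (hB _).1 (hIn.2 _ hx) with h1 | h1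
        · have h2 := (hA _ hm (x - -(w - v))).1 h1
          rw [sub_add_cancel] at h2
          exact h2
        · exfalso
          refine hxv ?_
          have h3 : v + (w - v) ∈ σ := by
            rw [add_sub_cancel]
            exact hw
          have h4 : v + (x - -(w - v) - v) ∈ σ := by
            rw [add_sub_cancel]
            exact hx
          have h5 := Lev_unique hW hIn.1 hwL h1 h3 h4
          have h6 : x = v + (x - -(w - v) - v) - (w - v) := by abel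
          rw [h6, ← h5]
          abel
      · rw [Sym_card_tr]
        exact hc
    · rintro _ ⟨σ, ⟨hLS, hc⟩, rfl⟩
      refine ⟨σ, ⟨⟨hLS.1, fun w hw => ?_⟩, fun h => hv (h v hLS.2.1), hc⟩, rfl⟩
      rw [hB]
      by_cases h : w = v
      · right
        rw [h, sub_self]
        exact L.zero_mem
      · exact Or.inl (hLS.2.2 w hw h)
  unfold nc
  rw [himg]
  exact Set.ncard_image_of_injOn hinj

end Pool.Agent.H45.AC
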