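import Pool.Agent.H45.AC.Tq
import Pool.Agent.H45.AC.Ech
import Pool.Agent.H47.ST.TransN
import Pool.Agent.H47.ST.Free
import Pool.Agent.H47.ST.Sym

/-!
# Project AC: the supertrace of a permutation of the coordinates on a band of a grid
-/

set_option autoImplicit false

namespace Pool.Agent.H45.AC

open Pool.Agent.H47.ST

variable {ι κ : Type*} [Fintype ι] [Fintype κ] [DecidableEq ι] [DecidableEq κ]

/-- The lattice and the permutation `γ` of finite order. -/
structure Per (γ : Equiv.Perm ι) (L : AddSubgroup (ι → ℤ)) : Prop where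
  fin : ∃ m > 0, γ ^ m = 1
  fix : ∀ l ∈ L, l ∘ γ = l
  wide : Wide L
  sep : ∀ v w l : ι → ℤ, Adj v w → l ∈ L → w = v ∘ ⇑γ + l → w = v

omit [DecidableEq ι] in
theorem dX_Tp {F : Type*} [Field F] {γ : Equiv.Perm ι} {X : Set (ι → ℤ)} (hX : PInv γ X)
    (c : Co ι F) : dX X (Tp γ c) = Tp γ (dX X c) :=
  Free_dT hX c

omit [Fintype ι] [DecidableEq ι] in
theorem TrS_co_le {F : Type*} [Field F] {L : AddSubgroup (ι → ℤ)} {X A : Set (ι → ℤ)} (j : ℕ) :
    co (F := F) L X A j ≤ cot F L X A := fun _ hc =>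
  ⟨hc.1, fun σ hσ => ⟨(hc.2 σ hσ).1, (hc.2 σ hσ).2.1⟩⟩

/-- the cochains form a finite dimensional stable graded module -/
theorem Gs_co {F : Type*} [Field F] {γ : Equiv.Perm ι} {L : AddSubgroup (ι → ℤ)} (h : Per γ L)
    {X A : Set (ι → ℤ)} (hX : PInv γ X) (hA : PInv γ A) (hXL : Inv L X) (hAL : Inv L A)
    (hfin : FinMod L X A) : Gs (dX (F := F) X) (Tp γ) (co (F := F) L X A) where
  d _ _ hx := dX_mem hXL hx
  g _ _ hx := Free_T_mem h.fix hX hA hx
  fin j := by
    have h1 : Finite (Quotient (Sym_st L X A)) := Sym_finite hXL hAL hfin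
    have h2 : FiniteDimensional F (cot F L X A) :=
      LinearEquiv.finiteDimensional (Sym_eq F hXL hAL).symm
    exact Submodule.finiteDimensional_of_le (TrS_co_le j)

end Pool.Agent.H45.AC
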