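import Pool.Agent.H45.AC.Zr
import Pool.Agent.H45.AC.TrS
import Pool.Agent.H47.ST.EqM

/-!
# Project AC: functions on the sequence space and their truncated complexes
-/

set_option autoImplicit false

namespace Pool.Agent.H45.AC

open Filter Topology QuadraticForm
open Pool.Agent.H47.ST
open Pool.Agent.H47.QG (hess)

/-- the cyclic shift by `N` steps -/
def shG (n K N : ℕ) [NeZero K] : Equiv.Perm (Iz n K) :=
  Equiv.prodCongr (Equiv.addRight (Fin.ofNat K N)) (Equiv.refl _)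

/-- reduction of the position modulo `N` -/
def rdG (n K N : ℕ) [NeZero N] : Iz n K → Iz n N := fun a => (Fin.ofNat N a.1, a.2)

theorem shG_eq (n p N : ℕ) [NeZero (p * N)] : shG n (p * N) N = shp n p N := rfl

theorem rdG_eq (n p N : ℕ) [NeZero N] : rdG n (p * N) N = shs n p N := rfl

/-- Functions close to `Q`, with finitely many critical points modulo the lattice, none of whose
windows contains the thresholds (in numbers of vertices). -/
structure Adm (n K : ℕ) [NeZero K] (T : Equiv.Perm (Iz n K)) (C : ℝ) (G₁ G₂ : ℕ)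
    (f : (Iz n K → ℝ) → ℝ) (W : Finset (Iz n K → ℝ)) : Prop where
  smooth : ContDiff ℝ 2 f
  per : PerL (Lc n K) f
  inv : ∀ y, f (y ∘ T) = f y
  grad : ∀ y b, |fderiv ℝ f y (Pi.single b 1) - DK n K y b| ≤ C
  crit : ∀ y, fderiv ℝ f y = 0 ↔ ∃ z ∈ W, ∃ l ∈ Lc n K, y = z + rl l
  inj : ∀ z ∈ W, ∀ z' ∈ W, ∀ l ∈ Lc n K, z' = z + rl l → z' = z
  win : ∀ z ∈ W, ∀ G, (G = G₁ ∨ G = G₂) →
      ¬ (sigNeg (hess f z) < G ∧ G + sigPos (hess f z) ≤ Fintype.card (Iz n K) + 1)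

/-- class I: the window lies between the thresholds -/
def ClI {n K : ℕ} (G₁ G₂ : ℕ) (f : (Iz n K → ℝ) → ℝ) (z : Iz n K → ℝ) : Prop :=
  G₁ ≤ sigNeg (hess f z) ∧ sigNeg (hess f z) + 1 < G₂

/-- the values of class I and of class O are different -/
def SepI {n K : ℕ} (G₁ G₂ : ℕ) (f : (Iz n K → ℝ) → ℝ) (W : Finset (Iz n K → ℝ)) : Prop :=
  ∀ z ∈ W, ∀ z' ∈ W, ClI G₁ G₂ f z → ¬ ClI G₁ G₂ f z' → f z ≠ f z'

/-- `R` is large enough for all functions with gradient close to `s D` -/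
def Rgd (n K : ℕ) [NeZero K] (s C R : ℝ) : Prop :=
  ∀ f : (Iz n K → ℝ) → ℝ, Differentiable ℝ f →
    (∀ y b, |fderiv ℝ f y (Pi.single b 1) - s * DK n K y b| ≤ C) →
    Bd (fun t => s * qK n K t) (fun t => s * QK n K t) R R f ∧
    ∀ y, fderiv ℝ f y = 0 → s * qK n K y < R ∧ -R < s * QK n K y

theorem exists_Rgd (n K : ℕ) [NeZero K] {s : ℝ} (hs : 0 < s) (C : ℝ) :
    ∃ R₀ : ℝ, 0 < R₀ ∧ ∀ R ≥ R₀, Rgd n K s C R := by
  obtain ⟨R₀, h0, h⟩ := dom_Bd n K hs C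
  exact ⟨R₀, h0, fun R hR f hf hC => h R hR R hR f hf hC⟩

/-- all vertices of the grid in the domain -/
def Xs (n K : ℕ) [NeZero K] (R : ℝ) (m : ℕ) : Set (Iz n K → ℤ) := Xm (qK n K) R m

/-- the vertices with `Q ≤ -R` -/
def Vs (n K : ℕ) [NeZero K] (R : ℝ) (m : ℕ) : Set (Iz n K → ℤ) := Am (qK n K) (QK n K) R R m

/-- the vertices with `Q ≤ -R` or `f ≤ b` -/
def Ls (n K : ℕ) [NeZero K] (R : ℝ) (m : ℕ) (f : (Iz n K → ℝ) → ℝ) (b : ℝ) :
    Set (Iz n K → ℤ) := Lv (qK n K) (QK n K) f R R b m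

/-- the lower truncation -/
noncomputable def Lw (F : Type*) [Field F] (n K : ℕ) [NeZero K] (G₁ : ℕ) (R : ℝ) (m : ℕ) :
    ℕ → Submodule F (Co (Iz n K) F) :=
  trun (dX (Xs n K R m)) (co (lam (Lc n K) m) (Xs n K R m) (Vs n K R m)) G₁

/-- the truncated complex of the level `b` -/
noncomputable def Bc (F : Type*) [Field F] (n K : ℕ) [NeZero K] (G₁ G₂ : ℕ) (R : ℝ) (m : ℕ)
    (f : (Iz n K → ℝ) → ℝ) (b : ℝ) : ℕ → Submodule F (Co (Iz n K) F) :=
  trf (dX (Xs n K R m)) (co (lam (Lc n K) m) (Xs n K R m) (Vs n K R m)) G₁ G₂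
    (co (lam (Lc n K) m) (Xs n K R m) (Ls n K R m f b))

/-! ### The shift by `N` steps -/

theorem Adm_apply (n K N : ℕ) [NeZero K] (j : Fin K) (b : Fin n ⊕ Fin n) :
    shG n K N (j, b) = (j + Fin.ofNat K N, b) := rfl

theorem Adm_pow_apply (n K N : ℕ) [NeZero K] (i : ℕ) (j : Fin K) (b : Fin n ⊕ Fin n) :
    (shG n K N ^ i) (j, b) = (j + Fin.ofNat K (i * N), b) := by
  induction i generalizing j with
  | zero =>
    rw [pow_zero, zero_mul, Equiv.Perm.one_apply]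
    have h : Fin.ofNat K 0 = 0 := rfl
    rw [h, add_zero]
  | succ i ih =>
    rw [pow_succ, Equiv.Perm.mul_apply, Adm_apply, ih, add_assoc, ← ShK_ofNat_add,
      show N + i * N = (i + 1) * N by ring]

theorem Adm_QK (n K N : ℕ) [NeZero K] (t : Iz n K → ℝ) :
    QK n K (t ∘ shG n K N) = QK n K t := by
  unfold QK
  rw [← Equiv.sum_comp (Equiv.addRight (Fin.ofNat K N))
    (fun j : Fin K => ∑ i : Fin n, t (j, Sum.inr i) * (t (j + 1, Sum.inl i) - t (j, Sum.inl i)))]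
  refine Finset.sum_congr rfl fun j _ => Finset.sum_congr rfl fun i _ => ?_
  change t (j + Fin.ofNat K N, Sum.inr i) *
      (t (j + 1 + Fin.ofNat K N, Sum.inl i) - t (j + Fin.ofNat K N, Sum.inl i)) =
    t (j + Fin.ofNat K N, Sum.inr i) *
      (t (j + Fin.ofNat K N + 1, Sum.inl i) - t (j + Fin.ofNat K N, Sum.inl i))
  rw [add_right_comm]

theorem Adm_DK (n K N : ℕ) [NeZero K] (t : Iz n K → ℝ) (a : Iz n K) :
    DK n K (t ∘ shG n K N) a = DK n K t (shG n K N a) := by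
  obtain ⟨j, b | b⟩ := a
  · change t (j - 1 + Fin.ofNat K N, Sum.inr b) - t (j + Fin.ofNat K N, Sum.inr b) =
      t (j + Fin.ofNat K N - 1, Sum.inr b) - t (j + Fin.ofNat K N, Sum.inr b)
    rw [sub_add_eq_add_sub]
  · change t (j + 1 + Fin.ofNat K N, Sum.inl b) - t (j + Fin.ofNat K N, Sum.inl b) =
      t (j + Fin.ofNat K N + 1, Sum.inl b) - t (j + Fin.ofNat K N, Sum.inl b)
    rw [add_right_comm]

theorem Adm_qK (n K N : ℕ) [NeZero K] (t : Iz n K → ℝ) :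
    qK n K (t ∘ shG n K N) = qK n K t := by
  unfold qK
  rw [Adm_QK, Finset.sum_congr rfl fun a _ => by rw [Adm_DK],
    Equiv.sum_comp (shG n K N) (fun a => DK n K t a ^ 2)]

theorem Adm_ps (n K N : ℕ) [NeZero K] (m : ℕ) (v : Iz n K → ℤ) :
    ps m (v ∘ shG n K N) = ps m v ∘ shG n K N := rfl

/-! ### The domain -/

theorem Adm_Dm (n K : ℕ) [NeZero K] (R a : ℝ) : Dm (Lc n K) (qK n K) (QK n K) R a := by
  have h := dom_Dm n K one_pos R a
  simp only [one_mul] at h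
  exact h

section basics

variable {F : Type*} [Field F] {n K : ℕ} [NeZero K] {G₁ G₂ : ℕ} {R : ℝ} {m : ℕ}

theorem Adm_Ls_sub {f f' : (Iz n K → ℝ) → ℝ} {b b' η : ℝ} (h : ∀ y, |f' y - f y| ≤ η)
    (hb : b + η ≤ b') : Ls n K R m f b ⊆ Ls n K R m f' b' := by
  rintro v ⟨h1, h2⟩
  refine ⟨h1, h2.imp_right fun h3 => ?_⟩
  have h4 := abs_le.1 (h (ps m v))
  linarith [h4.2]

theorem Bc_mono {f f' : (Iz n K → ℝ) → ℝ} {b b' η : ℝ} (h : ∀ y, |f' y - f y| ≤ η)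
    (hb : b + η ≤ b') (j : ℕ) : Bc F n K G₁ G₂ R m f' b' j ≤ Bc F n K G₁ G₂ R m f b j :=
  Trunc_trf_mono (fun j => co_anti (Adm_Ls_sub h hb) j) G₁ G₂ j

theorem Bc_anti {f : (Iz n K → ℝ) → ℝ} {b b' : ℝ} (hb : b ≤ b') (j : ℕ) :
    Bc F n K G₁ G₂ R m f b' j ≤ Bc F n K G₁ G₂ R m f b j :=
  Trunc_trf_mono (fun j => co_anti (Lv_mono _ _ f R R hb m) j) G₁ G₂ j

theorem Lw_le {f : (Iz n K → ℝ) → ℝ} {b : ℝ} (j : ℕ) :
    Lw F n K G₁ R m j ≤ Bc F n K G₁ G₂ R m f b j := le_sup_left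

/-- at a high level only the lower truncation is left -/
theorem Bc_top {f : (Iz n K → ℝ) → ℝ} (hf : Continuous f) (hfp : PerL (Lc n K) f) :
    ∃ t₀ : ℝ, ∀ t ≥ t₀, ∀ m, Bc F n K G₁ G₂ R m f t = Lw F n K G₁ R m := by
  obtain ⟨β₀, h⟩ := Lv_high (Adm_Dm n K R R) hf hfp
  refine ⟨β₀, fun t ht m => ?_⟩
  have h1 : Ls n K R m f t = Xs n K R m := (h t ht).2 m
  funext j
  simp only [Bc, Lw, trf]
  rw [h1, co_self, inf_bot_eq, sup_bot_eq]

/-- stability of the vertex sets -/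
theorem Xs_inv (hm : 0 < m) : Inv (lam (Lc n K) m) (Xs n K R m) :=
  Xm_inv (Adm_Dm n K R R).qp R hm

theorem Vs_inv (hm : 0 < m) : Inv (lam (Lc n K) m) (Vs n K R m) :=
  Am_inv (Adm_Dm n K R R).qp (Adm_Dm n K R R).Qp R R hm

theorem Ls_inv {f : (Iz n K → ℝ) → ℝ} (hfp : PerL (Lc n K) f) (b : ℝ) (hm : 0 < m) :
    Inv (lam (Lc n K) m) (Ls n K R m f b) :=
  Lv_inv (Adm_Dm n K R R).qp (Adm_Dm n K R R).Qp hfp R R b hm

theorem XV_fin (hm : 0 < m) : FinMod (lam (Lc n K) m) (Xs n K R m) (Vs n K R m) :=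
  (Adm_Dm n K R R).finMod hm

/-- the shifts of the sequences: `N` divides `K` -/
theorem Per_shG {N q : ℕ} [NeZero N] (hK : K = q * N) (hm : 2 ≤ m) :
    Per (shG n K N) (lam (Lc n K) m) := by
  subst hK
  have hK : 0 < q * N := Nat.pos_of_ne_zero (NeZero.ne _)
  refine ⟨⟨q, Nat.pos_of_ne_zero fun h => hK.ne' (by rw [h, zero_mul]), ?_⟩, ?_, ?_, ?_⟩
  · rw [shG_eq]
    exact shp_pow n q N
  · intro l hl
    obtain ⟨c, hc⟩ := ShK_lam.1 hl
    funext a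
    obtain ⟨j, b⟩ := a
    change l (shG n (q * N) N (j, b)) = l (j, b)
    rw [Adm_apply, hc, hc]
  · intro l hl h
    obtain ⟨c, hc⟩ := ShK_lam.1 hl
    funext a
    obtain ⟨j, b⟩ := a
    have h1 := h (j, b)
    rw [hc] at h1
    have h2 : c b = 0 := by
      apply ShK_zero (K := 1) one_pos hm
      simpa using h1
    rw [hc, h2, mul_zero]
    rfl
  · intro v w l hvw hl hw
    obtain ⟨c, hc⟩ := ShK_lam.1 hl
    have hsum : ∀ b, ∑ j, w (j, b) = ∑ j, v (j, b) + (q * N : ℕ) * (m * c b) := by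
      intro b
      have h1 : ∀ j, w (j, b) = v (j + Fin.ofNat (q * N) N, b) + m * c b := by
        intro j
        rw [hw, Pi.add_apply, hc]
        rfl
      rw [Finset.sum_congr rfl fun j _ => h1 j, Finset.sum_add_distrib, Finset.sum_const,
        Finset.card_univ, Fintype.card_fin, nsmul_eq_mul]
      congr 1
      exact Equiv.sum_comp (Equiv.addRight (Fin.ofNat (q * N) N)) (fun j => v (j, b))
    funext a
    obtain ⟨j, b⟩ := a
    rcases hvw with ⟨h1, h2⟩ | ⟨h1, h2⟩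
    · exact ShK_sep hK hm (v := fun j => v (j, b)) (w := fun j => w (j, b))
        (fun j => h1 (j, b)) (fun j => h2 (j, b)) (hsum b) j
    · refine (ShK_sep hK hm (v := fun j => w (j, b)) (w := fun j => v (j, b))
        (fun j => h1 (j, b)) (fun j => h2 (j, b)) (c := - c b) ?_ j).symm
      rw [hsum b]
      ring

theorem Fold_shG {N q : ℕ} [NeZero N] (hK : K = q * N) :
    Fold (shG n K N) (rdG n K N) (lam (Lc n K) m) (lam (Lc n N) m) := by
  subst hK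
  rw [shG_eq, rdG_eq]
  exact Fold_K

theorem Xs_pinv {N : ℕ} : PInv (shG n K N) (Xs n K R m) := by
  intro v
  simp only [Xs, Xm, Set.mem_ofPred_eq]
  rw [Adm_ps, Adm_qK]

theorem Vs_pinv {N : ℕ} : PInv (shG n K N) (Vs n K R m) := by
  intro v
  simp only [Vs, Am, Set.mem_ofPred_eq]
  rw [Adm_ps, Adm_qK, Adm_QK]

theorem Ls_pinv {N : ℕ} {f : (Iz n K → ℝ) → ℝ} (hf : ∀ y, f (y ∘ shG n K N) = f y) (b : ℝ) :
    PInv (shG n K N) (Ls n K R m f b) := by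
  intro v
  simp only [Ls, Lv, Set.mem_ofPred_eq]
  rw [Adm_ps, Adm_qK, Adm_QK, hf]

/-- the shift by `k N` steps is the `k`-th power of the shift by `N` steps -/
theorem shG_pow (n K N k : ℕ) [NeZero K] : shG n K (k * N) = shG n K N ^ k := by
  ext1 a
  obtain ⟨j, b⟩ := a
  rw [Adm_pow_apply, Adm_apply]

end basics

end Pool.Agent.H45.AC
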