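import Pool.Agent.H45.AC.LevK1

/-!
# Project AC: many action values for one prime, choice of the prime and of the thresholds
-/

set_option autoImplicit false

open Module QuadraticForm Filter Topology
open Pool.Agent.H47.QG (Pt action flw oseq Gen ind hess Zn MeanIdx LocIdx almost_additive ind_add
  card_blocked exists_nats)
open Pool.Agent.H47.ST

namespace Pool.Agent.H45.AC

variable {n : ℕ}

/-- `L` is the limit of the normalised indices -/
def LevKL (S : ℕ → Pt n → ℝ) (f : ℕ → Pt n → Pt n) (P : ℕ) (w : Pt n) (L : ℝ) : Prop :=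
  (∀ p : ℕ, 0 < p → |(ind S f (p * P) w : ℝ) - p * L| ≤ 2 * n) ∧
    Tendsto (fun p : ℕ => (ind S f (p * P) w : ℝ) / p) atTop (𝓝 L)

theorem LevK_lim {S : ℕ → Pt n → ℝ} {f : ℕ → Pt n → Pt n} (hS : ∀ j, Gen (S j) (f j)) {P : ℕ}
    (hP : 0 < P) (hper : ∀ j, S (j + P) = S j) (hfper : ∀ j, f (j + P) = f j) (w : Pt n)
    (hw : flw f P w = w) : ∃ L, LevKL S f P w L :=
  almost_additive (fun p => (ind S f (p * P) w : ℝ)) (2 * n)
    (fun p q hp hq => ind_add S f hS P hP hper hfper w hw p q hp hq)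

theorem LevK_mean {S : ℕ → Pt n → ℝ} {f : ℕ → Pt n → Pt n} {P : ℕ} {w : Pt n} {L : ℝ}
    (h : LevKL S f P w L) (t : ℝ) : MeanIdx S f P w t ↔ L = t + n * P := by
  unfold MeanIdx
  constructor
  · intro h1
    exact tendsto_nhds_unique h.2 h1
  · intro h1
    rw [← h1]
    exact h.2

theorem LevK_lim_add {S : ℕ → Pt n → ℝ} {f : ℕ → Pt n → Pt n} (hS : ∀ j, Gen (S j) (f j))
    {P : ℕ} {w w' : Pt n} (h : w' - w ∈ Zn n) {L : ℝ} (hL : LevKL S f P w L) :
    LevKL S f P w' L := by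
  have h1 : ∀ p : ℕ, ind S f (p * P) w' = ind S f (p * P) w := fun p => LevK_ind_add hS _ h
  unfold LevKL at *
  simp only [h1]
  exact hL

theorem LevK_lim_unique {S : ℕ → Pt n → ℝ} {f : ℕ → Pt n → Pt n} {P : ℕ} {w : Pt n} {L L' : ℝ}
    (h : LevKL S f P w L) (h' : LevKL S f P w L') : L = L' :=
  tendsto_nhds_unique h.2 h'.2

/-- the mean index of an iterate -/
theorem LevK_lim_mul {S : ℕ → Pt n → ℝ} {f : ℕ → Pt n → Pt n} {P k : ℕ} (hk : 0 < k) {w : Pt n}
    {L L' : ℝ} (h : LevKL S f P w L) (h' : LevKL S f (k * P) w L') : L' = k * L := by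
  have hk0 : (k : ℝ) ≠ 0 := by exact_mod_cast hk.ne'
  have h1 : Tendsto (fun p : ℕ => (ind S f (p * k * P) w : ℝ) / ((p * k : ℕ) : ℝ)) atTop (𝓝 L) := by
    have h2 : Tendsto (fun p : ℕ => p * k) atTop atTop :=
      tendsto_id.atTop_mul_const' hk
    exact h.2.comp h2
  have h3 : Tendsto (fun p : ℕ => (k : ℝ) * ((ind S f (p * k * P) w : ℝ) / ((p * k : ℕ) : ℝ)))
      atTop (𝓝 (k * L)) := h1.const_mul _
  refine tendsto_nhds_unique (h'.2.congr fun p => ?_) h3
  rw [Nat.mul_assoc]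
  push_cast
  rw [mul_div_assoc']
  rw [mul_comm (p : ℝ) (k : ℝ)]
  by_cases hp : (p : ℝ) = 0
  · rw [hp]; simp
  · rw [mul_div_mul_left _ _ hk0]

theorem LevK_mean_mul {S : ℕ → Pt n → ℝ} {f : ℕ → Pt n → Pt n} (hS : ∀ j, Gen (S j) (f j))
    {N k : ℕ} (hN : 0 < N) (hk : 0 < k) (hper : ∀ j, S (j + N) = S j)
    (hfper : ∀ j, f (j + N) = f j) (w : Pt n) (hw : flw f N w = w) (s : ℝ) :
    MeanIdx S f (k * N) w (k * s) ↔ MeanIdx S f N w s := by
  obtain ⟨L, hL⟩ := LevK_lim hS hN hper hfper w hw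
  obtain ⟨L', hL'⟩ := LevK_lim hS (Nat.mul_pos hk hN) (LevK_per hper k) (LevK_per hfper k) w
    (LevK_mul_fix hfper k w hw)
  have h1 := LevK_lim_mul hk hL hL'
  rw [LevK_mean hL', LevK_mean hL, h1]
  have hk0 : (k : ℝ) ≠ 0 := by exact_mod_cast hk.ne'
  have h2 : (k : ℝ) * s + n * ((k * N : ℕ) : ℝ) = k * (s + n * N) := by
    push_cast; ring
  rw [h2]
  exact mul_right_inj' hk0

/-- the index of the shortened system -/
noncomputable def LevKi (S : ℕ → Pt n → ℝ) (f : ℕ → Pt n → Pt n) (N k r k' : ℕ) (w : Pt n) : ℕ :=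
  ind S f (r * (k' * N)) w + n * (r * ((k - k') * N))

/-- **Choice of the prime and of the thresholds.** -/
theorem LevK_thr {S : ℕ → Pt n → ℝ} {f : ℕ → Pt n → Pt n} (hS : ∀ j, Gen (S j) (f j))
    {N : ℕ} (hN : 0 < N) (hper : ∀ j, S (j + N) = S j) (hfper : ∀ j, f (j + N) = f j)
    (s : ℝ) (k : ℕ) (hk : 0 < k) (hL0 : 0 ≤ k * s + n * ((k * N : ℕ) : ℝ))
    (hfin : ∀ m : ℕ, 0 < m → ∃ W : Finset (Pt n),
      (∀ w, flw f (m * N) w = w ↔ ∃ w' ∈ W, w - w' ∈ Zn n) ∧
      ∀ w ∈ W, ∀ w' ∈ W, w - w' ∈ Zn n → w = w')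
    (hgood : ∀ ε > 0, ∀ r₀ : ℕ, ∃ r : ℕ, r.Prime ∧ r₀ ≤ r ∧ ∀ k', 0 < k' → k' ≤ k →
      ({v : ℕ | ∃ w, flw f (r * (k' * N)) w = w ∧ flw f (k' * N) w ≠ w ∧
        ind S f (r * (k' * N)) w = v}.ncard : ℝ) ≤ ε * r) (r₁ : ℕ) :
    ∃ r : ℕ, r.Prime ∧ r₁ ≤ r ∧ ∃ G₁ G₂ : ℕ, G₁ < G₂ ∧ ∀ k', 0 < k' → k' ≤ k →
      (∀ w, flw f (r * (k' * N)) w = w → ∀ G, (G = G₁ ∨ G = G₂) →
        ¬ (LevKi S f N k r k' w < G ∧ G ≤ LevKi S f N k r k' w + 2 * n + 1)) ∧
      (∀ w, flw f (k' * N) w = w →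
        ((G₁ ≤ LevKi S f N k r k' w ∧ LevKi S f N k r k' w + 1 < G₂) ↔
          MeanIdx S f (k' * N) w (k * s))) := by
  classical
  set L₀ : ℝ := k * s + n * ((k * N : ℕ) : ℝ) with hL₀
  have hnr : (0 : ℝ) ≤ n := Nat.cast_nonneg n
  have hkr : (0 : ℝ) < k := by exact_mod_cast hk
  -- limits
  have hlim' : ∀ (m : ℕ) (w : Pt n), ∃ L : ℝ, 0 < m → flw f (m * N) w = w →
      LevKL S f (m * N) w L := by
    intro m w
    by_cases hw : 0 < m ∧ flw f (m * N) w = w
    · obtain ⟨L, hL⟩ := LevK_lim hS (Nat.mul_pos hw.1 hN) (LevK_per hper m) (LevK_per hfper m) w hw.2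
      exact ⟨L, fun _ _ => hL⟩
    · exact ⟨0, fun h1 h2 => absurd ⟨h1, h2⟩ hw⟩
  choose Lf hLf using hlim'
  -- representatives
  have hWr : ∀ m : ℕ, ∃ W : Finset (Pt n), 0 < m →
      (∀ w, flw f (m * N) w = w ↔ ∃ w' ∈ W, w - w' ∈ Zn n) := by
    intro m
    by_cases hm : 0 < m
    · obtain ⟨W, hW, _⟩ := hfin m hm
      exact ⟨W, fun _ => hW⟩
    · exact ⟨∅, fun h => absurd h hm⟩
  choose Wr hWr using hWr
  -- choice of epsilon
  have hev : ∀ x : ℝ, ∀ᶠ e in nhdsWithin (0 : ℝ) (Set.Ioi 0), x = L₀ ∨ 8 * e ≤ |x - L₀| := by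
    intro x
    by_cases h : x = L₀
    · exact Eventually.of_forall fun _ => Or.inl h
    · have h1 : 0 < |x - L₀| / 8 := by
        have := abs_pos.2 (sub_ne_zero.2 h)
        linarith
      filter_upwards [Ioo_mem_nhdsGT h1] with e he
      right
      have := he.2
      linarith
  have hev2 : ∀ᶠ e in nhdsWithin (0 : ℝ) (Set.Ioi 0),
      (∀ m ∈ Finset.Icc 1 k, ∀ w ∈ Wr m, Lf m w + n * (((k - m) * N : ℕ) : ℝ) = L₀ ∨
        8 * e ≤ |Lf m w + n * (((k - m) * N : ℕ) : ℝ) - L₀|) ∧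
      ((0 : ℝ) = L₀ ∨ 8 * e ≤ |(0 : ℝ) - L₀|) ∧ 0 < e := by
    refine Eventually.and ?_ (Eventually.and (hev _) ?_)
    · rw [Filter.eventually_all_finset]
      intro m _
      rw [Filter.eventually_all_finset]
      intro w _
      exact hev _
    · exact self_mem_nhdsWithin
  obtain ⟨e, he1, he3, he0⟩ := hev2.exists
  have he3' : L₀ = 0 ∨ 8 * e ≤ L₀ := by
    rcases he3 with h | h
    · exact Or.inl h.symm
    · rw [zero_sub, abs_neg, abs_of_nonneg hL0] at h
      exact Or.inr h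
  -- the prime
  obtain ⟨P₁, hP₁⟩ := exists_nat_gt ((20 * n + 20 : ℝ) / e)
  have hm0 : (0 : ℝ) < 2 * n + 1 := by positivity
  have hε : 0 < e / (8 * (2 * n + 1) * k) := by positivity
  obtain ⟨r, hr, hr1, hrg⟩ := hgood _ hε (max r₁ (P₁ + 2))
  have hrP : P₁ < r := by
    have := (le_max_right r₁ (P₁ + 2)).trans hr1
    omega
  have hr0 : 0 < r := hr.pos
  have hrr : (0 : ℝ) < r := by exact_mod_cast hr0
  have hE : (20 * n + 20 : ℝ) < r * e := by
    have h1 : ((P₁ : ℕ) : ℝ) < r := by exact_mod_cast hrP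
    rw [div_lt_iff₀ he0] at hP₁
    nlinarith
  refine ⟨r, hr, (le_max_left _ _).trans hr1, ?_⟩
  set E : ℝ := r * e with hEd
  set D : ℝ := r * L₀ with hDd
  have hD0 : 0 ≤ D := mul_nonneg hrr.le hL0
  -- the blocked values
  have hWf : ∀ m : ℕ, 0 < m → {v : ℕ | ∃ w, flw f (r * (m * N)) w = w ∧ flw f (m * N) w ≠ w ∧
        ind S f (r * (m * N)) w = v}.Finite := by
    intro m hm
    refine ((Wr (r * m)).image (ind S f (r * (m * N)))).finite_toSet.subset ?_
    rintro v ⟨w, h1, _, h3⟩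
    rw [← Nat.mul_assoc] at h1
    obtain ⟨w', hw', hww⟩ := (hWr (r * m) (Nat.mul_pos hr0 hm) w).1 h1
    refine Finset.mem_coe.2 (Finset.mem_image.2 ⟨w', hw', ?_⟩)
    rw [← h3]
    exact (LevK_ind_add hS _ hww).symm
  let A : Finset ℕ := (Finset.Icc 1 k).attach.biUnion fun m =>
    ((hWf m.1 (Finset.mem_Icc.1 m.2).1).toFinset).image
      fun v => v + n * (r * ((k - m.1) * N))
  have hA : (A.card : ℝ) ≤ k * (e / (8 * (2 * n + 1) * k) * r) := by
    have h1 : A.card ≤ ∑ m ∈ (Finset.Icc 1 k).attach,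
        (((hWf m.1 (Finset.mem_Icc.1 m.2).1).toFinset).image
          fun v => v + n * (r * ((k - m.1) * N))).card := Finset.card_biUnion_le
    have h2 : (A.card : ℝ) ≤ ∑ m ∈ (Finset.Icc 1 k).attach,
        ((((hWf m.1 (Finset.mem_Icc.1 m.2).1).toFinset).image
          fun v => v + n * (r * ((k - m.1) * N))).card : ℝ) := by exact_mod_cast h1
    refine h2.trans ?_
    have h3 : ∀ m ∈ (Finset.Icc 1 k).attach,
        ((((hWf m.1 (Finset.mem_Icc.1 m.2).1).toFinset).image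
          fun v => v + n * (r * ((k - m.1) * N))).card : ℝ) ≤
            e / (8 * (2 * n + 1) * k) * r := by
      intro m _
      have h4 := Finset.card_image_le (s := (hWf m.1 (Finset.mem_Icc.1 m.2).1).toFinset)
        (f := fun v => v + n * (r * ((k - m.1) * N)))
      have h5 := hrg m.1 (Finset.mem_Icc.1 m.2).1 (Finset.mem_Icc.1 m.2).2
      rw [Set.ncard_eq_toFinset_card _ (hWf m.1 (Finset.mem_Icc.1 m.2).1)] at h5
      refine le_trans ?_ h5
      exact_mod_cast h4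
    refine (Finset.sum_le_sum h3).trans ?_
    rw [Finset.sum_const, Finset.card_attach, Nat.card_Icc, nsmul_eq_mul]
    simp
  have hA' : (2 * n + 1) * (A.card : ℝ) ≤ E / 8 := by
    have h1 : (2 * n + 1) * (k * (e / (8 * (2 * n + 1) * k) * r)) = E / 8 := by
      rw [hEd]
      field_simp
    rw [← h1]
    exact mul_le_mul_of_nonneg_left hA hm0.le
  have hAmem : ∀ m, 0 < m → m ≤ k → ∀ w, flw f (r * (m * N)) w = w → flw f (m * N) w ≠ w →
      LevKi S f N k r m w ∈ A := by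
    intro m hm hmk w h1 h2
    refine Finset.mem_biUnion.2 ⟨⟨m, Finset.mem_Icc.2 ⟨hm, hmk⟩⟩, Finset.mem_attach _ _, ?_⟩
    refine Finset.mem_image.2 ⟨ind S f (r * (m * N)) w, ?_, rfl⟩
    rw [Set.Finite.mem_toFinset]
    exact ⟨w, h1, h2, rfl⟩
  -- free levels
  have hfree : ∀ J : Finset ℕ, E - 1 ≤ J.card → ∃ g ∈ J, ∀ v ∈ A, v ≤ g → v + 2 * n < g := by
    intro J hJ
    by_contra hcon
    push Not at hcon
    have h1 := card_blocked J A (2 * n) (fun a ha => by
      obtain ⟨v, hv, h2, h3⟩ := hcon a ha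
      exact ⟨v, hv, h2, h3⟩)
    have h2 : (J.card : ℝ) ≤ (2 * n + 1) * A.card := by exact_mod_cast h1
    nlinarith
  obtain ⟨J₂, hJ₂, hJ₂'⟩ := exists_nats (D + E) (D + 2 * E) (by nlinarith)
  obtain ⟨g₂, hg₂, hg₂'⟩ := hfree J₂ (by linarith)
  obtain ⟨hg₂a, hg₂b⟩ := hJ₂' g₂ hg₂
  -- positions of the fixed windows
  have hfixpos : ∀ m, 0 < m → m ≤ k → ∀ w, flw f (m * N) w = w →
      (MeanIdx S f (m * N) w (k * s) ∧ |(LevKi S f N k r m w : ℝ) - D| ≤ 2 * n) ∨
      (¬ MeanIdx S f (m * N) w (k * s) ∧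
        8 * E - 2 * n ≤ |(LevKi S f N k r m w : ℝ) - D|) := by
    intro m hm hmk w hw
    obtain ⟨w', hw', hww⟩ := (hWr m hm w).1 hw
    have hw'f : flw f (m * N) w' = w' :=
      (hWr m hm w').2 ⟨w', hw', by rw [sub_self]; exact (Zn n).zero_mem⟩
    have hL := hLf m w hm hw
    have hLL : Lf m w' = Lf m w := by
      have h1 := LevK_lim_add hS hww (hLf m w' hm hw'f)
      exact LevK_lim_unique h1 hL
    have h1 := hL.1 r hr0
    have hcast : (LevKi S f N k r m w : ℝ) = ind S f (r * (m * N)) w +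
        r * (n * (((k - m) * N : ℕ) : ℝ)) := by
      unfold LevKi
      push_cast
      ring
    have h2 : |(LevKi S f N k r m w : ℝ) - r * (Lf m w + n * (((k - m) * N : ℕ) : ℝ))| ≤ 2 * n := by
      rw [hcast]
      have h3 : (ind S f (r * (m * N)) w : ℝ) + r * (n * (((k - m) * N : ℕ) : ℝ)) -
          r * (Lf m w + n * (((k - m) * N : ℕ) : ℝ)) = ind S f (r * (m * N)) w - r * Lf m w := by
        ring
      rw [h3]
      exact h1
    have hmean : MeanIdx S f (m * N) w (k * s) ↔ Lf m w + n * (((k - m) * N : ℕ) : ℝ) = L₀ := by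
      rw [LevK_mean hL, hL₀]
      have h4 : (((k - m) * N : ℕ) : ℝ) = ((k * N : ℕ) : ℝ) - ((m * N : ℕ) : ℝ) := by
        rw [Nat.sub_mul, Nat.cast_sub (Nat.mul_le_mul_right N hmk)]
      rw [h4]
      constructor
      · intro h; rw [h]; ring
      · intro h; linarith
    by_cases h : Lf m w + n * (((k - m) * N : ℕ) : ℝ) = L₀
    · left
      refine ⟨hmean.2 h, ?_⟩
      rw [h] at h2
      exact h2
    · right
      refine ⟨fun h5 => h (hmean.1 h5), ?_⟩
      have h3 : 8 * e ≤ |Lf m w + n * (((k - m) * N : ℕ) : ℝ) - L₀| := by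
        have h6 := he1 m (Finset.mem_Icc.2 ⟨hm, hmk⟩) w' hw'
        rw [hLL] at h6
        exact h6.resolve_left h
      have h4 : |(r : ℝ) * (Lf m w + n * (((k - m) * N : ℕ) : ℝ)) - D| =
          r * |Lf m w + n * (((k - m) * N : ℕ) : ℝ) - L₀| := by
        rw [hDd, ← mul_sub, abs_mul, abs_of_pos hrr]
      have h5 : r * (8 * e) ≤ r * |Lf m w + n * (((k - m) * N : ℕ) : ℝ) - L₀| :=
        mul_le_mul_of_nonneg_left h3 hrr.le
      rw [← h4] at h5
      have h6 := abs_sub_le ((r : ℝ) * (Lf m w + n * (((k - m) * N : ℕ) : ℝ)))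
        (LevKi S f N k r m w) D
      rw [abs_sub_comm ((r : ℝ) * (Lf m w + n * (((k - m) * N : ℕ) : ℝ)))
        (LevKi S f N k r m w : ℝ)] at h6
      have h7 : r * (8 * e) = 8 * E := by rw [hEd]; ring
      linarith
  -- windows of levels at a distance between E and 2 E
  have hfar : ∀ g : ℕ, (∀ v ∈ A, v ≤ g → v + 2 * n < g) → E ≤ |(g : ℝ) - D| →
      |(g : ℝ) - D| ≤ 2 * E → ∀ m, 0 < m → m ≤ k → ∀ w, flw f (r * (m * N)) w = w →
      ¬ (LevKi S f N k r m w < g + 1 ∧ g + 1 ≤ LevKi S f N k r m w + 2 * n + 1) := by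
    intro g hg hg1 hg2 m hm hmk w hw
    rintro ⟨h1, h2⟩
    by_cases hfw : flw f (m * N) w = w
    · have h1' : (LevKi S f N k r m w : ℝ) ≤ g := by exact_mod_cast (by omega :
        LevKi S f N k r m w ≤ g)
      have h2' : (g : ℝ) ≤ LevKi S f N k r m w + 2 * n := by exact_mod_cast (by omega :
        g ≤ LevKi S f N k r m w + 2 * n)
      have h5 : |(g : ℝ) - LevKi S f N k r m w| ≤ 2 * n := by
        rw [abs_le]; constructor <;> linarith
      rcases hfixpos m hm hmk w hfw with ⟨_, h3⟩ | ⟨_, h3⟩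
      · have h4 : |(g : ℝ) - D| ≤ |(g : ℝ) - LevKi S f N k r m w| +
          |(LevKi S f N k r m w : ℝ) - D| := abs_sub_le _ _ _
        linarith
      · have h4 : |(LevKi S f N k r m w : ℝ) - D| ≤ |(g : ℝ) - LevKi S f N k r m w| +
              |(g : ℝ) - D| := by
          have := abs_sub_le (LevKi S f N k r m w : ℝ) g D
          rw [abs_sub_comm (LevKi S f N k r m w : ℝ) (g : ℝ)] at this
          exact this
        linarith
    · have h3 := hg _ (hAmem m hm hmk w hw hfw) (by omega)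
      omega
  have hcl2 : ∀ m, 0 < m → m ≤ k → ∀ w, flw f (m * N) w = w →
      (MeanIdx S f (m * N) w (k * s) → LevKi S f N k r m w + 1 < g₂ + 1) ∧
      (¬ MeanIdx S f (m * N) w (k * s) → D ≤ LevKi S f N k r m w →
        ¬ (LevKi S f N k r m w + 1 < g₂ + 1)) := by
    intro m hm hmk w hw
    rcases hfixpos m hm hmk w hw with ⟨h0, h3⟩ | ⟨h0, h3⟩
    · refine ⟨fun _ => ?_, fun h => absurd h0 h⟩
      rw [abs_le] at h3
      have : (LevKi S f N k r m w : ℝ) < g₂ := by linarith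
      have : LevKi S f N k r m w < g₂ := by exact_mod_cast this
      omega
    · refine ⟨fun h => absurd h h0, fun _ h4 => ?_⟩
      rw [abs_of_nonneg (by linarith)] at h3
      have : (g₂ : ℝ) < LevKi S f N k r m w := by linarith
      have : g₂ < LevKi S f N k r m w := by exact_mod_cast this
      omega
  rcases he3' with hz | hz
  · -- no lower threshold
    refine ⟨0, g₂ + 1, Nat.succ_pos _, fun m hm hmk => ⟨fun w hw G hG => ?_, fun w hw => ?_⟩⟩
    · rcases hG with rfl | rfl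
      · omega
      · refine hfar g₂ hg₂' ?_ ?_ m hm hmk w hw
        · rw [abs_of_nonneg (by linarith)]; linarith
        · rw [abs_of_nonneg (by linarith)]; linarith
    · have hD : D = 0 := by rw [hDd, hz, mul_zero]
      have h1 := hcl2 m hm hmk w hw
      constructor
      · rintro ⟨_, h2⟩
        by_contra h3
        exact h1.2 h3 (by rw [hD]; exact Nat.cast_nonneg _) h2
      · intro h2
        exact ⟨Nat.zero_le _, h1.1 h2⟩
  · have h8 : 8 * E ≤ D := by
      rw [hEd, hDd]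
      nlinarith
    obtain ⟨J₁, hJ₁, hJ₁'⟩ := exists_nats (D - 2 * E) (D - E) (by linarith)
    obtain ⟨g₁, hg₁, hg₁'⟩ := hfree J₁ (by linarith)
    obtain ⟨hg₁a, hg₁b⟩ := hJ₁' g₁ hg₁
    have h12 : g₁ < g₂ := by
      have : (g₁ : ℝ) < g₂ := by linarith
      exact_mod_cast this
    refine ⟨g₁ + 1, g₂ + 1, by omega, fun m hm hmk => ⟨fun w hw G hG => ?_, fun w hw => ?_⟩⟩
    · rcases hG with rfl | rfl
      · refine hfar g₁ hg₁' ?_ ?_ m hm hmk w hw
        · rw [abs_of_nonpos (by linarith)]; linarith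
        · rw [abs_of_nonpos (by linarith)]; linarith
      · refine hfar g₂ hg₂' ?_ ?_ m hm hmk w hw
        · rw [abs_of_nonneg (by linarith)]; linarith
        · rw [abs_of_nonneg (by linarith)]; linarith
    · have h1 := hcl2 m hm hmk w hw
      constructor
      · rintro ⟨h3, h2⟩
        by_contra h4
        rcases le_or_gt D (LevKi S f N k r m w) with h5 | h5
        · exact h1.2 h4 h5 h2
        · rcases hfixpos m hm hmk w hw with ⟨h0, _⟩ | ⟨_, h6⟩
          · exact h4 h0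
          · rw [abs_of_neg (by linarith)] at h6
            have h3' : (g₁ : ℝ) + 1 ≤ LevKi S f N k r m w := by exact_mod_cast h3
            linarith
      · intro h2
        refine ⟨?_, h1.1 h2⟩
        rcases hfixpos m hm hmk w hw with ⟨_, h6⟩ | ⟨h0, _⟩
        · rw [abs_le] at h6
          have : (g₁ : ℝ) < LevKi S f N k r m w := by linarith
          have : g₁ < LevKi S f N k r m w := by exact_mod_cast this
          omega
        · exact absurd h2 h0

end Pool.Agent.H45.AC
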