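import Pool.Agent.H45.AC.TopC

/-!
# Project AC: the topological theorem
-/

set_option autoImplicit false

namespace Pool.Agent.H45.AC

open Filter Topology QuadraticForm
open Pool.Agent.H47.ST
open Pool.Agent.H47.QG (hess LocIdx)

/-- The local index does not change when a constant is added near the point. -/
theorem Top_LocIdx {ι : Type*} [Fintype ι] {A A' : (ι → ℝ) → ℝ} (hA : ContDiff ℝ 2 A)
    {z : ι → ℝ} {s : ℤ} {c : ℝ} (h : ∀ᶠ x in 𝓝 z, A' x = A x + c) (hs : LocIdx A z s) :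
    LocIdx A' z s := by
  classical
  obtain ⟨r, hr, hiso, δ, hδ, hX⟩ := hs
  obtain ⟨r₀, hr₀, hb⟩ := Metric.eventually_nhds_iff_ball.1 h
  have hloc : ∀ x ∈ Metric.ball z r₀, ∀ᶠ y in 𝓝 x, A' y = A y + c := by
    intro x hx
    filter_upwards [Metric.isOpen_ball.mem_nhds hx] with y hy using hb y hy
  have hf : ∀ x ∈ Metric.ball z r₀, fderiv ℝ A' x = fderiv ℝ A x := fun x hx =>
    (SymC_congr (hloc x hx)).1
  have hh : ∀ x ∈ Metric.ball z r₀, hess A' x = hess A x := fun x hx =>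
    (SymC_congr (hloc x hx)).2
  have hff : ∀ x ∈ Metric.ball z r₀, fderiv ℝ (fderiv ℝ A') x = fderiv ℝ (fderiv ℝ A) x := by
    intro x hx
    refine Filter.EventuallyEq.fderiv_eq ?_
    filter_upwards [Metric.isOpen_ball.mem_nhds hx] with y hy using hf y hy
  set r' := min r (r₀ / 2) with hr'
  have hr'0 : 0 < r' := lt_min hr (half_pos hr₀)
  have hr'r : r' ≤ r := min_le_left _ _
  have hr'r₀ : r' < r₀ := lt_of_le_of_lt (min_le_right _ _) (half_lt_self hr₀)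
  have hsub : Metric.closedBall z r' ⊆ Metric.ball z r₀ := Metric.closedBall_subset_ball hr'r₀
  have hsub' : Metric.ball z r' ⊆ Metric.ball z r₀ := Metric.ball_subset_closedBall.trans hsub
  have hcd : Continuous (fderiv ℝ A) := hA.continuous_fderiv (by norm_num)
  have hK : IsCompact (Metric.closedBall z r \ Metric.ball z r') :=
    (isCompact_closedBall z r).diff Metric.isOpen_ball
  have hmin : ∃ μ > 0, ∀ y ∈ Metric.closedBall z r \ Metric.ball z r', μ ≤ ‖fderiv ℝ A y‖ := by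
    rcases (Metric.closedBall z r \ Metric.ball z r').eq_empty_or_nonempty with he | he
    · refine ⟨1, one_pos, fun y hy => ?_⟩
      rw [he] at hy
      exact absurd hy (Set.notMem_empty y)
    · obtain ⟨y₀, hy₀, hy₁⟩ := hK.exists_isMinOn he (hcd.norm.continuousOn)
      refine ⟨‖fderiv ℝ A y₀‖, ?_, fun y hy => hy₁ hy⟩
      refine norm_pos_iff.2 fun h0 => ?_
      have h1 := hiso y₀ hy₀.1 h0
      refine hy₀.2 ?_
      rw [h1]
      exact Metric.mem_ball_self hr'0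
  obtain ⟨μ, hμ, hμ'⟩ := hmin
  refine ⟨r', hr'0, ?_, min δ μ, lt_min hδ hμ, ?_⟩
  · intro y hy h0
    rw [hf y (hsub hy)] at h0
    exact hiso y (Metric.closedBall_subset_closedBall hr'r hy) h0
  · intro a ha hreg
    have hsol : ∀ y ∈ Metric.ball z r, fderiv ℝ A y = a → y ∈ Metric.ball z r' := by
      intro y hy hya
      by_contra hcon
      have h1 := hμ' y ⟨Metric.ball_subset_closedBall hy, hcon⟩
      rw [hya] at h1
      exact absurd (ha.trans_le (min_le_right _ _)) (not_lt.2 h1)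
    obtain ⟨X, hX1, hX2⟩ := hX a (ha.trans_le (min_le_left _ _)) (by
      intro y hy hya v hv
      have hy' := hsol y hy hya
      refine hreg y hy' ?_ v ?_
      · rw [hf y (hsub' hy'), hya]
      · rw [hff y (hsub' hy'), hv])
    refine ⟨X, fun y => ?_, ?_⟩
    · rw [hX1 y]
      constructor
      · rintro ⟨h1, h2⟩
        have h3 := hsol y h1 h2
        exact ⟨h3, by rw [hf y (hsub' h3), h2]⟩
      · rintro ⟨h1, h2⟩
        exact ⟨Metric.ball_subset_ball hr'r h1, by rw [← hf y (hsub' h1), h2]⟩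
    · rw [← hX2]
      refine Finset.sum_congr rfl fun y hy => ?_
      have h1 := (hX1 y).1 hy
      rw [hh y (hsub' (hsol y h1.1 h1.2))]

theorem Top_lat {n K N : ℕ} [NeZero K] {l : Iz n K → ℤ} (hl : l ∈ Lc n K) :
    l ∘ shG n K N = l := by
  obtain ⟨c, hc⟩ := hl
  funext a
  obtain ⟨j, b⟩ := a
  exact (hc _ _).trans (hc _ _).symm

theorem Top_pow {ι : Type*} {g : (ι → ℝ) → ℝ} {π : Equiv.Perm ι} (h : ∀ y, g (y ∘ π) = g y)
    (k : ℕ) : ∀ y : ι → ℝ, g (y ∘ (π ^ k : Equiv.Perm ι)) = g y := by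
  induction k with
  | zero =>
    intro y
    rfl
  | succ k ih =>
    intro y
    have h1 : y ∘ (π ^ (k + 1) : Equiv.Perm ι) = (y ∘ (π ^ k : Equiv.Perm ι)) ∘ π := by
      rw [pow_succ]
      rfl
    rw [h1, h, ih]

/-- the properties of the perturbed functions -/
def Top_P (n K : ℕ) [NeZero K] (T : Equiv.Perm (Iz n K)) (G₁ G₂ : ℕ)
    (f g : (Iz n K → ℝ) → ℝ) (ε₀ e : ℝ) : Prop :=
  ContDiff ℝ 2 g ∧ PerL (Lc n K) g ∧ (∀ y, g (y ∘ T) = g y) ∧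
      (∀ y i, |fderiv ℝ g y (Pi.single i 1) - fderiv ℝ f y (Pi.single i 1)| ≤ 1) ∧
      (∀ y, |g y - f y| ≤ ε₀) ∧
      (∀ y, fderiv ℝ g y = 0 ↔ fderiv ℝ f y = 0) ∧
      (∀ y, fderiv ℝ f y = 0 → ∃ c : ℝ, ∀ᶠ x in 𝓝 y, g x = f x + c) ∧
      (∀ y, fderiv ℝ f y = 0 → ClI G₁ G₂ f y → g y = f y + e) ∧
      (∀ y, fderiv ℝ f y = 0 → ¬ ClI G₁ G₂ f y → g y = f y) ∧
      ∀ y y', fderiv ℝ f y = 0 → fderiv ℝ f y' = 0 → ClI G₁ G₂ f y → ¬ ClI G₁ G₂ f y' → g y ≠ g y'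

theorem Top_exists {n K : ℕ} [NeZero K] {T : Equiv.Perm (Iz n K)} {C : ℝ} {G₁ G₂ : ℕ}
    {f : (Iz n K → ℝ) → ℝ} {W : Finset (Iz n K → ℝ)} (h : Adm n K T C G₁ G₂ f W)
    (π : Equiv.Perm (Iz n K)) (hLpi : ∀ l ∈ Lc n K, l ∘ π = l) (hfT : ∀ y, f (y ∘ π) = f y)
    {ε₀ : ℝ} (hε₀ : 0 < ε₀) : ∃ (g : (Iz n K → ℝ) → ℝ) (e : ℝ), Top_P n K π G₁ G₂ f g ε₀ e := by
  refine separation2 (Lc n K) π hLpi f h.smooth h.per hfT W h.crit (ClI G₁ G₂ f) ?_ ?_ ε₀ hε₀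
  · intro y _ l hl
    unfold ClI
    rw [(sig_per f h.per y hl).1]
  · intro y _
    unfold ClI
    rw [(sig_perm π f h.smooth hfT y).1]

section conseq

variable {n K : ℕ} [NeZero K] {T : Equiv.Perm (Iz n K)} {C : ℝ} {G₁ G₂ : ℕ}
  {f g : (Iz n K → ℝ) → ℝ} {W : Finset (Iz n K → ℝ)} {ε₀ e : ℝ}

theorem Top_hess (hg : Top_P n K T G₁ G₂ f g ε₀ e) {y : Iz n K → ℝ} (hy : fderiv ℝ f y = 0) :
    hess g y = hess f y := by
  obtain ⟨c, hc⟩ := hg.2.2.2.2.2.2.1 y hy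
  exact (SymC_congr hc).2

theorem Top_ClI (hg : Top_P n K T G₁ G₂ f g ε₀ e) {y : Iz n K → ℝ} (hy : fderiv ℝ f y = 0) :
    ClI G₁ G₂ g y ↔ ClI G₁ G₂ f y := by
  unfold ClI
  rw [Top_hess hg hy]

theorem Top_crit (h : Adm n K T C G₁ G₂ f W) {z : Iz n K → ℝ} (hz : z ∈ W) : fderiv ℝ f z = 0 :=
  (h.crit z).2 ⟨z, hz, 0, (Lc n K).zero_mem, by rw [Win_rl_zero, add_zero]⟩

theorem Top_Adm (h : Adm n K T C G₁ G₂ f W) (hg : Top_P n K T G₁ G₂ f g ε₀ e) :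
    Adm n K T (C + 1) G₁ G₂ g W := by
  refine ⟨hg.1, hg.2.1, hg.2.2.1, ?_, ?_, h.inj, ?_⟩
  · intro y b
    have e1 := h.grad y b
    have e2 := hg.2.2.2.1 y b
    have e3 : fderiv ℝ g y (Pi.single b 1) - DK n K y b =
        (fderiv ℝ g y (Pi.single b 1) - fderiv ℝ f y (Pi.single b 1)) +
        (fderiv ℝ f y (Pi.single b 1) - DK n K y b) := by ring
    rw [e3]
    exact (abs_add_le _ _).trans (by linarith)
  · intro y
    rw [hg.2.2.2.2.2.1 y]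
    exact h.crit y
  · intro z hz
    rw [Top_hess hg (Top_crit h hz)]
    exact h.win z hz

theorem Top_Sep (h : Adm n K T C G₁ G₂ f W) (hg : Top_P n K T G₁ G₂ f g ε₀ e) :
    SepI G₁ G₂ g W := by
  intro z hz z' hz' hP hnP
  rw [Top_ClI hg (Top_crit h hz)] at hP
  rw [Top_ClI hg (Top_crit h hz')] at hnP
  exact hg.2.2.2.2.2.2.2.2.2 z z' (Top_crit h hz) (Top_crit h hz') hP hnP

open Classical in
theorem Top_Lam (h : Adm n K T C G₁ G₂ f W) (hg : Top_P n K T G₁ G₂ f g ε₀ e)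
    (T' : Equiv.Perm (Iz n K)) :
    Lam T' G₁ G₂ g W = (Lam T' G₁ G₂ f W).image (fun t => t + e) := by
  ext t
  unfold Lam
  simp only [Finset.mem_image, Finset.mem_filter]
  constructor
  · rintro ⟨z, ⟨hz, h1, h2⟩, rfl⟩
    have h3 := (Top_ClI hg (Top_crit h hz)).1 h2
    exact ⟨f z, ⟨z, ⟨hz, h1, h3⟩, rfl⟩, (hg.2.2.2.2.2.2.2.1 z (Top_crit h hz) h3).symm⟩
  · rintro ⟨_, ⟨z, ⟨hz, h1, h2⟩, rfl⟩, rfl⟩
    exact ⟨z, ⟨hz, h1, (Top_ClI hg (Top_crit h hz)).2 h2⟩,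
      hg.2.2.2.2.2.2.2.1 z (Top_crit h hz) h2⟩

theorem Top_card (h : Adm n K T C G₁ G₂ f W) (hg : Top_P n K T G₁ G₂ f g ε₀ e)
    (T' : Equiv.Perm (Iz n K)) :
    (Lam T' G₁ G₂ g W).card = (Lam T' G₁ G₂ f W).card := by
  classical
  rw [Top_Lam h hg T']
  exact Finset.card_image_of_injective _ (add_left_injective e)

end conseq

/-- **Topological theorem.** -/
theorem top_main {n p k N : ℕ} [NeZero N] [NeZero (k * N)] [NeZero (p * (k * N))] [Fact p.Prime]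
    {C : ℝ} {G₁ G₂ : ℕ} (h12 : G₁ < G₂) (I : ℕ) (f : ℕ → (Iz n (p * (k * N)) → ℝ) → ℝ)
    (W : ℕ → Finset (Iz n (p * (k * N)) → ℝ))
    (hf : ∀ i ≤ I, Adm n (p * (k * N)) (shp n p (k * N)) C G₁ G₂ (f i) (W i))
    (hγ : ∀ y, f 0 (y ∘ shG n (p * (k * N)) N) = f 0 y)
    (η : ℕ → ℝ) (hη0 : ∀ i, 0 ≤ η i) (hη : ∀ i ≤ I, ∀ y, |f i y - f 0 y| ≤ η i)
    (um u up : ℝ) (hum : um < u) (hup : u < up)
    (Cf : Finset (Iz n N → ℝ)) (s : (Iz n N → ℝ) → ℤ)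
    (hCf : ∀ y : Iz n N → ℝ, (fderiv ℝ (f 0) (y ∘ rdG n (p * (k * N)) N) = 0 ∧
      ClI G₁ G₂ (f 0) (y ∘ rdG n (p * (k * N)) N) ∧ um < f 0 (y ∘ rdG n (p * (k * N)) N) ∧
      f 0 (y ∘ rdG n (p * (k * N)) N) < up) ↔ ∃ c ∈ Cf, ∃ l ∈ Lc n N, y = c + rl l)
    (hCu : ∀ c ∈ Cf, f 0 (c ∘ rdG n (p * (k * N)) N) = u)
    (hCd : ∀ c ∈ Cf, ∀ c' ∈ Cf, ∀ l ∈ Lc n N, c' = c + rl l → c' = c)
    (hs : ∀ c ∈ Cf, LocIdx (fun y : Iz n N → ℝ => f 0 (y ∘ rdG n (p * (k * N)) N)) c (s c))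
    (hsum : ((∑ c ∈ Cf, s c : ℤ) : ZMod p) ≠ 0) (ε : ℝ) (hε : 0 < ε) :
    ∃ u₀ u₁ : ℝ, ((u₀ = um ∧ u₁ = u) ∨ (u₀ = u ∧ u₁ = up)) ∧ ∃ (J : ℕ) (ρ : ℕ → ℝ), ρ 0 = u₀ ∧
      u₁ ≤ ρ J ∧ (∀ j < J, ρ j < ρ (j + 1)) ∧
      (∀ j < J, ρ (j + 1) ∈ Lam (shp n p (k * N)) G₁ G₂ (f 0) (W 0)) ∧
      ∀ i ≤ I, ((Finset.range J).filter fun j => 2 * η i + ε < ρ (j + 1) - ρ j).card ≤
        (Lam (shp n p (k * N)) G₁ G₂ (f i) (W i)).card := by
  classical
  have hε8 : 0 < ε / 8 := by positivity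
  -- the perturbed functions
  have key : ∀ i, ∃ (g : (Iz n (p * (k * N)) → ℝ) → ℝ) (e : ℝ), (i ≤ I →
      Top_P n (p * (k * N)) (shp n p (k * N)) G₁ G₂ (f i) g (ε / 8) e) ∧
      (i = 0 → ∀ y, g (y ∘ shG n (p * (k * N)) N) = g y) := by
    intro i
    rcases Nat.eq_zero_or_pos i with rfl | hi
    · obtain ⟨g, e, hg⟩ := Top_exists (hf 0 (Nat.zero_le _)) (shG n (p * (k * N)) N)
        (fun l hl => Top_lat hl) hγ hε8
      refine ⟨g, e, fun _ => ?_, fun _ => hg.2.2.1⟩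
      refine ⟨hg.1, hg.2.1, ?_, hg.2.2.2⟩
      intro y
      have h1 : shp n p (k * N) = shG n (p * (k * N)) N ^ k := by
        rw [← shG_eq]
        exact shG_pow n (p * (k * N)) N k
      rw [h1]
      exact Top_pow hg.2.2.1 k y
    · by_cases hiI : i ≤ I
      · obtain ⟨g, e, hg⟩ := Top_exists (hf i hiI) (shp n p (k * N))
          (fun l hl => FunT_lat hl) (hf i hiI).inv hε8
        exact ⟨g, e, fun _ => hg, fun h0 => absurd h0 hi.ne'⟩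
      · exact ⟨f i, 0, fun h0 => absurd h0 hiI, fun h0 => absurd h0 hi.ne'⟩
  choose g e hg hg0 using key
  have hP : ∀ i ≤ I, Top_P n (p * (k * N)) (shp n p (k * N)) G₁ G₂ (f i) (g i) (ε / 8) (e i) :=
    fun i hi => hg i hi
  have hP0 := hP 0 (Nat.zero_le _)
  have hval : ∀ y, fderiv ℝ (f 0) y = 0 → ClI G₁ G₂ (f 0) y → g 0 y = f 0 y + e 0 :=
    hP0.2.2.2.2.2.2.2.1
  have hcr : ∀ y, fderiv ℝ (g 0) y = 0 ↔ fderiv ℝ (f 0) y = 0 := hP0.2.2.2.2.2.1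
  have hc0 : ∀ c ∈ Cf, fderiv ℝ (f 0) (c ∘ rdG n (p * (k * N)) N) = 0 ∧
      ClI G₁ G₂ (f 0) (c ∘ rdG n (p * (k * N)) N) := by
    intro c hc
    obtain ⟨h1, h2, _⟩ := (hCf c).2 ⟨c, hc, 0, (Lc n N).zero_mem, by rw [Win_rl_zero, add_zero]⟩
    exact ⟨h1, h2⟩
  obtain ⟨u₀, u₁, hu, J, ρ, h0, hJ, hlt, hmem, hcard⟩ := top_core (C := C + 1) h12 I g W
    (fun i hi => Top_Adm (hf i hi) (hP i hi)) (fun i hi => Top_Sep (hf i hi) (hP i hi))
    (hg0 0 rfl) (fun i => η i + ε / 4) (fun i => by have := hη0 i; positivity)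
    (fun i hi y => by
      have e1 := (hP i hi).2.2.2.2.1 y
      have e2 := hη i hi y
      have e3 := hP0.2.2.2.2.1 y
      rw [abs_le] at e1 e2 e3 ⊢
      constructor <;> linarith [e1.1, e1.2, e2.1, e2.2, e3.1, e3.2])
    (um + e 0) (u + e 0) (up + e 0) (by linarith) (by linarith) Cf s
    (fun y => by
      rw [← hCf y, hcr]
      constructor
      · rintro ⟨h1, h2, h3, h4⟩
        have h5 := (Top_ClI hP0 h1).1 h2
        rw [hval _ h1 h5] at h3 h4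
        exact ⟨h1, h5, by linarith, by linarith⟩
      · rintro ⟨h1, h2, h3, h4⟩
        refine ⟨h1, (Top_ClI hP0 h1).2 h2, ?_, ?_⟩
        · rw [hval _ h1 h2]
          linarith
        · rw [hval _ h1 h2]
          linarith)
    (fun c hc => by
      rw [hval _ (hc0 c hc).1 (hc0 c hc).2, hCu c hc])
    hCd
    (fun c hc => by
      obtain ⟨c₀, hc₀⟩ := hP0.2.2.2.2.2.2.1 _ (hc0 c hc).1
      refine Top_LocIdx (fold_smooth _ _ _ (hf 0 (Nat.zero_le _)).smooth) (c := c₀) ?_ (hs c hc)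
      have hcont : Continuous fun y : Iz n N → ℝ => y ∘ rdG n (p * (k * N)) N :=
        (SymC_pull (rdG n (p * (k * N)) N)).continuous
      exact (hcont.tendsto c).eventually hc₀)
    hsum (ε / 2) (by positivity)
  refine ⟨u₀ - e 0, u₁ - e 0, ?_, J, fun j => ρ j - e 0, ?_, ?_, ?_, ?_, ?_⟩
  · rcases hu with ⟨h1, h2⟩ | ⟨h1, h2⟩
    · left
      constructor <;> linarith
    · right
      constructor <;> linarith
  · simp only [h0]
  · simp only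
    linarith
  · intro j hj
    have := hlt j hj
    simp only
    linarith
  · intro j hj
    have h1 := hmem j hj
    rw [Top_Lam (hf 0 (Nat.zero_le _)) hP0] at h1
    obtain ⟨t, ht, ht'⟩ := Finset.mem_image.1 h1
    have h2 : ρ (j + 1) - e 0 = t := by
      rw [← ht']
      ring
    simp only [h2]
    exact ht
  · intro i hi
    have h1 := hcard i hi
    rw [Top_card (hf i hi) (hP i hi)] at h1
    refine le_trans (Finset.card_le_card ?_) h1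
    intro j hj
    rw [Finset.mem_filter] at hj ⊢
    refine ⟨hj.1, ?_⟩
    have := hj.2
    simp only at this ⊢
    linarith

end Pool.Agent.H45.AC
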