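import Mathlib

/-!
# Project AC: chains of levels, counting
-/

set_option autoImplicit false

namespace Pool.Agent.H45.AC

theorem Chain_step (Λ : Finset ℝ) (u₀ u₁ δ t : ℝ) (hδ : 0 < δ)
    (hgap : ∀ x ∈ insert u₀ (insert u₁ Λ), ∀ y ∈ insert u₀ (insert u₁ Λ), x < y → 4 * δ < y - x)
    (B : Set ℝ) (htB : t ∈ B) (hB : ∀ x ∈ insert u₀ Λ, x + δ ∈ B ∧ x - δ ∈ B)
    (ht : ∀ x ∈ insert u₀ (insert u₁ Λ), x + δ < t) (Z : ℝ → ℝ → Prop)
    (h2 : ∀ b ∈ B, ∀ l₁ ∈ B, ∀ l₂ ∈ B, b ≤ l₁ → l₁ < l₂ → (∀ l ∈ Λ, ¬ (l₁ < l ∧ l < l₂)) →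
      Z b l₂ → Z b l₁)
    (h4 : ∀ b ∈ B, u₀ < b → b < u₁ → ¬ Z b b) (h5 : ∀ b ∈ B, b ≤ t → Z b t)
    (ρ : ℝ) (hρ : ρ ∈ insert u₀ Λ) (hρ0 : u₀ ≤ ρ) (hρ1 : ρ < u₁) :
    ∃ r ∈ Λ, ρ < r ∧ Z (ρ + δ) (r + δ) ∧ ¬ Z (ρ + δ) (r - δ) := by
  classical
  have hins : ∀ x ∈ insert u₀ Λ, x ∈ insert u₀ (insert u₁ Λ) := by
    intro x hx
    rcases Finset.mem_insert.1 hx with h | h
    · exact Finset.mem_insert.2 (Or.inl h)
    · exact Finset.mem_insert.2 (Or.inr (Finset.mem_insert.2 (Or.inr h)))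
  have hΛ : ∀ x ∈ Λ, x ∈ insert u₀ (insert u₁ Λ) := fun x hx =>
    hins x (Finset.mem_insert_of_mem hx)
  have hu1 : u₁ ∈ insert u₀ (insert u₁ Λ) :=
    Finset.mem_insert_of_mem (Finset.mem_insert_self _ _)
  have hbB := (hB ρ hρ).1
  have hb1 : ρ + δ < u₁ := by
    have := hgap ρ (hins ρ hρ) u₁ hu1 hρ1
    linarith
  have hb0 : u₀ < ρ + δ := by linarith
  have hbt := ht ρ (hins ρ hρ)
  have hZb := h4 _ hbB hb0 hb1
  have hZt := h5 _ hbB hbt.le
  have hne : (Λ.filter fun l => ρ + δ < l ∧ Z (ρ + δ) (l + δ)).Nonempty := by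
    rcases (Λ.filter fun l => ρ + δ < l).eq_empty_or_nonempty with h | h
    · exfalso
      refine hZb (h2 _ hbB _ hbB _ htB le_rfl hbt (fun l hl h6 => ?_) hZt)
      have h7 : l ∈ Λ.filter fun l => ρ + δ < l := Finset.mem_filter.2 ⟨hl, h6.1⟩
      rw [h] at h7
      exact Finset.notMem_empty _ h7
    · obtain ⟨m, hm, hmax⟩ := Finset.exists_max_image _ id h
      rw [Finset.mem_filter] at hm
      refine ⟨m, Finset.mem_filter.2 ⟨hm.1, hm.2, ?_⟩⟩
      refine h2 _ hbB _ (hB m (Finset.mem_insert_of_mem hm.1)).1 _ htB (by linarith)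
        (ht m (hΛ m hm.1)) (fun l hl h6 => ?_) hZt
      have h7 : id l ≤ id m := hmax l (Finset.mem_filter.2 ⟨hl, by linarith [h6.1]⟩)
      simp only [id] at h7
      linarith [h6.1]
  obtain ⟨r, hr, hmin⟩ := Finset.exists_min_image _ id hne
  rw [Finset.mem_filter] at hr
  obtain ⟨hrΛ, hbr, hZr⟩ := hr
  have hρr : ρ < r := by linarith
  refine ⟨r, hrΛ, hρr, hZr, fun hZ => ?_⟩
  rcases (Λ.filter fun l => ρ + δ < l ∧ l < r).eq_empty_or_nonempty with h | h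
  · refine hZb (h2 _ hbB _ hbB _ (hB r (Finset.mem_insert_of_mem hrΛ)).2 le_rfl ?_
      (fun l hl h6 => ?_) hZ)
    · have := hgap ρ (hins ρ hρ) r (hΛ r hrΛ) hρr
      linarith
    · have h7 : l ∈ Λ.filter fun l => ρ + δ < l ∧ l < r :=
        Finset.mem_filter.2 ⟨hl, h6.1, by linarith [h6.2]⟩
      rw [h] at h7
      exact Finset.notMem_empty _ h7
  · obtain ⟨p, hp, hmax⟩ := Finset.exists_max_image _ id h
    rw [Finset.mem_filter] at hp
    obtain ⟨hpΛ, hbp, hpr⟩ := hp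
    have hZp : Z (ρ + δ) (p + δ) := by
      refine h2 _ hbB _ (hB p (Finset.mem_insert_of_mem hpΛ)).1 _
        (hB r (Finset.mem_insert_of_mem hrΛ)).2 (by linarith) ?_ (fun l hl h6 => ?_) hZ
      · have := hgap p (hΛ p hpΛ) r (hΛ r hrΛ) hpr
        linarith
      · have h7 : id l ≤ id p :=
          hmax l (Finset.mem_filter.2 ⟨hl, by linarith [h6.1], by linarith [h6.2]⟩)
        simp only [id] at h7
        linarith [h6.1]
    have h8 : id r ≤ id p := hmin p (Finset.mem_filter.2 ⟨hpΛ, hbp, hZp⟩)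
    simp only [id] at h8
    linarith

/-- **Chain of levels.** `Z b l` is a relation between real numbers `b ≤ l` (the map from level `l`
to level `b` vanishes), `Λ` is the set of levels where it can change in `l`. -/
theorem chain_levels (Λ : Finset ℝ) (u₀ u₁ δ t : ℝ) (hu : u₀ < u₁) (hδ : 0 < δ)
    (hgap : ∀ x ∈ insert u₀ (insert u₁ Λ), ∀ y ∈ insert u₀ (insert u₁ Λ), x < y → 4 * δ < y - x)
    (B : Set ℝ) (htB : t ∈ B) (hB : ∀ x ∈ insert u₀ Λ, x + δ ∈ B ∧ x - δ ∈ B)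
    (ht : ∀ x ∈ insert u₀ (insert u₁ Λ), x + δ < t) (Z : ℝ → ℝ → Prop)
    (h2 : ∀ b ∈ B, ∀ l₁ ∈ B, ∀ l₂ ∈ B, b ≤ l₁ → l₁ < l₂ → (∀ l ∈ Λ, ¬ (l₁ < l ∧ l < l₂)) →
      Z b l₂ → Z b l₁)
    (h4 : ∀ b ∈ B, u₀ < b → b < u₁ → ¬ Z b b) (h5 : ∀ b ∈ B, b ≤ t → Z b t) :
    ∃ (J : ℕ) (ρ : ℕ → ℝ), ρ 0 = u₀ ∧ u₁ ≤ ρ J ∧ (∀ j < J, ρ j < ρ (j + 1)) ∧
      (∀ j < J, ρ (j + 1) ∈ Λ) ∧ (∀ j < J, ρ j < u₁) ∧
      ∀ j < J, Z (ρ j + δ) (ρ (j + 1) + δ) ∧ ¬ Z (ρ j + δ) (ρ (j + 1) - δ) := by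
  classical
  have key : ∀ n : ℕ, ∀ x ∈ insert u₀ Λ, u₀ ≤ x → (Λ.filter fun l => x < l).card ≤ n →
      ∃ (J : ℕ) (ρ : ℕ → ℝ), ρ 0 = x ∧ u₁ ≤ ρ J ∧ (∀ j < J, ρ j < ρ (j + 1)) ∧
      (∀ j < J, ρ (j + 1) ∈ Λ) ∧ (∀ j < J, ρ j < u₁) ∧
      ∀ j < J, Z (ρ j + δ) (ρ (j + 1) + δ) ∧ ¬ Z (ρ j + δ) (ρ (j + 1) - δ) := by
    intro n
    induction n with
    | zero =>
      intro x hx hx0 hn
      rcases le_or_gt u₁ x with h | h
      · exact ⟨0, fun _ => x, rfl, h, fun j hj => absurd hj (Nat.not_lt_zero _),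
          fun j hj => absurd hj (Nat.not_lt_zero _), fun j hj => absurd hj (Nat.not_lt_zero _),
          fun j hj => absurd hj (Nat.not_lt_zero _)⟩
      · exfalso
        obtain ⟨r, hr, hxr, -, -⟩ := Chain_step Λ u₀ u₁ δ t hδ hgap B htB hB ht Z h2 h4 h5 x hx hx0 h
        have h6 : r ∈ Λ.filter fun l => x < l := Finset.mem_filter.2 ⟨hr, hxr⟩
        rw [Finset.card_eq_zero.1 (Nat.le_zero.1 hn)] at h6
        exact Finset.notMem_empty _ h6
    | succ n ih =>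
      intro x hx hx0 hn
      rcases le_or_gt u₁ x with h | h
      · exact ⟨0, fun _ => x, rfl, h, fun j hj => absurd hj (Nat.not_lt_zero _),
          fun j hj => absurd hj (Nat.not_lt_zero _), fun j hj => absurd hj (Nat.not_lt_zero _),
          fun j hj => absurd hj (Nat.not_lt_zero _)⟩
      · obtain ⟨r, hr, hxr, hZ1, hZ2⟩ :=
          Chain_step Λ u₀ u₁ δ t hδ hgap B htB hB ht Z h2 h4 h5 x hx hx0 h
        have h6 : r ∈ Λ.filter fun l => x < l := Finset.mem_filter.2 ⟨hr, hxr⟩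
        have h7 : (Λ.filter fun l => r < l) ⊆ (Λ.filter fun l => x < l).erase r := by
          intro l hl
          rw [Finset.mem_filter] at hl
          exact Finset.mem_erase.2 ⟨ne_of_gt hl.2, Finset.mem_filter.2 ⟨hl.1, hxr.trans hl.2⟩⟩
        have h8 := Finset.card_le_card h7
        rw [Finset.card_erase_of_mem h6] at h8
        obtain ⟨J, ρ, e0, e1, e2, e3, e4, e5⟩ :=
          ih r (Finset.mem_insert_of_mem hr) (hx0.trans hxr.le) (by omega)
        refine ⟨J + 1, fun j => Nat.casesOn j x ρ, rfl, e1, ?_, ?_, ?_, ?_⟩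
        · intro j hj
          cases j with
          | zero => show x < ρ 0; rw [e0]; exact hxr
          | succ j => exact e2 j (by omega)
        · intro j hj
          cases j with
          | zero => show ρ 0 ∈ Λ; rw [e0]; exact hr
          | succ j => exact e3 j (by omega)
        · intro j hj
          cases j with
          | zero => exact h
          | succ j => exact e4 j (by omega)
        · intro j hj
          cases j with
          | zero =>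
            show Z (x + δ) (ρ 0 + δ) ∧ ¬ Z (x + δ) (ρ 0 - δ)
            rw [e0]
            exact ⟨hZ1, hZ2⟩
          | succ j => exact e5 j (by omega)
  exact key _ u₀ (Finset.mem_insert_self _ _) le_rfl le_rfl

theorem Chain_mono (J : ℕ) (ρ : ℕ → ℝ) (hρ : ∀ j < J, ρ j < ρ (j + 1)) :
    ∀ i j, i < j → j ≤ J → ρ i < ρ j := by
  intro i j hij
  induction j with
  | zero => exact absurd hij (Nat.not_lt_zero _)
  | succ j ih =>
    intro hj
    rcases Nat.lt_succ_iff_lt_or_eq.1 hij with h | h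
    · exact (ih h (by omega)).trans (hρ j (by omega))
    · rw [h]
      exact hρ j (by omega)

/-- Long steps of the chain give different levels of the other function. -/
theorem count_levels (J : ℕ) (ρ : ℕ → ℝ) (a : ℝ) (Λ : Finset ℝ)
    (hρ : ∀ j < J, ρ j < ρ (j + 1))
    (h : ∀ j < J, 2 * a < ρ (j + 1) - ρ j → ∃ l ∈ Λ, |l - ρ (j + 1)| ≤ a) :
    ((Finset.range J).filter fun j => 2 * a < ρ (j + 1) - ρ j).card ≤ Λ.card := by
  classical
  choose! f hf using h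
  refine Finset.card_le_card_of_injOn f (fun j hj => ?_) ?_
  · obtain ⟨h1, h2⟩ := Finset.mem_filter.1 (Finset.mem_coe.1 hj)
    exact Finset.mem_coe.2 (hf j (Finset.mem_range.1 h1) h2).1
  · have key : ∀ i j, i < j → j < J → 2 * a < ρ (i + 1) - ρ i → 2 * a < ρ (j + 1) - ρ j →
        f i ≠ f j := by
      intro i j hij hj hi2 hj2 he
      have h1 := (hf i (by omega) hi2).2
      have h2 := (hf j hj hj2).2
      rw [he] at h1
      have h3 : ρ (i + 1) ≤ ρ j := by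
        rcases Nat.lt_or_ge (i + 1) j with h4 | h4
        · exact (Chain_mono J ρ hρ (i + 1) j h4 hj.le).le
        · have : i + 1 = j := by omega
          rw [this]
      rw [abs_le] at h1 h2
      linarith [h1.1, h1.2, h2.1, h2.2]
    intro i hi j hj he
    obtain ⟨h1, h2⟩ := Finset.mem_filter.1 (Finset.mem_coe.1 hi)
    obtain ⟨h3, h4⟩ := Finset.mem_filter.1 (Finset.mem_coe.1 hj)
    rw [Finset.mem_range] at h1 h3
    rcases lt_trichotomy i j with h5 | h5 | h5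
    · exact absurd he (key i j h5 h3 h2 h4)
    · exact h5
    · exact absurd he.symm (key j i h5 h1 h4 h2)

/-- the elements of a strictly increasing chain -/
theorem count_chain (J : ℕ) (ρ : ℕ → ℝ) (Λ : Finset ℝ) (hρ : ∀ j < J, ρ j < ρ (j + 1))
    (h : ∀ j < J, ρ (j + 1) ∈ Λ) : J ≤ Λ.card := by
  classical
  rw [← Finset.card_range J]
  refine Finset.card_le_card_of_injOn (fun j => ρ (j + 1)) (fun j hj => ?_) ?_
  · exact Finset.mem_coe.2 (h j (Finset.mem_range.1 (Finset.mem_coe.1 hj)))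
  · intro i hi j hj he
    have h1 := Finset.mem_range.1 (Finset.mem_coe.1 hi)
    have h3 := Finset.mem_range.1 (Finset.mem_coe.1 hj)
    rcases lt_trichotomy i j with h5 | h5 | h5
    · exact absurd he (ne_of_lt (Chain_mono J ρ hρ (i + 1) (j + 1) (by omega) (by omega)))
    · exact h5
    · exact absurd he (ne_of_gt (Chain_mono J ρ hρ (j + 1) (i + 1) (by omega) (by omega)))

end Pool.Agent.H45.AC
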