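import Pool.Agent.H47.QG.Cnt

/-!
# Project AC: good primes, counting of orbits
-/

set_option autoImplicit false

open Filter Topology Function
open Pool.Agent.H47.QG (Sys orbs)

namespace Pool.Agent.H45.AC

variable {M X : Type*} [AddCommGroup M] [Module ℝ M]

/-- quadratic growth of the number of orbits -/
def Grw (φ : X → X) : Prop :=
  ∃ c' > 0, ∀ᶠ T : ℝ in atTop,
    ENNReal.ofReal (c' * T ^ 2 / Real.log T) ≤ ((orbs φ T).encard : ENNReal)

omit [AddCommGroup M] [Module ℝ M] in
theorem CntA_back {F : M → M} {N : ℕ} (hN : 0 < N) {w : M} (hw : F^[N] w = w) {n : ℕ}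
    (h1 : F^[n] (F w) = F w) : F^[n] w = w := by
  have h2 := Pool.Agent.H47.QG.Cnt_shift h1 (N - 1)
  have h3 : F^[N - 1] (F w) = w := by
    rw [← iterate_succ_apply, Nat.succ_eq_add_one, Nat.sub_add_cancel hN, hw]
  rwa [h3] at h2

omit [AddCommGroup M] [Module ℝ M] in
theorem CntA_of_dvd {F : M → M} {a b : ℕ} (hab : a ∣ b) {w : M} (hw : F^[a] w = w) :
    F^[b] w = w :=
  (show IsPeriodicPt F a w from hw).trans_dvd hab

omit [AddCommGroup M] [Module ℝ M] in
theorem CntA_coprime {F : M → M} {a b p : ℕ} (hp : p.Prime) (hpb : ¬ p ∣ b) {w : M}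
    (h1 : F^[a * p] w = w) (h2 : F^[b] w = w) : F^[a] w = w := by
  have h3 : minimalPeriod F w ∣ a * p := IsPeriodicPt.minimalPeriod_dvd h1
  have h4 : minimalPeriod F w ∣ b := IsPeriodicPt.minimalPeriod_dvd h2
  have h5 : ¬ p ∣ minimalPeriod F w := fun h => hpb (h.trans h4)
  have h6 : Nat.Coprime (minimalPeriod F w) p := ((Nat.Prime.coprime_iff_not_dvd hp).2 h5).symm
  have h7 : minimalPeriod F w ∣ a := h6.dvd_of_dvd_mul_right h3
  exact (isPeriodicPt_iff_minimalPeriod_dvd).2 h7

/-- **Good primes.** `iv m w` is an invariant of the points fixed by `F^[q * m]`. -/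
theorem good_primes {F : M → M} {φ : X → X} {π : M → X} {Λ : AddSubgroup M} (h : Sys F φ π Λ)
    (q : ℕ) (hq : 0 < q) (iv : ℕ → M → ℕ)
    (hv : ∀ m w, F^[q * m] w = w → iv m (F w) = iv m w)
    (hvΛ : ∀ m w, ∀ e ∈ Λ, F^[q * m] w = w → iv m (w + e) = iv m w) (hno : ¬ Grw φ) (k : ℕ)
    (ε : ℝ) (hε : 0 < ε) (r₀ : ℕ) :
    ∃ r : ℕ, r.Prime ∧ r₀ ≤ r ∧ ∀ k', 0 < k' → k' ≤ k →
      ({v : ℕ | ∃ w, F^[q * (r * k')] w = w ∧ F^[q * k'] w ≠ w ∧ iv (r * k') w = v}.ncard : ℝ) ≤
        ε * r := by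
  classical
  by_contra hcon
  push Not at hcon
  choose! K hK0 hKk hK using hcon
  refine hno ?_
  refine Pool.Agent.H47.QG.growth h (q * k.factorial) (Nat.mul_pos hq k.factorial_pos)
    (fun r w => if F^[q * (r * K r)] w = w then iv (r * K r) w else 0) ?_ ?_ ε
    (ε * (r₀ + q + k + 1)) hε ?_
  · intro p w hw
    rcases Nat.eq_zero_or_pos p with rfl | hp
    · simp only [zero_mul, mul_zero, iterate_zero, id_eq, if_true]
      exact hv 0 w (by simp)
    have hN : 0 < q * k.factorial * p := Nat.mul_pos (Nat.mul_pos hq k.factorial_pos) hp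
    by_cases h1 : F^[q * (p * K p)] w = w
    · have h2 : F^[q * (p * K p)] (F w) = F w := Pool.Agent.H47.QG.Cnt_shift h1 1
      rw [if_pos h1, if_pos h2, hv _ _ h1]
    · have h2 : ¬ F^[q * (p * K p)] (F w) = F w := fun h2 => h1 (CntA_back hN hw h2)
      rw [if_neg h1, if_neg h2]
  · intro p w e he hw
    by_cases h1 : F^[q * (p * K p)] w = w
    · have h2 : F^[q * (p * K p)] (w + e) = w + e := by
        rw [Pool.Agent.H47.QG.Cnt_iter_equiv h _ w e he, h1]
      rw [if_pos h1, if_pos h2, hvΛ _ _ e he h1]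
    · have h2 : ¬ F^[q * (p * K p)] (w + e) = w + e := by
        intro h2
        rw [Pool.Agent.H47.QG.Cnt_iter_equiv h _ w e he] at h2
        exact h1 (add_right_cancel h2)
      rw [if_neg h1, if_neg h2]
  · intro p hp hD _
    have hlarge : ((r₀ + q + k + 1 : ℕ) : ℝ) ≤ p := by
      push_cast
      exact le_of_mul_le_mul_left hD hε
    have hlarge' : r₀ + q + k + 1 ≤ p := by exact_mod_cast hlarge
    have hr : r₀ ≤ p := by omega
    have h0 := hK0 p hp hr
    have hk' := hKk p hp hr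
    have hlt := hK p hp hr
    set S : Set ℕ := {v : ℕ | ∃ w, F^[q * (p * K p)] w = w ∧ F^[q * K p] w ≠ w ∧
      iv (p * K p) w = v} with hS
    have hpp : (0 : ℝ) < p := by exact_mod_cast hp.pos
    have hpos : 0 < S.ncard := by
      have : (0 : ℝ) < S.ncard := lt_trans (mul_pos hε hpp) hlt
      exact_mod_cast this
    have hfin : S.Finite := Set.finite_of_ncard_pos hpos
    refine ⟨hfin.toFinset, ?_, ?_⟩
    · rw [← Set.ncard_eq_toFinset_card S hfin]
      have : 0 ≤ ε * (r₀ + q + k + 1) := by positivity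
      linarith
    · intro a ha
      rw [Set.Finite.mem_toFinset] at ha
      obtain ⟨w, hw1, hw2, hw3⟩ := ha
      refine ⟨w, ?_, ?_, ?_⟩
      · refine CntA_of_dvd ?_ hw1
        obtain ⟨c, hc⟩ := Nat.dvd_factorial h0 hk'
        refine ⟨c, ?_⟩
        rw [hc]; ring
      · intro h2
        refine hw2 ?_
        refine CntA_coprime (b := q * k.factorial) hp ?_ ?_ h2
        · intro hd
          rcases (Nat.Prime.dvd_mul hp).1 hd with h3 | h3
          · have := Nat.le_of_dvd hq h3
            omega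
          · have := (Nat.Prime.dvd_factorial hp).1 h3
            omega
        · rw [show q * K p * p = q * (p * K p) by ring]
          exact hw1
      · rw [if_pos hw1, hw3]

end Pool.Agent.H45.AC
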