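import Pool.Agent.H45.AC.CntA

/-!
# Project AC: counting of orbits, sum over the primes
-/

set_option autoImplicit false

open Filter Topology Function
open Pool.Agent.H47.QG (Sys orbs)

namespace Pool.Agent.H45.AC

variable {M X : Type*} [AddCommGroup M] [Module ℝ M]

section Aux

variable {F : M → M} {φ : X → X} {π : M → X} {Λ : AddSubgroup M}

omit [Module ℝ M] in
/-- a function of the point of the quotient -/
theorem CntB_val (h : Sys F φ π Λ) {q n : ℕ} (v : M → ℝ)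
    (hvΛ : ∀ w, ∀ e ∈ Λ, F^[n] w = w → v (w + e) = v w) (P : M → Prop)
    (hP : ∀ w, P w → F^[n] w = w ∧ F^[q] w = w)
    (hfin : (π '' {w | F^[q] w = w}).Finite) :
    {x : ℝ | ∃ w, P w ∧ v w = x}.Finite ∧
      {x : ℝ | ∃ w, P w ∧ v w = x}.ncard ≤ (π '' {w | F^[q] w = w}).ncard := by
  classical
  let g : X → ℝ := fun y => if hy : ∃ w, P w ∧ π w = y then v (Classical.choose hy) else 0
  have hg : ∀ w, P w → g (π w) = v w := by
    intro w hw
    have hy : ∃ w', P w' ∧ π w' = π w := ⟨w, hw, rfl⟩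
    have h1 := Classical.choose_spec hy
    have h2 : g (π w) = v (Classical.choose hy) := dif_pos hy
    rw [h2]
    have h3 := (h.ker _ _).1 h1.2
    have h4 := hvΛ w _ h3 (hP w hw).1
    rw [add_sub_cancel] at h4
    exact h4
  have hsub : {x : ℝ | ∃ w, P w ∧ v w = x} ⊆ g '' (π '' {w | F^[q] w = w}) := by
    rintro x ⟨w, hw, rfl⟩
    exact ⟨π w, ⟨w, (hP w hw).2, rfl⟩, hg w hw⟩
  have hf2 := hfin.image g
  exact ⟨hf2.subset hsub, (Set.ncard_le_ncard hsub hf2).trans (Set.ncard_image_le hfin)⟩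

omit [AddCommGroup M] [Module ℝ M] in
/-- going around the orbit -/
theorem CntB_back {a b j : ℕ} (ha : 0 < a) {w : M} (hw : F^[a] w = w)
    (hb : F^[b] (F^[j] w) = F^[j] w) : F^[b] w = w := by
  have h1 : F^[a * j] w = w := by
    rw [iterate_mul]
    exact iterate_fixed hw j
  have h2 : F^[a * j - j] (F^[j] w) = w := by
    rw [← iterate_add_apply, Nat.sub_add_cancel (Nat.le_mul_of_pos_left j ha), h1]
  calc F^[b] w = F^[b] (F^[a * j - j] (F^[j] w)) := by rw [h2]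
    _ = F^[a * j - j] (F^[b] (F^[j] w)) := by
        rw [← iterate_add_apply F b, ← iterate_add_apply F (a * j - j) b,
          add_comm b (a * j - j)]
    _ = w := by rw [hb, h2]

omit [Module ℝ M] in
/-- two points with the same orbit downstairs -/
theorem CntB_same (h : Sys F φ π Λ) {a b : ℕ} (ha : 0 < a) {w₁ w₂ : M} (hw₁ : F^[a] w₁ = w₁)
    (hw₂ : F^[b] w₂ = w₂) (he : H60.PO.orb φ (π w₁) = H60.PO.orb φ (π w₂)) :
    F^[b] w₁ = w₁ ∧ ∃ j : ℕ, ∃ e ∈ Λ, w₂ = F^[j] w₁ + e := by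
  have h1 : π w₂ ∈ H60.PO.orb φ (π w₁) := he ▸ H60.PO.mem_orb φ _
  obtain ⟨j, hj⟩ := h1
  rw [H47.QG.Cnt_iter_semi h, h.ker] at hj
  have h2 : w₂ = F^[j] w₁ + (w₂ - F^[j] w₁) := by rw [add_sub_cancel]
  have h3 : F^[b] (F^[j] w₁) = F^[j] w₁ := by
    have h4 := hw₂
    rw [h2, H47.QG.Cnt_iter_equiv h b _ _ hj] at h4
    exact add_right_cancel h4
  exact ⟨CntB_back ha hw₁ h3, j, _, hj, h2⟩

end Aux

/-- **Growth from action values.** `v m w` and the relation `t m w x` (`w` has the mean index `x`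
for the period `m`) are invariants of the points fixed by `F^[q * m]`. -/
theorem ac_growth {F : M → M} {φ : X → X} {π : M → X} {Λ : AddSubgroup M} (h : Sys F φ π Λ)
    (q : ℕ) (hq : 0 < q) (v : ℕ → M → ℝ) (t : ℕ → M → ℝ → Prop)
    (hv : ∀ m w, F^[q * m] w = w → v m (F w) = v m w)
    (hvΛ : ∀ m w, ∀ e ∈ Λ, F^[q * m] w = w → v m (w + e) = v m w)
    (ht : ∀ m w x, F^[q * m] w = w → (t m (F w) x ↔ t m w x))
    (htΛ : ∀ m w x, ∀ e ∈ Λ, F^[q * m] w = w → (t m (w + e) x ↔ t m w x))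
    (htu : ∀ m w x x', t m w x → t m w x' → x = x')
    (htm : ∀ m j w x, 0 < j → F^[q * m] w = w → t m w x → t (j * m) w (j * x))
    (s : ℝ) (hs : s ≠ 0) (c D : ℝ) (hc : 0 < c)
    (hfin : ∀ m, 0 < m → (π '' {w | F^[q * m] w = w}).Finite)
    (hN : ∀ k : ℕ, k.Prime → c * k - D ≤ ∑ i ∈ Finset.range (k / 2 + 1),
      ({x : ℝ | ∃ w, F^[q * (k - i)] w = w ∧ t (k - i) w (k * s) ∧ v (k - i) w = x}.ncard : ℝ)) :
    Grw φ := by
  classical
  have hqR : (0 : ℝ) < q := by exact_mod_cast hq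
  set F1 : ℕ := (π '' {w | F^[q] w = w}).ncard with hF1
  obtain ⟨c₀, hc₀, hsum⟩ := H60.PO.prime_sum c (D + F1) hc
  have ht' : Tendsto (fun T : ℝ => T * (2 / q)) atTop atTop :=
    tendsto_id.atTop_mul_const (by positivity)
  -- the values which are counted
  set U : ℕ → ℕ → Set ℝ := fun k i =>
    {x : ℝ | ∃ w, (F^[q * (k - i)] w = w ∧ (i = 0 → F^[q] w ≠ w) ∧ t (k - i) w (k * s)) ∧
      v (k - i) w = x} with hU
  have hki : ∀ k : ℕ, k.Prime → ∀ i ∈ Finset.range (k / 2 + 1), 0 < k - i ∧ i ≤ k := by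
    intro k hk i hi
    rw [Finset.mem_range] at hi
    have := hk.two_le
    omega
  have hUfin : ∀ k : ℕ, k.Prime → ∀ i ∈ Finset.range (k / 2 + 1), (U k i).Finite := by
    intro k hk i hi
    exact (CntB_val h (q := q * (k - i)) (n := q * (k - i)) (v (k - i)) (hvΛ (k - i))
      (fun w => F^[q * (k - i)] w = w ∧ (i = 0 → F^[q] w ≠ w) ∧ t (k - i) w (k * s))
      (fun w hw => ⟨hw.1, hw.1⟩) (hfin _ (hki k hk i hi).1)).1
  have hfixq : ∀ k w, F^[q] w = w → F^[q * k] w = w := by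
    intro k w hw
    rw [iterate_mul]
    exact iterate_fixed hw k
  have hUcard : ∀ k : ℕ, k.Prime → c * k - (D + F1) ≤
      ∑ i ∈ Finset.range (k / 2 + 1), ((U k i).ncard : ℝ) := by
    intro k hk
    have h1 := hN k hk
    have h2 : ∀ i ∈ Finset.range (k / 2 + 1),
        ({x : ℝ | ∃ w, F^[q * (k - i)] w = w ∧ t (k - i) w (k * s) ∧ v (k - i) w = x}.ncard : ℝ) ≤
        ((U k i).ncard : ℝ) + (if i = 0 then (F1 : ℝ) else 0) := by
      intro i hi
      by_cases hi0 : i = 0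
      · rw [if_pos hi0]
        have hW := CntB_val h (q := q) (n := q * k) (v k) (hvΛ k) (fun w => F^[q] w = w)
          (fun w hw => ⟨hfixq k w hw, hw⟩) (by
            have := hfin 1 one_pos
            rwa [mul_one] at this)
        have hsub : {x : ℝ | ∃ w, F^[q * (k - i)] w = w ∧ t (k - i) w (k * s) ∧
            v (k - i) w = x} ⊆ U k i ∪ {x : ℝ | ∃ w, F^[q] w = w ∧ v k w = x} := by
          rintro x ⟨w, hw1, hw2, hw3⟩
          by_cases hw : F^[q] w = w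
          · right
            subst hi0
            exact ⟨w, hw, hw3⟩
          · left
            exact ⟨w, ⟨hw1, fun _ => hw, hw2⟩, hw3⟩
        have h3 := Set.ncard_le_ncard hsub ((hUfin k hk i hi).union hW.1)
        have h4 := h3.trans (Set.ncard_union_le _ _)
        have h5 := h4.trans (Nat.add_le_add_left hW.2 _)
        exact_mod_cast h5
      · rw [if_neg hi0, add_zero]
        refine Nat.cast_le.2 (Set.ncard_le_ncard ?_ (hUfin k hk i hi))
        rintro x ⟨w, hw1, hw2, hw3⟩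
        exact ⟨w, ⟨hw1, fun h => absurd h hi0, hw2⟩, hw3⟩
    have h3 := h1.trans (Finset.sum_le_sum h2)
    rw [Finset.sum_add_distrib, Finset.sum_ite_eq' (Finset.range (k / 2 + 1)) 0 (fun _ => (F1 : ℝ)),
      if_pos (Finset.mem_range.2 (Nat.succ_pos _))] at h3
    linarith
  refine ⟨c₀ * 2 / q ^ 2, by positivity, ?_⟩
  filter_upwards [ht'.eventually hsum, eventually_ge_atTop (2 : ℝ),
    eventually_gt_atTop (q : ℝ)] with T h1 h2 h3
  obtain ⟨P, hP, hPs⟩ := h1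
  -- the elementary inequality
  have hreal : c₀ * 2 / q ^ 2 * T ^ 2 / Real.log T ≤ ∑ p ∈ P, (c * p - (D + F1)) := by
    refine le_trans ?_ hPs
    have hlogT : 0 < Real.log T := Real.log_pos (by linarith)
    have hT' : 1 < T * (2 / q) := by
      rw [mul_div_assoc', lt_div_iff₀ hqR]; linarith
    have hlogT' : 0 < Real.log (T * (2 / q)) := Real.log_pos hT'
    have hk1 : (1 : ℝ) ≤ q := by exact_mod_cast hq
    have h4 : Real.log (T * (2 / q)) ≤ 2 * Real.log T := by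
      have h5 : T * (2 / q) ≤ T * T := by
        refine mul_le_mul_of_nonneg_left ?_ (by linarith)
        rw [div_le_iff₀ hqR]; nlinarith
      calc Real.log (T * (2 / q)) ≤ Real.log (T * T) := Real.log_le_log (by linarith) h5
        _ = 2 * Real.log T := by rw [Real.log_mul (by linarith) (by linarith)]; ring
    rw [div_le_div_iff₀ hlogT hlogT']
    have h6 : c₀ * (T * (2 / q)) ^ 2 = 2 * (c₀ * 2 / q ^ 2 * T ^ 2) := by
      field_simp
    rw [h6]
    have h7 : 0 ≤ c₀ * 2 / q ^ 2 * T ^ 2 := by positivity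
    calc c₀ * 2 / q ^ 2 * T ^ 2 * Real.log (T * (2 / q))
        ≤ c₀ * 2 / q ^ 2 * T ^ 2 * (2 * Real.log T) := mul_le_mul_of_nonneg_left h4 h7
      _ = 2 * (c₀ * 2 / q ^ 2 * T ^ 2) * Real.log T := by ring
  have hqp : ∀ p ∈ P, ((q * p : ℕ) : ℝ) ≤ T := by
    intro p hp
    have h5 := (hP p hp).2.2.1
    rw [mul_div_assoc', le_div_iff₀ hqR] at h5
    push_cast at h5 ⊢
    nlinarith
  -- the points
  have key : ∀ k i x, x ∈ U k i → ∃ w, (F^[q * (k - i)] w = w ∧ (i = 0 → F^[q] w ≠ w) ∧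
      t (k - i) w (k * s)) ∧ v (k - i) w = x := fun k i x hx => hx
  choose! w hw using key
  -- the index set
  let A : ℕ → Finset (Σ _ : ℕ, ℝ) := fun k => (Finset.range (k / 2 + 1)).sigma fun i =>
    if hf : (U k i).Finite then hf.toFinset else ∅
  have hA : ∀ k : ℕ, k.Prime → ∀ y : Σ _ : ℕ, ℝ, y ∈ A k ↔
      y.1 ∈ Finset.range (k / 2 + 1) ∧ y.2 ∈ U k y.1 := by
    intro k hk y
    simp only [A, Finset.mem_sigma]
    constructor
    · rintro ⟨h1, h2⟩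
      rw [dif_pos (hUfin k hk _ h1), Set.Finite.mem_toFinset] at h2
      exact ⟨h1, h2⟩
    · rintro ⟨h1, h2⟩
      refine ⟨h1, ?_⟩
      rw [dif_pos (hUfin k hk _ h1), Set.Finite.mem_toFinset]
      exact h2
  have hAcard : ∀ k : ℕ, k.Prime → c * k - (D + F1) ≤ ((A k).card : ℝ) := by
    intro k hk
    refine (hUcard k hk).trans (le_of_eq ?_)
    rw [Finset.card_sigma, Nat.cast_sum]
    refine Finset.sum_congr rfl fun i hi => ?_
    rw [dif_pos (hUfin k hk i hi), Set.ncard_eq_toFinset_card _ (hUfin k hk i hi)]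
  let S : Finset (Σ _ : ℕ, Σ _ : ℕ, ℝ) := P.sigma A
  have hSm : ∀ y ∈ S, y.1 ∈ P ∧ y.1.Prime ∧ y.2.1 ∈ Finset.range (y.1 / 2 + 1) ∧
      y.2.2 ∈ U y.1 y.2.1 := by
    intro y hy
    rw [Finset.mem_sigma] at hy
    have h1 := (hP _ hy.1).1
    exact ⟨hy.1, h1, (hA _ h1 _).1 hy.2⟩
  -- injectivity
  have hinj : Set.InjOn (fun y : Σ _ : ℕ, Σ _ : ℕ, ℝ => H60.PO.orb φ (π (w y.1 y.2.1 y.2.2)))
      S := by
    rintro ⟨k₁, i₁, x₁⟩ hy₁ ⟨k₂, i₂, x₂⟩ hy₂ he
    obtain ⟨-, hk₁, hi₁, hx₁⟩ := hSm _ hy₁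
    obtain ⟨-, hk₂, hi₂, hx₂⟩ := hSm _ hy₂
    simp only at hk₁ hi₁ hx₁ hk₂ hi₂ hx₂ he
    obtain ⟨⟨a1, a2, a3⟩, a4⟩ := hw k₁ i₁ x₁ hx₁
    obtain ⟨⟨b1, b2, b3⟩, b4⟩ := hw k₂ i₂ x₂ hx₂
    obtain ⟨hm₁, hik₁⟩ := hki k₁ hk₁ i₁ hi₁
    obtain ⟨hm₂, hik₂⟩ := hki k₂ hk₂ i₂ hi₂
    obtain ⟨hb, j, e, he', hwe⟩ := CntB_same h (Nat.mul_pos hq hm₁) a1 b1 he
    have hsh : ∀ l, F^[q * (k₂ - i₂)] (F^[l] (w k₁ i₁ x₁)) = F^[l] (w k₁ i₁ x₁) := fun l =>
      H47.QG.Cnt_shift hb l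
    have htj : ∀ l, t (k₂ - i₂) (F^[l] (w k₁ i₁ x₁)) (k₂ * s) ↔
        t (k₂ - i₂) (w k₁ i₁ x₁) (k₂ * s) := by
      intro l
      induction l with
      | zero => exact Iff.rfl
      | succ l ih => rw [iterate_succ_apply', ht _ _ _ (hsh l), ih]
    have hvj : ∀ l, v (k₂ - i₂) (F^[l] (w k₁ i₁ x₁)) = v (k₂ - i₂) (w k₁ i₁ x₁) := by
      intro l
      induction l with
      | zero => rfl
      | succ l ih => rw [iterate_succ_apply', hv _ _ (hsh l), ih]
    rw [hwe, htΛ _ _ _ _ he' (hsh j), htj j] at b3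
    rw [hwe, hvΛ _ _ _ he' (hsh j), hvj j] at b4
    have g1 := htm _ (k₂ - i₂) _ _ hm₂ a1 a3
    have g2 := htm _ (k₁ - i₁) _ _ hm₁ hb b3
    rw [mul_comm (k₁ - i₁) (k₂ - i₂)] at g2
    have g3 := htu _ _ _ _ g1 g2
    have g4 : ((k₂ - i₂ : ℕ) : ℝ) * k₁ = ((k₁ - i₁ : ℕ) : ℝ) * k₂ := by
      have : (((k₂ - i₂ : ℕ) : ℝ) * k₁ - ((k₁ - i₁ : ℕ) : ℝ) * k₂) * s = 0 := by
        linear_combination g3
      rcases mul_eq_zero.1 this with h | h
      · linarith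
      · exact absurd h hs
    have g5 : (k₂ - i₂) * k₁ = (k₁ - i₁) * k₂ := by exact_mod_cast g4
    by_cases hkk : k₁ = k₂
    · subst hkk
      have g6 : k₁ - i₂ = k₁ - i₁ := Nat.eq_of_mul_eq_mul_right hk₁.pos g5
      have g7 : i₂ = i₁ := by omega
      subst g7
      rw [a4] at b4
      rw [b4]
    · exfalso
      have hcop : Nat.Coprime k₁ k₂ := (Nat.coprime_primes hk₁ hk₂).2 hkk
      have d1 : k₁ ∣ (k₁ - i₁) := hcop.dvd_of_dvd_mul_right ⟨k₂ - i₂, by rw [← g5, mul_comm]⟩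
      have d2 : k₂ ∣ (k₂ - i₂) := hcop.symm.dvd_of_dvd_mul_right ⟨k₁ - i₁, by rw [g5, mul_comm]⟩
      have e1 := Nat.le_of_dvd hm₁ d1
      have e2 := Nat.le_of_dvd hm₂ d2
      have f1 : i₁ = 0 := by
        have := hk₁.pos
        omega
      have f2 : i₂ = 0 := by
        have := hk₂.pos
        omega
      subst f1
      subst f2
      rw [Nat.sub_zero] at a1 hb
      have p1 : IsPeriodicPt F (q * k₁) (w k₁ 0 x₁) := a1
      have p2 : IsPeriodicPt F (q * k₂) (w k₁ 0 x₁) := hb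
      have p3 := p1.gcd p2
      rw [Nat.gcd_mul_left, Nat.Coprime.gcd_eq_one hcop, mul_one] at p3
      exact a2 rfl p3
  have h4 : ((S.image (fun y : Σ _ : ℕ, Σ _ : ℕ, ℝ =>
      H60.PO.orb φ (π (w y.1 y.2.1 y.2.2))) : Finset (Set X)) : Set (Set X)) ⊆ orbs φ T := by
    intro O hO
    rw [Finset.mem_coe, Finset.mem_image] at hO
    obtain ⟨y, hy, rfl⟩ := hO
    obtain ⟨hyP, hk, hi, hx⟩ := hSm y hy
    obtain ⟨⟨a1, -, -⟩, -⟩ := hw _ _ _ hx
    have hm := hki _ hk _ hi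
    have hn := Nat.mul_pos hq hm.1
    refine H47.QG.Cnt_orb_mem (H47.QG.Cnt_pos h hn a1) ?_
    refine (Nat.cast_le.2 ((H47.QG.Cnt_le h hn a1).trans ?_)).trans (hqp _ hyP)
    exact Nat.mul_le_mul_left _ (Nat.sub_le _ _)
  have h5 := Set.encard_le_encard h4
  rw [Set.encard_coe_eq_coe_finsetCard, Finset.card_image_of_injOn hinj, Finset.card_sigma] at h5
  have h6 : ENNReal.ofReal (c₀ * 2 / q ^ 2 * T ^ 2 / Real.log T) ≤
      ENNReal.ofReal ((∑ p ∈ P, (A p).card : ℕ) : ℝ) := by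
    refine ENNReal.ofReal_le_ofReal (hreal.trans ?_)
    rw [Nat.cast_sum]
    exact Finset.sum_le_sum fun p hp => hAcard p (hP p hp).1
  refine h6.trans ?_
  rw [ENNReal.ofReal_natCast]
  have h7 : (((∑ p ∈ P, (A p).card : ℕ) : ℕ∞) : ENNReal) ≤
      ((orbs φ T).encard : ENNReal) := ENat.toENNReal_le.2 h5
  exact h7

end Pool.Agent.H45.AC
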