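import Pool.Agent.H45.AC.EchC

/-!
# Project AC: exact band theorem
-/

set_option autoImplicit false

namespace Pool.Agent.H45.AC

open Pool.Agent.H47.ST

variable {κ : Type*} [Fintype κ] [DecidableEq κ]

/-- One level: `B` is `A` together with the orbit of `v`. -/
theorem EchB_level {L : AddSubgroup (κ → ℤ)} (hW : Wide L) {A B : Set (κ → ℤ)} (hA : Inv L A)
    (v : κ → ℤ) (hv : v ∉ A) (hB : ∀ w, w ∈ B ↔ w ∈ A ∨ w - v ∈ L) :
    ech L B A = es A v := by
  unfold ech es
  refine Finset.sum_congr rfl fun j _ => ?_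
  rw [nc_level hW hA v hv hB j]

omit [Fintype κ] [DecidableEq κ] in
theorem EchB_nr {v l w : κ → ℤ} : Nr (v + l) (w + l) ↔ Nr v w := by
  unfold Nr
  refine forall_congr' fun i => ?_
  rw [Pi.add_apply, Pi.add_apply, add_sub_add_right_eq_sub]

omit [Fintype κ] in
/-- translation of critical vertices -/
theorem EchB_criV {L : AddSubgroup (κ → ℤ)} {A B : Set (κ → ℤ)} {g : (κ → ℤ) → ℝ}
    (hA : Inv L A) (hB : Inv L B) (hg : ∀ l ∈ L, ∀ v, g (v + l) = g v) {l : κ → ℤ} (hl : l ∈ L)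
    {v : κ → ℤ} {e : κ → Bool} (h : CriV A B g (v + l) e) : CriV A B g v e := by
  obtain ⟨h1, h2, h3, h4⟩ := h
  refine ⟨fun w hw => ?_, fun i hi s => ?_, fun w hw i hi hne => ?_, fun w hw hne hh => ?_⟩
  · have := h1 (w + l) (EchB_nr.2 hw)
    exact ⟨(hB l hl w).2 this.1, fun h5 => this.2 ((hA l hl w).1 h5)⟩
  · have h5 := h2 i hi s
    have e : v + l + Pi.single i (sz s) = v + Pi.single i (sz s) + l := by abel
    rw [e, hg l hl, hg l hl] at h5
    exact h5
  · have h5 := h3 (w + l) (EchB_nr.2 hw) i hi (fun h6 => hne (by simpa using h6))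
    have e : Function.update (w + l) i ((v + l) i) = Function.update w i (v i) + l := by
      funext j
      by_cases hj : j = i
      · subst hj
        simp
      · simp [Function.update_of_ne hj]
    rw [e, hg l hl, hg l hl] at h5
    exact h5
  · have h5 := h4 (w + l) (EchB_nr.2 hw) (fun h6 => hne (by simpa using h6)) (fun i hi => by
      rw [Pi.add_apply, Pi.add_apply, hh i hi])
    rw [hg l hl, hg l hl] at h5
    exact h5

open Classical in
theorem EchB_empty (L : AddSubgroup (κ → ℤ)) (A B : Set (κ → ℤ))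
    (hA : Inv L A) (D : Finset (κ → ℤ)) (hD : ∀ v ∈ B, v ∉ A → ∃ l ∈ L, v + l ∈ D)
    (Cr : Finset (κ → ℤ)) (e : (κ → ℤ) → κ → Bool) (hCr : ∀ c ∈ Cr, c ∉ A)
    (B' : Set (κ → ℤ)) (hAB' : A ⊆ B') (hB'B : B' ⊆ B) (hI : Inv L B')
    (hn : (D.filter fun d => d ∈ B' ∧ d ∉ A) = ∅) :
    ech L B' A = ∑ c ∈ Cr.filter (fun c => c ∈ B'), (-1) ^ nm (e c) := by
  have h1 : B' = A := by
    refine Set.Subset.antisymm (fun v hv => ?_) hAB'
    by_contra hvA
    obtain ⟨l, hl, h2⟩ := hD v (hB'B hv) hvA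
    have h4 : v + l ∈ D.filter fun d => d ∈ B' ∧ d ∉ A :=
      Finset.mem_filter.2 ⟨h2, (hI l hl v).1 hv, fun h5 => hvA ((hA l hl v).2 h5)⟩
    rw [hn] at h4
    exact absurd h4 (Finset.notMem_empty _)
  rw [h1, ech_self, Finset.filter_false_of_mem hCr, Finset.sum_empty]

open Classical in
/-- the induction over the orbits -/
theorem EchB_band (L : AddSubgroup (κ → ℤ)) (hW : Wide L) (A B : Set (κ → ℤ))
    (hA : Inv L A) (hB : Inv L B) (D : Finset (κ → ℤ))
    (hD : ∀ v ∈ B, v ∉ A → ∃ l ∈ L, v + l ∈ D) (g : (κ → ℤ) → ℝ)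
    (hg : ∀ l ∈ L, ∀ v, g (v + l) = g v) (Cr : Finset (κ → ℤ)) (e : (κ → ℤ) → κ → Bool)
    (hCr : ∀ c ∈ Cr, c ∈ B ∧ c ∉ A ∧ CriV A B g c (e c))
    (hCd : ∀ c ∈ Cr, ∀ c' ∈ Cr, c - c' ∈ L → c = c')
    (h : ∀ v ∈ B, v ∉ A → RegV A B g v ∨ ∃ c ∈ Cr, v - c ∈ L)
    (n : ℕ) : ∀ B' : Set (κ → ℤ), A ⊆ B' → B' ⊆ B → Inv L B' →
      (∀ w ∈ B', w ∉ A → ∀ w' ∈ B, g w' < g w → w' ∈ B') →
      (D.filter fun d => d ∈ B' ∧ d ∉ A).card ≤ n →
      ech L B' A = ∑ c ∈ Cr.filter (fun c => c ∈ B'), (-1) ^ nm (e c) := by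
  induction n with
  | zero =>
    intro B' hAB' hB'B hI hdown hn
    exact EchB_empty L A B hA D hD Cr e (fun c hc => (hCr c hc).2.1) B' hAB' hB'B hI
      (Finset.card_eq_zero.1 (Nat.le_zero.1 hn))
  | succ n ih =>
    intro B' hAB' hB'B hI hdown hn
    rcases (D.filter fun d => d ∈ B' ∧ d ∉ A).eq_empty_or_nonempty with hn0 | hne
    · exact EchB_empty L A B hA D hD Cr e (fun c hc => (hCr c hc).2.1) B' hAB' hB'B hI hn0
    obtain ⟨d, hd, hmax⟩ := Finset.exists_max_image _ g hne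
    rw [Finset.mem_filter] at hd
    obtain ⟨hdD, hdB', hdA⟩ := hd
    have hmax' : ∀ w ∈ B', w ∉ A → g w ≤ g d := by
      intro w hw hwA
      obtain ⟨l, hl, h2⟩ := hD w (hB'B hw) hwA
      rw [← hg l hl w]
      exact hmax _ (Finset.mem_filter.2 ⟨h2, (hI l hl w).1 hw, fun h5 => hwA ((hA l hl w).2 h5)⟩)
    set B'' : Set (κ → ℤ) := {w | w ∈ B' ∧ w - d ∉ L} with hB''
    have horb : ∀ w, g w < g d → w - d ∉ L := by
      intro w hw hl
      have h2 := hg _ hl d
      rw [add_sub_cancel] at h2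
      rw [h2] at hw
      exact lt_irrefl _ hw
    have hdB'' : d ∉ B'' := by
      rintro ⟨-, h2⟩
      rw [sub_self] at h2
      exact h2 L.zero_mem
    have hsub : B'' ⊆ B' := fun w hw => hw.1
    have hAB'' : A ⊆ B'' := by
      intro w hw
      refine ⟨hAB' hw, fun hl => hdA ?_⟩
      have h2 := (hA _ (L.neg_mem hl) w).1 hw
      have h3 : w + -(w - d) = d := by abel
      rwa [h3] at h2
    have hI'' : Inv L B'' := by
      intro l hl w
      show (w ∈ B' ∧ w - d ∉ L) ↔ (w + l ∈ B' ∧ w + l - d ∉ L)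
      rw [← hI l hl w]
      have : w + l - d = (w - d) + l := by abel
      rw [this, L.add_mem_cancel_right hl]
    have hdown'' : ∀ w ∈ B'', w ∉ A → ∀ w' ∈ B, g w' < g w → w' ∈ B'' := by
      intro w hw hwA w' hw' hlt
      exact ⟨hdown w hw.1 hwA w' hw' hlt, horb w' (lt_of_lt_of_le hlt (hmax' w hw.1 hwA))⟩
    have hbelow : ∀ w ∈ B, g w < g d → w ∈ B'' := fun w hw hlt =>
      ⟨hdown d hdB' hdA w hw hlt, horb w hlt⟩
    have hlev : ∀ w, w ∈ B' ↔ w ∈ B'' ∨ w - d ∈ L := by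
      intro w
      constructor
      · intro hw
        by_cases hl : w - d ∈ L
        · exact Or.inr hl
        · exact Or.inl ⟨hw, hl⟩
      · rintro (hw | hl)
        · exact hw.1
        · have h2 := (hI _ hl d).1 hdB'
          rwa [add_sub_cancel] at h2
    have hmem : ∀ w, w ∈ B'' ↔ w ∈ B' ∧ w - d ∉ L := fun w => Iff.rfl
    clear_value B''
    have hcard : (D.filter fun d => d ∈ B'' ∧ d ∉ A).card ≤ n := by
      have h2 : (D.filter fun d => d ∈ B'' ∧ d ∉ A) ⊆
          (D.filter fun d => d ∈ B' ∧ d ∉ A).erase d := by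
        intro w hw
        rw [Finset.mem_filter] at hw
        exact Finset.mem_erase.2 ⟨fun h3 => hdB'' (h3 ▸ hw.2.1),
          Finset.mem_filter.2 ⟨hw.1, hsub hw.2.1, hw.2.2⟩⟩
      have h3 := Finset.card_le_card h2
      rw [Finset.card_erase_of_mem (Finset.mem_filter.2 ⟨hdD, hdB', hdA⟩)] at h3
      omega
    have hfin : FinMod L B' A := ⟨D, fun v hv hvA => hD v (hB'B hv) hvA⟩
    have hadd := ech_add hA hI'' hI hAB'' hsub hfin
    have hlv := EchB_level hW hI'' d hdB'' hlev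
    have hih := ih B'' hAB'' (hsub.trans hB'B) hI'' hdown'' hcard
    rw [hadd, hlv, hih]
    by_cases hex : ∃ c ∈ Cr, d - c ∈ L
    · -- a critical orbit
      obtain ⟨c, hc, hcd⟩ := hex
      have hC : CriV A B g d (e c) := by
        refine EchB_criV hA hB hg (L.neg_mem hcd) ?_
        have h3 : d + -(d - c) = c := by abel
        rw [h3]
        exact (hCr c hc).2.2
      obtain ⟨hC1, hC2, hC3, hC4⟩ := hC
      have hes : es B'' d = (-1) ^ nm (e c) := by
        refine es_critical B'' d (e c) hdB'' (fun i hi s hm => ?_) (fun w hw hwB i hi hne => ?_)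
          (fun w hw hne hwe => ?_)
        · have h2 := hC1 (d + Pi.single i (sz s)) (Lev_near_single d i s)
          exact absurd (hmax' _ (hsub hm) h2.2) (not_le.2 (hC2 i hi s))
        · have h2 := hC3 w hw i hi hne
          have h3 := hC1 _ (Lev_near_update hw i)
          exact hbelow _ h3.1 (lt_of_lt_of_le h2 (hmax' w (hsub hwB) (hC1 w hw).2))
        · exact hbelow w (hC1 w hw).1 (hC4 w hw hne hwe)
      have hcB' : c ∈ B' := by
        have h3 : d + -(d - c) = c := by abel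
        have h4 := (hI _ (L.neg_mem hcd) d).1 hdB'
        rwa [h3] at h4
      have hcB'' : c ∉ B'' := fun h3 => ((hmem c).1 h3).2 (by
        rw [← neg_sub]
        exact L.neg_mem hcd)
      have hset : Cr.filter (fun c => c ∈ B') = insert c (Cr.filter fun c => c ∈ B'') := by
        ext x
        rw [Finset.mem_insert, Finset.mem_filter, Finset.mem_filter]
        constructor
        · rintro ⟨hx, hxB⟩
          rcases (hlev x).1 hxB with h5 | h5
          · exact Or.inr ⟨hx, h5⟩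
          · left
            refine hCd x hx c hc ?_
            have h6 : x - c = (x - d) + (d - c) := by abel
            rw [h6]
            exact L.add_mem h5 hcd
        · rintro (rfl | ⟨hx, hxB⟩)
          · exact ⟨hc, hcB'⟩
          · exact ⟨hx, hsub hxB⟩
      rw [hes, hset, Finset.sum_insert (fun h5 => hcB'' (Finset.mem_filter.1 h5).2)]
    · -- a regular orbit
      obtain ⟨i, s, hR⟩ := (h d (hB'B hdB') hdA).resolve_right hex
      have hes : es B'' d = 0 := by
        refine es_regular B'' d i s hdB'' fun w hw1 hw2 hw3 => ?_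
        have h2 : w = d ∨ w ∈ A ∨ (w ∈ B ∧ g w ≤ g d) := by
          rcases hw3 with hw3 | hw3
          · exact Or.inl hw3
          · by_cases hwA : w ∈ A
            · exact Or.inr (Or.inl hwA)
            · exact Or.inr (Or.inr ⟨hB'B (hsub hw3), hmax' w (hsub hw3) hwA⟩)
        rcases hR w hw1 hw2 h2 with h3 | ⟨h3, h4⟩
        · exact hAB'' h3
        · exact hbelow _ h3 h4
      have hset : Cr.filter (fun c => c ∈ B') = Cr.filter fun c => c ∈ B'' := by
        ext x
        rw [Finset.mem_filter, Finset.mem_filter]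
        refine and_congr_right fun hx => ⟨fun hxB => ?_, fun hxB => hsub hxB⟩
        rcases (hlev x).1 hxB with h5 | h5
        · exact h5
        · exfalso
          refine hex ⟨x, hx, ?_⟩
          rw [← neg_sub]
          exact L.neg_mem h5
      rw [hes, hset, zero_add]

/-- **Exact band theorem.** -/
theorem band_ech {L : AddSubgroup (κ → ℤ)} (hW : Wide L) {A B : Set (κ → ℤ)} (hAB : A ⊆ B)
    (hA : Inv L A) (hB : Inv L B) (hfin : FinMod L B A) (g : (κ → ℤ) → ℝ)
    (hg : ∀ l ∈ L, ∀ v, g (v + l) = g v) (Cr : Finset (κ → ℤ)) (e : (κ → ℤ) → κ → Bool)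
    (hCr : ∀ c ∈ Cr, c ∈ B ∧ c ∉ A ∧ CriV A B g c (e c))
    (hCd : ∀ c ∈ Cr, ∀ c' ∈ Cr, c - c' ∈ L → c = c')
    (h : ∀ v ∈ B, v ∉ A → RegV A B g v ∨ ∃ c ∈ Cr, v - c ∈ L) :
    ech L B A = ∑ c ∈ Cr, (-1) ^ nm (e c) := by
  classical
  obtain ⟨D, hD⟩ := hfin
  have h1 := EchB_band L hW A B hA hB D hD g hg Cr e hCr hCd h _ B hAB subset_rfl hB
    (fun _ _ _ w' hw' _ => hw') le_rfl
  rw [h1, Finset.filter_true_of_mem fun c hc => (hCr c hc).1]

end Pool.Agent.H45.AC
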