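import Pool.Agent.H45.AC.EchS

/-!
# Project AC: alternating sum over the lower star of a critical vertex
-/

set_option autoImplicit false

namespace Pool.Agent.H45.AC

open Pool.Agent.H47.ST

variable {κ : Type*} [Fintype κ] [DecidableEq κ]

omit [DecidableEq κ] in
/-- the lower star is finite -/
theorem EchC_finite (Lo : Set (κ → ℤ)) (v : κ → ℤ) : {σ | LS Lo v σ}.Finite := by
  classical
  refine Set.Finite.subset ((Fintype.piFinset fun i => Finset.Icc (v i - 1)
    (v i + 1)).powerset.finite_toSet) ?_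
  intro σ hσ
  rw [Finset.mem_coe, Finset.mem_powerset]
  intro w hw
  rw [Fintype.mem_piFinset]
  intro i
  have h1 := abs_le.1 (StarR_near (hσ.1 v hσ.2.1 w hw) i)
  rw [Finset.mem_Icc]
  constructor <;> linarith [h1.1, h1.2]

omit [DecidableEq κ] in
/-- the alternating number as a sum over the star -/
theorem EchC_sum (Lo : Set (κ → ℤ)) (v : κ → ℤ) (S : Finset (Finset (κ → ℤ)))
    (hS : ∀ σ, σ ∈ S ↔ LS Lo v σ) : es Lo v = ∑ σ ∈ S, (-1 : ℤ) ^ (σ.card + 1) := by
  classical
  have hmap : ∀ σ ∈ S, σ.card ∈ Finset.range (Fintype.card κ + 2) := by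
    intro σ hσ
    have h1 := ((hS σ).1 hσ).1.card_le
    rw [Finset.mem_range]
    omega
  rw [← Finset.sum_fiberwise_of_maps_to hmap]
  unfold es
  refine Finset.sum_congr rfl fun j _ => ?_
  have h1 : ({σ | LS Lo v σ ∧ σ.card = j} : Set (Finset (κ → ℤ))) =
      ((S.filter fun σ => σ.card = j : Finset (Finset (κ → ℤ))) : Set (Finset (κ → ℤ))) := by
    ext σ
    rw [Finset.mem_coe, Finset.mem_filter, hS]
    rfl
  rw [h1, Set.ncard_coe_finset]
  rw [Finset.sum_congr rfl (g := fun _ => (-1 : ℤ) ^ (j + 1)) (fun σ hσ => by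
    rw [(Finset.mem_filter.1 hσ).2])]
  rw [Finset.sum_const, nsmul_eq_mul, mul_comm]

omit [DecidableEq κ] in
theorem EchC_U_le (v : κ → ℤ) (e : κ → Bool) (i : κ) :
    StarC_U v e i ≤ v ∧ v ≤ StarC_U v e i + 1 := by
  constructor
  · intro k
    unfold StarC_U
    by_cases h : e k = false ∧ StarC_ka k ≤ StarC_ka i
    · simp only [if_pos h]
      omega
    · simp only [if_neg h]
      exact le_rfl
  · intro k
    simp only [Pi.add_apply, Pi.one_apply]
    unfold StarC_U
    by_cases h : e k = false ∧ StarC_ka k ≤ StarC_ka i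
    · simp only [if_pos h]
      omega
    · simp only [if_neg h]
      omega

omit [DecidableEq κ] in
theorem EchC_U_anti (v : κ → ℤ) (e : κ → Bool) {i j : κ} (h : StarC_ka i ≤ StarC_ka j) :
    StarC_U v e j ≤ StarC_U v e i ∧ StarC_U v e i ≤ StarC_U v e j + 1 := by
  constructor
  · intro k
    unfold StarC_U
    by_cases hk : e k = false ∧ StarC_ka k ≤ StarC_ka i
    · have hk' : e k = false ∧ StarC_ka k ≤ StarC_ka j := ⟨hk.1, hk.2.trans h⟩
      simp only [if_pos hk, if_pos hk']
      exact le_rfl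
    · simp only [if_neg hk]
      by_cases hj : e k = false ∧ StarC_ka k ≤ StarC_ka j
      · simp only [if_pos hj]
        omega
      · simp only [if_neg hj]
        exact le_rfl
  · exact (EchC_U_le v e i).1.trans (EchC_U_le v e j).2

omit [DecidableEq κ] in
/-- the flag is a simplex of the lower star -/
theorem EchC_F_LS (Lo : Set (κ → ℤ)) (v : κ → ℤ) (e : κ → Bool)
    (hc : ∀ w, Nr v w → w ≠ v → (∀ i, e i = true → w i = v i) → w ∈ Lo) :
    LS Lo v (StarC_F v e) := by
  have hmem : ∀ w ∈ StarC_F v e, w = v ∨ ∃ i, e i = false ∧ w = StarC_U v e i := by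
    intro w hw
    unfold StarC_F at hw
    rcases Finset.mem_insert.1 hw with h | h
    · exact Or.inl h
    · obtain ⟨i, hi, h1⟩ := Finset.mem_image.1 h
      exact Or.inr ⟨i, by simpa using hi, h1.symm⟩
  refine ⟨?_, Finset.mem_insert_self _ _, ?_⟩
  · intro x hx y hy
    rcases hmem x hx with h1 | ⟨i, hi, h1⟩ <;> rcases hmem y hy with h2 | ⟨j, hj, h2⟩
    · rw [h1, h2]
      left
      exact ⟨le_rfl, fun k => by simp⟩
    · rw [h1, h2]
      right
      exact EchC_U_le v e j
    · rw [h1, h2]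
      left
      exact EchC_U_le v e i
    · rw [h1, h2]
      rcases le_total (StarC_ka i) (StarC_ka j) with h | h
      · right
        exact EchC_U_anti v e h
      · left
        exact EchC_U_anti v e h
  · intro w hw hne
    rcases hmem w hw with h | ⟨i, hi, h⟩
    · exact absurd h hne
    · refine hc w ?_ hne ?_
      · intro k
        rw [h, abs_le]
        have h1 := (EchC_U_le v e i).1 k
        have h2 := (EchC_U_le v e i).2 k
        simp only [Pi.add_apply, Pi.one_apply] at h2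
        constructor <;> linarith
      · intro k hk
        rw [h]
        unfold StarC_U
        rw [if_neg]
        rintro ⟨h1, _⟩
        rw [hk] at h1
        exact absurd h1 (by decide)

omit [DecidableEq κ] in
/-- the flag has no direction -/
theorem EchC_F_noD (v : κ → ℤ) (e : κ → Bool) :
    ¬ ∃ p : κ × Bool, StarC_D v e (StarC_F v e) p.1 p.2 := by
  rintro ⟨⟨i, s⟩, hD⟩
  rcases hD with ⟨h1, _⟩ | ⟨_, h2, _⟩
  · obtain ⟨hi, w, hw, hne⟩ := h1.1
    unfold StarC_F at hw
    rcases Finset.mem_insert.1 hw with h | h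
    · exact hne (by rw [h])
    · obtain ⟨j, hj, h3⟩ := Finset.mem_image.1 h
      apply hne
      rw [← h3]
      unfold StarC_U
      rw [if_neg]
      rintro ⟨h4, _⟩
      rw [h4] at hi
      exact absurd hi (by decide)
  · refine h2.1.2 ?_
    unfold StarC_F
    refine Finset.mem_insert_of_mem (Finset.mem_image_of_mem _ ?_)
    simpa using h2.1.1

/-- The alternating sum over the lower star of a critical vertex (hypotheses of
`EX_critical`). -/
theorem es_critical (Lo : Set (κ → ℤ)) (v : κ → ℤ) (e : κ → Bool) (hv : v ∉ Lo)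
    (ha : ∀ i, e i = true → ∀ s, v + Pi.single i (sz s) ∉ Lo)
    (hb : ∀ w, Nr v w → w ∈ Lo → ∀ i, e i = true → w i ≠ v i → Function.update w i (v i) ∈ Lo)
    (hc : ∀ w, Nr v w → w ≠ v → (∀ i, e i = true → w i = v i) → w ∈ Lo) :
    es Lo v = (-1) ^ nm e := by
  classical
  have hlow : ∀ σ, LS Lo v σ → ∀ i s, StarC_D v e σ i s →
      StarR_a v i s σ + Pi.single i (sz s) ∈ Lo := by
    intro σ hσ i s hD
    rcases hD with ⟨h1, h2⟩ | ⟨h1, h2, h3⟩
    · exact StarC_one_low hb hσ h1 h2
    · subst h3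
      exact StarC_two_low hc hσ h1 h2
  have hne : ∀ σ, LS Lo v σ → ∀ i s, StarC_D v e σ i s →
      StarR_a v i s σ + Pi.single i (sz s) ≠ v := fun σ hσ i s hD h => hv (h ▸ hlow σ hσ i s hD)
  have hinsD : ∀ σ, LS Lo v σ → ∀ i s, StarC_D v e σ i s →
      StarC_D v e (insert (StarR_a v i s σ + Pi.single i (sz s)) σ) i s := by
    intro σ hσ i s hD
    rcases hD with ⟨h1, h2⟩ | ⟨h1, h2, h3⟩
    · exact StarC_one_stable hσ h1 h2 subset_rfl
        (Finset.mem_insert_of_mem (StarC_a_mem hσ i s))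
    · subst h3
      refine StarC_two_stable hσ h1 h2 subset_rfl fun l hl hlt => ?_
      refine Finset.mem_insert_of_mem ?_
      by_contra hcon
      exact absurd (h2.2 l ⟨hl, hcon⟩) (not_le.2 hlt)
  have herD : ∀ σ, LS Lo v σ → ∀ i s, StarC_D v e σ i s →
      StarC_D v e (σ.erase (StarR_a v i s σ + Pi.single i (sz s))) i s := by
    intro σ hσ i s hD
    rcases hD with ⟨h1, h2⟩ | ⟨h1, h2, h3⟩
    · exact StarC_one_stable hσ h1 h2 ((Finset.erase_subset _ _).trans (Finset.subset_insert _ _))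
        (Finset.mem_erase.2 ⟨(StarC_t_ne_a v i s σ).symm, StarC_a_mem hσ i s⟩)
    · subst h3
      refine StarC_two_stable hσ h1 h2
        ((Finset.erase_subset _ _).trans (Finset.subset_insert _ _)) fun l hl hlt => ?_
      refine Finset.mem_erase.2 ⟨(StarC_two_ne_U hσ h1 h2 hlt).symm, ?_⟩
      by_contra hcon
      exact absurd (h2.2 l ⟨hl, hcon⟩) (not_le.2 hlt)
  -- toggling
  have hins : ∀ σ, LS Lo v σ → (∃ p : κ × Bool, StarC_D v e σ p.1 p.2) →
      LS Lo v (insert (StarC_t v e σ) σ) ∧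
      (∃ p : κ × Bool, StarC_D v e (insert (StarC_t v e σ) σ) p.1 p.2) ∧
      StarC_t v e (insert (StarC_t v e σ) σ) = StarC_t v e σ := by
    rintro σ hσ ⟨⟨i, s⟩, hD⟩
    have hD' : StarC_D v e σ i s := hD
    have h1 := StarC_ins hσ (hlow σ hσ i s hD')
    have h3 := hinsD σ hσ i s hD'
    rw [StarC_t_eq hD']
    refine ⟨h1, ⟨(i, s), h3⟩, ?_⟩
    rw [StarC_t_eq h3, StarC_a_stable hσ subset_rfl h1.1
      (Finset.mem_insert_of_mem (StarC_a_mem hσ i s))]
  have her : ∀ σ, LS Lo v σ → (∃ p : κ × Bool, StarC_D v e σ p.1 p.2) →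
      LS Lo v (σ.erase (StarC_t v e σ)) ∧
      (∃ p : κ × Bool, StarC_D v e (σ.erase (StarC_t v e σ)) p.1 p.2) ∧
      StarC_t v e (σ.erase (StarC_t v e σ)) = StarC_t v e σ := by
    rintro σ hσ ⟨⟨i, s⟩, hD⟩
    have hD' : StarC_D v e σ i s := hD
    have h2 := StarC_er (i := i) (s := s) hσ (hne σ hσ i s hD')
    have h4 := herD σ hσ i s hD'
    rw [StarC_t_eq hD']
    refine ⟨h2, ⟨(i, s), h4⟩, ?_⟩
    rw [StarC_t_eq h4, StarC_a_stable hσ
      ((Finset.erase_subset _ _).trans (Finset.subset_insert _ _)) h2.1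
      (Finset.mem_erase.2 ⟨(StarC_t_ne_a v i s σ).symm, StarC_a_mem hσ i s⟩)]
  -- the sum over the star
  set S := (EchC_finite Lo v).toFinset with hS
  have hSm : ∀ σ, σ ∈ S ↔ LS Lo v σ := fun σ => by
    rw [hS, Set.Finite.mem_toFinset]
    rfl
  rw [EchC_sum Lo v S hSm,
    ← Finset.sum_filter_add_sum_filter_not S (fun σ => ∃ p : κ × Bool, StarC_D v e σ p.1 p.2)]
  have hzero : ∑ σ ∈ S.filter (fun σ => ∃ p : κ × Bool, StarC_D v e σ p.1 p.2),
      (-1 : ℤ) ^ (σ.card + 1) = 0 := by
    refine Finset.sum_involution (fun σ _ => if StarC_t v e σ ∈ σ then σ.erase (StarC_t v e σ)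
      else insert (StarC_t v e σ) σ) ?_ ?_ ?_ ?_
    · intro σ hσ
      by_cases ht : StarC_t v e σ ∈ σ
      · rw [if_pos ht]
        have h1 := Finset.card_erase_add_one ht
        rw [← h1, pow_succ (-1 : ℤ) ((σ.erase (StarC_t v e σ)).card + 1)]
        ring
      · rw [if_neg ht, Finset.card_insert_of_notMem ht, pow_succ (-1 : ℤ) (σ.card + 1)]
        ring
    · intro σ hσ _ heq
      by_cases ht : StarC_t v e σ ∈ σ
      · rw [if_pos ht] at heq
        have : StarC_t v e σ ∈ σ.erase (StarC_t v e σ) := by rw [heq]; exact ht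
        exact absurd this (Finset.notMem_erase (StarC_t v e σ) σ)
      · rw [if_neg ht] at heq
        have h9 : StarC_t v e σ ∈ insert (StarC_t v e σ) σ := Finset.mem_insert_self _ _
        rw [heq] at h9
        exact ht h9
    · intro σ hσ
      rw [Finset.mem_filter, hSm] at hσ ⊢
      by_cases ht : StarC_t v e σ ∈ σ
      · rw [if_pos ht]
        obtain ⟨h1, h2, _⟩ := her σ hσ.1 hσ.2
        exact ⟨h1, h2⟩
      · rw [if_neg ht]
        obtain ⟨h1, h2, _⟩ := hins σ hσ.1 hσ.2
        exact ⟨h1, h2⟩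
    · intro σ hσ
      rw [Finset.mem_filter, hSm] at hσ
      by_cases ht : StarC_t v e σ ∈ σ
      · obtain ⟨_, _, h3⟩ := her σ hσ.1 hσ.2
        simp only [if_pos ht]
        rw [h3, if_neg (Finset.notMem_erase _ _), Finset.insert_erase ht]
      · obtain ⟨_, _, h3⟩ := hins σ hσ.1 hσ.2
        simp only [if_neg ht]
        rw [h3, if_pos (Finset.mem_insert_self _ _), Finset.erase_insert ht]
  have hone : S.filter (fun σ => ¬ ∃ p : κ × Bool, StarC_D v e σ p.1 p.2) = {StarC_F v e} := by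
    ext σ
    rw [Finset.mem_filter, hSm, Finset.mem_singleton]
    constructor
    · rintro ⟨h1, h2⟩
      exact StarC_crit h1 h2
    · intro h
      rw [h]
      exact ⟨EchC_F_LS Lo v e hc, EchC_F_noD v e⟩
  rw [hzero, hone, Finset.sum_singleton, StarC_F_card, zero_add, pow_succ, pow_succ]
  ring

end Pool.Agent.H45.AC
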