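import Pool.Agent.H45.AC.Ech

/-!
# Project AC: alternating sums over lower stars
-/

set_option autoImplicit false

namespace Pool.Agent.H45.AC

open Pool.Agent.H47.ST

variable {κ : Type*} [Fintype κ] [DecidableEq κ]

/-- the alternating number of simplices of the lower star of `v` -/
noncomputable def es (Lo : Set (κ → ℤ)) (v : κ → ℤ) : ℤ :=
  ∑ j ∈ Finset.range (Fintype.card κ + 2),
    (-1) ^ (j + 1) * (({σ | LS Lo v σ ∧ σ.card = j} : Set (Finset (κ → ℤ))).ncard : ℤ)

/-- the alternating number as a sum over the lower star -/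
theorem EchS_sum (Lo : Set (κ → ℤ)) (v : κ → ℤ) :
    es Lo v = ∑ σ ∈ (star_finite Lo v).toFinset, (-1 : ℤ) ^ (σ.card + 1) := by
  classical
  have hmem : ∀ σ, σ ∈ (star_finite Lo v).toFinset ↔ LS Lo v σ := fun σ => by
    rw [Set.Finite.mem_toFinset]; rfl
  have hmaps : ∀ σ ∈ (star_finite Lo v).toFinset,
      σ.card ∈ Finset.range (Fintype.card κ + 2) := by
    intro σ hσ
    have h1 := ((hmem σ).1 hσ).1.card_le
    rw [Finset.mem_range]
    omega
  rw [← Finset.sum_fiberwise_of_maps_to hmaps]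
  unfold es
  refine Finset.sum_congr rfl fun j _ => ?_
  have h1 : ({σ | LS Lo v σ ∧ σ.card = j} : Set (Finset (κ → ℤ))) =
      (((star_finite Lo v).toFinset.filter (fun σ => σ.card = j) :
        Finset (Finset (κ → ℤ))) : Set (Finset (κ → ℤ))) := by
    ext σ
    rw [Finset.mem_coe, Finset.mem_filter, hmem]
    rfl
  rw [h1, Set.ncard_coe_finset]
  have h2 : ∑ σ ∈ (star_finite Lo v).toFinset.filter (fun σ => σ.card = j),
      (-1 : ℤ) ^ (σ.card + 1) =
      ∑ _σ ∈ (star_finite Lo v).toFinset.filter (fun σ => σ.card = j), (-1 : ℤ) ^ (j + 1) := by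
    refine Finset.sum_congr rfl fun σ hσ => ?_
    rw [(Finset.mem_filter.1 hσ).2]
  rw [h2, Finset.sum_const, nsmul_eq_mul]
  ring

/-- The alternating sum over the lower star of a regular vertex vanishes (hypotheses of
`EX_regular`). -/
theorem es_regular (Lo : Set (κ → ℤ)) (v : κ → ℤ) (i : κ) (s : Bool) (hv : v ∉ Lo)
    (h1 : ∀ w, Nr v w → sz s * (w i - v i) ≤ 0 → (w = v ∨ w ∈ Lo) →
      w + Pi.single i (sz s) ∈ Lo) : es Lo v = 0 := by
  classical
  have hc : (0 : ℤ) ≤ Fintype.card κ := Int.natCast_nonneg _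
  set t : Finset (κ → ℤ) → (κ → ℤ) := fun σ => StarR_a v i s σ + Pi.single i (sz s) with ht
  have hsp : ∀ σ, LS Lo v σ → StarR_a v i s σ ∈ σ ∧
      (∀ w ∈ σ, StarR_key i s (StarR_a v i s σ) ≤ StarR_key i s w) ∧
      sz s * (StarR_a v i s σ i - v i) ≤ 0 := by
    intro σ hσ
    obtain ⟨h2, h3⟩ := StarR_a_spec v i s ⟨v, hσ.2.1⟩
    exact ⟨h2, h3, StarR_ile (hσ.1 _ h2 _ hσ.2.1) (h3 v hσ.2.1)⟩
  have htLo : ∀ σ, LS Lo v σ → t σ ∈ Lo := by
    intro σ hσ
    obtain ⟨h2, _, h4⟩ := hsp σ hσ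
    refine h1 _ (StarR_near (hσ.1 _ hσ.2.1 _ h2)) h4 ?_
    by_cases h : StarR_a v i s σ = v
    · exact Or.inl h
    · exact Or.inr (hσ.2.2 _ h2 h)
  have htv : ∀ σ, LS Lo v σ → t σ ≠ v := fun σ hσ h => hv (h ▸ htLo σ hσ)
  have hkey : ∀ σ, StarR_key i s (StarR_a v i s σ) < StarR_key i s (t σ) := by
    intro σ
    have := StarR_key_t i s (StarR_a v i s σ)
    simp only [ht]
    rw [this]
    linarith
  have hta : ∀ σ, t σ ≠ StarR_a v i s σ := fun σ h => by
    have := hkey σ
    rw [h] at this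
    exact lt_irrefl _ this
  have hins : ∀ σ, LS Lo v σ → LS Lo v (insert (t σ) σ) := by
    intro σ hσ
    obtain ⟨h2, h3, _⟩ := hsp σ hσ
    have hadj : ∀ w ∈ σ, Adj (t σ) w := fun w hw => StarR_adj (hσ.1 _ h2 _ hw) (h3 w hw)
    refine ⟨?_, Finset.mem_insert_of_mem hσ.2.1, ?_⟩
    · intro x hx y hy
      rcases Finset.mem_insert.1 hx with hx | hx <;> rcases Finset.mem_insert.1 hy with hy | hy
      · rw [hx, hy]
        left
        exact ⟨le_rfl, fun k => by simp⟩
      · rw [hx]; exact hadj y hy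
      · rw [hy]; exact (hadj x hx).symm
      · exact hσ.1 x hx y hy
    · intro w hw hne
      rcases Finset.mem_insert.1 hw with hw | hw
      · rw [hw]; exact htLo σ hσ
      · exact hσ.2.2 w hw hne
  have hera : ∀ σ, LS Lo v σ → LS Lo v (σ.erase (t σ)) := fun σ hσ =>
    ⟨hσ.1.mono (Finset.erase_subset _ _), Finset.mem_erase.2 ⟨(htv σ hσ).symm, hσ.2.1⟩,
      fun w hw hne => hσ.2.2 w (Finset.mem_of_mem_erase hw) hne⟩
  have hains : ∀ σ, LS Lo v σ → ∀ ρ, ρ ⊆ insert (t σ) σ → Simp ρ → StarR_a v i s σ ∈ ρ →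
      StarR_a v i s ρ = StarR_a v i s σ := by
    intro σ hσ ρ hρ hρS haρ
    refine StarR_a_eq v i s hρS haρ fun w hw => ?_
    rcases Finset.mem_insert.1 (hρ hw) with hw' | hw'
    · rw [hw']; exact (hkey σ).le
    · exact (hsp σ hσ).2.1 w hw'
  have htins : ∀ σ, LS Lo v σ → t (insert (t σ) σ) = t σ := by
    intro σ hσ
    have := hains σ hσ (insert (t σ) σ) subset_rfl (hins σ hσ).1
      (Finset.mem_insert_of_mem (hsp σ hσ).1)
    simp only [ht] at this ⊢
    rw [this]
  have htera : ∀ σ, LS Lo v σ → t (σ.erase (t σ)) = t σ := by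
    intro σ hσ
    have := hains σ hσ (σ.erase (t σ))
      ((Finset.erase_subset _ _).trans (Finset.subset_insert _ _))
      (hσ.1.mono (Finset.erase_subset _ _))
      (Finset.mem_erase.2 ⟨(hta σ).symm, (hsp σ hσ).1⟩)
    simp only [ht] at this ⊢
    rw [this]
  have hmem : ∀ σ, σ ∈ (star_finite Lo v).toFinset ↔ LS Lo v σ := fun σ => by
    rw [Set.Finite.mem_toFinset]; rfl
  rw [EchS_sum]
  refine Finset.sum_involution
    (fun σ _ => if t σ ∈ σ then σ.erase (t σ) else insert (t σ) σ) ?_ ?_ ?_ ?_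
  · intro σ hσ
    by_cases h : t σ ∈ σ
    · simp only [if_pos h]
      have h3 := Finset.card_erase_add_one h
      rw [← h3]
      ring
    · simp only [if_neg h]
      rw [Finset.card_insert_of_notMem h]
      ring
  · intro σ hσ _
    by_cases h : t σ ∈ σ
    · simp only [if_pos h]
      exact fun h3 => Finset.erase_eq_self.1 h3 h
    · simp only [if_neg h]
      exact fun h3 => h (Finset.insert_eq_self.1 h3)
  · intro σ hσ
    by_cases h : t σ ∈ σ
    · simp only [if_pos h]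
      exact (hmem _).2 (hera σ ((hmem σ).1 hσ))
    · simp only [if_neg h]
      exact (hmem _).2 (hins σ ((hmem σ).1 hσ))
  · intro σ hσ
    have hσ' := (hmem σ).1 hσ
    by_cases h : t σ ∈ σ
    · simp only [if_pos h]
      rw [htera σ hσ', if_neg (Finset.notMem_erase _ _), Finset.insert_erase h]
    · simp only [if_neg h]
      rw [htins σ hσ', if_pos (Finset.mem_insert_self _ _), Finset.erase_insert h]

end Pool.Agent.H45.AC
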