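import Pool.Agent.H45.AC.EchB
import Pool.Agent.H47.ST.Fine

/-!
# Project AC: Euler characteristic of the bands of fine grids
-/

set_option autoImplicit false

namespace Pool.Agent.H45.AC

open Filter Topology
open Pool.Agent.H47.ST
open Pool.Agent.H47.QG (sg neg)

variable {ι : Type*} [Fintype ι] [DecidableEq ι]

/-- The nearest vertex of a standard critical point is a critical vertex. -/
theorem FineE_core (c y : ι → ℝ) (hc : ∀ i, c i ≠ 0) (ρ C0 : ℝ) (m : ℕ) (hm : 0 < m)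
    (hbig : 2 / (m : ℝ) < ρ / 2)
    (A B : Set (ι → ℤ)) (g : (ι → ℤ) → ℝ)
    (hAB : ∀ w, Cl y ρ (ps m w) → w ∈ B ∧ w ∉ A)
    (hval : ∀ w, Cl y ρ (ps m w) → g w = C0 + FineC_E c y m w / (m : ℝ) ^ 2)
    (v : ι → ℤ) (hv : Cl y (ρ / 2) (ps m v)) (hall : ∀ i, |(v i : ℝ) - m * y i| < 1 / 2) :
    CriV A B g v (spat c) := by
  have hm' : (0 : ℝ) < m := Nat.cast_pos.2 hm
  have hcl : ∀ w : ι → ℤ, ∀ k : ℕ, k ≤ 2 → (∀ i, |w i - v i| ≤ k) → Cl y ρ (ps m w) := by
    intro w k hk h i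
    have h1 := FineC_cl y (ρ / 2) m hm v w k hv h i
    have h2 : (k : ℝ) / m ≤ 2 / m := by
      apply div_le_div_of_nonneg_right _ hm'.le
      exact_mod_cast hk
    linarith
  have hlt : ∀ w w' : ι → ℤ, Cl y ρ (ps m w) → Cl y ρ (ps m w') →
      FineC_E c y m w < FineC_E c y m w' → g w < g w' := by
    intro w w' h1 h2 h3
    rw [hval w h1, hval w' h2]
    have : FineC_E c y m w / (m : ℝ) ^ 2 < FineC_E c y m w' / (m : ℝ) ^ 2 :=
      div_lt_div_of_pos_right h3 (by positivity)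
    linarith
  have hnear : ∀ w, Nr v w → Cl y ρ (ps m w) := fun w hw => hcl w 1 (by norm_num) (by
    intro i; exact_mod_cast hw i)
  have hnear2 : ∀ w, Nr v w → ∀ i s, Cl y ρ (ps m (w + Pi.single i (sz s))) := by
    intro w hw i s
    refine hcl _ 2 le_rfl fun j => ?_
    have h1 := hw j
    by_cases hj : j = i
    · subst hj
      have h2 : (w + Pi.single j (sz s) : ι → ℤ) j - v j = (w j - v j) + sz s := by
        simp only [Pi.add_apply, Pi.single_eq_same]
        ring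
      rw [h2]
      have h3 := abs_le.1 h1
      rw [abs_le]
      rcases StarR_sz s with hs | hs <;> rw [hs] <;> constructor <;> push_cast <;> linarith [h3.1, h3.2]
    · have h2 : (w + Pi.single i (sz s) : ι → ℤ) j - v j = w j - v j := by
        simp [hj]
      rw [h2]
      push_cast
      linarith
  have hstep2 : ∀ (w : ι → ℤ) (i : ι) (s : Bool),
      0 < c i * (2 * (sz s : ℝ) * ((w i : ℝ) - m * y i) + 1) →
      FineC_E c y m w < FineC_E c y m (w + Pi.single i (sz s)) := by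
    intro w i s h
    have e1 : c i * ((w i : ℝ) - m * y i) ^ 2 <
        c i * (((w + Pi.single i (sz s) : ι → ℤ) i : ℝ) - m * y i) ^ 2 := by
      simp only [Pi.add_apply, Pi.single_eq_same]
      push_cast
      have : c i * ((w i : ℝ) + (sz s : ℝ) - m * y i) ^ 2 = c i * ((w i : ℝ) - m * y i) ^ 2 +
          c i * (2 * (sz s : ℝ) * ((w i : ℝ) - m * y i) + (sz s : ℝ) ^ 2) := by ring
      rw [this]
      have h2 : (sz s : ℝ) ^ 2 = 1 := by
        rcases FineC_sz s with h3 | h3 <;> rw [h3] <;> norm_num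
      rw [h2]
      linarith
    refine FineC_lt c y m _ _ (fun j => ?_) i e1
    by_cases hj : j = i
    · subst hj; exact e1.le
    · simp [hj]
  refine ⟨fun w hw => hAB w (hnear w hw), ?_, ?_, ?_⟩
  · intro i hi s
    have hci : 0 < c i := by simpa [spat] using hi
    have hvn : Nr v v := fun j => by simp
    refine hlt _ _ (hnear v hvn) (hnear2 v hvn i s) (hstep2 v i s ?_)
    apply mul_pos hci
    have h2 := abs_lt.1 (hall i)
    rcases FineC_sz s with h3 | h3 <;> rw [h3] <;> linarith [h2.1, h2.2]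
  · intro w hw i hi hne
    have hci : 0 < c i := by simpa [spat] using hi
    have hup : Nr v (Function.update w i (v i)) := by
      intro j
      by_cases hj : j = i
      · subst hj; simp
      · rw [Function.update_of_ne hj]; exact hw j
    have e1 : c i * ((Function.update w i (v i) i : ℤ) - m * y i) ^ 2 <
        c i * ((w i : ℝ) - m * y i) ^ 2 := by
      rw [Function.update_self]
      apply mul_lt_mul_of_pos_left _ hci
      rw [sq_lt_sq]
      have h2 := hall i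
      have h3 : (1 : ℝ) ≤ |(w i : ℝ) - v i| := by
        have : (1 : ℤ) ≤ |w i - v i| := Int.one_le_abs (sub_ne_zero.2 hne)
        exact_mod_cast this
      have h4 : |(w i : ℝ) - v i| ≤ |(w i : ℝ) - m * y i| + |(v i : ℝ) - m * y i| := by
        have : (w i : ℝ) - v i = ((w i : ℝ) - m * y i) - ((v i : ℝ) - m * y i) := by ring
        rw [this]
        exact abs_sub _ _
      linarith
    refine hlt _ _ (hnear _ hup) (hnear w hw) (FineC_lt c y m _ _ (fun j => ?_) i e1)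
    by_cases hj : j = i
    · subst hj; exact e1.le
    · rw [Function.update_of_ne hj]
  · intro w hw hne hsame
    have hterm : ∀ j, c j * ((w j : ℝ) - m * y j) ^ 2 ≤ c j * ((v j : ℝ) - m * y j) ^ 2 ∧
        (w j ≠ v j → c j * ((w j : ℝ) - m * y j) ^ 2 < c j * ((v j : ℝ) - m * y j) ^ 2) := by
      intro j
      by_cases hj : w j = v j
      · rw [hj]
        exact ⟨le_rfl, fun h => absurd rfl h⟩
      · have hcj : c j < 0 := by
          rcases lt_or_gt_of_ne (hc j) with h | h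
          · exact h
          · exact absurd (hsame j (by simpa [spat] using h)) hj
        have h2 := hall j
        have h3 : (1 : ℝ) ≤ |(w j : ℝ) - v j| := by
          have : (1 : ℤ) ≤ |w j - v j| := Int.one_le_abs (sub_ne_zero.2 hj)
          exact_mod_cast this
        have h4 : |(w j : ℝ) - v j| ≤ |(w j : ℝ) - m * y j| + |(v j : ℝ) - m * y j| := by
          have : (w j : ℝ) - v j = ((w j : ℝ) - m * y j) - ((v j : ℝ) - m * y j) := by ring
          rw [this]
          exact abs_sub _ _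
        have h5 : ((v j : ℝ) - m * y j) ^ 2 < ((w j : ℝ) - m * y j) ^ 2 := by
          rw [sq_lt_sq]
          linarith
        have h6 := mul_lt_mul_of_neg_left h5 hcj
        exact ⟨h6.le, fun _ => h6⟩
    obtain ⟨j, hj⟩ : ∃ j, w j ≠ v j := by
      by_contra hcon
      push Not at hcon
      exact hne (funext hcon)
    have hvn : Nr v v := fun j => by simp
    exact hlt _ _ (hnear w hw) (hnear v hvn)
      (FineC_lt c y m _ _ (fun k => (hterm k).1) j ((hterm j).2 hj))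

/-- near a standard critical point between the levels: the nearest vertex -/
theorem FineE_std (q Q f f' : (ι → ℝ) → ℝ) (R a α β : ℝ) (hq : ContDiff ℝ 1 q)
    (hQ : ContDiff ℝ 1 Q) (hf : ContDiff ℝ 1 f) (y c : ι → ℝ)
    (hqy : q y < R) (hQy : -a < Q y) (ha : α < f y) (hb : f y < β) (hs : StdAt f' y c) :
    ∀ᶠ M : ℕ in atTop, ∀ v : ι → ℤ, (∀ i, |(v i : ℝ) - 2 ^ M * y i| < 1 / 2) →
      CriV (Lv q Q f R a α (2 ^ M)) (Lv q Q f R a β (2 ^ M)) (fun v => f' (ps (2 ^ M) v)) v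
        (spat c) := by
  obtain ⟨hc, r0, hr0, hst⟩ := hs
  obtain ⟨d1, hd1, h1⟩ := FineC_cont q hq y (Set.Iio R) isOpen_Iio hqy
  obtain ⟨d2, hd2, h2⟩ := FineC_cont Q hQ y (Set.Ioi (-a)) isOpen_Ioi hQy
  obtain ⟨d3, hd3, h3⟩ := FineC_cont f hf y (Set.Ioo α β) isOpen_Ioo ⟨ha, hb⟩
  set ρ := min (min r0 d1) (min d2 d3) with hρdef
  have hρ : 0 < ρ := lt_min (lt_min hr0 hd1) (lt_min hd2 hd3)
  have hρ0 : ρ ≤ r0 := (min_le_left _ _).trans (min_le_left _ _)
  have hρ1 : ρ ≤ d1 := (min_le_left _ _).trans (min_le_right _ _)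
  have hρ2 : ρ ≤ d2 := (min_le_right _ _).trans (min_le_left _ _)
  have hρ3 : ρ ≤ d3 := (min_le_right _ _).trans (min_le_right _ _)
  have hE1 : ∀ᶠ M : ℕ in atTop, 4 / ρ < (2 : ℝ) ^ M :=
    (tendsto_pow_atTop_atTop_of_one_lt (by norm_num : (1 : ℝ) < 2)).eventually_gt_atTop _
  filter_upwards [hE1] with M hM1 v hv
  have hcast : (((2 : ℕ) ^ M : ℕ) : ℝ) = 2 ^ M := by push_cast; rfl
  have hMpos : (0 : ℝ) < 2 ^ M := by positivity
  rw [div_lt_iff₀ hρ] at hM1
  refine FineE_core c y hc ρ (f' y) (2 ^ M) (by positivity)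
    (by
      rw [hcast, div_lt_iff₀ (by positivity)]
      linarith)
    (Lv q Q f R a α (2 ^ M)) (Lv q Q f R a β (2 ^ M)) (fun v => f' (ps (2 ^ M) v))
    (by
      intro w hw
      have e1 : q (ps (2 ^ M) w) < R := h1 _ fun i => lt_of_lt_of_le (hw i) hρ1
      have e2 : -a < Q (ps (2 ^ M) w) := h2 _ fun i => lt_of_lt_of_le (hw i) hρ2
      have e3 : f (ps (2 ^ M) w) ∈ Set.Ioo α β := h3 _ fun i => lt_of_lt_of_le (hw i) hρ3
      refine ⟨⟨e1.le, Or.inr e3.2.le⟩, ?_⟩
      rintro ⟨_, h5 | h5⟩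
      · exact absurd h5 (not_le.2 e2)
      · exact absurd h5 (not_le.2 e3.1))
    (by
      intro w hw
      show f' (ps (2 ^ M) w) = _
      rw [hst _ fun i => lt_of_lt_of_le (hw i) hρ0]
      congr 1
      unfold FineC_E
      rw [Finset.sum_div]
      refine Finset.sum_congr rfl fun i _ => ?_
      unfold ps
      have hm0 : (((2 : ℕ) ^ M : ℕ) : ℝ) ≠ 0 := by rw [hcast]; positivity
      field_simp)
    v ?_ ?_
  · intro i
    have h4 := hv i
    have e : ps (2 ^ M) v i - y i = ((v i : ℝ) - 2 ^ M * y i) / 2 ^ M := by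
      unfold ps
      rw [hcast]
      field_simp
    rw [e, abs_div, abs_of_pos hMpos, div_lt_iff₀ hMpos]
    nlinarith
  · intro i
    rw [hcast]
    exact hv i

/-- rounding without ties -/
theorem FineE_round (x : ℝ) (h : ∀ b : ℤ, x ≠ b + 1 / 2) : |(round x : ℝ) - x| < 1 / 2 := by
  rw [abs_sub_comm]
  refine lt_of_le_of_ne (abs_sub_round x) fun h1 => ?_
  rcases abs_choice (x - round x) with h2 | h2
  · rw [h2] at h1
    exact h (round x) (by linarith)
  · rw [h2] at h1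
    refine h (round x - 1) ?_
    push_cast
    linarith

/-- different points which are not equivalent have inequivalent rounded vertices -/
theorem FineE_inj (L : AddSubgroup (ι → ℤ)) (z z' : ι → ℝ) (h : ∀ l ∈ L, z ≠ z' + rl l) :
    ∀ᶠ M : ℕ in atTop, (fun i => round ((2 : ℝ) ^ M * z i)) -
      (fun i => round ((2 : ℝ) ^ M * z' i)) ∉ lam L (2 ^ M) := by
  classical
  set T : Finset (ι → ℤ) := Finset.Icc (fun i => ⌊z i - z' i⌋ - 1) (fun i => ⌈z i - z' i⌉ + 1)
    with hT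
  have h1 : ∀ᶠ M : ℕ in atTop, ∀ l ∈ T, l ∈ L → ∃ i, 1 < (2 : ℝ) ^ M * |z i - z' i - l i| := by
    rw [Filter.eventually_all_finset]
    intro l _
    by_cases hl : l ∈ L
    · obtain ⟨i, hi⟩ := Function.ne_iff.1 (h l hl)
      have h2 : z i - z' i - l i ≠ 0 := by
        intro h3
        apply hi
        simp only [Pi.add_apply, rl]
        linarith
      have hpow : Tendsto (fun M : ℕ => (2 : ℝ) ^ M * |z i - z' i - l i|) atTop atTop :=
        (tendsto_pow_atTop_atTop_of_one_lt one_lt_two).atTop_mul_const (abs_pos.2 h2)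
      filter_upwards [hpow.eventually_gt_atTop 1] with M hM _
      exact ⟨i, hM⟩
    · exact Eventually.of_forall fun _ h2 => absurd h2 hl
  filter_upwards [h1] with M hM h2
  obtain ⟨l, hl, h3⟩ := h2
  have hMpos : (0 : ℝ) < 2 ^ M := by positivity
  have hM1 : (1 : ℝ) ≤ 2 ^ M := one_le_pow₀ (by norm_num)
  have h4 : ∀ i, (2 : ℝ) ^ M * |z i - z' i - l i| ≤ 1 := by
    intro i
    have h5 := abs_sub_round ((2 : ℝ) ^ M * z i)
    have h6 := abs_sub_round ((2 : ℝ) ^ M * z' i)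
    have h7 : ((round ((2 : ℝ) ^ M * z i) : ℤ) : ℝ) - (round ((2 : ℝ) ^ M * z' i) : ℤ) =
        (2 : ℝ) ^ M * l i := by
      have := congrFun h3 i
      simp only [Pi.sub_apply, Pi.smul_apply, smul_eq_mul] at this
      exact_mod_cast this
    rw [← abs_of_pos hMpos, ← abs_mul]
    have e : (2 : ℝ) ^ M * (z i - z' i - l i) =
        ((2 : ℝ) ^ M * z i - round ((2 : ℝ) ^ M * z i)) -
          ((2 : ℝ) ^ M * z' i - round ((2 : ℝ) ^ M * z' i)) := by
      linarith
    rw [e]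
    refine (abs_sub _ _).trans ?_
    linarith
  have h5 : ∀ i, |z i - z' i - l i| ≤ 1 := by
    intro i
    have := abs_nonneg (z i - z' i - l i)
    nlinarith [h4 i]
  have h6 : l ∈ T := by
    rw [hT, Finset.mem_Icc]
    constructor
    · intro i
      have h7 := abs_le.1 (h5 i)
      have h8 := Int.floor_le (z i - z' i)
      have h9 : ((⌊z i - z' i⌋ - 1 : ℤ) : ℝ) ≤ (l i : ℝ) := by
        push_cast
        linarith [h7.2]
      exact_mod_cast h9
    · intro i
      have h7 := abs_le.1 (h5 i)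
      have h8 := Int.le_ceil (z i - z' i)
      have h9 : (l i : ℝ) ≤ ((⌈z i - z' i⌉ + 1 : ℤ) : ℝ) := by
        push_cast
        linarith [h7.1]
      exact_mod_cast h9
  obtain ⟨i, hi⟩ := hM l h6 hl
  exact absurd hi (not_lt.2 (h4 i))

/-- **Fine grids**, exact form of `fine_grid`. -/
theorem fine_ech (L : AddSubgroup (ι → ℤ)) (q Q f f' : (ι → ℝ) → ℝ)
    (R a α β : ℝ) (hD : Dm L q Q R a) (hf : ContDiff ℝ 1 f) (hf' : ContDiff ℝ 1 f')
    (hfp : PerL L f) (hfp' : PerL L f') (hαβ : α < β) (hB : Bd q Q R a f)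
    -- `f' = f` except at points between the levels in the interior
    (hmod : ∀ y, q y ≤ R → -a ≤ Q y → (∀ᶠ x in 𝓝 y, f' x = f x) ∨
      (q y < R ∧ -a < Q y ∧ α < f y ∧ f y < β))
    (Z : Finset (ι → ℝ)) (c : (ι → ℝ) → ι → ℝ) (hZ : ∀ z ∈ Z, StdAt f' z (c z))
    (hZi : ∀ z ∈ Z, q z < R ∧ -a < Q z ∧ α < f z ∧ f z < β)
    (hZd : ∀ z ∈ Z, ∀ z' ∈ Z, ∀ l ∈ L, z' = z + rl l → z' = z)
    (hcrit : ∀ y, q y < R → -a < Q y → α ≤ f y → f y ≤ β → fderiv ℝ f' y = 0 →
      α < f y ∧ f y < β ∧ ∃ z ∈ Z, ∃ l ∈ L, y = z + rl l) :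
    ∀ᶠ M : ℕ in atTop, ech (lam L (2 ^ M)) (Lv q Q f R a β (2 ^ M)) (Lv q Q f R a α (2 ^ M)) =
      ∑ z ∈ Z, (-1) ^ neg (c z) := by
  classical
  obtain ⟨K, hK, hK'⟩ := hD.cpt
  -- the compact set
  have hcov : ∀ᶠ M : ℕ in atTop, ∀ v : ι → ℤ, ps (2 ^ M) v ∈ K →
      v ∈ Lv q Q f R a β (2 ^ M) → v ∉ Lv q Q f R a α (2 ^ M) →
      RegV (Lv q Q f R a α (2 ^ M)) (Lv q Q f R a β (2 ^ M)) (fun v => f' (ps (2 ^ M) v)) v ∨
      ∃ z ∈ Z, ∃ l ∈ L, ∀ i, |(v i : ℝ) - 2 ^ M * (z + rl l) i| < 1 / 2 := by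
    refine hK.induction_on
      (p := fun s => ∀ᶠ M : ℕ in atTop, ∀ v : ι → ℤ, ps (2 ^ M) v ∈ s →
      v ∈ Lv q Q f R a β (2 ^ M) → v ∉ Lv q Q f R a α (2 ^ M) →
      RegV (Lv q Q f R a α (2 ^ M)) (Lv q Q f R a β (2 ^ M)) (fun v => f' (ps (2 ^ M) v)) v ∨
      ∃ z ∈ Z, ∃ l ∈ L, ∀ i, |(v i : ℝ) - 2 ^ M * (z + rl l) i| < 1 / 2) ?_ ?_ ?_ ?_
    · exact Eventually.of_forall fun M v hv => absurd hv (Set.notMem_empty _)
    · intro s t hst ht
      filter_upwards [ht] with M hM v hv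
      exact hM v (hst hv)
    · intro s t hs ht
      filter_upwards [hs, ht] with M hM hM' v hv
      rcases hv with hv | hv
      · exact hM v hv
      · exact hM' v hv
    · intro y _
      obtain ⟨r, hr, h⟩ := Fine_local L q Q f f' R a α β hD hf hf' hfp' hB hmod Z c hZ hcrit y
      refine ⟨{x | Cl y r x}, mem_nhdsWithin_of_mem_nhds (Fine_nhds y hr), ?_⟩
      filter_upwards [h] with M hM v hv h1 h2
      rcases hM v hv h1 h2 with h3 | ⟨z, hz, l, hl, _, h3⟩
      · exact Or.inl h3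
      · exact Or.inr ⟨z, hz, l, hl, h3⟩
  -- the nearest vertices
  have hnear : ∀ᶠ M : ℕ in atTop, ∀ z ∈ Z, ∀ v : ι → ℤ,
      (∀ i, |(v i : ℝ) - 2 ^ M * z i| < 1 / 2) →
      CriV (Lv q Q f R a α (2 ^ M)) (Lv q Q f R a β (2 ^ M)) (fun v => f' (ps (2 ^ M) v)) v
        (spat (c z)) := by
    rw [Filter.eventually_all_finset]
    intro z hz
    obtain ⟨h1, h2, h3, h4⟩ := hZi z hz
    exact FineE_std q Q f f' R a α β hD.q1 hD.Q1 hf z (c z) h1 h2 h3 h4 (hZ z hz)
  have htie : ∀ᶠ M : ℕ in atTop, ∀ z ∈ Z, ∀ i, ∀ b : ℤ, z i * 2 ^ M ≠ b + 1 / 2 := by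
    rw [Filter.eventually_all_finset]
    intro z _
    exact Filter.eventually_all.2 fun i => Pool.Agent.H47.QG.no_tie (z i)
  -- rounded points are inequivalent
  have hineq : ∀ᶠ M : ℕ in atTop, ∀ z ∈ Z, ∀ z' ∈ Z, z ≠ z' →
      (fun i => round ((2 : ℝ) ^ M * z i)) -
      (fun i => round ((2 : ℝ) ^ M * z' i)) ∉ lam L (2 ^ M) := by
    rw [Filter.eventually_all_finset]
    intro z hz
    rw [Filter.eventually_all_finset]
    intro z' hz'
    by_cases hzz : z = z'
    · exact Eventually.of_forall fun _ h => absurd hzz h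
    · filter_upwards [FineE_inj L z z' fun l hl h => hzz (hZd z' hz' z hz l hl h)] with M hM _
      exact hM
  filter_upwards [hcov, hnear, htie, hineq, eventually_ge_atTop 1] with M hM hnM htM hiM hM1
  have h2M : 2 ≤ 2 ^ M := by
    calc 2 = 2 ^ 1 := by norm_num
      _ ≤ 2 ^ M := Nat.pow_le_pow_right (by norm_num) hM1
  have h0M : 0 < 2 ^ M := by omega
  have hAi := Lv_inv hD.qp hD.Qp hfp R a α h0M
  have hBi := Lv_inv hD.qp hD.Qp hfp R a β h0M
  have hg : ∀ l ∈ lam L (2 ^ M), ∀ v, f' (ps (2 ^ M) (v + l)) = f' (ps (2 ^ M) v) :=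
    fun l hl v => Fine_inv hfp' h0M hl v
  set rd : (ι → ℝ) → (ι → ℤ) := fun z => fun i => round ((2 : ℝ) ^ M * z i) with hrd
  have hinjM : Set.InjOn rd (Z : Set (ι → ℝ)) := by
    intro z hz z' hz' h
    by_contra hne
    refine hiM z hz z' hz' hne ?_
    have h1 : (fun i => round ((2 : ℝ) ^ M * z i)) - (fun i => round ((2 : ℝ) ^ M * z' i)) =
        (0 : ι → ℤ) := by
      have h2 : (fun i => round ((2 : ℝ) ^ M * z i)) = (fun i => round ((2 : ℝ) ^ M * z' i)) := h
      rw [h2, sub_self]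
    rw [h1]
    exact (lam L (2 ^ M)).zero_mem
  have hrdn : ∀ z ∈ Z, ∀ i, |((rd z i : ℤ) : ℝ) - 2 ^ M * z i| < 1 / 2 := by
    intro z hz i
    refine FineE_round ((2 : ℝ) ^ M * z i) fun b h => htM z hz i b ?_
    rw [mul_comm]
    exact h
  set iv : (ι → ℤ) → (ι → ℝ) := Function.invFunOn rd (Z : Set (ι → ℝ)) with hiv
  have hiv' : ∀ z ∈ Z, iv (rd z) = z := fun z hz => hinjM.leftInvOn_invFunOn hz
  have hmain := band_ech (L := lam L (2 ^ M)) (lam_wide L h2M) (A := Lv q Q f R a α (2 ^ M))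
    (B := Lv q Q f R a β (2 ^ M)) (Lv_mono q Q f R a hαβ.le (2 ^ M)) hAi hBi (by
      obtain ⟨D, hDD⟩ := hD.finMod h0M
      refine ⟨D, fun v hv hv' => hDD v hv.1 fun h => hv' ⟨h.1, Or.inl h.2⟩⟩)
    (fun v => f' (ps (2 ^ M) v)) hg (Z.image rd) (fun w => spat (c (iv w))) (by
      intro w hw
      obtain ⟨z, hz, rfl⟩ := Finset.mem_image.1 hw
      have h1 := hnM z hz (rd z) (hrdn z hz)
      have h2 := h1.1 (rd z) (fun i => by simp)
      refine ⟨h2.1, h2.2, ?_⟩
      simp only [hiv' z hz]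
      exact h1) (by
      intro w hw w' hw' h
      obtain ⟨z, hz, rfl⟩ := Finset.mem_image.1 hw
      obtain ⟨z', hz', rfl⟩ := Finset.mem_image.1 hw'
      by_cases hzz : z = z'
      · rw [hzz]
      · exact absurd h (hiM z hz z' hz' hzz)) (by
      intro v hv hv'
      have h1 : q (ps (2 ^ M) v) ≤ R := hv.1
      have h2 : -a ≤ Q (ps (2 ^ M) v) := by
        by_contra h3
        exact hv' ⟨h1, Or.inl (not_le.1 h3).le⟩
      obtain ⟨l, hl, hlK⟩ := hK' _ h1 h2
      have hll : ((2 ^ M : ℕ) : ℤ) • l ∈ lam L (2 ^ M) := ⟨l, hl, rfl⟩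
      rw [← Fine_ps_add h0M] at hlK
      rcases hM (v + ((2 ^ M : ℕ) : ℤ) • l) hlK ((hBi _ hll v).1 hv)
        (fun h => hv' ((hAi _ hll v).2 h)) with h | ⟨z, hz, l', hl', hcl⟩
      · exact Or.inl (Fine_regV hAi hBi hg hll h)
      · refine Or.inr ⟨rd z, Finset.mem_image_of_mem _ hz, ?_⟩
        have e : v - rd z = ((2 ^ M : ℕ) : ℤ) • (l' - l) := by
          funext i
          have h3 := hcl i
          have h4 : round ((2 : ℝ) ^ M * z i) =
              v i + ((2 ^ M : ℕ) : ℤ) * l i - ((2 ^ M : ℕ) : ℤ) * l' i := by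
            rw [round_eq_iff]
            rw [abs_lt] at h3
            simp only [Pi.add_apply, Pi.smul_apply, smul_eq_mul, rl] at h3
            push_cast at h3 ⊢
            constructor <;> nlinarith [h3.1, h3.2]
          simp only [hrd, Pi.sub_apply, Pi.smul_apply, smul_eq_mul]
          rw [h4]
          ring
        rw [e]
        exact ⟨l' - l, L.sub_mem hl' hl, rfl⟩)
  rw [hmain, Finset.sum_image hinjM]
  refine Finset.sum_congr rfl fun z hz => ?_
  rw [hiv' z hz, nm_spat (c z) (hZ z hz).1]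

end Pool.Agent.H45.AC
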