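import Pool.Agent.H45.AC.TrS

/-!
# Project AC: the supertrace on a band and the Euler characteristic of the invariant band
-/

set_option autoImplicit false
set_option linter.unusedSectionVars false

namespace Pool.Agent.H45.AC

open Pool.Agent.H47.ST

variable {ι κ : Type*} [Fintype ι] [Fintype κ] [DecidableEq ι] [DecidableEq κ]

/-! ### Orbits of simplices -/

omit [DecidableEq ι] in
theorem TrF_orb_self (L : AddSubgroup (ι → ℤ)) (σ : Finset (ι → ℤ)) : σ ∈ orb L σ :=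
  ⟨0, L.zero_mem, (Free_tr_zero σ).symm⟩

omit [DecidableEq ι] in
theorem TrF_orb_tr {L : AddSubgroup (ι → ℤ)} {l : ι → ℤ} (hl : l ∈ L) (σ : Finset (ι → ℤ)) :
    orb L (tr l σ) = orb L σ := by
  ext τ
  constructor
  · rintro ⟨m, hm, rfl⟩
    exact ⟨l + m, L.add_mem hl hm, Free_tr_tr l m σ⟩
  · rintro ⟨m, hm, rfl⟩
    refine ⟨-l + m, L.add_mem (L.neg_mem hl) hm, ?_⟩
    rw [Free_tr_tr, add_neg_cancel_left]

omit [DecidableEq ι] in
theorem TrF_bs_tr {L : AddSubgroup (ι → ℤ)} {B A : Set (ι → ℤ)} (hB : Inv L B) (hA : Inv L A)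
    (j : ℕ) {l : ι → ℤ} (hl : l ∈ L) (σ : Finset (ι → ℤ)) :
    tr l σ ∈ bs B A j ↔ σ ∈ bs B A j := by
  show (In B (tr l σ) ∧ ¬ (∀ v ∈ tr l σ, v ∈ A) ∧ (tr l σ).card = j) ↔
    (In B σ ∧ ¬ (∀ v ∈ σ, v ∈ A) ∧ σ.card = j)
  rw [Sym_In_tr hB hl, Sym_all_tr hA hl, Sym_card_tr]

omit [DecidableEq ι] in
/-- an invariant cochain is constant on the orbits -/
theorem TrF_const {F : Type*} [Field F] {L : AddSubgroup (ι → ℤ)} {B A : Set (ι → ℤ)} {j : ℕ}
    {c : Co ι F} (hc : c ∈ co (F := F) L B A j) {σ τ : Finset (ι → ℤ)}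
    (h : orb L σ = orb L τ) : c σ = c τ := by
  have h1 : σ ∈ orb L τ := h ▸ TrF_orb_self L σ
  obtain ⟨l, hl, rfl⟩ := h1
  exact hc.1 l hl τ

/-- a simplex in a class -/
noncomputable def TrF_rep {L : AddSubgroup (ι → ℤ)} {B A : Set (ι → ℤ)} {j : ℕ}
    (q : (orb L '' bs B A j : Set (Set (Finset (ι → ℤ))))) : Finset (ι → ℤ) :=
  Classical.choose q.2

omit [DecidableEq ι] in
theorem TrF_rep_mem {L : AddSubgroup (ι → ℤ)} {B A : Set (ι → ℤ)} {j : ℕ}
    (q : (orb L '' bs B A j : Set (Set (Finset (ι → ℤ))))) : TrF_rep q ∈ bs B A j :=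
  (Classical.choose_spec q.2).1

omit [DecidableEq ι] in
theorem TrF_rep_orb {L : AddSubgroup (ι → ℤ)} {B A : Set (ι → ℤ)} {j : ℕ}
    (q : (orb L '' bs B A j : Set (Set (Finset (ι → ℤ))))) : orb L (TrF_rep q) = q.1 :=
  (Classical.choose_spec q.2).2

open Classical in
/-- invariant cochains are the functions on the classes of simplices -/
noncomputable def TrF_eq (F : Type*) [Field F] {L : AddSubgroup (ι → ℤ)} {B A : Set (ι → ℤ)}
    (hB : Inv L B) (hA : Inv L A) (j : ℕ) :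
    co (F := F) L B A j ≃ₗ[F] ((orb L '' bs B A j : Set (Set (Finset (ι → ℤ)))) → F) where
  toFun c q := c.1 (TrF_rep q)
  map_add' _ _ := rfl
  map_smul' _ _ := rfl
  invFun f := ⟨fun σ => if h : σ ∈ bs B A j then f ⟨orb L σ, σ, h, rfl⟩ else 0, by
    refine ⟨fun l hl σ => ?_, fun σ h => ?_⟩
    · by_cases h : σ ∈ bs B A j
      · have h' : tr l σ ∈ bs B A j := (TrF_bs_tr hB hA j hl σ).2 h
        beta_reduce
        rw [dif_pos h, dif_pos h']
        congr 1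
        exact Subtype.ext (TrF_orb_tr hl σ)
      · have h' : ¬ tr l σ ∈ bs B A j := fun h1 => h ((TrF_bs_tr hB hA j hl σ).1 h1)
        beta_reduce
        rw [dif_neg h, dif_neg h']
    · by_contra h1
      exact h (dif_neg h1)⟩
  left_inv c := by
    apply Subtype.ext
    funext σ
    by_cases h : σ ∈ bs B A j
    · have h1 : (if h : σ ∈ bs B A j then c.1 (TrF_rep (⟨orb L σ, σ, h, rfl⟩ :
          (orb L '' bs B A j : Set (Set (Finset (ι → ℤ)))))) else 0) =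
          c.1 (TrF_rep (⟨orb L σ, σ, h, rfl⟩ :
          (orb L '' bs B A j : Set (Set (Finset (ι → ℤ)))))) := dif_pos h
      exact h1.trans (TrF_const c.2 (TrF_rep_orb _))
    · have h1 : c.1 σ = 0 := by
        by_contra h2
        exact h (c.2.2 σ h2)
      rw [h1]
      exact dif_neg h
  right_inv f := by
    funext q
    have h1 : (if h : TrF_rep q ∈ bs B A j then f ⟨orb L (TrF_rep q), TrF_rep q, h, rfl⟩
        else 0) = f ⟨orb L (TrF_rep q), TrF_rep q, TrF_rep_mem q, rfl⟩ := dif_pos (TrF_rep_mem q)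
    refine h1.trans ?_
    congr 1
    exact Subtype.ext (TrF_rep_orb q)

omit [DecidableEq ι] in
theorem TrF_eq_symm {F : Type*} [Field F] {L : AddSubgroup (ι → ℤ)} {B A : Set (ι → ℤ)}
    (hB : Inv L B) (hA : Inv L A) {j : ℕ}
    (f : (orb L '' bs B A j : Set (Set (Finset (ι → ℤ)))) → F) {σ : Finset (ι → ℤ)}
    (h : σ ∈ bs B A j) :
    ((TrF_eq F hB hA j).symm f).1 σ = f ⟨orb L σ, σ, h, rfl⟩ := dif_pos h

/-! ### Invariant classes -/

omit [DecidableEq ι] in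
/-- The vertices of a simplex which is a translate of its image are invariant. -/
theorem TrF_unique {γ : Equiv.Perm ι} {L : AddSubgroup (ι → ℤ)} (h : Per γ L)
    {σ : Finset (ι → ℤ)} (hσ : Simp σ) {m : ι → ℤ} (hm : m ∈ L)
    (he : Free_mp γ σ = tr m σ) : ∀ v ∈ σ, v ∘ γ = v := by
  intro v hv
  have h1 : v ∘ ⇑γ = v + m := by
    have h2 : v ∘ ⇑γ ∈ tr m σ := he ▸ Free_mem.2 ⟨v, hv, rfl⟩
    rw [Sym_mem_tr] at h2
    have h3 : v ∘ ⇑γ - m = v ∘ ⇑γ + -m := sub_eq_add_neg _ _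
    have h4 := h.sep v _ (-m) (hσ v hv _ h2) (L.neg_mem hm) h3
    rw [← h4, sub_add_cancel]
    rw [h4]
  have hmk : m ∘ ⇑γ = m := h.fix m hm
  have h5 : ∀ j : ℕ, v ∘ ⇑(γ ^ j) = v + (j : ℤ) • m := by
    intro j
    induction j with
    | zero =>
      rw [Nat.cast_zero, zero_smul, add_zero]
      rfl
    | succ j ih =>
      rw [pow_succ]
      change (v ∘ ⇑(γ ^ j)) ∘ ⇑γ = _
      rw [ih]
      change v ∘ ⇑γ + (j : ℤ) • (m ∘ ⇑γ) = _
      rw [h1, hmk]
      push_cast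
      rw [add_smul, one_smul]
      abel
  have h6 : m = 0 := by
    obtain ⟨n, hn, hp⟩ := h.fin
    have h7 := h5 n
    rw [hp] at h7
    have h8 : (n : ℤ) • m = 0 := by
      have h9 : v + 0 = v + (n : ℤ) • m := by
        rw [add_zero]
        exact h7
      exact (add_left_cancel h9).symm
    rcases smul_eq_zero.1 h8 with h9 | h9
    · exact absurd (Int.natCast_eq_zero.1 h9) hn.ne'
    · exact h9
  rw [h1, h6, add_zero]

omit [DecidableEq ι] in
theorem TrF_mp_mem {γ : Equiv.Perm ι} {B A : Set (ι → ℤ)} (hB : PInv γ B) (hA : PInv γ A)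
    {j : ℕ} {σ : Finset (ι → ℤ)} (h : σ ∈ bs B A j) : Free_mp γ σ ∈ bs B A j := by
  show In B (Free_mp γ σ) ∧ ¬ (∀ v ∈ Free_mp γ σ, v ∈ A) ∧ (Free_mp γ σ).card = j
  rw [Free_In hB, Free_all hA, Free_card]
  exact h

/-- the action on the classes -/
noncomputable def TrF_nu {γ : Equiv.Perm ι} {L : AddSubgroup (ι → ℤ)} {B A : Set (ι → ℤ)}
    (hB : PInv γ B) (hA : PInv γ A) {j : ℕ}
    (q : (orb L '' bs B A j : Set (Set (Finset (ι → ℤ))))) :
    (orb L '' bs B A j : Set (Set (Finset (ι → ℤ)))) :=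
  ⟨orb L (Free_mp γ (TrF_rep q)), Free_mp γ (TrF_rep q), TrF_mp_mem hB hA (TrF_rep_mem q), rfl⟩

omit [DecidableEq ι] in
theorem TrF_nu_fixed {γ : Equiv.Perm ι} {L : AddSubgroup (ι → ℤ)} (h : Per γ L)
    {B A : Set (ι → ℤ)} (hB : PInv γ B) (hA : PInv γ A) {j : ℕ}
    (q : (orb L '' bs B A j : Set (Set (Finset (ι → ℤ))))) :
    TrF_nu hB hA q = q ↔ ∀ v ∈ TrF_rep q, v ∘ γ = v := by
  constructor
  · intro h1
    have h2 : orb L (Free_mp γ (TrF_rep q)) = orb L (TrF_rep q) :=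
      (congrArg Subtype.val h1).trans (TrF_rep_orb q).symm
    have h3 : Free_mp γ (TrF_rep q) ∈ orb L (TrF_rep q) := h2 ▸ TrF_orb_self L _
    obtain ⟨l, hl, h4⟩ := h3
    exact TrF_unique h (TrF_rep_mem q).1.1 hl h4
  · intro h1
    apply Subtype.ext
    show orb L (Free_mp γ (TrF_rep q)) = q.1
    rw [Free_fixed h1, TrF_rep_orb]

/-! ### The invariant classes and the classes of the smaller grid -/

omit [DecidableEq ι] [DecidableEq κ] in
theorem TrF_image_orb {γ : Equiv.Perm ι} {s : ι → κ} {L : AddSubgroup (ι → ℤ)}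
    {L' : AddSubgroup (κ → ℤ)} (hs : Fold γ s L L') (σ : Finset (κ → ℤ)) :
    (fun τ : Finset (κ → ℤ) => τ.map (TransN_em hs.surj)) '' orb L' σ =
      orb L (σ.map (TransN_em hs.surj)) := by
  ext τ
  constructor
  · rintro ⟨ρ, ⟨l, hl, rfl⟩, rfl⟩
    refine ⟨l ∘ s, (hs.lat _).2 ⟨l, hl, rfl⟩, ?_⟩
    rw [TransN_tr]
  · rintro ⟨l, hl, rfl⟩
    obtain ⟨l', hl', rfl⟩ := (hs.lat l).1 hl
    refine ⟨tr l' σ, ⟨l', hl', rfl⟩, ?_⟩
    rw [TransN_tr]

omit [DecidableEq ι] [DecidableEq κ] in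
theorem TrF_map_mem {γ : Equiv.Perm ι} {s : ι → κ} {L : AddSubgroup (ι → ℤ)}
    {L' : AddSubgroup (κ → ℤ)} (hs : Fold γ s L L') (B A : Set (ι → ℤ)) (j : ℕ)
    (σ : Finset (κ → ℤ)) :
    σ.map (TransN_em hs.surj) ∈ bs B A j ↔ σ ∈ bs (fo s B) (fo s A) j := by
  show (In B (σ.map (TransN_em hs.surj)) ∧ ¬ (∀ v ∈ σ.map (TransN_em hs.surj), v ∈ A) ∧
    (σ.map (TransN_em hs.surj)).card = j) ↔
    (In (fo s B) σ ∧ ¬ (∀ v ∈ σ, v ∈ fo s A) ∧ σ.card = j)
  rw [TransN_In, TransN_all, Finset.card_map]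

omit [DecidableEq ι] [DecidableEq κ] in
theorem TrF_image {γ : Equiv.Perm ι} {s : ι → κ} {L : AddSubgroup (ι → ℤ)}
    {L' : AddSubgroup (κ → ℤ)} (h : Per γ L) (hs : Fold γ s L L')
    {B A : Set (ι → ℤ)} (hB : PInv γ B) (hA : PInv γ A) (j : ℕ) :
    (fun q' : Set (Finset (κ → ℤ)) =>
      (fun τ : Finset (κ → ℤ) => τ.map (TransN_em hs.surj)) '' q') ''
        (orb L' '' bs (fo s B) (fo s A) j) =
      Subtype.val '' {q : (orb L '' bs B A j : Set (Set (Finset (ι → ℤ)))) |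
        TrF_nu hB hA q = q} := by
  ext Q
  constructor
  · rintro ⟨_, ⟨σ, hσ, rfl⟩, rfl⟩
    have h1 : σ.map (TransN_em hs.surj) ∈ bs B A j := (TrF_map_mem hs B A j σ).2 hσ
    refine ⟨⟨orb L (σ.map (TransN_em hs.surj)), _, h1, rfl⟩, ?_, (TrF_image_orb hs σ).symm⟩
    show TrF_nu hB hA _ = _
    rw [TrF_nu_fixed h]
    set q : (orb L '' bs B A j : Set (Set (Finset (ι → ℤ)))) :=
      ⟨orb L (σ.map (TransN_em hs.surj)), _, h1, rfl⟩ with hq
    have h2 : TrF_rep q ∈ orb L (σ.map (TransN_em hs.surj)) := by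
      have h3 : orb L (TrF_rep q) = orb L (σ.map (TransN_em hs.surj)) := TrF_rep_orb q
      rw [← h3]
      exact TrF_orb_self L _
    obtain ⟨l, hl, h3⟩ := h2
    intro v hv
    rw [h3, Sym_mem_tr] at hv
    have h4 := (TransN_fixed hs _).2 ⟨σ, rfl⟩ _ hv
    have h5 := h.fix l hl
    have h6 : (v - l) ∘ γ = v ∘ γ - l ∘ γ := rfl
    rw [h6, h5] at h4
    exact sub_left_injective h4
  · rintro ⟨q, hq, rfl⟩
    have hq' : TrF_nu hB hA q = q := hq
    rw [TrF_nu_fixed h] at hq'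
    obtain ⟨σ, hσ⟩ := (TransN_fixed hs _).1 hq'
    have h1 : σ ∈ bs (fo s B) (fo s A) j := by
      rw [← TrF_map_mem hs, hσ]
      exact TrF_rep_mem q
    refine ⟨orb L' σ, ⟨σ, h1, rfl⟩, ?_⟩
    show (fun τ : Finset (κ → ℤ) => τ.map (TransN_em hs.surj)) '' orb L' σ = q.1
    rw [TrF_image_orb hs, hσ, TrF_rep_orb]

omit [DecidableEq ι] [DecidableEq κ] in
theorem TrF_ncard {γ : Equiv.Perm ι} {s : ι → κ} {L : AddSubgroup (ι → ℤ)}
    {L' : AddSubgroup (κ → ℤ)} (h : Per γ L) (hs : Fold γ s L L')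
    {B A : Set (ι → ℤ)} (hB : PInv γ B) (hA : PInv γ A) (j : ℕ) :
    {q : (orb L '' bs B A j : Set (Set (Finset (ι → ℤ)))) | TrF_nu hB hA q = q}.ncard =
      nc L' (fo s B) (fo s A) j := by
  have h1 := congrArg Set.ncard (TrF_image h hs hB hA j)
  rw [Set.ncard_image_of_injective _ Subtype.val_injective,
    Set.ncard_image_of_injective _
      (Set.image_injective.2 (Finset.map_injective (TransN_em hs.surj)))] at h1
  exact h1.symm

/-! ### The trace on the cochains of the band -/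

omit [DecidableEq ι] in
theorem TrF_FinMod {L : AddSubgroup (ι → ℤ)} {X A B : Set (ι → ℤ)} (hBX : B ⊆ X)
    (hfin : FinMod L X A) : FinMod L B A := by
  obtain ⟨D, hD⟩ := hfin
  exact ⟨D, fun v hv hA => hD v (hBX hv) hA⟩

theorem TrF_trace {F : Type*} [Field F] {γ : Equiv.Perm ι} {s : ι → κ} {L : AddSubgroup (ι → ℤ)}
    {L' : AddSubgroup (κ → ℤ)} (h : Per γ L) (hs : Fold γ s L L')
    {A B : Set (ι → ℤ)} (hA : PInv γ A) (hB : PInv γ B)
    (hAL : Inv L A) (hBL : Inv L B) (hfin : FinMod L B A) (j : ℕ) :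
    tq (Tp γ) (co (F := F) L B A j) = ((nc L' (fo s B) (fo s A) j : ℕ) : F) := by
  classical
  have hQ : Finite (orb L '' bs B A j : Set (Set (Finset (ι → ℤ)))) :=
    (nc_finite hBL hAL hfin j).to_subtype
  have hQf : Fintype (orb L '' bs B A j : Set (Set (Finset (ι → ℤ)))) := Fintype.ofFinite _
  have hst : ∀ x ∈ co (F := F) L B A j, Tp γ x ∈ co (F := F) L B A j :=
    fun x hx => Free_T_mem h.fix hB hA hx
  rw [tq, dif_pos hst, ← LinearMap.trace_conj' _ (TrF_eq F hBL hAL j)]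
  rw [Sym_trace _ (TrF_nu hB hA) (fun _ => (1 : F)) (fun f q => by
    rw [one_mul]
    have h1 : ((TrF_eq F hBL hAL j).conj ((Tp γ).restrict hst)) f q =
      ((TrF_eq F hBL hAL j).symm f).1 (Free_mp γ (TrF_rep q)) := rfl
    rw [h1, TrF_eq_symm hBL hAL f (TrF_mp_mem hB hA (TrF_rep_mem q))]
    rfl)]
  rw [Finset.sum_boole, ← TrF_ncard h hs hB hA j]
  congr 1
  rw [← Set.ncard_coe_finset]
  congr 1
  ext q
  simp

/-! ### The theorems -/

omit [DecidableEq ι] in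
theorem TrF_inf {F : Type*} [Field F] (L : AddSubgroup (ι → ℤ)) (X A B : Set (ι → ℤ)) (j : ℕ) :
    co (F := F) L B A j ⊓ co (F := F) L X B j = ⊥ := by
  rw [eq_bot_iff]
  intro c hc
  rw [Submodule.mem_bot]
  funext σ
  by_contra h1
  exact (hc.2.2 σ h1).2.1 (hc.1.2 σ h1).1.2

omit [DecidableEq ι] in
theorem TrF_sup {F : Type*} [Field F] {L : AddSubgroup (ι → ℤ)} {X A B : Set (ι → ℤ)}
    (hBL : Inv L B) (hAB : A ⊆ B) (hBX : B ⊆ X) (j : ℕ) :
    co (F := F) L B A j ⊔ co (F := F) L X B j = co (F := F) L X A j := by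
  classical
  apply le_antisymm
  · apply sup_le
    · intro c hc
      refine ⟨hc.1, fun σ hσ => ?_⟩
      obtain ⟨h1, h2, h3⟩ := hc.2 σ hσ
      exact ⟨⟨h1.1, fun v hv => hBX (h1.2 v hv)⟩, h2, h3⟩
    · intro c hc
      refine ⟨hc.1, fun σ hσ => ?_⟩
      obtain ⟨h1, h2, h3⟩ := hc.2 σ hσ
      exact ⟨h1, fun h4 => h2 fun v hv => hAB (h4 v hv), h3⟩
  · intro z hz
    rw [Submodule.mem_sup]
    refine ⟨cut (fun σ => ∀ v ∈ σ, v ∈ B) z, ⟨fun l hl σ => ?_, fun σ hσ => ?_⟩,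
      cut (fun σ => ¬ ∀ v ∈ σ, v ∈ B) z, ⟨fun l hl σ => ?_, fun σ hσ => ?_⟩, ?_⟩
    · rw [cut_apply, cut_apply, hz.1 l hl]
      by_cases h1 : ∀ v ∈ σ, v ∈ B
      · rw [if_pos ((Sym_all_tr hBL hl σ).2 h1), if_pos h1]
      · rw [if_neg (fun h2 => h1 ((Sym_all_tr hBL hl σ).1 h2)), if_neg h1]
    · rw [cut_apply] at hσ
      by_cases h1 : ∀ v ∈ σ, v ∈ B
      · rw [if_pos h1] at hσ
        obtain ⟨h2, h3, h4⟩ := hz.2 σ hσ
        exact ⟨⟨h2.1, h1⟩, h3, h4⟩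
      · rw [if_neg h1] at hσ
        exact absurd rfl hσ
    · rw [cut_apply, cut_apply, hz.1 l hl]
      by_cases h1 : ∀ v ∈ σ, v ∈ B
      · rw [if_neg (not_not.2 ((Sym_all_tr hBL hl σ).2 h1)), if_neg (not_not.2 h1)]
      · rw [if_pos (fun h2 => h1 ((Sym_all_tr hBL hl σ).1 h2)), if_pos h1]
    · rw [cut_apply] at hσ
      by_cases h1 : ∀ v ∈ σ, v ∈ B
      · rw [if_neg (not_not.2 h1)] at hσ
        exact absurd rfl hσ
      · rw [if_pos h1] at hσ
        obtain ⟨h2, h3, h4⟩ := hz.2 σ hσ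
        exact ⟨h2, h1, h4⟩
    · funext σ
      rw [Pi.add_apply, cut_apply, cut_apply]
      by_cases h1 : ∀ v ∈ σ, v ∈ B
      · rw [if_pos h1, if_neg (not_not.2 h1), add_zero]
      · rw [if_neg h1, if_pos h1, zero_add]

theorem TrF_tq_bot {F E : Type*} [Field F] [AddCommGroup E] [Module F E] (g : E →ₗ[F] E) :
    tq g (⊥ : Submodule F E) = 0 := by
  have h : ∀ x ∈ (⊥ : Submodule F E), g x ∈ (⊥ : Submodule F E) := by
    intro x hx
    rw [Submodule.mem_bot] at hx ⊢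
    rw [hx, map_zero]
  rw [tq, dif_pos h]
  have h1 : g.restrict h = 0 := by
    apply LinearMap.ext
    intro x
    exact Subsingleton.elim _ _
  rw [h1, map_zero]

/-- The trace on a band counts the classes of invariant simplices. -/
theorem tq_fold {F : Type*} [Field F] {γ : Equiv.Perm ι} {s : ι → κ} {L : AddSubgroup (ι → ℤ)}
    {L' : AddSubgroup (κ → ℤ)} (h : Per γ L) (hs : Fold γ s L L')
    {X A B : Set (ι → ℤ)} (hX : PInv γ X) (hA : PInv γ A) (hB : PInv γ B) (hXL : Inv L X)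
    (hAL : Inv L A) (hBL : Inv L B) (hAB : A ⊆ B) (hBX : B ⊆ X) (hfin : FinMod L X A) (j : ℕ) :
    tq (Tp γ) (co (F := F) L X A j) - tq (Tp γ) (co (F := F) L X B j) =
      ((nc L' (fo s B) (fo s A) j : ℕ) : F) := by
  have hfB : FinMod L B A := TrF_FinMod hBX hfin
  have hfX : FinMod L X B := by
    obtain ⟨D, hD⟩ := hfin
    exact ⟨D, fun v hv hv' => hD v hv fun hv2 => hv' (hAB hv2)⟩
  have f1 : FiniteDimensional F (co (F := F) L B A j) := (Gs_co h hB hA hBL hAL hfB).fin j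
  have f2 : FiniteDimensional F (co (F := F) L X B j) := (Gs_co h hX hB hXL hBL hfX).fin j
  have h1 := tq_sup_inf (g := Tp γ) (P := co (F := F) L B A j) (Q := co (F := F) L X B j)
    (fun x hx => Free_T_mem h.fix hB hA hx) (fun x hx => Free_T_mem h.fix hX hB hx)
  rw [TrF_sup hBL hAB hBX, TrF_inf, TrF_tq_bot, sub_zero] at h1
  rw [h1]
  exact TrF_trace h hs hA hB hAL hBL hfB j

/-- **The supertrace on a band is minus the Euler characteristic of the band of invariant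
simplices.** -/
theorem st_fold {F : Type*} [Field F] {γ : Equiv.Perm ι} {s : ι → κ} {L : AddSubgroup (ι → ℤ)}
    {L' : AddSubgroup (κ → ℤ)} (h : Per γ L) (hs : Fold γ s L L')
    {X A B : Set (ι → ℤ)} (hX : PInv γ X) (hA : PInv γ A) (hB : PInv γ B) (hXL : Inv L X)
    (hAL : Inv L A) (hBL : Inv L B) (hAB : A ⊆ B) (hBX : B ⊆ X) (hfin : FinMod L X A) :
    st (Tp γ) (co (F := F) L X A) (co (F := F) L X B) (Fintype.card ι + 2) =
      -((ech L' (fo s B) (fo s A) : ℤ) : F) := by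
  have h1 : st (Tp γ) (co (F := F) L X A) (co (F := F) L X B) (Fintype.card ι + 2) =
      ∑ j ∈ Finset.range (Fintype.card ι + 2),
        (-1) ^ j * ((nc L' (fo s B) (fo s A) j : ℕ) : F) := by
    unfold st
    exact Finset.sum_congr rfl fun j _ => by
      rw [tq_fold h hs hX hA hB hXL hAL hBL hAB hBX hfin j]
  have hc : Fintype.card κ ≤ Fintype.card ι := Fintype.card_le_of_surjective s hs.surj
  have h2 : ∑ j ∈ Finset.range (Fintype.card κ + 2),
        (-1) ^ j * ((nc L' (fo s B) (fo s A) j : ℕ) : F) =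
      ∑ j ∈ Finset.range (Fintype.card ι + 2),
        (-1) ^ j * ((nc L' (fo s B) (fo s A) j : ℕ) : F) := by
    apply Finset.sum_subset
    · intro j hj
      rw [Finset.mem_range] at hj ⊢
      omega
    · intro j _ hj
      rw [Finset.mem_range] at hj
      rw [nc_big (by omega), Nat.cast_zero, mul_zero]
  rw [h1, ← h2, ech]
  push_cast
  rw [← Finset.sum_neg_distrib]
  exact Finset.sum_congr rfl fun j _ => by
    rw [pow_succ]
    ring

end Pool.Agent.H45.AC
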