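import Pool.Agent.H45.AC.TqB
import Pool.Agent.H45.AC.TrF
import Pool.Agent.H47.ST.Loc

/-!
# Project AC: supertraces of truncated bands of a grid
-/

set_option autoImplicit false

namespace Pool.Agent.H45.AC

open Pool.Agent.H47.ST

variable {ι κ : Type*} [Fintype ι] [Fintype κ] [DecidableEq ι] [DecidableEq κ]

/-- **Supertrace of a union of truncated bands.** -/
theorem grid_st {F : Type*} [Field F] {γ : Equiv.Perm ι} {s : ι → κ}
    {L : AddSubgroup (ι → ℤ)} {L' : AddSubgroup (κ → ℤ)} (hc : Per γ L) (hs : Fold γ s L L')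
    {X V : Set (ι → ℤ)} (hX : PInv γ X) (hV : PInv γ V) (hXL : Inv L X) (hVL : Inv L V)
    (hfin : FinMod L X V)
    (A : ℕ → Set (ι → ℤ)) (M : ℕ) (hmono : ∀ i < M, A i ⊆ A (i + 1)) (hV0 : V ⊆ A 0)
    (hAX : A M ⊆ X) (hA : ∀ i, PInv γ (A i)) (hAL : ∀ i, Inv L (A i)) {G₁ G₂ : ℕ}
    (h12 : G₁ < G₂) (e : ℕ → ℤ)
    (hband : ∀ i < M, ((∀ j, G₁ ≤ j + 1 → j + 1 ≤ G₂ → HR F L (A (i + 1)) (A i) j 0) ∧ e i = 0) ∨
      ((∀ j, (j + 1 ≤ G₁ ∨ G₂ ≤ j + 1) → HR F L (A (i + 1)) (A i) j 0) ∧
        ech L' (fo s (A (i + 1))) (fo s (A i)) = e i)) :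
    st (Tp γ) (trf (dX X) (co (F := F) L X V) G₁ G₂ (co (F := F) L X (A 0)))
      (trf (dX X) (co (F := F) L X V) G₁ G₂ (co (F := F) L X (A M))) (Fintype.card ι + 2) =
      -((∑ i ∈ Finset.range M, e i : ℤ) : F) := by
  have hle' : ∀ i ≤ M, V ⊆ A i := by
    intro i
    induction i with
    | zero => exact fun _ => hV0
    | succ i ih => exact fun hi => (ih (by omega)).trans (hmono i (by omega))
  have hleX : ∀ k, ∀ i, i + k = M → A i ⊆ A M := by
    intro k
    induction k with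
    | zero =>
      intro i hi
      rw [show i = M by omega]
    | succ k ih => exact fun i hi => (hmono i (by omega)).trans (ih (i + 1) (by omega))
  have hAXi : ∀ i ≤ M, A i ⊆ X := fun i hi => (hleX (M - i) i (by omega)).trans hAX
  have hfinA : ∀ i ≤ M, FinMod L X (A i) := by
    intro i hi
    obtain ⟨D, hD⟩ := hfin
    exact ⟨D, fun v hv hvA => hD v hv fun hvV => hvA (hle' i hi hvV)⟩
  have hdd : ∀ x : Co ι F, dX X (dX X x) = 0 := dX_dX X
  have hdg : ∀ x : Co ι F, dX X (Tp γ x) = Tp γ (dX X x) := fun x => dX_Tp hX x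
  have hGV : Gs (dX (F := F) X) (Tp γ) (co (F := F) L X V) := Gs_co hc hX hV hXL hVL hfin
  have hG : ∀ i ≤ M, Gs (dX (F := F) X) (Tp γ) (co (F := F) L X (A i)) := fun i hi =>
    Gs_co hc hX (hA i) hXL (hAL i) (hfinA i hi)
  have hJ : ∀ j, Fintype.card ι + 2 ≤ j → co (F := F) L X V j = ⊥ := fun j hj =>
    co_big L X V (by omega)
  have hrel : ∀ i < M, ∀ j, HR F L (A (i + 1)) (A i) j 0 →
      HK (dX X) (co (F := F) L X (A i)) (co (F := F) L X (A (i + 1))) (j + 1) 0 :=
    fun i hi j hj => HR.rel hXL (hAL (i + 1)) (hmono i hi) (hAXi (i + 1) hi) hj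
  have key : ∀ m ≤ M,
      st (Tp γ) (trf (dX X) (co (F := F) L X V) G₁ G₂ (co (F := F) L X (A 0)))
        (trf (dX X) (co (F := F) L X V) G₁ G₂ (co (F := F) L X (A m))) (Fintype.card ι + 2) =
        -((∑ i ∈ Finset.range m, e i : ℤ) : F) := by
    intro m
    induction m with
    | zero =>
      intro _
      rw [st_self, Finset.sum_range_zero, Int.cast_zero, neg_zero]
    | succ m ih =>
      intro hm
      have hm' : m < M := hm
      rw [st_trans (Tp γ) _ (trf (dX X) (co (F := F) L X V) G₁ G₂ (co (F := F) L X (A m))) _,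
        ih hm'.le, Finset.sum_range_succ, Int.cast_add, neg_add]
      congr 1
      rcases hband m hm' with ⟨hb, he⟩ | ⟨hb, he⟩
      · rw [he, Int.cast_zero, neg_zero]
        refine st_band_out hdd hdg hGV (hG m hm'.le) (hG (m + 1) hm)
          (fun j => co_anti (hmono m hm') j) (fun j => co_anti (hle' m hm'.le) j) _ hJ h12
          (fun j hj1 hj2 => ?_)
        cases j with
        | zero => exact Loc_HK_zero _ _
        | succ j => exact hrel m hm' j (hb j hj1 hj2)
      · rw [st_band_in hdd hdg hGV (hG m hm'.le) (hG (m + 1) hm)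
          (fun j => co_anti (hmono m hm') j) (fun j => co_anti (hle' m hm'.le) j) _ hJ h12
          (fun j hj => ?_)]
        · rw [st_fold hc hs hX (hA m) (hA (m + 1)) hXL (hAL m) (hAL (m + 1)) (hmono m hm')
            (hAXi (m + 1) hm) (hfinA m hm'.le), he]
        · cases j with
          | zero => exact Loc_HK_zero _ _
          | succ j => exact hrel m hm' j (hb j hj)
  exact key M le_rfl

end Pool.Agent.H45.AC
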