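import Pool.Agent.H47.ST.Sep

/-!
# Project AC: separation with a sup norm bound, levels between two given ones
-/

set_option autoImplicit false

namespace Pool.Agent.H45.AC

open Filter Topology
open Pool.Agent.H47.ST

variable {ι : Type*} [Fintype ι] [DecidableEq ι]

/-- As `separation`, with a small perturbation which adds the same constant at all critical points
with property `P`. -/
theorem separation2 (L : AddSubgroup (ι → ℤ)) (π : Equiv.Perm ι)
    (hLpi : ∀ l ∈ L, l ∘ π = l) (f : (ι → ℝ) → ℝ) (hf : ContDiff ℝ 2 f)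
    (hfp : PerL L f) (hfT : ∀ y, f (y ∘ π) = f y) (Z : Finset (ι → ℝ))
    (hZ : ∀ y, fderiv ℝ f y = 0 ↔ ∃ z ∈ Z, ∃ l ∈ L, y = z + rl l)
    (P : (ι → ℝ) → Prop) (hP1 : ∀ y, fderiv ℝ f y = 0 → ∀ l ∈ L, P (y + rl l) ↔ P y)
    (hP2 : ∀ y, fderiv ℝ f y = 0 → (P (y ∘ π) ↔ P y)) (ε₀ : ℝ) (hε₀ : 0 < ε₀) :
    ∃ (f' : (ι → ℝ) → ℝ) (ε : ℝ), ContDiff ℝ 2 f' ∧ PerL L f' ∧ (∀ y, f' (y ∘ π) = f' y) ∧
      (∀ y i, |fderiv ℝ f' y (Pi.single i 1) - fderiv ℝ f y (Pi.single i 1)| ≤ 1) ∧
      (∀ y, |f' y - f y| ≤ ε₀) ∧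
      (∀ y, fderiv ℝ f' y = 0 ↔ fderiv ℝ f y = 0) ∧
      (∀ y, fderiv ℝ f y = 0 → ∃ c : ℝ, ∀ᶠ x in 𝓝 y, f' x = f x + c) ∧
      (∀ y, fderiv ℝ f y = 0 → P y → f' y = f y + ε) ∧
      (∀ y, fderiv ℝ f y = 0 → ¬ P y → f' y = f y) ∧
      ∀ y y', fderiv ℝ f y = 0 → fderiv ℝ f y' = 0 → P y → ¬ P y' → f' y ≠ f' y' := by
  classical
  obtain ⟨Z', hZ1, hZ2⟩ := Sep_reps L Z
  have hC : ∀ y, fderiv ℝ f y = 0 ↔ ∃ z ∈ Z', ∃ l ∈ L, y = z + rl l := fun y =>
    (hZ y).trans (hZ1 y).symm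
  have hcz : ∀ z ∈ Z', fderiv ℝ f z = 0 := fun z hz =>
    (hC z).mpr ⟨z, hz, 0, L.zero_mem, by rw [Sep_rl_zero, add_zero]⟩
  obtain ⟨r, hd, hr⟩ := ((Disj_small L Z' hZ2).and self_mem_nhdsWithin).exists
  have hr : 0 < r := hr
  obtain ⟨χ, hχ, hχp, hχpi, hχ0, hχ1, hχ2⟩ := Sep_chi L π hLpi Z' r hr hd
    (fun z hz => (hC _).mp ((Sep_crit π f hf hfT z).mpr (hcz z hz)))
    (fun z hz => (hC _).mp ((Sep_crit π f hf hfT _).mp (by
      have h : (z ∘ π.symm) ∘ π = z := by funext i; simp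
      rw [h]
      exact hcz z hz))) P
    (fun z hz z' hz' l hl h => by
      rw [← hP2 z (hcz z hz), h]
      exact (hP1 z' (hcz z' hz') l hl).symm)
  have hfd : Differentiable ℝ f := hf.differentiable (by norm_num)
  have hχd : Differentiable ℝ χ := hχ.differentiable (by norm_num)
  have hcf : Continuous (fderiv ℝ f) := hf.continuous_fderiv (by norm_num)
  have hcχ : Continuous (fderiv ℝ χ) := hχ.continuous_fderiv (by norm_num)
  -- local constancy
  have hloc : ∀ z ∈ Z', ∀ l ∈ L, ∀ y ∈ Metric.ball (z + rl l) (r / 4),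
      ∀ᶠ x in 𝓝 y, χ x = χ y := by
    intro z hz l hl y hy
    filter_upwards [Metric.isOpen_ball.mem_nhds hy] with x hx
    by_cases h : P z
    · rw [hχ1 z hz l hl x hx h, hχ1 z hz l hl y hy h]
    · rw [hχ2 z hz l hl x hx h, hχ2 z hz l hl y hy h]
  have hloc0 : ∀ z ∈ Z', ∀ l ∈ L, ∀ y ∈ Metric.ball (z + rl l) (r / 4), fderiv ℝ χ y = 0 := by
    intro z hz l hl y hy
    have h : χ =ᶠ[𝓝 y] fun _ => χ y := hloc z hz l hl y hy
    rw [h.fderiv_eq]
    simp
  have hout0 : ∀ y, (∀ z ∈ Z', ∀ l ∈ L, y ∉ Metric.closedBall (z + rl l) (r / 2)) →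
      fderiv ℝ χ y = 0 := by
    intro y hy
    have h : χ =ᶠ[𝓝 y] fun _ => (0 : ℝ) := hχ0 y hy
    rw [h.fderiv_eq]
    simp
  -- bound of the derivative of `χ`
  have hK : IsCompact (⋃ z ∈ Z', Metric.closedBall z (r / 2)) :=
    Z'.isCompact_biUnion fun z _ => isCompact_closedBall z (r / 2)
  obtain ⟨C, hCb⟩ : ∃ C : ℝ, ∀ y, ‖fderiv ℝ χ y‖ ≤ C := by
    obtain ⟨C, hC'⟩ := hK.exists_bound_of_continuousOn hcχ.continuousOn
    refine ⟨max C 0, fun y => ?_⟩
    by_cases h : ∃ z ∈ Z', ∃ l ∈ L, y ∈ Metric.closedBall (z + rl l) (r / 2)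
    · obtain ⟨z, hz, l, hl, hy⟩ := h
      have h1 : y - rl l ∈ Metric.closedBall z (r / 2) := by
        rw [Metric.mem_closedBall, dist_eq_norm] at hy ⊢
        have : y - rl l - z = y - (z + rl l) := by abel
        rwa [this]
      have h2 := Sep_fderiv_per L χ hχp l hl (y - rl l)
      rw [sub_add_cancel] at h2
      rw [h2]
      exact (hC' _ (Set.mem_biUnion hz h1)).trans (le_max_left _ _)
    · push Not at h
      rw [hout0 y h, norm_zero]
      exact le_max_right _ _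
  have hC0 : 0 ≤ C := (norm_nonneg _).trans (hCb 0)
  -- bound of `χ`
  obtain ⟨B, hBb⟩ : ∃ B : ℝ, ∀ y, ‖χ y‖ ≤ B := by
    obtain ⟨B, hB'⟩ := hK.exists_bound_of_continuousOn hχ.continuous.continuousOn
    refine ⟨max B 0, fun y => ?_⟩
    by_cases h : ∃ z ∈ Z', ∃ l ∈ L, y ∈ Metric.closedBall (z + rl l) (r / 2)
    · obtain ⟨z, hz, l, hl, hy⟩ := h
      have h1 : y - rl l ∈ Metric.closedBall z (r / 2) := by
        rw [Metric.mem_closedBall, dist_eq_norm] at hy ⊢
        have : y - rl l - z = y - (z + rl l) := by abel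
        rwa [this]
      have h2 := hχp l hl (y - rl l)
      rw [sub_add_cancel] at h2
      rw [h2]
      exact (hB' _ (Set.mem_biUnion hz h1)).trans (le_max_left _ _)
    · push Not at h
      rw [(hχ0 y h).self_of_nhds, norm_zero]
      exact le_max_right _ _
  have hB0 : 0 ≤ B := (norm_nonneg _).trans (hBb 0)
  -- lower bound of the derivative of `f` on the shells
  obtain ⟨c, hc, hcb⟩ : ∃ c > 0, ∀ z ∈ Z', ∀ y ∈ Metric.closedBall z (r / 2),
      y ∉ Metric.ball z (r / 4) → c ≤ ‖fderiv ℝ f y‖ := by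
    have hK2 : IsCompact (⋃ z ∈ Z', Metric.closedBall z (r / 2) \ Metric.ball z (r / 4)) :=
      Z'.isCompact_biUnion fun z _ => (isCompact_closedBall z (r / 2)).diff Metric.isOpen_ball
    rcases (⋃ z ∈ Z', Metric.closedBall z (r / 2) \ Metric.ball z (r / 4)).eq_empty_or_nonempty
      with he | hne
    · refine ⟨1, one_pos, fun z hz y hy hy' => ?_⟩
      have : y ∈ (⋃ z ∈ Z', Metric.closedBall z (r / 2) \ Metric.ball z (r / 4)) :=
        Set.mem_biUnion hz ⟨hy, hy'⟩
      rw [he] at this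
      exact absurd this (Set.notMem_empty _)
    · obtain ⟨y0, hy0, hmin⟩ := hK2.exists_isMinOn hne hcf.norm.continuousOn
      refine ⟨‖fderiv ℝ f y0‖, ?_, fun z hz y hy hy' => ?_⟩
      · rw [gt_iff_lt, norm_pos_iff]
        intro h0
        obtain ⟨z, hz, hy1, hy2⟩ := Set.mem_iUnion₂.mp hy0
        obtain ⟨z', hz', l', hl', h1⟩ := (hC y0).mp h0
        have h2 : y0 ∈ Metric.closedBall (z' + rl l') r := by
          rw [h1]
          exact Metric.mem_closedBall_self hr.le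
        obtain ⟨h3, h4⟩ := hd z' hz' z hz l' hl' y0 h2
          (Metric.closedBall_subset_closedBall (by linarith) hy1)
        apply hy2
        rw [h1, h4, Sep_rl_zero, add_zero, h3]
        exact Metric.mem_ball_self (by linarith)
      · exact hmin (Set.mem_biUnion hz ⟨hy, hy'⟩)
  -- the choice of `ε`
  have hev1 : ∀ᶠ ε in 𝓝[>] (0 : ℝ), ε * C ≤ 1 ∧ ε * C < c := by
    have h1 : Filter.Tendsto (fun ε : ℝ => ε * C) (𝓝 0) (𝓝 0) := by
      have : Continuous fun ε : ℝ => ε * C := by fun_prop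
      simpa using this.tendsto 0
    have h2 := (h1.eventually (gt_mem_nhds (show (0 : ℝ) < min 1 c from lt_min one_pos hc)))
    refine nhdsWithin_le_nhds (h2.mono fun ε h => ?_)
    exact ⟨(h.trans_le (min_le_left _ _)).le, h.trans_le (min_le_right _ _)⟩
  have hev2 : ∀ᶠ ε in 𝓝[>] (0 : ℝ), ∀ z ∈ Z', ∀ z' ∈ Z', ε ≠ f z' - f z := by
    rw [Filter.eventually_all_finset]
    intro z _
    rw [Filter.eventually_all_finset]
    intro z' _
    rcases le_or_gt (f z' - f z) 0 with h | h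
    · filter_upwards [self_mem_nhdsWithin] with ε hε
      exact (h.trans_lt hε).ne'
    · refine nhdsWithin_le_nhds ?_
      filter_upwards [gt_mem_nhds h] with ε hε
      exact hε.ne
  have hev3 : ∀ᶠ ε in 𝓝[>] (0 : ℝ), ε * B < ε₀ := by
    have h1 : Filter.Tendsto (fun ε : ℝ => ε * B) (𝓝 0) (𝓝 0) := by
      have : Continuous fun ε : ℝ => ε * B := by fun_prop
      simpa using this.tendsto 0
    exact nhdsWithin_le_nhds (h1.eventually (gt_mem_nhds hε₀))
  obtain ⟨ε, ⟨⟨⟨hε1, hε2⟩, hε3⟩, hε4⟩, hε0⟩ :=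
    (((hev1.and hev2).and hev3).and self_mem_nhdsWithin).exists
  have hε0 : 0 < ε := hε0
  have hder : ∀ y, fderiv ℝ (fun x => f x + ε * χ x) y = fderiv ℝ f y + ε • fderiv ℝ χ y := by
    intro y
    exact ((hfd y).hasFDerivAt.add ((hχd y).hasFDerivAt.const_mul ε)).fderiv
  refine ⟨fun x => f x + ε * χ x, ε, hf.add (contDiff_const.mul hχ), ?_, ?_, ?_, ?_, ?_, ?_, ?_, ?_,
    ?_⟩
  · intro l hl y
    show f (y + rl l) + ε * χ (y + rl l) = f y + ε * χ y
    rw [hfp l hl, hχp l hl]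
  · intro y
    show f (y ∘ π) + ε * χ (y ∘ π) = f y + ε * χ y
    rw [hfT, hχpi]
  · intro y i
    rw [hder]
    have h1 : (fderiv ℝ f y + ε • fderiv ℝ χ y) (Pi.single i 1) - fderiv ℝ f y (Pi.single i 1) =
        ε * fderiv ℝ χ y (Pi.single i 1) := by
      simp
    rw [h1, abs_mul, abs_of_pos hε0]
    have h2 : |fderiv ℝ χ y (Pi.single i 1)| ≤ C := by
      have h3 := (fderiv ℝ χ y).le_opNorm (Pi.single i 1)
      have h4 : ‖(Pi.single i 1 : ι → ℝ)‖ ≤ 1 := by
        rw [pi_norm_le_iff_of_nonneg zero_le_one]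
        intro j
        by_cases h : j = i
        · subst h; simp
        · simp [Pi.single_eq_of_ne h]
      rw [Real.norm_eq_abs] at h3
      calc |fderiv ℝ χ y (Pi.single i 1)| ≤ ‖fderiv ℝ χ y‖ * ‖(Pi.single i 1 : ι → ℝ)‖ := h3
        _ ≤ C * 1 := mul_le_mul (hCb y) h4 (norm_nonneg _) hC0
        _ = C := mul_one C
    exact (mul_le_mul_of_nonneg_left h2 hε0.le).trans hε1
  · intro y
    change |f y + ε * χ y - f y| ≤ ε₀
    rw [add_sub_cancel_left, abs_mul, abs_of_pos hε0, ← Real.norm_eq_abs (χ y)]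
    exact (mul_le_mul_of_nonneg_left (hBb y) hε0.le).trans hε4.le
  · intro y
    rw [hder]
    constructor
    · intro h
      by_contra hne
      have hχy : fderiv ℝ χ y ≠ 0 := by
        intro h0
        rw [h0, smul_zero, add_zero] at h
        exact hne h
      by_cases hin : ∃ z ∈ Z', ∃ l ∈ L, y ∈ Metric.closedBall (z + rl l) (r / 2)
      · obtain ⟨z, hz, l, hl, hy⟩ := hin
        have h1 : y - rl l ∈ Metric.closedBall z (r / 2) := by
          rw [Metric.mem_closedBall, dist_eq_norm] at hy ⊢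
          have : y - rl l - z = y - (z + rl l) := by abel
          rwa [this]
        have h2 : y - rl l ∉ Metric.ball z (r / 4) := by
          intro h3
          apply hχy
          apply hloc0 z hz l hl
          rw [Metric.mem_ball, dist_eq_norm] at h3 ⊢
          have : y - (z + rl l) = y - rl l - z := by abel
          rwa [this]
        have h3 := hcb z hz _ h1 h2
        have h4 := Sep_fderiv_per L f hfp l hl (y - rl l)
        rw [sub_add_cancel] at h4
        rw [← h4] at h3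
        have h5 : fderiv ℝ f y = -(ε • fderiv ℝ χ y) := eq_neg_of_add_eq_zero_left h
        rw [h5, norm_neg, norm_smul, Real.norm_eq_abs, abs_of_pos hε0] at h3
        have h6 := mul_le_mul_of_nonneg_left (hCb y) hε0.le
        linarith
      · push Not at hin
        exact hχy (hout0 y hin)
    · intro h
      obtain ⟨z, hz, l, hl, rfl⟩ := (hC y).mp h
      rw [h, hloc0 z hz l hl _ (Metric.mem_ball_self (by linarith))]
      simp
  · intro y h
    obtain ⟨z, hz, l, hl, rfl⟩ := (hC y).mp h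
    refine ⟨ε * χ (z + rl l), ?_⟩
    filter_upwards [hloc z hz l hl _ (Metric.mem_ball_self (by linarith))] with x hx
    rw [hx]
  · intro y hy hPy
    obtain ⟨z, hz, l, hl, rfl⟩ := (hC y).mp hy
    have h1 : P z := (hP1 z (hcz z hz) l hl).mp hPy
    change f (z + rl l) + ε * χ (z + rl l) = f (z + rl l) + ε
    rw [hχ1 z hz l hl _ (Metric.mem_ball_self (by linarith)) h1, mul_one]
  · intro y hy hPy
    obtain ⟨z, hz, l, hl, rfl⟩ := (hC y).mp hy
    have h1 : ¬ P z := fun h => hPy ((hP1 z (hcz z hz) l hl).mpr h)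
    change f (z + rl l) + ε * χ (z + rl l) = f (z + rl l)
    rw [hχ2 z hz l hl _ (Metric.mem_ball_self (by linarith)) h1, mul_zero, add_zero]
  · intro y y' hy hy' hPy hPy'
    obtain ⟨z, hz, l, hl, rfl⟩ := (hC y).mp hy
    obtain ⟨z', hz', l', hl', rfl⟩ := (hC y').mp hy'
    have h1 : P z := (hP1 z (hcz z hz) l hl).mp hPy
    have h2 : ¬ P z' := fun h => hPy' ((hP1 z' (hcz z' hz') l' hl').mpr h)
    show f (z + rl l) + ε * χ (z + rl l) ≠ f (z' + rl l') + ε * χ (z' + rl l')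
    rw [hfp l hl, hfp l' hl', hχ1 z hz l hl _ (Metric.mem_ball_self (by linarith)) h1,
      hχ2 z' hz' l' hl' _ (Metric.mem_ball_self (by linarith)) h2]
    intro h
    apply hε3 z hz z' hz'
    linarith

/-- levels separating finitely many values, between two given ones -/
theorem levels_between (V : Finset ℝ) {b b' : ℝ} (hb : b < b') (hV : b ∉ V) (hV' : b' ∉ V) :
    ∃ (M : ℕ) (α : ℕ → ℝ), α 0 = b ∧ α M = b' ∧ (∀ i < M, α i < α (i + 1)) ∧
      (∀ i ≤ M, α i ∉ V) ∧
      ∀ i < M, ∀ v ∈ V, ∀ v' ∈ V, α i < v → v < α (i + 1) → α i < v' → v' < α (i + 1) →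
        v = v' := by
  obtain ⟨M, α, hα, h0, hM, hV1, hV2⟩ := exists_levels V b b'
  have hb1 : ∃ i, b < α (i + 1) := ⟨M, hb.trans_le (hM.trans (hα.monotone (Nat.le_succ M)))⟩
  have hb2 : ∃ i, b' ≤ α i := ⟨M, hM⟩
  classical
  set i0 := Nat.find hb1 with hi0
  set i1 := Nat.find hb2 with hi1
  have h1 : b < α (i0 + 1) := Nat.find_spec hb1
  have h2 : b' ≤ α i1 := Nat.find_spec hb2
  have h3 : α i0 ≤ b := by
    rcases Nat.eq_zero_or_pos i0 with h | h
    · rw [h]; exact h0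
    · have h4 := Nat.find_min hb1 (m := i0 - 1) (by omega)
      rw [Nat.sub_add_cancel h] at h4
      exact not_lt.1 h4
  have h5 : i0 < i1 := hα.lt_iff_lt.1 (h3.trans_lt (hb.trans_le h2))
  have h6 : ∀ i < i1, α i < b' := fun i hi => not_le.1 (Nat.find_min hb2 hi)
  have h7 : ∀ i, b < α (i0 + (i + 1)) := fun i =>
    h1.trans_le (hα.monotone (by omega))
  refine ⟨i1 - i0, fun i => max b (min b' (α (i0 + i))), ?_, ?_, fun i hi => ?_, fun i _ => ?_,
    fun i _ v hv v' hv' e1 e2 e3 e4 => ?_⟩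
  · change max b (min b' (α (i0 + 0))) = b
    rw [add_zero]
    exact max_eq_left ((min_le_right _ _).trans h3)
  · change max b (min b' (α (i0 + (i1 - i0)))) = b'
    rw [Nat.add_sub_cancel' h5.le, min_eq_left h2, max_eq_right hb.le]
  · change max b (min b' (α (i0 + i))) < max b (min b' (α (i0 + (i + 1))))
    rw [min_eq_right (h6 _ (by omega)).le]
    refine lt_max_of_lt_right (max_lt (lt_min hb (h7 i)) (lt_min (h6 _ (by omega)) ?_))
    exact hα (by omega)
  · change max b (min b' (α (i0 + i))) ∉ V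
    rcases max_choice b (min b' (α (i0 + i))) with h | h
    · rw [h]; exact hV
    · rw [h]
      rcases min_choice b' (α (i0 + i)) with h' | h'
      · rw [h']; exact hV'
      · rw [h']; exact hV1 _
  · have key : ∀ u, max b (min b' (α (i0 + i))) < u → u < max b (min b' (α (i0 + (i + 1)))) →
        α (i0 + i) < u ∧ u < α (i0 + i + 1) := by
      intro u hu1 hu2
      have hbu : b < u := (le_max_left _ _).trans_lt hu1
      have hu3 : u < min b' (α (i0 + (i + 1))) := by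
        rcases lt_max_iff.1 hu2 with h | h
        · exact absurd h (not_lt.2 hbu.le)
        · exact h
      have hu4 : min b' (α (i0 + i)) < u := (le_max_right _ _).trans_lt hu1
      refine ⟨?_, hu3.trans_le (min_le_right _ _)⟩
      rcases min_lt_iff.1 hu4 with h | h
      · exact absurd h (not_lt.2 (hu3.trans_le (min_le_left _ _)).le)
      · exact h
    obtain ⟨a1, a2⟩ := key v e1 e2
    obtain ⟨a3, a4⟩ := key v' e3 e4
    exact hV2 _ v hv v' hv' a1 a2 a3 a4

end Pool.Agent.H45.AC
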