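import Pool.Agent.H47.ST.LocM
import Pool.Agent.H47.QG.LocD

/-!
# Project AC: perturbations given by the local index
-/

set_option autoImplicit false

namespace Pool.Agent.H45.AC

open Filter Topology QuadraticForm
open Pool.Agent.H47.ST
open Pool.Agent.H47.QG (sg neg hess LD LocIdx)

variable {ι : Type*} [Fintype ι] [DecidableEq ι]

/-- the perturbations given by the local index -/
theorem LocIdx_LD (A : (ι → ℝ) → ℝ) (hA : ContDiff ℝ 2 A) (z : ι → ℝ) (s : ℤ)
    (h : LocIdx A z s) (r : ℝ) (hr : 0 < r)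
    (hiso : ∀ x ∈ Metric.closedBall z r, fderiv ℝ A x = 0 → x = z) :
    ∃ (g : (ι → ℝ) → ℝ) (X : Finset (ι → ℝ)), LD A z r g X ∧
      ∑ x ∈ X, (-1 : ℤ) ^ sigNeg (hess g x) = s := by
  obtain ⟨r0, hr0, hiso0, δ0, hδ0, hpert⟩ := h
  by_cases hcrit : fderiv ℝ A z = 0
  swap
  · refine ⟨A, ∅, ⟨hA, fun _ _ => rfl, fun y hy => ⟨fun h => ?_, fun h => ?_⟩, ?_, ?_, ?_, ?_⟩, ?_⟩
    · rw [hiso y hy h] at h
      exact absurd h hcrit
    · simp at h
    · simp
    · simp
    · simp
    · simp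
    · have hno : ∀ y ∈ Metric.ball z r0, fderiv ℝ A y ≠ 0 := by
        intro y hy h0
        rw [hiso0 y (Metric.ball_subset_closedBall hy) h0] at h0
        exact hcrit h0
      obtain ⟨X, hX, hs⟩ := hpert 0 (by rw [norm_zero]; exact hδ0)
        (fun y hy h0 => absurd h0 (hno y hy))
      have hX0 : X = ∅ := by
        rw [Finset.eq_empty_iff_forall_notMem]
        intro y hy
        exact hno y ((hX y).1 hy).1 ((hX y).1 hy).2
      rw [hX0] at hs
      exact hs
  obtain ⟨δ, hδ, hsemi⟩ := Pool.Agent.H47.QG.sigNeg_semicont (hess A z)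
  obtain ⟨ρ₀, hρ₀, hcont⟩ := Pool.Agent.H47.QG.Sard_hess_cont hA z δ hδ
  -- the radius
  let ρ : ℝ := min ρ₀ (min (r / 8) r0)
  have hρ : 0 < ρ := lt_min hρ₀ (lt_min (by linarith) hr0)
  have hρ1 : ρ ≤ ρ₀ := min_le_left _ _
  have hρ2 : ρ ≤ r / 8 := (min_le_right _ _).trans (min_le_left _ _)
  have hρ3 : ρ ≤ r0 := (min_le_right _ _).trans (min_le_right _ _)
  -- cut-off function
  let χ : ContDiffBump z := ⟨r / 8, r / 4, by linarith, by linarith⟩
  have hχ : ContDiff ℝ 2 (χ : (ι → ℝ) → ℝ) := χ.contDiff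
  obtain ⟨C, hC⟩ := (isCompact_closedBall z r).exists_bound_of_continuousOn
    (hχ.continuous_fderiv two_ne_zero).continuousOn
  have hC0 : 0 ≤ C := (norm_nonneg _).trans (hC z (Metric.mem_closedBall_self hr.le))
  -- the lower bound on the shell
  obtain ⟨c, hc, hshell⟩ : ∃ c > 0, ∀ y ∈ Metric.closedBall z (max r r0), ρ ≤ dist y z →
      c ≤ ‖fderiv ℝ A y‖ := by
    let K : Set (ι → ℝ) := {y | y ∈ Metric.closedBall z (max r r0) ∧ ρ ≤ dist y z}
    have hK : IsCompact K := (isCompact_closedBall z (max r r0)).inter_right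
      (isClosed_le continuous_const (continuous_id.dist continuous_const))
    rcases K.eq_empty_or_nonempty with hE | hE
    · refine ⟨1, one_pos, fun y hy1 hy2 => ?_⟩
      have h1 : y ∈ K := ⟨hy1, hy2⟩
      rw [hE] at h1
      exact absurd h1 (Set.notMem_empty y)
    · obtain ⟨y₀, hy₀, hmin⟩ := hK.exists_isMinOn hE
        ((hA.continuous_fderiv two_ne_zero).norm.continuousOn)
      refine ⟨‖fderiv ℝ A y₀‖, ?_, fun y hy1 hy2 => hmin (a := y) ⟨hy1, hy2⟩⟩
      rw [gt_iff_lt, norm_pos_iff]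
      intro h0
      have h1 : y₀ = z := by
        have h2 := hy₀.1
        rw [Metric.mem_closedBall, le_max_iff] at h2
        rcases h2 with h2 | h2
        · exact hiso y₀ (Metric.mem_closedBall.2 h2) h0
        · exact hiso0 y₀ (Metric.mem_closedBall.2 h2) h0
      have h2 := hy₀.2
      rw [h1, dist_self] at h2
      linarith
  -- the regular value
  have hD : 0 < 1 + r * C := by positivity
  obtain ⟨a, ha0, ha2'⟩ := Pool.Agent.H47.QG.exists_regular_dual A hA
    (min (c / (1 + r * C)) δ0) (lt_min (div_pos hc hD) hδ0)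
  have ha1 : ‖a‖ < c / (1 + r * C) := ha0.trans_le (min_le_left _ _)
  have ha2 : ∀ y ∈ Metric.ball z r0, fderiv ℝ A y = a →
      ∀ v, fderiv ℝ (fderiv ℝ A) y v = 0 → v = 0 := fun y _ hy => ha2' y hy
  obtain ⟨X, hX, hXs⟩ := hpert a (ha0.trans_le (min_le_right _ _)) ha2
  have hal : ‖a‖ * (1 + r * C) < c := by
    rwa [lt_div_iff₀ hD] at ha1
  have hac : ‖a‖ < c := by
    have h1 : 0 ≤ ‖a‖ * (r * C) := by positivity
    nlinarith
  let g : (ι → ℝ) → ℝ := fun x => A x - χ x * a (x - z)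
  have hg : ContDiff ℝ 2 g := by
    refine hA.sub (hχ.mul ?_)
    exact a.contDiff.comp (contDiff_id.sub contDiff_const)
  have hgd : ∀ y, fderiv ℝ g y =
      fderiv ℝ A y - (χ y • a + a (y - z) • fderiv ℝ χ y) :=
    LocM_fderiv hA hχ z a
  -- outside
  have hout : ∀ y ∈ Metric.closedBall z r, ρ ≤ dist y z → fderiv ℝ g y ≠ 0 := by
    intro y hy hy2 h0
    rw [hgd, sub_eq_zero] at h0
    have h1 := hshell y (Metric.closedBall_subset_closedBall (le_max_left _ _) hy) hy2
    rw [h0] at h1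
    have h2 : ‖χ y • a + a (y - z) • fderiv ℝ χ y‖ ≤ ‖a‖ * (1 + r * C) := by
      refine (norm_add_le _ _).trans ?_
      rw [norm_smul, norm_smul]
      have h3 : ‖χ y‖ ≤ 1 := by
        rw [Real.norm_eq_abs, abs_of_nonneg χ.nonneg]
        exact χ.le_one
      have h4 : ‖a (y - z)‖ ≤ ‖a‖ * r := by
        refine (a.le_opNorm _).trans ?_
        rw [Metric.mem_closedBall, dist_eq_norm] at hy
        gcongr
      have h5 := hC y hy
      calc ‖χ y‖ * ‖a‖ + ‖a (y - z)‖ * ‖fderiv ℝ χ y‖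
          ≤ 1 * ‖a‖ + (‖a‖ * r) * C := by gcongr
        _ = ‖a‖ * (1 + r * C) := by ring
    linarith
  -- inside
  have hin : ∀ y ∈ Metric.ball z ρ, fderiv ℝ g y = fderiv ℝ A y - a := by
    intro y hy
    have h1 : (χ : (ι → ℝ) → ℝ) =ᶠ[nhds y] fun _ => (1 : ℝ) := by
      filter_upwards [Metric.isOpen_ball.mem_nhds hy] with w hw
      apply χ.one_of_mem_closedBall
      rw [Metric.mem_ball] at hw
      rw [Metric.mem_closedBall]
      exact hw.le.trans hρ2
    have h2 : χ y = 1 := h1.self_of_nhds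
    rw [hgd, h1.fderiv_eq, h2, fderiv_const_apply, one_smul, smul_zero, add_zero]
  have hhess : ∀ y ∈ Metric.ball z ρ, hess g y = hess A y := by
    intro y hy
    apply Pool.Agent.H47.QG.Sard_hess_sub (L := a)
    filter_upwards [Metric.isOpen_ball.mem_nhds hy] with w hw
    exact hin w hw
  -- all solutions are close
  have hXρ : ∀ y ∈ X, y ∈ Metric.ball z ρ := by
    intro y hy
    obtain ⟨h1, h2⟩ := (hX y).1 hy
    by_contra h3
    rw [Metric.mem_ball, not_lt] at h3
    have h4 := hshell y (Metric.closedBall_subset_closedBall (le_max_right _ _)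
      (Metric.ball_subset_closedBall h1)) h3
    rw [h2] at h4
    linarith
  have hlo : ∀ y ∈ Metric.ball z ρ, sigNeg (hess A z) ≤ sigNeg (hess g y) ∧
      sigPos (hess A z) ≤ sigPos (hess g y) := by
    intro y hy
    rw [hhess y hy]
    apply hsemi
    apply hcont
    rw [Metric.mem_ball] at hy
    linarith
  have hnd : ∀ y ∈ X, sigNeg (hess g y) + sigPos (hess g y) = Fintype.card ι := by
    intro y hy
    rw [hhess y (hXρ y hy)]
    obtain ⟨h1, h2⟩ := (hX y).1 hy
    have h3 := Pool.Agent.H47.QG.LocN_sig A hA y (ha2 y h1 h2)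
    rw [Module.finrank_fintype_fun_eq_card] at h3
    omega
  refine ⟨g, X, ⟨hg, ?_, ?_, ?_, hnd, ?_, ?_⟩, ?_⟩
  · intro y hy
    have h1 : χ y = 0 := by
      apply χ.zero_of_le_dist
      rw [Metric.mem_closedBall, not_le] at hy
      change r / 4 ≤ dist y z
      linarith
    simp only [g]
    rw [h1, zero_mul, sub_zero]
  · intro y hy
    constructor
    · intro h0
      have h1 : y ∈ Metric.ball z ρ := by
        by_contra h
        rw [Metric.mem_ball, not_lt] at h
        exact hout y hy h h0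
      rw [hin y h1, sub_eq_zero] at h0
      exact (hX y).2 ⟨Metric.ball_subset_ball hρ3 h1, h0⟩
    · intro h1
      rw [hin y (hXρ y h1), ((hX y).1 h1).2, sub_self]
  · intro y hy
    have h1 := hXρ y hy
    rw [Metric.mem_ball] at h1 ⊢
    linarith
  · intro y hy
    exact (hlo y (hXρ y hy)).1
  · intro y hy
    have h1 := hnd y hy
    have h2 := (hlo y (hXρ y hy)).2
    omega
  · rw [← hXs]
    exact Finset.sum_congr rfl fun y hy => by rw [hhess y (hXρ y hy)]

end Pool.Agent.H45.AC
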