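import Pool.Agent.H45.AC.FineE
import Pool.Agent.H47.ST.Win
import Pool.Agent.H45.AC.LocI

/-!
# Project AC: Euler characteristic of the bands of a `C^2` function
-/

set_option autoImplicit false

namespace Pool.Agent.H45.AC

open Filter Topology QuadraticForm
open Pool.Agent.H47.ST
open Pool.Agent.H47.QG (sg neg hess LD LocIdx)

variable {ι : Type*} [Fintype ι] [DecidableEq ι]

/-- exact form of `Win_core` -/
theorem win_ech {L : AddSubgroup (ι → ℤ)} {q Q f : (ι → ℝ) → ℝ}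
    {R a α β : ℝ} {Z : Finset (ι → ℝ)} (h : Band L q Q f R a α β Z) {r : ℝ} (hr : 0 < r)
    (hd : Disj L Z r)
    (hin : ∀ z ∈ Z, ∀ y ∈ Metric.closedBall z r, q y < R ∧ -a < Q y ∧ α < f y ∧ f y < β)
    (g : (ι → ℝ) → (ι → ℝ) → ℝ) (X : (ι → ℝ) → Finset (ι → ℝ))
    (hLD : ∀ z ∈ Z, LD f z r (g z) (X z)) :
    ∀ᶠ M : ℕ in atTop, ech (lam L (2 ^ M)) (Lv q Q f R a β (2 ^ M)) (Lv q Q f R a α (2 ^ M)) =
      ∑ z ∈ Z, ∑ x ∈ X z, (-1) ^ sigNeg (hess (g z) x) := by
  have hex : ∀ z ∈ Z, ∃ (k : (ι → ℝ) → ℝ) (c : (ι → ℝ) → ι → ℝ), ContDiff ℝ 1 k ∧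
      (∀ y, y ∉ Metric.closedBall z (r / 2) → k y = f y) ∧
      (∀ y ∈ Metric.closedBall z r, fderiv ℝ k y = 0 ↔ y ∈ X z) ∧
      ∀ x ∈ X z, StdAt k x (c x) ∧ neg (c x) = sigNeg (hess (g z) x) := fun z hz =>
    LD_std f h.smooth z r hr (g z) (X z) (hLD z hz)
  choose! k c hk1 hk2 hk3 hk4 using hex
  have hf1 : ContDiff ℝ 1 f := h.smooth.of_le (by norm_num)
  obtain ⟨f', hf'1, hf'p, hfar, hnear⟩ := glue L 1 f hf1 h.per Z r hr hd k hk1 hk2
  have hnear0 : ∀ z ∈ Z, ∀ y ∈ Metric.ball z r, f' y = k z y := by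
    intro z hz y hy
    have := hnear z hz 0 L.zero_mem y (by rwa [Win_rl_zero, add_zero])
    rwa [Win_rl_zero, sub_zero] at this
  have hXb : ∀ z ∈ Z, ∀ x ∈ X z, x ∈ Metric.ball z (r / 2) := fun z hz x hx => (hLD z hz).mem x hx
  have huniq : ∀ z ∈ Z, ∀ z' ∈ Z, ∀ x, x ∈ X z → x ∈ X z' → z = z' := by
    intro z hz z' hz' x hx hx'
    refine (hd z hz z' hz' 0 L.zero_mem x ?_ ?_).1
    · rw [Win_rl_zero, add_zero]
      exact Metric.ball_subset_closedBall (Metric.ball_subset_ball (by linarith) (hXb z hz x hx))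
    · exact Metric.ball_subset_closedBall (Metric.ball_subset_ball (by linarith) (hXb z' hz' x hx'))
  have hζ : ∀ x ∈ Z.biUnion X, ∃ z ∈ Z, x ∈ X z := fun x hx => Finset.mem_biUnion.1 hx
  choose! ζ hζ1 hζ2 using hζ
  have hζ3 : ∀ z ∈ Z, ∀ x ∈ X z, ζ x = z := by
    intro z hz x hx
    have hx' : x ∈ Z.biUnion X := Finset.mem_biUnion.2 ⟨z, hz, hx⟩
    exact huniq _ (hζ1 x hx') z hz x (hζ2 x hx') hx
  -- between the levels near the points
  have hmid : ∀ z ∈ Z, ∀ l ∈ L, ∀ y ∈ Metric.closedBall (z + rl l) (r / 2),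
      q y < R ∧ -a < Q y ∧ α < f y ∧ f y < β := by
    intro z hz l hl y hy
    have h1 := hin z hz (y - rl l)
      (Metric.closedBall_subset_closedBall (by linarith) (Win_sub_mem hy))
    rwa [Win_shift h.dm.qp hl, Win_shift h.dm.Qp hl, Win_shift h.per hl] at h1
  have hmain := fine_ech L q Q f f' R a α β h.dm hf1 hf'1 h.per hf'p h.lt h.bd
    (by
      intro y _ _
      by_cases hy : ∃ z ∈ Z, ∃ l ∈ L, y ∈ Metric.closedBall (z + rl l) (r / 2)
      · obtain ⟨z, hz, l, hl, hy'⟩ := hy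
        exact Or.inr (hmid z hz l hl y hy')
      · push Not at hy
        exact Or.inl (hfar y hy))
    (Z.biUnion X) (fun x => c (ζ x) x)
    (by
      intro x hx
      have hz := hζ1 x hx
      obtain ⟨⟨hc, ρ, hρ, hstd⟩, _⟩ := hk4 _ hz x (hζ2 x hx)
      have hxb := hXb _ hz x (hζ2 x hx)
      refine ⟨hc, min ρ (r / 2), lt_min hρ (half_pos hr), ?_⟩
      intro y hy
      have h1 : ∀ i, |y i - x i| < ρ := fun i => lt_of_lt_of_le (hy i) (min_le_left _ _)
      have h2 : dist y x < r / 2 := by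
        rw [dist_pi_lt_iff (half_pos hr)]
        intro i
        rw [Real.dist_eq]
        exact lt_of_lt_of_le (hy i) (min_le_right _ _)
      have h3 : y ∈ Metric.ball (ζ x) r := by
        rw [Metric.mem_ball] at hxb ⊢
        have := dist_triangle y x (ζ x)
        linarith
      rw [hnear0 _ hz y h3, hnear0 _ hz x (Metric.ball_subset_ball (by linarith) hxb)]
      exact hstd y h1)
    (by
      intro x hx
      have hz := hζ1 x hx
      exact hin _ hz x (Metric.ball_subset_closedBall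
        (Metric.ball_subset_ball (by linarith) (hXb _ hz x (hζ2 x hx)))))
    (by
      intro x hx x' hx' l hl he
      have hz := hζ1 x hx
      have hz' := hζ1 x' hx'
      have hxb := hXb _ hz x (hζ2 x hx)
      have hxb' := hXb _ hz' x' (hζ2 x' hx')
      have e1 : x' ∈ Metric.closedBall (ζ x + rl l) r := by
        rw [Metric.mem_closedBall, dist_eq_norm, he, show x + rl l - (ζ x + rl l) = x - ζ x by abel,
          ← dist_eq_norm]
        rw [Metric.mem_ball] at hxb
        linarith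
      have e2 : x' ∈ Metric.closedBall (ζ x') r :=
        Metric.ball_subset_closedBall (Metric.ball_subset_ball (by linarith) hxb')
      have e3 := (hd _ hz _ hz' l hl x' e1 e2).2
      rw [he, e3, Win_rl_zero, add_zero])
    (by
      intro y hqy hQy hα hβ hy0
      by_cases hy : ∃ z ∈ Z, ∃ l ∈ L, y ∈ Metric.closedBall (z + rl l) (r / 2)
      · obtain ⟨z, hz, l, hl, hy'⟩ := hy
        obtain ⟨_, _, e3, e4⟩ := hmid z hz l hl y hy'
        refine ⟨e3, e4, y - rl l, ?_, l, hl, by rw [sub_add_cancel]⟩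
        have hyb : y ∈ Metric.ball (z + rl l) r :=
          Metric.closedBall_subset_ball (by linarith) hy'
        have h1 : f' =ᶠ[𝓝 y] fun x => k z (x - rl l) := by
          filter_upwards [Metric.isOpen_ball.mem_nhds hyb] with x hx
          exact hnear z hz l hl x hx
        have h2 : fderiv ℝ (k z) (y - rl l) = 0 := by
          rw [← fderiv_comp_sub, ← h1.fderiv_eq, hy0]
        have h3 := (hk3 z hz (y - rl l)
          (Metric.closedBall_subset_closedBall (by linarith) (Win_sub_mem hy'))).1 h2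
        exact Finset.mem_biUnion.2 ⟨z, hz, h3⟩
      · exfalso
        push Not at hy
        have h1 : f' =ᶠ[𝓝 y] f := hfar y hy
        have h2 : fderiv ℝ f y = 0 := by rw [← h1.fderiv_eq, hy0]
        obtain ⟨z, hz, l, hl, hyl⟩ := h.crit y hqy.le hQy.le hα hβ h2
        exact hy z hz l hl (by rw [hyl]; exact Metric.mem_closedBall_self (half_pos hr).le))
  have hsum : ∑ x ∈ Z.biUnion X, (-1 : ℤ) ^ neg (c (ζ x) x) =
      ∑ z ∈ Z, ∑ x ∈ X z, (-1 : ℤ) ^ sigNeg (hess (g z) x) := by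
    rw [Finset.sum_biUnion]
    · refine Finset.sum_congr rfl fun z hz => ?_
      refine Finset.sum_congr rfl fun x hx => ?_
      rw [hζ3 z hz x hx, (hk4 z hz x hx).2]
    · intro z hz z' hz' hne
      rw [Function.onFun, Finset.disjoint_left]
      intro x hx hx'
      exact hne (huniq z hz z' hz' x hx hx')
  filter_upwards [hmain] with M hM
  rw [hM, hsum]

/-- **The Euler characteristic of a band is the sum of the local indices.** -/
theorem band_idx {L : AddSubgroup (ι → ℤ)} {q Q f : (ι → ℝ) → ℝ}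
    {R a α β : ℝ} {Z : Finset (ι → ℝ)} (h : Band L q Q f R a α β Z) (s : (ι → ℝ) → ℤ)
    (hs : ∀ z ∈ Z, LocIdx f z (s z)) :
    ∀ᶠ M : ℕ in atTop, ech (lam L (2 ^ M)) (Lv q Q f R a β (2 ^ M)) (Lv q Q f R a α (2 ^ M)) =
      ∑ z ∈ Z, s z := by
  obtain ⟨r, hr, hd, hin⟩ := Win_rad h
  have hex : ∀ z ∈ Z, ∃ (g : (ι → ℝ) → ℝ) (X : Finset (ι → ℝ)), LD f z r g X ∧
      ∑ x ∈ X, (-1 : ℤ) ^ sigNeg (hess g x) = s z := fun z hz =>
    LocIdx_LD f h.smooth z (s z) (hs z hz) r hr (Win_unique h hr hd hin z hz)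
  choose! g X hg using hex
  filter_upwards [win_ech h hr hd hin g X fun z hz => (hg z hz).1] with M hM
  rw [hM]
  exact Finset.sum_congr rfl fun z hz => (hg z hz).2

end Pool.Agent.H45.AC
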