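import Pool.Agent.H45.AC.Adm
import Pool.Agent.H45.AC.GridS
import Pool.Agent.H45.AC.Sep2
import Pool.Agent.H45.AC.WinE

/-!
# Project AC: the supertrace between two levels of a function
-/

set_option autoImplicit false

namespace Pool.Agent.H45.AC

open Filter Topology QuadraticForm
open Pool.Agent.H47.ST
open Pool.Agent.H47.QG (hess LocIdx)

theorem FunS_chain {α : ℕ → ℝ} {M : ℕ} (h : ∀ i < M, α i < α (i + 1)) :
    ∀ j ≤ M, ∀ i ≤ j, α i ≤ α j := by
  intro j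
  induction j with
  | zero =>
    intro _ i hi
    obtain rfl : i = 0 := by omega
    exact le_rfl
  | succ j ih =>
    intro hj i hi
    rcases Nat.lt_or_ge i (j + 1) with h1 | h1
    · exact (ih (by omega) i (by omega)).trans (h j (by omega)).le
    · obtain rfl : i = j + 1 := by omega
      exact le_rfl

/-- sums over the bands -/
theorem FunS_sum {β : Type*} (Cf : Finset β) (v : β → ℝ) (s : β → ℤ) {α : ℕ → ℝ} {M : ℕ}
    (hα : ∀ i < M, α i < α (i + 1)) (h1 : ∀ c ∈ Cf, α 0 < v c) (h2 : ∀ c ∈ Cf, v c < α M)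
    (h3 : ∀ c ∈ Cf, ∀ i ≤ M, v c ≠ α i) :
    ∑ i ∈ Finset.range M, ∑ c ∈ Cf.filter (fun c => α i < v c ∧ v c < α (i + 1)), s c =
      ∑ c ∈ Cf, s c := by
  have key : ∀ m ≤ M,
      ∑ i ∈ Finset.range m, ∑ c ∈ Cf.filter (fun c => α i < v c ∧ v c < α (i + 1)), s c =
        ∑ c ∈ Cf.filter (fun c => v c < α m), s c := by
    intro m
    induction m with
    | zero =>
      intro _
      rw [Finset.sum_range_zero, Finset.sum_filter]
      symm
      refine Finset.sum_eq_zero fun c hc => ?_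
      rw [if_neg (not_lt.2 (h1 c hc).le)]
    | succ m ih =>
      intro hm
      rw [Finset.sum_range_succ, ih (by omega), Finset.sum_filter, Finset.sum_filter,
        Finset.sum_filter, ← Finset.sum_add_distrib]
      refine Finset.sum_congr rfl fun c hc => ?_
      have h4 := hα m (by omega)
      rcases lt_or_gt_of_ne (h3 c hc m (by omega)) with h5 | h5
      · rw [if_pos h5, if_neg (fun h => lt_asymm h5 h.1), if_pos (h5.trans h4), add_zero]
      · rw [if_neg (not_lt.2 h5.le), zero_add]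
        by_cases h6 : v c < α (m + 1)
        · rw [if_pos ⟨h5, h6⟩, if_pos h6]
        · rw [if_neg (fun h => h6 h.2), if_neg h6]
  rw [key M le_rfl]
  refine Finset.sum_congr ?_ fun _ _ => rfl
  exact Finset.filter_true_of_mem h2

/-- **The supertrace of the shift by `N` steps between two regular levels.** -/
theorem fun_st (F : Type*) [Field F] {n K N q : ℕ} [NeZero N] [NeZero K] (hK : K = q * N)
    {C : ℝ} {G₁ G₂ : ℕ}
    (h12 : G₁ < G₂) {f : (Iz n K → ℝ) → ℝ} {W : Finset (Iz n K → ℝ)}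
    (h : Adm n K (shG n K N) C G₁ G₂ f W) (hsep : SepI G₁ G₂ f W) {R : ℝ}
    (hR : Rgd n K 1 C R) (hR' : Rgd n N q (q * C) R) {b₁ b₂ : ℝ} (hb : b₁ < b₂)
    (hreg : ∀ z ∈ W, f z ≠ b₁ ∧ f z ≠ b₂) (Cf : Finset (Iz n N → ℝ)) (s : (Iz n N → ℝ) → ℤ)
    (hCf : ∀ y : Iz n N → ℝ, (fderiv ℝ f (y ∘ rdG n K N) = 0 ∧ ClI G₁ G₂ f (y ∘ rdG n K N) ∧
      b₁ < f (y ∘ rdG n K N) ∧ f (y ∘ rdG n K N) < b₂) ↔ ∃ c ∈ Cf, ∃ l ∈ Lc n N, y = c + rl l)
    (hCd : ∀ c ∈ Cf, ∀ c' ∈ Cf, ∀ l ∈ Lc n N, c' = c + rl l → c' = c)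
    (hs : ∀ c ∈ Cf, LocIdx (fun y : Iz n N → ℝ => f (y ∘ rdG n K N)) c (s c)) :
    ∀ᶠ M : ℕ in atTop, st (Tp (shG n K N)) (Bc F n K G₁ G₂ R (2 ^ M) f b₁)
      (Bc F n K G₁ G₂ R (2 ^ M) f b₂) (Fintype.card (Iz n K) + 2) =
        -((∑ c ∈ Cf, s c : ℤ) : F) := by
  classical
  subst hK
  rw [shG_eq] at h ⊢
  simp only [rdG_eq] at hCf hs
  have hqN : q * N ≠ 0 := NeZero.ne _
  have hqpos : 0 < q := Nat.pos_of_ne_zero fun h0 => hqN (by rw [h0, zero_mul])
  have hq0 : (0 : ℝ) < q := by exact_mod_cast hqpos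
  have hf := h.smooth
  have hfp := h.per
  have hfd : Differentiable ℝ f := hf.differentiable (by norm_num)
  have hfb : ContDiff ℝ 2 (fun y : Iz n N → ℝ => f (y ∘ shs n q N)) :=
    fold_smooth (shs n q N) 2 f hf
  have hD : Dm (Lc n (q * N)) (qK n (q * N)) (QK n (q * N)) R R := Adm_Dm n (q * N) R R
  have hD' := dom_Dm n N hq0 R R
  have hB := hR f hfd (fun y b => by
    rw [one_mul]
    exact h.grad y b)
  simp only [one_mul] at hB
  obtain ⟨hB1, hB2⟩ := hB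
  obtain ⟨hB1', hB2'⟩ := hR' (fun y : Iz n N → ℝ => f (y ∘ shs n q N))
    (hfb.differentiable (by norm_num)) (EqM_partial hfd h.grad)
  -- the levels
  have hbV : b₁ ∉ W.image f := fun hm => by
    obtain ⟨z, hz, e⟩ := Finset.mem_image.1 hm
    exact (hreg z hz).1 e
  have hbV' : b₂ ∉ W.image f := fun hm => by
    obtain ⟨z, hz, e⟩ := Finset.mem_image.1 hm
    exact (hreg z hz).2 e
  obtain ⟨M₀, α, hα0, hαM, hmono, hαV, hαs⟩ := levels_between (W.image f) hb hbV hbV'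
  have hα1 : ∀ i ≤ M₀, b₁ ≤ α i := fun i hi => by
    rw [← hα0]
    exact FunS_chain hmono i hi 0 (Nat.zero_le _)
  have hα2 : ∀ i ≤ M₀, α i ≤ b₂ := fun i hi => by
    rw [← hαM]
    exact FunS_chain hmono M₀ le_rfl i hi
  have hWc : ∀ z ∈ W, fderiv ℝ f z = 0 := fun z hz =>
    (h.crit z).2 ⟨z, hz, 0, (Lc n (q * N)).zero_mem, by rw [Win_rl_zero, add_zero]⟩
  have hval : ∀ y, fderiv ℝ f y = 0 → ∃ z ∈ W, f y = f z ∧ ∃ l ∈ Lc n (q * N), y = z + rl l := by
    intro y hy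
    obtain ⟨z, hz, l, hl, rfl⟩ := (h.crit y).1 hy
    exact ⟨z, hz, hfp l hl z, l, hl, rfl⟩
  have hst : ∀ i ≤ M₀, ∀ z ∈ W, α i ≤ f z → α i < f z := fun i hi z hz h =>
    lt_of_le_of_ne h fun h' => hαV i hi (by rw [h']; exact Finset.mem_image_of_mem f hz)
  have hst' : ∀ i ≤ M₀, ∀ z ∈ W, f z ≤ α i → f z < α i := fun i hi z hz h =>
    lt_of_le_of_ne h fun h' => hαV i hi (by rw [← h']; exact Finset.mem_image_of_mem f hz)
  -- the points of `Cf`
  have hCp : ∀ c ∈ Cf, fderiv ℝ f (c ∘ shs n q N) = 0 ∧ ClI G₁ G₂ f (c ∘ shs n q N) ∧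
      b₁ < f (c ∘ shs n q N) ∧ f (c ∘ shs n q N) < b₂ := fun c hc =>
    (hCf c).2 ⟨c, hc, 0, (Lc n N).zero_mem, by rw [Win_rl_zero, add_zero]⟩
  have hClI : ∀ z, ∀ l ∈ Lc n (q * N), ClI G₁ G₂ f (z + rl l) ↔ ClI G₁ G₂ f z := by
    intro z l hl
    unfold ClI
    rw [(sig_per f hfp z hl).1]
  -- the bands
  have hband : ∀ i < M₀, Band (Lc n (q * N)) (qK n (q * N)) (QK n (q * N)) f R R (α i) (α (i + 1))
      (W.filter fun z => α i < f z ∧ f z < α (i + 1)) := by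
    intro i hi
    refine ⟨hD, hf, hfp, hB1, hmono i hi, ?_, ?_, ?_⟩
    · intro z hz
      obtain ⟨hz1, hz2, hz3⟩ := Finset.mem_filter.1 hz
      exact ⟨hWc z hz1, (hB2 z (hWc z hz1)).1, (hB2 z (hWc z hz1)).2, hz2, hz3⟩
    · intro z hz z' hz' l hl e
      exact h.inj z (Finset.mem_filter.1 hz).1 z' (Finset.mem_filter.1 hz').1 l hl e
    · intro y _ _ h3 h4 h5
      obtain ⟨z, hz, hyz, l, hl, hy⟩ := hval y h5
      rw [hyz] at h3 h4
      exact ⟨z, Finset.mem_filter.2 ⟨hz, hst i hi.le z hz h3, hst' (i + 1) hi z hz h4⟩, l, hl, hy⟩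
  have hcf := crit_of_fold (shp n q N) hqpos (shp_pow n q N) (shs n q N)
    (fun v => shp_fix v) f hfd h.inv
  have hband' : ∀ i < M₀, (∀ z ∈ W, α i < f z → f z < α (i + 1) → ClI G₁ G₂ f z) →
      Band (Lc n N) (fun t => q * qK n N t) (fun t => q * QK n N t)
        (fun y : Iz n N → ℝ => f (y ∘ shs n q N)) R R (α i) (α (i + 1))
        (Cf.filter fun c => α i < f (c ∘ shs n q N) ∧ f (c ∘ shs n q N) < α (i + 1)) := by
    intro i hi hPi
    refine ⟨hD', hfb, EqM_per hfp, hB1', hmono i hi, ?_, ?_, ?_⟩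
    · intro c hc
      obtain ⟨hc1, hc2, hc3⟩ := Finset.mem_filter.1 hc
      have h5 := (hcf c).2 (hCp c hc1).1
      exact ⟨h5, (hB2' c h5).1, (hB2' c h5).2, hc2, hc3⟩
    · intro z hz z' hz' l hl e
      exact hCd z (Finset.mem_filter.1 hz).1 z' (Finset.mem_filter.1 hz').1 l hl e
    · intro y _ _ h3 h4 h5
      have h6 := (hcf y).1 h5
      obtain ⟨z, hz, hyz, l, hl, hy⟩ := hval _ h6
      rw [hyz] at h3 h4
      have e3 := hst i hi.le z hz h3
      have e4 := hst' (i + 1) hi z hz h4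
      have h7 := hPi z hz e3 e4
      have h8 : ClI G₁ G₂ f (y ∘ shs n q N) := by
        rw [hy]
        exact (hClI z l hl).2 h7
      obtain ⟨c, hc, l', hl', hyc⟩ := (hCf y).1 ⟨h6, h8,
        by rw [hyz]; exact (hα1 i hi.le).trans_lt e3,
        by rw [hyz]; exact e4.trans_le (hα2 (i + 1) hi)⟩
      have h9 : f (c ∘ shs n q N) = f z := by
        rw [← hyz, hyc]
        exact (EqM_per hfp l' hl' c).symm
      exact ⟨c, Finset.mem_filter.2 ⟨hc, by rw [h9]; exact e3, by rw [h9]; exact e4⟩, l', hl', hyc⟩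
  -- the indices of the bands
  let e : ℕ → ℤ := fun i =>
    ∑ c ∈ Cf.filter (fun c => α i < f (c ∘ shs n q N) ∧ f (c ∘ shs n q N) < α (i + 1)), s c
  have hsum : ∑ i ∈ Finset.range M₀, e i = ∑ c ∈ Cf, s c := by
    refine FunS_sum Cf (fun c => f (c ∘ shs n q N)) s hmono ?_ ?_ ?_
    · intro c hc
      show α 0 < f (c ∘ shs n q N)
      rw [hα0]
      exact (hCp c hc).2.2.1
    · intro c hc
      show f (c ∘ shs n q N) < α M₀
      rw [hαM]
      exact (hCp c hc).2.2.2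
    · intro c hc i hi he
      obtain ⟨z, hz, hyz, _⟩ := hval _ (hCp c hc).1
      refine hαV i hi ?_
      rw [← he]
      show f (c ∘ shs n q N) ∈ W.image f
      rw [hyz]
      exact Finset.mem_image_of_mem f hz
  -- fine meshes
  have hev1 : ∀ᶠ M : ℕ in atTop, ∀ i ∈ Finset.range M₀, ∀ j,
      (∀ z ∈ W.filter fun z => α i < f z ∧ f z < α (i + 1),
        ¬ (sigNeg (hess f z) ≤ j ∧ j + sigPos (hess f z) ≤ Fintype.card (Iz n (q * N)))) →
      HR F (lam (Lc n (q * N)) (2 ^ M))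
        (Lv (qK n (q * N)) (QK n (q * N)) f R R (α (i + 1)) (2 ^ M))
        (Lv (qK n (q * N)) (QK n (q * N)) f R R (α i) (2 ^ M)) j 0 :=
    (Filter.eventually_all_finset _).2 fun i hi =>
      window_out F (hband i (Finset.mem_range.1 hi))
  have hev2 : ∀ᶠ M : ℕ in atTop, ∀ i ∈ Finset.range M₀,
      (∀ z ∈ W, α i < f z → f z < α (i + 1) → ClI G₁ G₂ f z) →
      ech (lam (Lc n N) (2 ^ M))
        (fo (shs n q N) (Lv (qK n (q * N)) (QK n (q * N)) f R R (α (i + 1)) (2 ^ M)))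
        (fo (shs n q N) (Lv (qK n (q * N)) (QK n (q * N)) f R R (α i) (2 ^ M))) = e i := by
    refine (Filter.eventually_all_finset _).2 fun i hi => ?_
    by_cases hPi : ∀ z ∈ W, α i < f z → f z < α (i + 1) → ClI G₁ G₂ f z
    · filter_upwards [band_idx (hband' i (Finset.mem_range.1 hi) hPi) s
        (fun z hz => hs z (Finset.mem_filter.1 hz).1)] with M hM _
      rw [EqM_fo_Lv, EqM_fo_Lv]
      exact hM
    · exact Filter.Eventually.of_forall fun M h => absurd h hPi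
  filter_upwards [hev1, hev2, eventually_ge_atTop 1] with M hM1 hM2 hM4
  have hm2 : 2 ≤ 2 ^ M := by
    calc 2 = 2 ^ 1 := rfl
      _ ≤ 2 ^ M := Nat.pow_le_pow_right (by norm_num) hM4
  have hm0 : 0 < 2 ^ M := by omega
  have hc : Per (shp n q N) (lam (Lc n (q * N)) (2 ^ M)) := by
    have h1 := Per_shG (n := n) (K := q * N) (N := N) rfl hm2
    rwa [shG_eq] at h1
  have hres := grid_st (F := F) hc (Fold_K (n := n) (p := q) (m := 2 ^ M))
    (X := Xs n (q * N) R (2 ^ M)) (V := Vs n (q * N) R (2 ^ M))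
    (Xs_pinv (N := N)) (Vs_pinv (N := N)) (Xs_inv hm0) (Vs_inv hm0) (XV_fin hm0)
    (fun i => Ls n (q * N) R (2 ^ M) f (α i)) M₀
    (fun i hi => Lv_mono _ _ _ _ _ (hmono i hi).le _)
    (fun v hv => ⟨hv.1, Or.inl hv.2⟩)
    (fun v hv => hv.1)
    (fun i => Ls_pinv (N := N) h.inv (α i))
    (fun i => Ls_inv hfp (α i) hm0) (G₁ := G₁) (G₂ := G₂) h12 e
    (fun i hi => by
      by_cases hPi : ∃ z ∈ W, α i < f z ∧ f z < α (i + 1) ∧ ClI G₁ G₂ f z
      · right
        obtain ⟨z₀, hz₀, e1, e2, e3⟩ := hPi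
        have hall : ∀ z ∈ W, α i < f z → f z < α (i + 1) → ClI G₁ G₂ f z := by
          intro z hz h3 h4
          by_contra hcon
          exact hsep z₀ hz₀ z hz e3 hcon (hαs i hi _ (Finset.mem_image_of_mem f hz₀) _
            (Finset.mem_image_of_mem f hz) e1 e2 h3 h4)
        refine ⟨fun j hj => hM1 i (Finset.mem_range.2 hi) j ?_, hM2 i (Finset.mem_range.2 hi) hall⟩
        intro z hz
        obtain ⟨hz1, hz2, hz3⟩ := Finset.mem_filter.1 hz
        have h5 := hall z hz1 hz2 hz3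
        have h6 := h.win z hz1 G₂ (Or.inr rfl)
        unfold ClI at h5
        omega
      · left
        refine ⟨?_, ?_⟩
        · intro j hj1 hj2
          refine hM1 i (Finset.mem_range.2 hi) j ?_
          intro z hz
          obtain ⟨hz1, hz2, hz3⟩ := Finset.mem_filter.1 hz
          have h5 : ¬ ClI G₁ G₂ f z := fun h => hPi ⟨z, hz1, hz2, hz3, h⟩
          have h6 := h.win z hz1 G₂ (Or.inr rfl)
          have h7 := h.win z hz1 G₁ (Or.inl rfl)
          unfold ClI at h5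
          omega
        · show ∑ c ∈ Cf.filter (fun c => α i < f (c ∘ shs n q N) ∧
            f (c ∘ shs n q N) < α (i + 1)), s c = 0
          refine Finset.sum_eq_zero fun c hc => ?_
          exfalso
          obtain ⟨hc1, hc2, hc3⟩ := Finset.mem_filter.1 hc
          obtain ⟨hp1, hp2, _, _⟩ := hCp c hc1
          obtain ⟨z, hz, hyz, l, hl, hy⟩ := hval _ hp1
          rw [hyz] at hc2 hc3
          rw [hy] at hp2
          exact hPi ⟨z, hz, hc2, hc3, (hClI z l hl).1 hp2⟩)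
  simp only [hα0, hαM] at hres
  rw [hsum] at hres
  exact hres

end Pool.Agent.H45.AC
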