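import Pool.Agent.H45.AC.Zr
import Pool.Agent.H47.ST.Loc

/-!
# Project AC: truncated bands of a grid without Tate cohomology
-/

set_option autoImplicit false

namespace Pool.Agent.H45.AC

open Pool.Agent.H47.ST

variable {ι κ : Type*} [Fintype ι] [Fintype κ]

/-- **Vanishing of the Tate cohomology.** `V ⊆ A 0 ⊆ A 1 ⊆ … ⊆ A M ⊆ X`, each band has cohomology
outside `[G₁, G₂]` or inside `(G₁, G₂)` (numbers of vertices); in the second case the band of
invariant simplices has no cohomology. -/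
theorem grid_TK {p : ℕ} [Fact p.Prime] {π : Equiv.Perm ι} {s : ι → κ}
    {L : AddSubgroup (ι → ℤ)} {L' : AddSubgroup (κ → ℤ)} (hc : Cyc π p L) (hs : Fold π s L L')
    {X V : Set (ι → ℤ)} (hX : PInv π X) (hV : PInv π V) (hXL : Inv L X) (hVL : Inv L V)
    (A : ℕ → Set (ι → ℤ)) (M : ℕ) (hmono : ∀ i < M, A i ⊆ A (i + 1)) (hV0 : V ⊆ A 0)
    (hAX : A M ⊆ X) (hA : ∀ i, PInv π (A i)) (hAL : ∀ i, Inv L (A i)) {G₁ G₂ : ℕ}
    (h12 : G₁ < G₂)
    (hband : ∀ i < M, (∀ j, G₁ ≤ j + 1 → j + 1 ≤ G₂ → HR (ZMod p) L (A (i + 1)) (A i) j 0) ∨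
      ((∀ j, (j + 1 ≤ G₁ ∨ G₂ ≤ j + 1) → HR (ZMod p) L (A (i + 1)) (A i) j 0) ∧
        ∀ j, HR (ZMod p) L' (fo s (A (i + 1))) (fo s (A i)) j 0)) (k : ℕ) :
    TK (dX (F := ZMod p) X) (ta (ZMod p) π) (nu (ZMod p) π p) k
      (trf (dX X) (co (F := ZMod p) L X V) G₁ G₂ (co (F := ZMod p) L X (A 0)))
      (trf (dX X) (co (F := ZMod p) L X V) G₁ G₂ (co (F := ZMod p) L X (A M))) 0 := by
  have hle : ∀ m ≤ M, ∀ i ≤ m, A i ⊆ A m := by
    intro m
    induction m with
    | zero =>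
      intro _ i hi
      rw [Nat.le_zero.1 hi]
    | succ m ih =>
      intro hm i hi
      rcases Nat.lt_or_ge m i with h | h
      · rw [show i = m + 1 by omega]
      · exact (ih (by omega) i h).trans (hmono m (by omega))
  have h := Cyc_ops hc hX
  have hVs := Cyc_sub hc hX hV hXL
  have hAs : ∀ i, Sub (dX (F := ZMod p) X) (ta (ZMod p) π) (nu (ZMod p) π p)
      (co (F := ZMod p) L X (A i)) := fun i => Cyc_sub hc hX (hA i) hXL
  have hrel : ∀ i < M, ∀ j, HR (ZMod p) L (A (i + 1)) (A i) j 0 →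
      HK (dX X) (co (F := ZMod p) L X (A i)) (co (F := ZMod p) L X (A (i + 1))) (j + 1) 0 :=
    fun i hi j hj => HR.rel hXL (hAL (i + 1)) (hmono i hi)
      ((hle M le_rfl (i + 1) hi).trans hAX) hj
  have hVJ : ∀ j, Fintype.card ι + 2 ≤ j → co (F := ZMod p) L X V j = ⊥ :=
    fun j hj => co_big L X V (by omega)
  have hGV : ∀ i ≤ M, ∀ j, co (F := ZMod p) L X (A i) j ≤ co (F := ZMod p) L X V j :=
    fun i hi j => co_anti (hV0.trans (hle i hi 0 (Nat.zero_le _))) j
  have hGG : ∀ i < M, ∀ j, co (F := ZMod p) L X (A (i + 1)) j ≤ co (F := ZMod p) L X (A i) j :=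
    fun i hi j => co_anti (hmono i hi) j
  have h0 : ∀ i ≤ M, ∀ j, co (F := ZMod p) L X (A i) j ≤ co (F := ZMod p) L X (A 0) j :=
    fun i hi j => co_anti (hle i hi 0 (Nat.zero_le _)) j
  have hstep : ∀ m ≤ M, TK (dX (F := ZMod p) X) (ta (ZMod p) π) (nu (ZMod p) π p) k
      (trf (dX X) (co (F := ZMod p) L X V) G₁ G₂ (co (F := ZMod p) L X (A 0)))
      (trf (dX X) (co (F := ZMod p) L X V) G₁ G₂ (co (F := ZMod p) L X (A m))) 0 := by
    intro m
    induction m with
    | zero => exact fun _ => TKb_refl _ _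
    | succ m ih =>
      intro hm
      change TK _ _ _ _ _ _ (0 + 0)
      refine TK.trans h (hVs.trf h (hAs (m + 1)) G₁ G₂) (Trunc_trf_mono (hGG m hm) G₁ G₂)
        (Trunc_trf_mono (h0 m (by omega)) G₁ G₂) (ih (by omega)) ?_
      rcases hband m hm with hb | ⟨hb, hr⟩
      · refine TK_band_out h hVs (hAs m) (hAs (m + 1)) (hGG m hm) (hGV m (by omega))
          (Fintype.card ι + 2) hVJ h12 (fun j hj1 hj2 => ?_) k
        cases j with
        | zero => exact Loc_HK_zero _ _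
        | succ j => exact hrel m hm j (hb j hj1 hj2)
      · refine TK_band_in h hVs (hAs m) (hAs (m + 1)) (hGG m hm) (hGV m (by omega))
          (Fintype.card ι + 2) hVJ h12 (fun j hj => ?_) (fun k => ?_) k
        · cases j with
          | zero => exact Loc_HK_zero _ _
          | succ j => exact hrel m hm j (hb j hj)
        · have h1 := loc_band hc hs hX (hA m) (hA (m + 1)) hXL (hAL m) (hAL (m + 1))
            (hmono m hm) ((hle M le_rfl (m + 1) hm).trans hAX) (fun _ => 0) hr k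
          rwa [Finset.sum_const_zero] at h1
  exact hstep M le_rfl

end Pool.Agent.H45.AC
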