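import Pool.Agent.H45.AC.Adm
import Pool.Agent.H45.AC.GridT
import Pool.Agent.H45.AC.Sep2

/-!
# Project AC: vanishing of the Tate cohomology between two levels of a function
-/

set_option autoImplicit false

namespace Pool.Agent.H45.AC

open Filter Topology QuadraticForm
open Pool.Agent.H47.ST
open Pool.Agent.H47.QG (hess)

theorem FunT_chain {α : ℕ → ℝ} {M : ℕ} (h : ∀ i < M, α i < α (i + 1)) :
    ∀ j ≤ M, ∀ i ≤ j, α i ≤ α j := by
  intro j
  induction j with
  | zero =>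
    intro _ i hi
    obtain rfl : i = 0 := by omega
    exact le_rfl
  | succ j ih =>
    intro hj i hi
    rcases Nat.lt_or_ge i (j + 1) with h1 | h1
    · exact (ih (by omega) i (by omega)).trans (h j (by omega)).le
    · obtain rfl : i = j + 1 := by omega
      exact le_rfl

theorem FunT_rl_comp {ι : Type*} (π : Equiv.Perm ι) {l : ι → ℤ} (hl : l ∘ π = l) :
    rl l ∘ π = rl l := by
  have h : rl l ∘ π = rl (l ∘ π) := rfl
  rw [h, hl]

theorem FunT_lat {n p N : ℕ} [NeZero (p * N)] {l : Iz n (p * N) → ℤ} (hl : l ∈ Lc n (p * N)) :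
    l ∘ shp n p N = l := by
  obtain ⟨c, hc⟩ := hl
  funext a
  obtain ⟨j, b⟩ := a
  exact (hc _ _).trans (hc _ _).symm

/-- **No invariant critical value of class I between two regular levels: no Tate cohomology.** -/
theorem fun_TK {n p N : ℕ} [NeZero N] [NeZero (p * N)] [Fact p.Prime] {C : ℝ} {G₁ G₂ : ℕ}
    (h12 : G₁ < G₂) {f : (Iz n (p * N) → ℝ) → ℝ} {W : Finset (Iz n (p * N) → ℝ)}
    (h : Adm n (p * N) (shp n p N) C G₁ G₂ f W) (hsep : SepI G₁ G₂ f W) {R : ℝ}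
    (hR : Rgd n (p * N) 1 C R) (hR' : Rgd n N p (p * C) R) {b₁ b₂ : ℝ} (hb : b₁ < b₂)
    (hreg : ∀ z ∈ W, f z ≠ b₁ ∧ f z ≠ b₂)
    (hno : ∀ z ∈ W, z ∘ shp n p N = z → ClI G₁ G₂ f z → ¬ (b₁ < f z ∧ f z < b₂)) :
    ∀ᶠ M : ℕ in atTop, ∀ k, TK (dX (F := ZMod p) (Xs n (p * N) R (2 ^ M)))
      (ta (ZMod p) (shp n p N)) (nu (ZMod p) (shp n p N) p) k
      (Bc (ZMod p) n (p * N) G₁ G₂ R (2 ^ M) f b₁) (Bc (ZMod p) n (p * N) G₁ G₂ R (2 ^ M) f b₂)
      0 := by
  classical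
  have hp : p.Prime := Fact.out
  have hp0 : (0 : ℝ) < p := by exact_mod_cast hp.pos
  have hf := h.smooth
  have hfp := h.per
  have hfd : Differentiable ℝ f := hf.differentiable (by norm_num)
  have hfb : ContDiff ℝ 2 (fun y : Iz n N → ℝ => f (y ∘ shs n p N)) :=
    fold_smooth (shs n p N) 2 f hf
  have hD : Dm (Lc n (p * N)) (qK n (p * N)) (QK n (p * N)) R R := by
    have h := dom_Dm n (p * N) one_pos R R
    simp only [one_mul] at h
    exact h
  have hD' := dom_Dm n N hp0 R R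
  have hB := hR f hfd (fun y b => by
    rw [one_mul]
    exact h.grad y b)
  simp only [one_mul] at hB
  obtain ⟨hB1, hB2⟩ := hB
  obtain ⟨hB1', hB2'⟩ := hR' (fun y : Iz n N → ℝ => f (y ∘ shs n p N))
    (hfb.differentiable (by norm_num)) (EqM_partial hfd h.grad)
  -- the levels
  have hbV : b₁ ∉ W.image f := fun hm => by
    obtain ⟨z, hz, e⟩ := Finset.mem_image.1 hm
    exact (hreg z hz).1 e
  have hbV' : b₂ ∉ W.image f := fun hm => by
    obtain ⟨z, hz, e⟩ := Finset.mem_image.1 hm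
    exact (hreg z hz).2 e
  obtain ⟨M₀, α, hα0, hαM, hmono, hαV, hαs⟩ := levels_between (W.image f) hb hbV hbV'
  have hα1 : ∀ i ≤ M₀, b₁ ≤ α i := fun i hi => by
    rw [← hα0]
    exact FunT_chain hmono i hi 0 (Nat.zero_le _)
  have hα2 : ∀ i ≤ M₀, α i ≤ b₂ := fun i hi => by
    rw [← hαM]
    exact FunT_chain hmono M₀ le_rfl i hi
  have hWc : ∀ z ∈ W, fderiv ℝ f z = 0 := fun z hz =>
    (h.crit z).2 ⟨z, hz, 0, (Lc n (p * N)).zero_mem, by rw [Win_rl_zero, add_zero]⟩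
  have hval : ∀ y, fderiv ℝ f y = 0 → ∃ z ∈ W, f y = f z ∧ ∃ l ∈ Lc n (p * N), y = z + rl l := by
    intro y hy
    obtain ⟨z, hz, l, hl, rfl⟩ := (h.crit y).1 hy
    exact ⟨z, hz, hfp l hl z, l, hl, rfl⟩
  have hst : ∀ i ≤ M₀, ∀ z ∈ W, α i ≤ f z → α i < f z := fun i hi z hz h =>
    lt_of_le_of_ne h fun h' => hαV i hi (by rw [h']; exact Finset.mem_image_of_mem f hz)
  have hst' : ∀ i ≤ M₀, ∀ z ∈ W, f z ≤ α i → f z < α i := fun i hi z hz h =>
    lt_of_le_of_ne h fun h' => hαV i hi (by rw [← h']; exact Finset.mem_image_of_mem f hz)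
  -- the bands
  have hband : ∀ i < M₀, Band (Lc n (p * N)) (qK n (p * N)) (QK n (p * N)) f R R (α i) (α (i + 1))
      (W.filter fun z => α i < f z ∧ f z < α (i + 1)) := by
    intro i hi
    refine ⟨hD, hf, hfp, hB1, hmono i hi, ?_, ?_, ?_⟩
    · intro z hz
      obtain ⟨hz1, hz2, hz3⟩ := Finset.mem_filter.1 hz
      exact ⟨hWc z hz1, (hB2 z (hWc z hz1)).1, (hB2 z (hWc z hz1)).2, hz2, hz3⟩
    · intro z hz z' hz' l hl e
      exact h.inj z (Finset.mem_filter.1 hz).1 z' (Finset.mem_filter.1 hz').1 l hl e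
    · intro y _ _ h3 h4 h5
      obtain ⟨z, hz, hyz, l, hl, hy⟩ := hval y h5
      rw [hyz] at h3 h4
      exact ⟨z, Finset.mem_filter.2 ⟨hz, hst i hi.le z hz h3, hst' (i + 1) hi z hz h4⟩, l, hl, hy⟩
  have hcf := crit_of_fold (shp n p N) hp.pos (shp_pow n p N) (shs n p N)
    (fun v => shp_fix v) f hfd h.inv
  have hband' : ∀ i < M₀, (∀ z ∈ W, α i < f z → f z < α (i + 1) → ClI G₁ G₂ f z) →
      Band (Lc n N) (fun t => p * qK n N t) (fun t => p * QK n N t)
        (fun y : Iz n N → ℝ => f (y ∘ shs n p N)) R R (α i) (α (i + 1))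
        (∅ : Finset (Iz n N → ℝ)) := by
    intro i hi hPi
    refine ⟨hD', hfb, EqM_per hfp, hB1', hmono i hi, ?_, ?_, ?_⟩
    · intro c hc
      exact absurd hc (Finset.notMem_empty c)
    · intro c hc
      exact absurd hc (Finset.notMem_empty c)
    · intro y _ _ h3 h4 h5
      exfalso
      obtain ⟨z, hz, hyz, l, hl, hy⟩ := hval _ ((hcf y).1 h5)
      rw [hyz] at h3 h4
      have e3 := hst i hi.le z hz h3
      have e4 := hst' (i + 1) hi z hz h4
      have hy2 : (y ∘ shs n p N) ∘ shp n p N = y ∘ shs n p N :=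
        (shp_fix (y ∘ shs n p N)).2 ⟨y, rfl⟩
      have hzi : z ∘ shp n p N = z := by
        have hz2 : z = y ∘ shs n p N - rl l := by rw [hy, add_sub_cancel_right]
        have hl2 := FunT_rl_comp (shp n p N) (FunT_lat hl)
        have e : (y ∘ shs n p N - rl l) ∘ shp n p N =
            (y ∘ shs n p N) ∘ shp n p N - rl l ∘ shp n p N := rfl
        rw [hz2, e, hy2, hl2]
      exact hno z hz hzi (hPi z hz e3 e4)
        ⟨(hα1 i hi.le).trans_lt e3, e4.trans_le (hα2 (i + 1) hi)⟩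
  -- fine meshes
  have hev1 : ∀ᶠ M : ℕ in atTop, ∀ i ∈ Finset.range M₀, ∀ j,
      (∀ z ∈ W.filter fun z => α i < f z ∧ f z < α (i + 1),
        ¬ (sigNeg (hess f z) ≤ j ∧ j + sigPos (hess f z) ≤ Fintype.card (Iz n (p * N)))) →
      HR (ZMod p) (lam (Lc n (p * N)) (2 ^ M))
        (Lv (qK n (p * N)) (QK n (p * N)) f R R (α (i + 1)) (2 ^ M))
        (Lv (qK n (p * N)) (QK n (p * N)) f R R (α i) (2 ^ M)) j 0 :=
    (Filter.eventually_all_finset _).2 fun i hi =>
      window_out (ZMod p) (hband i (Finset.mem_range.1 hi))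
  have hev2 : ∀ᶠ M : ℕ in atTop, ∀ i ∈ Finset.range M₀,
      (∀ z ∈ W, α i < f z → f z < α (i + 1) → ClI G₁ G₂ f z) →
      ∀ j, HR (ZMod p) (lam (Lc n N) (2 ^ M))
        (fo (shs n p N) (Lv (qK n (p * N)) (QK n (p * N)) f R R (α (i + 1)) (2 ^ M)))
        (fo (shs n p N) (Lv (qK n (p * N)) (QK n (p * N)) f R R (α i) (2 ^ M))) j 0 := by
    refine (Filter.eventually_all_finset _).2 fun i hi => ?_
    by_cases hPi : ∀ z ∈ W, α i < f z → f z < α (i + 1) → ClI G₁ G₂ f z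
    · filter_upwards [window_out (ZMod p) (hband' i (Finset.mem_range.1 hi) hPi)] with M hM _ j
      rw [EqM_fo_Lv, EqM_fo_Lv]
      exact hM j fun z hz => absurd hz (Finset.notMem_empty z)
    · exact Filter.Eventually.of_forall fun M h => absurd h hPi
  filter_upwards [hev1, hev2, eventually_ge_atTop 1] with M hM1 hM2 hM4 k
  have hm2 : 2 ≤ 2 ^ M := by
    calc 2 = 2 ^ 1 := rfl
      _ ≤ 2 ^ M := Nat.pow_le_pow_right (by norm_num) hM4
  have hm0 : 0 < 2 ^ M := by omega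
  have hres := grid_TK (Cyc_K (n := n) (N := N) hp hm2) (Fold_K (n := n) (p := p) (m := 2 ^ M))
    (X := Xs n (p * N) R (2 ^ M)) (V := Vs n (p * N) R (2 ^ M))
    (Xs_pinv (N := N)) (Vs_pinv (N := N)) (Xs_inv hm0) (Vs_inv hm0)
    (fun i => Ls n (p * N) R (2 ^ M) f (α i)) M₀
    (fun i hi => Lv_mono _ _ _ _ _ (hmono i hi).le _)
    (fun v hv => ⟨hv.1, Or.inl hv.2⟩)
    (fun v hv => hv.1)
    (fun i => Ls_pinv (N := N) h.inv (α i))
    (fun i => Ls_inv hfp (α i) hm0) (G₁ := G₁) (G₂ := G₂) h12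
    (fun i hi => by
      by_cases hPi : ∃ z ∈ W, α i < f z ∧ f z < α (i + 1) ∧ ClI G₁ G₂ f z
      · right
        obtain ⟨z₀, hz₀, e1, e2, e3⟩ := hPi
        have hall : ∀ z ∈ W, α i < f z → f z < α (i + 1) → ClI G₁ G₂ f z := by
          intro z hz h3 h4
          by_contra hcon
          exact hsep z₀ hz₀ z hz e3 hcon (hαs i hi _ (Finset.mem_image_of_mem f hz₀) _
            (Finset.mem_image_of_mem f hz) e1 e2 h3 h4)
        refine ⟨fun j hj => hM1 i (Finset.mem_range.2 hi) j ?_, hM2 i (Finset.mem_range.2 hi) hall⟩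
        intro z hz
        obtain ⟨hz1, hz2, hz3⟩ := Finset.mem_filter.1 hz
        have h5 := hall z hz1 hz2 hz3
        have h6 := h.win z hz1 G₂ (Or.inr rfl)
        unfold ClI at h5
        omega
      · left
        intro j hj1 hj2
        refine hM1 i (Finset.mem_range.2 hi) j ?_
        intro z hz
        obtain ⟨hz1, hz2, hz3⟩ := Finset.mem_filter.1 hz
        have h5 : ¬ ClI G₁ G₂ f z := fun h => hPi ⟨z, hz1, hz2, hz3, h⟩
        have h6 := h.win z hz1 G₂ (Or.inr rfl)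
        have h7 := h.win z hz1 G₁ (Or.inl rfl)
        unfold ClI at h5
        omega) k
  simp only [hα0, hαM] at hres
  exact hres

end Pool.Agent.H45.AC
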