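import Mathlib

/-!
# Project AC: slowly varying sequences of negative vectors
-/

set_option autoImplicit false

open Module QuadraticForm

namespace Pool.Agent.H45.AC

/-- a negative definite form on a finite-dimensional subspace -/
theorem MeanB_coer {V : Type*} [NormedAddCommGroup V] [NormedSpace ℝ V] [FiniteDimensional ℝ V]
    (H : QuadraticForm ℝ V) (E : Submodule ℝ V) (hE : ∀ v ∈ E, v ≠ 0 → H v < 0) :
    ∃ c : ℝ, 0 < c ∧ ∀ v ∈ E, H v ≤ -c * ‖v‖ ^ 2 := by
  -- continuity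
  have hcont : Continuous fun v : V => H v := by
    let B : V →ₗ[ℝ] (V →L[ℝ] ℝ) :=
      (LinearMap.toContinuousLinearMap : (V →ₗ[ℝ] ℝ) ≃ₗ[ℝ] (V →L[ℝ] ℝ)).toLinearMap ∘ₗ
        (QuadraticMap.associated (R := ℝ) H)
    have hB : Continuous B := LinearMap.continuous_of_finiteDimensional B
    have h1 : Continuous fun v : V => B v v := hB.clm_apply continuous_id
    refine h1.congr fun v => ?_
    change (QuadraticMap.associated (R := ℝ) H) v v = H v
    exact QuadraticMap.associated_eq_self_apply ℝ H v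
  have hcE : Continuous fun v : E => H (v : V) := hcont.comp continuous_subtype_val
  have hcomp : IsCompact (Metric.sphere (0 : E) 1) := isCompact_sphere _ _
  rcases (Metric.sphere (0 : E) 1).eq_empty_or_nonempty with he | he
  · refine ⟨1, one_pos, fun v hv => ?_⟩
    by_cases h0 : v = 0
    · subst h0
      simp
    · exfalso
      have hn : ‖v‖ ≠ 0 := norm_ne_zero_iff.2 h0
      have : (⟨‖v‖⁻¹ • v, E.smul_mem _ hv⟩ : E) ∈ Metric.sphere (0 : E) 1 := by
        rw [mem_sphere_zero_iff_norm]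
        change ‖‖v‖⁻¹ • v‖ = 1
        rw [norm_smul, norm_inv, norm_norm, inv_mul_cancel₀ hn]
      rw [he] at this
      exact this
  · obtain ⟨x, hx, hmax⟩ := hcomp.exists_isMaxOn he hcE.continuousOn
    have hx1 : ‖(x : V)‖ = 1 := by
      rw [mem_sphere_zero_iff_norm] at hx
      exact hx
    have hx0 : (x : V) ≠ 0 := by
      intro h
      rw [h, norm_zero] at hx1
      exact zero_ne_one hx1
    refine ⟨-H (x : V), neg_pos.2 (hE x x.2 hx0), fun v hv => ?_⟩
    by_cases h0 : v = 0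
    · subst h0
      simp
    have hn : ‖v‖ ≠ 0 := norm_ne_zero_iff.2 h0
    have hm : (⟨‖v‖⁻¹ • v, E.smul_mem _ hv⟩ : E) ∈ Metric.sphere (0 : E) 1 := by
      rw [mem_sphere_zero_iff_norm]
      change ‖‖v‖⁻¹ • v‖ = 1
      rw [norm_smul, norm_inv, norm_norm, inv_mul_cancel₀ hn]
    have h1 : H (‖v‖⁻¹ • v) ≤ H (x : V) := hmax hm
    rw [QuadraticMap.map_smul, smul_eq_mul] at h1
    have h2 : H v = ‖v‖ * ‖v‖ * (‖v‖⁻¹ * ‖v‖⁻¹ * H v) := by
      field_simp
    rw [h2, neg_neg]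
    calc ‖v‖ * ‖v‖ * (‖v‖⁻¹ * ‖v‖⁻¹ * H v) ≤ ‖v‖ * ‖v‖ * H (x : V) :=
          mul_le_mul_of_nonneg_left h1 (mul_self_nonneg _)
      _ = H (x : V) * ‖v‖ ^ 2 := by ring

/-- complement inside a subspace -/
theorem MeanB_compl {V : Type*} [AddCommGroup V] [Module ℝ V] [FiniteDimensional ℝ V]
    (E E0 : Submodule ℝ V) (h0 : E0 ≤ E) : ∃ E1 : Submodule ℝ V, E1 ≤ E ∧ Disjoint E0 E1 ∧
      finrank ℝ E = finrank ℝ E0 + finrank ℝ E1 := by
  obtain ⟨E2, hE2⟩ := Submodule.exists_isCompl E0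
  refine ⟨E ⊓ E2, inf_le_left, ?_, ?_⟩
  · exact hE2.disjoint.mono_right inf_le_right
  · have h1 : E0 ⊔ (E ⊓ E2) = E := by
      rw [inf_comm, ← sup_inf_assoc_of_le _ h0, hE2.sup_eq_top, top_inf_eq]
    have h2 : E0 ⊓ (E ⊓ E2) = ⊥ := (hE2.disjoint.mono_right inf_le_right).eq_bot
    have h3 := Submodule.finrank_sup_add_finrank_inf_eq E0 (E ⊓ E2)
    rw [h1, h2, finrank_bot, add_zero] at h3
    exact h3

/-- bound for the projection along a subspace -/
theorem MeanB_proj {V : Type*} [NormedAddCommGroup V] [NormedSpace ℝ V] [FiniteDimensional ℝ V]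
    (E0 E1 : Submodule ℝ V) (hd : Disjoint E0 E1) :
    ∃ c : ℝ, 0 < c ∧ ∀ u ∈ E0, ∀ a ∈ E1, ‖a‖ ≤ c * ‖u + a‖ := by
  let f : (E0 × E1) →ₗ[ℝ] V := LinearMap.coprod E0.subtype E1.subtype
  have hf : LinearMap.ker f = ⊥ := by
    rw [LinearMap.ker_eq_bot']
    rintro ⟨u, a⟩ h
    have h1 : (u : V) + (a : V) = 0 := by simpa [f] using h
    have h2 : (a : V) = -(u : V) := by
      rw [add_comm] at h1
      exact eq_neg_of_add_eq_zero_left h1
    have h3 : (a : V) ∈ E0 := by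
      rw [h2]
      exact E0.neg_mem u.2
    have h4 : (a : V) = 0 := Submodule.disjoint_def.1 hd _ h3 a.2
    have h5 : (u : V) = 0 := by
      rw [h4, add_zero] at h1
      exact h1
    exact Prod.ext (Subtype.ext h5) (Subtype.ext h4)
  obtain ⟨K, hK, hanti⟩ := f.exists_antilipschitzWith hf
  refine ⟨K, by exact_mod_cast hK, fun u hu a ha => ?_⟩
  have h1 := hanti.le_mul_dist ((⟨u, hu⟩ : E0), (⟨a, ha⟩ : E1)) 0
  rw [map_zero, dist_zero_right, dist_zero_right] at h1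
  have h2 : f ((⟨u, hu⟩ : E0), (⟨a, ha⟩ : E1)) = u + a := by simp [f]
  rw [h2] at h1
  refine le_trans ?_ h1
  exact norm_snd_le (((⟨u, hu⟩ : E0), (⟨a, ha⟩ : E1)) : E0 × E1)

/-- the tent -/
def MeanB_tau (b : ℕ) (r : ℕ) : ℝ := ((min r (b - r) : ℕ) : ℝ)

theorem MeanB_tau_zero (b : ℕ) : MeanB_tau b 0 = 0 := by
  unfold MeanB_tau
  simp

theorem MeanB_tau_self (b : ℕ) : MeanB_tau b b = 0 := by
  unfold MeanB_tau
  simp

theorem MeanB_tau_step (b r : ℕ) (hr : r < b) :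
    |MeanB_tau b (r + 1) - MeanB_tau b r| ≤ 1 := by
  unfold MeanB_tau
  have h1 : min (r + 1) (b - (r + 1)) ≤ min r (b - r) + 1 := by omega
  have h2 : min r (b - r) ≤ min (r + 1) (b - (r + 1)) + 1 := by omega
  have h1' : ((min (r + 1) (b - (r + 1)) : ℕ) : ℝ) ≤ ((min r (b - r) : ℕ) : ℝ) + 1 := by
    exact_mod_cast h1
  have h2' : ((min r (b - r) : ℕ) : ℝ) ≤ ((min (r + 1) (b - (r + 1)) : ℕ) : ℝ) + 1 := by
    exact_mod_cast h2
  rw [abs_le]
  constructor <;> linarith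

theorem MeanB_tau_sum (L : ℕ) :
    (2 * L * L ^ 2 : ℝ) ≤ ∑ r : Fin (4 * L), MeanB_tau (4 * L) r ^ 2 := by
  rw [Fin.sum_univ_eq_sum_range (fun r => MeanB_tau (4 * L) r ^ 2) (4 * L)]
  have h1 : (Finset.Ico L (3 * L)) ⊆ Finset.range (4 * L) := by
    intro r hr
    rw [Finset.mem_Ico] at hr
    rw [Finset.mem_range]
    omega
  refine le_trans ?_ (Finset.sum_le_sum_of_subset_of_nonneg h1 fun r _ _ => sq_nonneg _)
  have h2 : ∀ r ∈ Finset.Ico L (3 * L), (L : ℝ) ^ 2 ≤ MeanB_tau (4 * L) r ^ 2 := by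
    intro r hr
    rw [Finset.mem_Ico] at hr
    unfold MeanB_tau
    have h3 : L ≤ min r (4 * L - r) := by omega
    have h4 : (L : ℝ) ≤ ((min r (4 * L - r) : ℕ) : ℝ) := by exact_mod_cast h3
    exact pow_le_pow_left₀ (Nat.cast_nonneg _) h4 2
  refine le_trans ?_ (Finset.sum_le_sum h2)
  rw [Finset.sum_const, Nat.card_Ico, nsmul_eq_mul]
  have h5 : 3 * L - L = 2 * L := by omega
  rw [h5]
  push_cast
  exact le_rfl

/-- sums over blocks -/
theorem MeanB_sum (m b : ℕ) (f : Fin m → ℝ) (g : Fin b → ℝ) :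
    ∑ i : Fin (m * b), g i.modNat * f i.divNat = (∑ r, g r) * ∑ k, f k := by
  have h1 : ∑ i : Fin (m * b), g i.modNat * f i.divNat =
      ∑ p : Fin m × Fin b, g p.2 * f p.1 :=
    (finProdFinEquiv (m := m) (n := b)).symm.sum_comp (fun p : Fin m × Fin b => g p.2 * f p.1)
  rw [h1, Fintype.sum_prod_type, Finset.mul_sum]
  refine Finset.sum_congr rfl fun k _ => ?_
  rw [Finset.sum_mul]

/-- the step -/
theorem MeanB_step {F : Type*} [NormedAddCommGroup F] [NormedSpace ℝ F] (m b : ℕ)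
    [NeZero (m * b)] (y : Fin m → F) (z : Fin (m * b) → F)
    (hz : ∀ i, z i = MeanB_tau b (i.modNat : Fin b) • y i.divNat) (i : Fin (m * b)) :
    ‖z (i + 1) - z i‖ ≤ ‖y i.divNat‖ := by
  have hmb : 0 < m * b := Nat.pos_of_ne_zero (NeZero.ne _)
  have hb : 0 < b := Nat.pos_of_mul_pos_left hmb
  have hval : ((i + 1 : Fin (m * b)) : ℕ) = ((i : ℕ) + 1) % (m * b) := by
    rw [Fin.val_add, Fin.val_one', Nat.add_mod_mod]
  have hr : (i : ℕ) % b < b := Nat.mod_lt _ hb
  have hst := MeanB_tau_step b ((i : ℕ) % b) hr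
  have hkey : z (i + 1) - z i =
      (MeanB_tau b ((i : ℕ) % b + 1) - MeanB_tau b ((i : ℕ) % b)) • y i.divNat := by
    rw [hz i, hz (i + 1), sub_smul]
    congr 1
    by_cases h1 : (i : ℕ) % b + 1 < b
    · have h2 : (i : ℕ) + 1 < m * b := by
        by_contra hcon
        have h3 : (i : ℕ) + 1 = m * b := by have := i.2; omega
        have h4 : ((i : ℕ) + 1) % b = 0 := by rw [h3]; exact Nat.mul_mod_left _ _
        rw [Nat.add_mod] at h4
        by_cases hb1 : b = 1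
        · subst hb1; omega
        · have h5 : 1 % b = 1 := Nat.mod_eq_of_lt (by omega)
          rw [h5, Nat.mod_eq_of_lt h1] at h4
          omega
      have h3 : ((i + 1 : Fin (m * b)) : ℕ) = (i : ℕ) + 1 := by
        rw [hval, Nat.mod_eq_of_lt h2]
      have h4 : ((i : ℕ) + 1) % b = (i : ℕ) % b + 1 := by
        have hb1 : 1 % b = 1 := Nat.mod_eq_of_lt (by omega)
        rw [Nat.add_mod, hb1, Nat.mod_eq_of_lt h1]
      have h5 : ((i : ℕ) + 1) / b = (i : ℕ) / b := by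
        have e1 := Nat.div_add_mod ((i : ℕ) + 1) b
        have e2 := Nat.div_add_mod (i : ℕ) b
        rw [h4] at e1
        have e3 : b * (((i : ℕ) + 1) / b) = b * ((i : ℕ) / b) := by omega
        exact Nat.eq_of_mul_eq_mul_left hb e3
      have h6 : (i + 1 : Fin (m * b)).divNat = i.divNat := by
        apply Fin.ext
        change ((i + 1 : Fin (m * b)) : ℕ) / b = (i : ℕ) / b
        rw [h3, h5]
      have h7 : (((i + 1 : Fin (m * b)).modNat : Fin b) : ℕ) = (i : ℕ) % b + 1 := by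
        change ((i + 1 : Fin (m * b)) : ℕ) % b = (i : ℕ) % b + 1
        rw [h3, h4]
      rw [h6, h7]
    · have h2 : (i : ℕ) % b + 1 = b := by omega
      have h3 : (((i + 1 : Fin (m * b)).modNat : Fin b) : ℕ) = 0 := by
        change ((i + 1 : Fin (m * b)) : ℕ) % b = 0
        rw [hval, Nat.mod_mul_left_mod, Nat.add_mod]
        rcases Nat.lt_or_ge 1 b with hb1 | hb1
        · rw [Nat.mod_eq_of_lt hb1, h2, Nat.mod_self]
        · have : b = 1 := by omega
          subst this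
          simp [Nat.mod_one]
      rw [h3, h2, MeanB_tau_zero, MeanB_tau_self, zero_smul, zero_smul]
  rw [hkey, norm_smul, Real.norm_eq_abs]
  calc |MeanB_tau b ((i : ℕ) % b + 1) - MeanB_tau b ((i : ℕ) % b)| * ‖y i.divNat‖
      ≤ 1 * ‖y i.divNat‖ := mul_le_mul_of_nonneg_right hst (norm_nonneg _)
    _ = ‖y i.divNat‖ := one_mul _

/-- slowly varying sequences of vectors of a negative space -/
theorem slow_space {V F : Type*} [NormedAddCommGroup V] [NormedSpace ℝ V] [FiniteDimensional ℝ V]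
    [NormedAddCommGroup F] [NormedSpace ℝ F] [FiniteDimensional ℝ F] (H : QuadraticForm ℝ V)
    (ξ : V →ₗ[ℝ] F) (E : Submodule ℝ V) (hE : ∀ v ∈ E, v ≠ 0 → H v < 0) (C : ℝ) (hC : 0 ≤ C) :
    ∃ b : ℕ, 0 < b ∧ ∀ (m : ℕ) [NeZero (m * b)], ∃ W : Submodule ℝ (Fin (m * b) → V),
      m * (b * finrank ℝ (E ⊓ LinearMap.ker ξ : Submodule ℝ V)) + m * finrank ℝ E ≤
        finrank ℝ W + m * finrank ℝ (E ⊓ LinearMap.ker ξ : Submodule ℝ V) ∧
      ∀ v ∈ W, v ≠ 0 → ∑ i, (H (v i) +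
        C * ‖ξ (v (i + 1)) - ξ (v i)‖ * (‖v i‖ + ‖ξ (v (i + 1)) - ξ (v i)‖)) < 0 := by
  classical
  set E0 : Submodule ℝ V := E ⊓ LinearMap.ker ξ with hE0
  obtain ⟨E1, hE1, hd, hfr⟩ := MeanB_compl E E0 inf_le_left
  obtain ⟨c, hc, hcE⟩ := MeanB_coer H E hE
  obtain ⟨c1, hc1, hproj⟩ := MeanB_proj E0 E1 hd
  obtain ⟨K, hK, hξ⟩ : ∃ K : ℝ, 0 ≤ K ∧ ∀ v, ‖ξ v‖ ≤ K * ‖v‖ :=
    ⟨‖LinearMap.toContinuousLinearMap ξ‖, norm_nonneg _,
      fun v => (LinearMap.toContinuousLinearMap ξ).le_opNorm v⟩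
  set D : ℝ := C ^ 2 / (2 * c) + C with hD
  have hD0 : 0 ≤ D := by positivity
  set Θ : ℝ := D * (2 * K ^ 2 * c1 ^ 2) with hΘ
  have hΘ0 : 0 ≤ Θ := by positivity
  obtain ⟨L, hL⟩ := exists_nat_gt (max 1 (Θ * (2 / c)))
  have hL1 : (1 : ℝ) < L := lt_of_le_of_lt (le_max_left _ _) hL
  have hL1' : 1 < L := by exact_mod_cast hL1
  have hL2 : Θ * (2 / c) < L := lt_of_le_of_lt (le_max_right _ _) hL
  have hΘL : Θ < c / 2 * (L : ℝ) ^ 2 := by
    have h1 : Θ < c / 2 * L := by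
      have h2 : Θ * (2 / c) * (c / 2) < L * (c / 2) := mul_lt_mul_of_pos_right hL2 (by positivity)
      have h3 : Θ * (2 / c) * (c / 2) = Θ := by field_simp
      linarith
    have h4 : c / 2 * L ≤ c / 2 * (L : ℝ) ^ 2 := by
      refine mul_le_mul_of_nonneg_left ?_ (by positivity)
      nlinarith
    linarith
  refine ⟨4 * L, by omega, fun m _ => ?_⟩
  have hmb : 0 < m * (4 * L) := Nat.pos_of_ne_zero (NeZero.ne _)
  let T : ((Fin (m * (4 * L)) → E0) × (Fin m → E1)) →ₗ[ℝ] (Fin (m * (4 * L)) → V) :=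
    { toFun := fun p i =>
        (p.1 i : V) + MeanB_tau (4 * L) (i.modNat : Fin (4 * L)) • (p.2 i.divNat : V)
      map_add' := by
        intro p q
        funext i
        simp only [Prod.fst_add, Prod.snd_add, Pi.add_apply, Submodule.coe_add, smul_add]
        abel
      map_smul' := by
        intro r p
        funext i
        simp only [Prod.smul_fst, Prod.smul_snd, Pi.smul_apply, Submodule.coe_smul,
          RingHom.id_apply, smul_add]
        rw [smul_comm r] }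
  have hT : ∀ u a i, T (u, a) i =
      (u i : V) + MeanB_tau (4 * L) (i.modNat : Fin (4 * L)) • (a i.divNat : V) :=
    fun u a i => rfl
  have hinj : Function.Injective T := by
    rw [← LinearMap.ker_eq_bot, LinearMap.ker_eq_bot']
    rintro ⟨u, a⟩ h
    have ha : ∀ k, (a k : V) = 0 := by
      intro k
      let i : Fin (m * (4 * L)) := finProdFinEquiv (k, ⟨L, by omega⟩)
      have hi : (i.divNat, i.modNat) = ((k, ⟨L, by omega⟩) : Fin m × Fin (4 * L)) :=
        finProdFinEquiv.symm_apply_apply (k, (⟨L, by omega⟩ : Fin (4 * L)))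
      have hi1 : i.divNat = k := congrArg Prod.fst hi
      have hi2 : ((i.modNat : Fin (4 * L)) : ℕ) = L := by
        have := congrArg Prod.snd hi
        exact congrArg Fin.val this
      have h1 := congrFun h i
      rw [hT, hi1, hi2] at h1
      have h2 := hproj (u i : V) (u i).2
        (MeanB_tau (4 * L) L • (a k : V)) (E1.smul_mem _ (a k).2)
      have h3 : (u i : V) + MeanB_tau (4 * L) L • (a k : V) = 0 := h1
      rw [h3, norm_zero, mul_zero] at h2
      have h4 := norm_le_zero_iff.1 h2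
      have h5 : MeanB_tau (4 * L) L ≠ 0 := by
        unfold MeanB_tau
        have : min L (4 * L - L) = L := by omega
        rw [this]
        exact_mod_cast (by omega : L ≠ 0)
      exact (smul_eq_zero.1 h4).resolve_left h5
    have hu : ∀ i, (u i : V) = 0 := by
      intro i
      have h1 := congrFun h i
      rw [hT, ha, smul_zero, add_zero] at h1
      exact h1
    exact Prod.ext (funext fun i => Subtype.ext (hu i)) (funext fun k => Subtype.ext (ha k))
  refine ⟨LinearMap.range T, ?_, ?_⟩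
  · rw [LinearMap.finrank_range_of_inj hinj, finrank_prod, finrank_pi_fintype, finrank_pi_fintype]
    simp only [Finset.sum_const, Finset.card_univ, Fintype.card_fin, smul_eq_mul]
    rw [hfr]
    apply le_of_eq
    ring
  · rintro v ⟨⟨u, a⟩, rfl⟩ hv
    set v : Fin (m * (4 * L)) → V := T (u, a) with hvd
    have hvi : ∀ i, v i =
        (u i : V) + MeanB_tau (4 * L) (i.modNat : Fin (4 * L)) • (a i.divNat : V) :=
      fun i => hT u a i
    have hvE : ∀ i, v i ∈ E := by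
      intro i
      rw [hvi]
      exact E.add_mem (inf_le_left (a := E) (u i).2) (E.smul_mem _ (hE1 (a i.divNat).2))
    set δ : Fin (m * (4 * L)) → ℝ := fun i => ‖ξ (v (i + 1)) - ξ (v i)‖ with hδ
    have hδa : ∀ i, δ i ≤ K * ‖(a i.divNat : V)‖ := by
      intro i
      refine (MeanB_step m (4 * L) (fun k => ξ (a k : V)) (fun j => ξ (v j)) ?_ i).trans
        (hξ _)
      intro j
      have h1 : ξ (u j : V) = 0 := by
        have h2 : (u j : V) ∈ LinearMap.ker ξ := inf_le_right (a := E) (u j).2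
        exact LinearMap.mem_ker.1 h2
      rw [hvi, map_add, h1, zero_add, map_smul]
    have hτ : ∀ i : Fin (m * (4 * L)), MeanB_tau (4 * L) (i.modNat : Fin (4 * L)) ^ 2 *
        ‖(a i.divNat : V)‖ ^ 2 ≤ c1 ^ 2 * ‖v i‖ ^ 2 := by
      intro i
      have h1 := hproj (u i : V) (u i).2
        (MeanB_tau (4 * L) (i.modNat : Fin (4 * L)) • (a i.divNat : V))
        (E1.smul_mem _ (a i.divNat).2)
      rw [← hvi] at h1
      have h2 := pow_le_pow_left₀ (norm_nonneg _) h1 2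
      rw [norm_smul, mul_pow, mul_pow, Real.norm_eq_abs, sq_abs] at h2
      exact h2
    have hsumτ : (∑ r : Fin (4 * L), MeanB_tau (4 * L) r ^ 2) * ∑ k, ‖(a k : V)‖ ^ 2 ≤
        c1 ^ 2 * ∑ i, ‖v i‖ ^ 2 := by
      rw [← MeanB_sum m (4 * L) (fun k => ‖(a k : V)‖ ^ 2)
        (fun r => MeanB_tau (4 * L) r ^ 2), Finset.mul_sum]
      exact Finset.sum_le_sum fun i _ => hτ i
    have hsuma : ∑ i : Fin (m * (4 * L)), ‖(a i.divNat : V)‖ ^ 2 =
        (4 * L : ℝ) * ∑ k, ‖(a k : V)‖ ^ 2 := by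
      have h1 := MeanB_sum m (4 * L) (fun k => ‖(a k : V)‖ ^ 2) (fun _ => 1)
      simp only [one_mul, Finset.sum_const, Finset.card_univ, Fintype.card_fin, nsmul_eq_mul,
        mul_one] at h1
      rw [h1]
      push_cast
      ring
    set Sa : ℝ := ∑ k, ‖(a k : V)‖ ^ 2 with hSa
    have hSa0 : 0 ≤ Sa := Finset.sum_nonneg fun k _ => sq_nonneg _
    set S : ℝ := ∑ i, ‖v i‖ ^ 2 with hS
    have hSpos : 0 < S := by
      refine lt_of_le_of_ne (Finset.sum_nonneg fun i _ => sq_nonneg _) fun h0 => ?_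
      refine hv (funext fun i => ?_)
      have h1 := (Finset.sum_eq_zero_iff_of_nonneg fun i _ => sq_nonneg _).1 h0.symm i
        (Finset.mem_univ i)
      exact norm_eq_zero.1 (pow_eq_zero_iff (two_ne_zero)|>.1 h1)
    have hL0 : (0 : ℝ) < L := by linarith
    have h1 : (2 * L * (L : ℝ) ^ 2) * Sa ≤ c1 ^ 2 * S :=
      (mul_le_mul_of_nonneg_right (MeanB_tau_sum L) hSa0).trans hsumτ
    have hδs : ∑ i, δ i ^ 2 ≤ K ^ 2 * ((4 * L : ℝ) * Sa) := by
      rw [← hsuma, Finset.mul_sum]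
      refine Finset.sum_le_sum fun i _ => ?_
      have h2 := pow_le_pow_left₀ (norm_nonneg _) (hδa i) 2
      rw [mul_pow] at h2
      exact h2
    have hδS : D * ∑ i, δ i ^ 2 < c / 2 * S := by
      have h2 : D * (∑ i, δ i ^ 2) * (L : ℝ) ^ 2 ≤ Θ * S := by
        calc D * (∑ i, δ i ^ 2) * (L : ℝ) ^ 2 ≤ D * (K ^ 2 * ((4 * L : ℝ) * Sa)) * (L : ℝ) ^ 2 := by
              gcongr
          _ = D * (2 * K ^ 2) * ((2 * L * (L : ℝ) ^ 2) * Sa) := by ring
          _ ≤ D * (2 * K ^ 2) * (c1 ^ 2 * S) := mul_le_mul_of_nonneg_left h1 (by positivity)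
          _ = Θ * S := by rw [hΘ]; ring
      have h3 : Θ * S < c / 2 * (L : ℝ) ^ 2 * S := mul_lt_mul_of_pos_right hΘL hSpos
      have h4 : D * (∑ i, δ i ^ 2) * (L : ℝ) ^ 2 < c / 2 * S * (L : ℝ) ^ 2 := by
        calc _ ≤ Θ * S := h2
          _ < c / 2 * (L : ℝ) ^ 2 * S := h3
          _ = c / 2 * S * (L : ℝ) ^ 2 := by ring
      exact lt_of_mul_lt_mul_right h4 (by positivity)
    have hterm : ∀ i, H (v i) + C * δ i * (‖v i‖ + δ i) ≤
        -(c / 2) * ‖v i‖ ^ 2 + D * δ i ^ 2 := by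
      intro i
      have h2 := hcE (v i) (hvE i)
      have h3 : C * δ i * ‖v i‖ ≤ c / 2 * ‖v i‖ ^ 2 + C ^ 2 / (2 * c) * δ i ^ 2 := by
        have h4 : 0 ≤ (c * ‖v i‖ - C * δ i) ^ 2 / (2 * c) := by positivity
        have h5 : (c * ‖v i‖ - C * δ i) ^ 2 / (2 * c) =
            c / 2 * ‖v i‖ ^ 2 + C ^ 2 / (2 * c) * δ i ^ 2 - C * δ i * ‖v i‖ := by
          field_simp
          ring
        linarith
      rw [hD]
      nlinarith
    calc ∑ i, (H (v i) + C * ‖ξ (v (i + 1)) - ξ (v i)‖ *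
          (‖v i‖ + ‖ξ (v (i + 1)) - ξ (v i)‖))
        ≤ ∑ i, (-(c / 2) * ‖v i‖ ^ 2 + D * δ i ^ 2) := Finset.sum_le_sum fun i _ => hterm i
      _ = -(c / 2) * S + D * ∑ i, δ i ^ 2 := by
          rw [Finset.sum_add_distrib, ← Finset.mul_sum, ← Finset.mul_sum]
      _ < 0 := by linarith

end Pool.Agent.H45.AC
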