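import Pool.Agent.H45.AC.MeanA
import Pool.Agent.H45.AC.MeanB

/-!
# Project AC: an orbit of index `n (K + 1)` has positive mean index
-/

set_option autoImplicit false

open Module QuadraticForm Filter Topology
open Pool.Agent.H47.QG (Pt action flw oseq Gen ind hess Zn MeanIdx)
open Pool.Agent.H47.ST

namespace Pool.Agent.H45.AC

variable {n : ℕ}

/-- the kernel of `n` linear forms in a subspace -/
theorem MeanP_ker {V : Type*} [AddCommGroup V] [Module ℝ V] [FiniteDimensional ℝ V]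
    (ξ : V →ₗ[ℝ] (Fin n → ℝ)) (E : Submodule ℝ V) :
    finrank ℝ E ≤ finrank ℝ (E ⊓ LinearMap.ker ξ : Submodule ℝ V) + n := by
  have h1 := Submodule.finrank_sup_add_finrank_inf_eq E (LinearMap.ker ξ)
  have h2 := LinearMap.finrank_range_add_finrank_ker ξ
  have h3 : finrank ℝ (E ⊔ LinearMap.ker ξ : Submodule ℝ V) ≤ finrank ℝ V :=
    Submodule.finrank_le _
  have h4 : finrank ℝ (LinearMap.range ξ) ≤ n := by
    have h5 := Submodule.finrank_le (LinearMap.range ξ)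
    rwa [Module.finrank_fintype_fun_eq_card, Fintype.card_fin] at h5
  omega

/-- the index of a long iterate -/
theorem MeanP_ind {S : ℕ → Pt n → ℝ} {f : ℕ → Pt n → Pt n} (hS : ∀ j, Gen (S j) (f j))
    {K : ℕ} (hK : 0 < K) (hper : ∀ j, S (j + K) = S j)
    (hfper : ∀ j, f (j + K) = f j) (w : Pt n) (hw : flw f K w = w)
    (hind : ind S f K w = n * (K + 1)) :
    ∃ b : ℕ, 0 < b ∧ ∀ m : ℕ, 0 < m → m * b * (n * K) + m * n ≤ ind S f (m * b * K) w := by
  have hKz : NeZero K := ⟨hK.ne'⟩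
  obtain ⟨E, hEf, hE⟩ := Pool.Agent.H47.QG.exists_sigNeg (hess (action S K) (oseq f K w))
  rw [← Pool.Agent.H47.QG.ind_eq, hind] at hEf
  let ξ : (Fin K → Pt n) →ₗ[ℝ] (Fin n → ℝ) :=
    (LinearMap.fst ℝ (Fin n → ℝ) (Fin n → ℝ)).comp (LinearMap.proj (0 : Fin K))
  obtain ⟨C, hC, hlong⟩ := long_hess hS K hper hfper w hw
  obtain ⟨b, hb, hslow⟩ := slow_space (hess (action S K) (oseq f K w)) ξ E hE C hC
  have hE0 := MeanP_ker ξ E
  refine ⟨b, hb, fun m hm => ?_⟩
  have hmb : NeZero (m * b) := ⟨(Nat.mul_pos hm hb).ne'⟩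
  have hmbK : NeZero (m * b * K) := ⟨(Nat.mul_pos (Nat.mul_pos hm hb) hK).ne'⟩
  obtain ⟨W, hW1, hW2⟩ := hslow m
  have h1 : finrank ℝ W ≤ ind S f (m * b * K) w :=
    le_ind_blk K w (m * b) W fun v hv hv0 =>
      lt_of_le_of_lt (hlong (m * b) v) (hW2 v hv hv0)
  refine le_trans ?_ h1
  obtain ⟨e0, he0⟩ : ∃ e0, finrank ℝ (E ⊓ LinearMap.ker ξ : Submodule ℝ (Fin K → Pt n)) = e0 :=
    ⟨_, rfl⟩
  rw [he0] at hW1 hE0
  rw [hEf] at hW1 hE0
  obtain ⟨d, hd⟩ : ∃ d, e0 = n * K + d := by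
    refine ⟨e0 - n * K, ?_⟩
    have h2 : n * (K + 1) = n * K + n := by ring
    omega
  rw [hd] at hW1
  have h3 : m * d ≤ m * (b * d) := Nat.mul_le_mul_left m (Nat.le_mul_of_pos_left d hb)
  have h4 : m * (b * (n * K + d)) + m * (n * (K + 1)) =
      (m * b * (n * K) + m * n) + m * (b * d) + m * (n * K) := by ring
  have h5 : finrank ℝ W + m * (n * K + d) = finrank ℝ W + m * d + m * (n * K) := by ring
  rw [h4, h5] at hW1
  omega

/-- **Strict index inequality.** -/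
theorem mean_pos {S : ℕ → Pt n → ℝ} {f : ℕ → Pt n → Pt n} (hS : ∀ j, Gen (S j) (f j))
    (hn : 0 < n) {K : ℕ} (hK : 0 < K) (hper : ∀ j, S (j + K) = S j)
    (hfper : ∀ j, f (j + K) = f j) (w : Pt n) (hw : flw f K w = w)
    (hind : ind S f K w = n * (K + 1)) (t : ℝ) (ht : MeanIdx S f K w t) : 0 < t := by
  obtain ⟨b, hb, hkey⟩ := MeanP_ind hS hK hper hfper w hw hind
  have hb' : (0 : ℝ) < b := by exact_mod_cast hb
  have hn' : (0 : ℝ) < n := by exact_mod_cast hn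
  have h1 : Tendsto (fun m : ℕ => m * b) atTop atTop :=
    tendsto_id.atTop_mul_const' hb
  have h2 : Tendsto (fun m : ℕ => (ind S f (m * b * K) w : ℝ) / ((m * b : ℕ) : ℝ)) atTop
      (𝓝 (t + n * K)) := ht.comp h1
  have h3 : (n : ℝ) * K + n / b ≤ t + n * K := by
    refine ge_of_tendsto h2 ?_
    filter_upwards [eventually_gt_atTop 0] with m hm
    have hm' : (0 : ℝ) < m := by exact_mod_cast hm
    have h4 : ((m * b * (n * K) + m * n : ℕ) : ℝ) ≤ (ind S f (m * b * K) w : ℝ) := by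
      exact_mod_cast hkey m hm
    rw [Nat.cast_mul, le_div_iff₀ (mul_pos hm' hb')]
    push_cast at h4
    refine le_trans (le_of_eq ?_) h4
    field_simp
  have h5 : (0 : ℝ) < n / b := div_pos hn' hb'
  linarith

end Pool.Agent.H45.AC
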