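import Pool.Agent.H47.ST.GrowA

/-!
# Project AC: a fixed point in the top degree
-/

set_option autoImplicit false

open Module QuadraticForm Filter Topology
open Pool.Agent.H47.QG (Pt action flw oseq Gen ind hess Zn LD)
open Pool.Agent.H47.ST

namespace Pool.Agent.H45.AC

/-! ### From the single degrees to the total complex -/

theorem TopD_the {F E : Type*} [Field F] [AddCommGroup E] [Module F E] (m : ℕ) (x : E) :
    the (0 : E →ₗ[F] E) 0 m x = 0 := by
  unfold the
  split_ifs <;> rfl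

theorem TopD_ops {κ F : Type*} [Field F] (X : Set (κ → ℤ)) [Fintype κ] :
    Ops (dX (F := F) X) 0 0 where
  dd := dX_dX X
  dt x := by simp
  dn x := by simp
  tn x := rfl
  nt x := rfl

/-- the total cohomology is at most the sum of the cohomologies in the single degrees -/
theorem TopD_tot {κ F : Type*} [Fintype κ] [Field F] {L : AddSubgroup (κ → ℤ)}
    {X A : Set (κ → ℤ)} (hX : Inv L X) (r : ℕ → ℕ) (hr : ∀ j, HR F L X A j (r j)) :
    RK (dX X) (dX X) (cot F L X A) (cot F L X A) ⊥ ⊥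
      (∑ j ∈ Finset.range (Fintype.card κ + 1), r j) := by
  classical
  have hsub : Sub (dX (F := F) X) 0 0 (co (F := F) L X A) :=
    { d := fun j x hx => dX_mem hX hx
      t := fun j x _ => by
        rw [LinearMap.zero_apply]
        exact Submodule.zero_mem _
      n := fun j x _ => by
        rw [LinearMap.zero_apply]
        exact Submodule.zero_mem _ }
  have hTK := TK_of_HK (TopD_ops (F := F) X) (Trunc_bot (F := F)) hsub (fun _ => bot_le)
    (Fintype.card κ + 2) (fun j hj => by rw [co_big L X A (by omega)])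
    (fun j => Nat.casesOn (motive := fun _ => ℕ) j 0 r)
    (fun j _ => by
      cases j with
      | zero => exact Loc_HK_zero _ _
      | succ j => exact hr j) 0
  have e : (∑ j ∈ Finset.range (Fintype.card κ + 2), Nat.casesOn (motive := fun _ => ℕ) j 0 r) =
      ∑ j ∈ Finset.range (Fintype.card κ + 1), r j := by
    rw [Finset.sum_range_succ']
    rfl
  rw [e] at hTK
  obtain ⟨ℓ, hℓ⟩ := hTK
  let Φ : Co κ F →ₗ[F] (ℕ → Co κ F) :=
    LinearMap.pi fun j => cut (fun σ : Finset (κ → ℤ) => σ.card = j)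
  have hΦ : ∀ c j σ, Φ c j σ = if σ.card = j then c σ else 0 := fun c j σ => by
    change cut (fun σ : Finset (κ → ℤ) => σ.card = j) c σ = _
    rw [cut_apply]
    by_cases h : σ.card = j
    · rw [if_pos h, if_pos h]
    · rw [if_neg h, if_neg h]
  refine ⟨ℓ.comp Φ, fun c hc hdc hℓc => ?_⟩
  rw [Submodule.mem_bot] at hdc
  have hco : ∀ j, Φ c j ∈ co (F := F) L X A j := by
    intro j
    refine ⟨fun l hl σ => ?_, fun σ hσ => ?_⟩
    · rw [hΦ, hΦ, Sym_card_tr, hc.1 l hl]
    · rw [hΦ] at hσ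
      by_cases h1 : σ.card = j
      · rw [if_pos h1] at hσ
        exact ⟨(hc.2 σ hσ).1, (hc.2 σ hσ).2, h1⟩
      · rw [if_neg h1] at hσ
        exact absurd rfl hσ
  have hd : ∀ (x : Co κ F) (j : ℕ) (σ : Finset (κ → ℤ)), σ.card = j + 1 →
      dX X (Φ x j) σ = dX X x σ := by
    intro x j σ hσ
    rw [dX_apply, dX_apply]
    by_cases h1 : In X σ
    · rw [if_pos h1, if_pos h1]
      refine Finset.sum_congr rfl fun v hv => ?_
      rw [hΦ, if_pos (by rw [Finset.card_erase_of_mem hv, hσ]; rfl)]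
    · rw [if_neg h1, if_neg h1]
  have hd' : ∀ (x : Co κ F) (j : ℕ) (σ : Finset (κ → ℤ)), σ.card ≠ j + 1 →
      dX X (Φ x j) σ = 0 := by
    intro x j σ hσ
    rw [dX_apply]
    by_cases h1 : In X σ
    · rw [if_pos h1]
      refine Finset.sum_eq_zero fun v hv => ?_
      have h2 := Finset.card_erase_of_mem hv
      have h3 : 0 < σ.card := Finset.card_pos.2 ⟨v, hv⟩
      rw [hΦ, if_neg (by omega), mul_zero]
    · rw [if_neg h1]
  obtain ⟨y, hy, hyc⟩ := hℓ (Φ c) (fun j _ => hco j) (by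
    intro j _
    show del (dX (F := F) X) 0 0 0 (Φ c) j ∈ (⊥ : Submodule F (Co κ F))
    rw [Submodule.mem_bot]
    cases j with
    | zero => rw [del_zero, TopD_the]
    | succ j =>
      rw [del_succ, TopD_the, smul_zero, add_zero]
      funext σ
      by_cases h1 : σ.card = j + 1
      · rw [hd c j σ h1, hdc]
      · rw [hd' c j σ h1]
        rfl) hℓc
  have hy1 : ∀ j, y j ∈ co (F := F) L X A j := fun j => hy j (Set.mem_univ j)
  have hyc1 : ∀ j, Φ c j = del (dX (F := F) X) 0 0 (0 + 1) y j := by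
    intro j
    have h1 := hyc j (Set.mem_univ j)
    have h2 : (Φ c - del (dX (F := F) X) 0 0 (0 + 1) y) j = 0 := (Submodule.mem_bot F).1 h1
    rw [Pi.sub_apply] at h2
    exact sub_eq_zero.1 h2
  refine ⟨fun σ => y σ.card σ, ⟨fun l hl σ => ?_, fun σ hσ => ?_⟩, ?_⟩
  · show y (tr l σ).card (tr l σ) = y σ.card σ
    rw [Sym_card_tr]
    exact (hy1 _).1 l hl σ
  · have h1 := (hy1 _).2 σ hσ
    exact ⟨h1.1, h1.2.1⟩
  · rw [Submodule.mem_bot]
    funext σ
    rw [Pi.sub_apply, Pi.zero_apply, sub_eq_zero]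
    rcases Nat.eq_zero_or_pos σ.card with h3 | h3
    · have h4 : σ = ∅ := Finset.card_eq_zero.1 h3
      subst h4
      have h5 : c ∅ = 0 := by
        by_contra h5
        exact (hc.2 _ h5).2 (fun v hv => absurd hv (Finset.notMem_empty v))
      rw [h5, dX_apply]
      split_ifs
      · rw [Finset.sum_empty]
      · rfl
    · obtain ⟨k, hk⟩ := Nat.exists_eq_succ_of_ne_zero h3.ne'
      have h4 := congrFun (hyc1 (k + 1)) σ
      rw [hΦ, if_pos hk, del_succ, TopD_the, smul_zero, add_zero] at h4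
      rw [h4, dX_apply, dX_apply]
      by_cases h1 : In X σ
      · rw [if_pos h1, if_pos h1]
        refine Finset.sum_congr rfl fun v hv => ?_
        have h5 : (σ.erase v).card = k := by rw [Finset.card_erase_of_mem hv, hk]; rfl
        show _ = sgn F σ v * y (σ.erase v).card (σ.erase v)
        rw [h5]
      · rw [if_neg h1, if_neg h1]

/-- the total cohomology of the domain is at least `2 ^ (2 n)` -/
theorem TopD_low (n K : ℕ) [NeZero K] {p : ℕ} [Fact p.Prime] (hp : 2 * 2 ^ (2 * n) < p)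
    {R a : ℝ} (hR : 0 < R) (ha : 0 < a) {M : ℕ} (hM : 1 ≤ M) (r : ℕ → ℕ)
    (hr : ∀ j, HR (ZMod p) (lam (Lc n K) (2 ^ M)) (Xm (qK n K) R (2 ^ M))
      (Am (qK n K) (QK n K) R a (2 ^ M)) j (r j)) :
    2 ^ (2 * n) ≤ ∑ j ∈ Finset.range (Fintype.card (Iz n K) + 1), r j := by
  have hm2 : 2 ≤ 2 ^ M := by
    calc 2 = 2 ^ 1 := rfl
      _ ≤ 2 ^ M := Nat.pow_le_pow_right (by norm_num) hM
  have hm0 : 0 < 2 ^ M := by omega
  have hD : Dm (Lc n K) (qK n K) (QK n K) R a := by
    have h := dom_Dm n K one_pos R a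
    simp only [one_mul] at h
    exact h
  obtain ⟨D, hDc, hD1, hD2, hD3, hD4⟩ := half_lattice n K M hM
  have hX : Inv (lam (Lc n K) (2 ^ M)) (Xm (qK n K) R (2 ^ M)) := Xm_inv hD.qp R hm0
  have hA : Inv (lam (Lc n K) (2 ^ M)) (Am (qK n K) (QK n K) R a (2 ^ M)) :=
    Am_inv hD.qp hD.Qp R a hm0
  rw [← hDc]
  exact sym_bound (lam_wide _ hm2) (Lc_even hM) (fun v hv => hv.1) hX hA
    (fun v => by
      have h5 : ps (2 ^ M) (-v) = -ps (2 ^ M) v := EqM_ps_neg _ v
      simp only [Xm, Set.mem_ofPred_eq]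
      rw [h5, qK_neg])
    (fun v => by
      have h5 : ps (2 ^ M) (-v) = -ps (2 ^ M) v := EqM_ps_neg _ v
      simp only [Am, Set.mem_ofPred_eq]
      rw [h5, qK_neg, QK_neg])
    (hD.finMod hm0) D hD1 hD2 hD3
    (fun v hv => by
      obtain ⟨h5, h6⟩ := hD4 v hv
      simp only [Xm, Am, Set.mem_ofPred_eq]
      rw [h5, h6]
      exact ⟨hR.le, fun h => by linarith [h.2]⟩)
    (by rw [hDc]; exact hp) (TopD_tot hX r hr)

/-! ### The Hessian of the model function -/

section model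

variable {n K : ℕ} [NeZero K]

/-- the coordinates in the periodic part -/
def TopD_pb (n K : ℕ) [NeZero K] (b : Fin n ⊕ Fin n) : Iz n K :=
  Sum.elim (fun i => (0, Sum.inl i)) (fun i => (Model_la K, Sum.inr i)) b

theorem TopD_pb_snd (b : Fin n ⊕ Fin n) : (TopD_pb n K b).2 = b := by
  rcases b with i | i <;> rfl

theorem TopD_P (t : Iz n K → ℝ) :
    Model_P n K t = ∑ b, Real.cos (2 * Real.pi * t (TopD_pb n K b)) := by
  unfold Model_P
  rw [Fintype.sum_sum_type, Finset.sum_add_distrib]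
  rfl

/-- the sign -/
def TopD_s (t : Fin 2) : ℝ := if t = 0 then 1 else -1

theorem TopD_cos (t : Fin 2) (x : ℝ) :
    Real.cos (2 * Real.pi * (x + ((t : ℕ) : ℝ) / 2)) = TopD_s t * Real.cos (2 * Real.pi * x) := by
  unfold TopD_s
  by_cases h : t = 0
  · subst h
    simp
  · have h1 : t = 1 := by omega
    subst h1
    rw [if_neg (by decide)]
    have h2 : 2 * Real.pi * (x + (((1 : Fin 2) : ℕ) : ℝ) / 2) = 2 * Real.pi * x + Real.pi := by
      norm_num
      ring
    rw [h2, Real.cos_add_pi]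
    ring

/-- the Hessian of a function on the line -/
theorem TopD_hess1 (g g' : ℝ → ℝ) (a : ℝ) (h1 : ∀ s, HasDerivAt g (g' s) s)
    (h2 : HasDerivAt g' a 0) : hess g 0 1 = a := by
  have h3 : ∀ s, HasFDerivAt g ((g' s) • ContinuousLinearMap.id ℝ ℝ) s := by
    intro s
    have h := (h1 s).hasFDerivAt
    rw [Model_span] at h
    exact h
  have h4 : fderiv ℝ g = fun s => (g' s) • ContinuousLinearMap.id ℝ ℝ :=
    funext fun s => (h3 s).fderiv
  have h5 : HasFDerivAt g' (a • ContinuousLinearMap.id ℝ ℝ) 0 := by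
    have h := h2.hasFDerivAt
    rw [Model_span] at h
    exact h
  have h6 := h5.smul_const (ContinuousLinearMap.id ℝ ℝ)
  rw [Pool.Agent.H47.QG.hess_apply, h4, h6.fderiv]
  simp

theorem TopD_cosd (c w s : ℝ) : HasDerivAt (fun s : ℝ => c * Real.cos (w * s))
    (-(c * w * Real.sin (w * s))) s := by
  have h1 : HasDerivAt (fun s : ℝ => w * s) (w * 1) s := (hasDerivAt_id s).const_mul w
  have h2 := (h1.cos).const_mul c
  refine h2.congr_deriv ?_
  ring

theorem TopD_sind (c w : ℝ) : HasDerivAt (fun s : ℝ => -(c * w * Real.sin (w * s)))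
    (-(c * w ^ 2)) 0 := by
  have h1 : HasDerivAt (fun s : ℝ => w * s) (w * 1) 0 := (hasDerivAt_id (0 : ℝ)).const_mul w
  have h2 := ((h1.sin).const_mul (c * w)).neg
  refine h2.congr_deriv ?_
  rw [mul_zero, Real.cos_zero]
  ring

theorem TopD_line (c0 c1 c2 : ℝ) (A w : Fin n ⊕ Fin n → ℝ) :
    hess (fun s : ℝ => c0 + s * c1 + s ^ 2 * c2 + ∑ b, A b * Real.cos (w b * s)) 0 1 =
      2 * c2 - ∑ b, A b * w b ^ 2 := by
  refine TopD_hess1 _ (fun s => c1 + 2 * s * c2 + ∑ b, -(A b * w b * Real.sin (w b * s))) _ ?_ ?_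
  · intro s
    have h3 : HasDerivAt (fun s : ℝ => c0 + s * c1 + s ^ 2 * c2) _ s :=
      (((hasDerivAt_id s).mul_const c1).const_add c0).add
        (((hasDerivAt_id s).pow 2).mul_const c2)
    have h4 : HasDerivAt (fun s : ℝ => c0 + s * c1 + s ^ 2 * c2) (c1 + 2 * s * c2) s :=
      h3.congr_deriv (by simp)
    exact h4.add (HasDerivAt.fun_sum fun b _ => TopD_cosd (A b) (w b) s)
  · have h3 : HasDerivAt (fun s : ℝ => c1 + 2 * s * c2) _ 0 :=
      (((hasDerivAt_id (0 : ℝ)).const_mul 2).mul_const c2).const_add c1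
    have h4 : HasDerivAt (fun s : ℝ => c1 + 2 * s * c2) (2 * c2) 0 := h3.congr_deriv (by simp)
    have h5 := h4.add (HasDerivAt.fun_sum (u := Finset.univ) fun b _ => TopD_sind (A b) (w b))
    refine h5.congr_deriv ?_
    rw [Finset.sum_neg_distrib]
    ring

theorem TopD_hess (e : Fin n ⊕ Fin n → Fin 2) (v : Iz n K → ℝ) :
    hess (Model_f n K) (Model_z n K e) v =
      2 * QK n K v - ∑ b, TopD_s (e b) * (2 * Real.pi * v (TopD_pb n K b)) ^ 2 := by
  obtain ⟨c, hc⟩ := Model_QK_line (Model_z n K e) v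
  have h1 := Pool.Agent.H47.QG.hess_comp (Model_f n K) Model_f_smooth
    (ContinuousLinearMap.smulRight (ContinuousLinearMap.id ℝ ℝ) v) (Model_z n K e) 0 1
  have h2 : (fun s : ℝ => Model_f n K
      (ContinuousLinearMap.smulRight (ContinuousLinearMap.id ℝ ℝ) v s + Model_z n K e)) =
      fun s => QK n K (Model_z n K e) + s * c + s ^ 2 * QK n K v +
        ∑ b, TopD_s (e b) * Real.cos (2 * Real.pi * v (TopD_pb n K b) * s) := by
    funext s
    have h3 : ContinuousLinearMap.smulRight (ContinuousLinearMap.id ℝ ℝ) v s + Model_z n K e =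
      s • v + Model_z n K e := by simp
    rw [h3]
    unfold Model_f
    rw [hc, TopD_P]
    congr 1
    refine Finset.sum_congr rfl fun b _ => ?_
    have h4 : (s • v + Model_z n K e) (TopD_pb n K b) =
        s * v (TopD_pb n K b) + ((e b : ℕ) : ℝ) / 2 := by
      simp only [Pi.add_apply, Pi.smul_apply, smul_eq_mul, Model_z, TopD_pb_snd]
    rw [h4, TopD_cos]
    congr 2
    ring
  rw [h2, TopD_line] at h1
  have h5 : ContinuousLinearMap.smulRight (ContinuousLinearMap.id ℝ ℝ) v (0 : ℝ) +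
      Model_z n K e = Model_z n K e := by simp
  have h6 : ContinuousLinearMap.smulRight (ContinuousLinearMap.id ℝ ℝ) v (1 : ℝ) = v := by simp
  rw [h5, h6] at h1
  exact h1.symm

/-- constants do not change the quadratic form -/
theorem TopD_QK_const (v : Iz n K → ℝ) (c : Fin n ⊕ Fin n → ℝ) :
    QK n K (v + fun a => c a.2) = QK n K v := by
  unfold QK
  have h1 : ∀ j : Fin K, ∀ i : Fin n,
      (v + fun a : Iz n K => c a.2) (j, Sum.inr i) *
        ((v + fun a : Iz n K => c a.2) (j + 1, Sum.inl i) -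
          (v + fun a : Iz n K => c a.2) (j, Sum.inl i)) =
      v (j, Sum.inr i) * (v (j + 1, Sum.inl i) - v (j, Sum.inl i)) +
        c (Sum.inr i) * (v (j + 1, Sum.inl i) - v (j, Sum.inl i)) := by
    intro j i
    simp only [Pi.add_apply]
    ring
  simp only [h1, Finset.sum_add_distrib]
  have h2 : ∑ j : Fin K, ∑ i : Fin n, c (Sum.inr i) * (v (j + 1, Sum.inl i) - v (j, Sum.inl i)) =
      0 := by
    rw [Finset.sum_comm]
    refine Finset.sum_eq_zero fun i _ => ?_
    rw [← Finset.mul_sum, Finset.sum_sub_distrib, sub_eq_zero.2, mul_zero]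
    exact Equiv.sum_comp (Equiv.addRight (1 : Fin K)) (fun j => v (j, Sum.inl i))
  rw [h2, add_zero]

/-- extension by zero -/
noncomputable def TopD_ext (e : Fin n ⊕ Fin n → Fin 2) (t : Fin 2) :
    ({b // e b = t} → ℝ) →ₗ[ℝ] (Fin n ⊕ Fin n → ℝ) where
  toFun c b := if h : e b = t then c ⟨b, h⟩ else 0
  map_add' c d := by
    ext b
    simp only [Pi.add_apply]
    split_ifs
    · rfl
    · simp
  map_smul' x c := by
    ext b
    simp only [Pi.smul_apply, smul_eq_mul, RingHom.id_apply]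
    split_ifs
    · rfl
    · simp

/-- definite subspaces -/
noncomputable def TopD_psi (K : ℕ) [NeZero K] (s : ℝ) (e : Fin n ⊕ Fin n → Fin 2) (t : Fin 2) :
    (Fin (K - 1) × Fin n → ℝ) × ({b // e b = t} → ℝ) →ₗ[ℝ] (Iz n K → ℝ) where
  toFun x := Model_phi n K s x.1 + fun a => TopD_ext e t x.2 a.2
  map_add' x y := by
    ext a
    simp only [Prod.fst_add, Prod.snd_add, map_add, Pi.add_apply]
    ring
  map_smul' c x := by
    ext a
    simp only [Prod.smul_fst, Prod.smul_snd, map_smul, Pi.add_apply, Pi.smul_apply, smul_eq_mul,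
      RingHom.id_apply]
    ring

theorem TopD_psi_apply (s : ℝ) (e : Fin n ⊕ Fin n → Fin 2) (t : Fin 2)
    (x : (Fin (K - 1) × Fin n → ℝ) × ({b // e b = t} → ℝ)) :
    TopD_psi K s e t x = Model_phi n K s x.1 + fun a => TopD_ext e t x.2 a.2 := rfl

theorem TopD_psi_pb (s : ℝ) (e : Fin n ⊕ Fin n → Fin 2) (t : Fin 2)
    (x : (Fin (K - 1) × Fin n → ℝ) × ({b // e b = t} → ℝ)) (b : Fin n ⊕ Fin n) :
    TopD_psi K s e t x (TopD_pb n K b) = TopD_ext e t x.2 b := by
  rw [TopD_psi_apply, Pi.add_apply]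
  have h1 : Model_phi n K s x.1 (TopD_pb n K b) = 0 := by
    rcases b with i | i
    · exact (Model_phi_zero s x.1 i).1
    · exact (Model_phi_zero s x.1 i).2
  rw [h1, zero_add]
  show TopD_ext e t x.2 (TopD_pb n K b).2 = _
  rw [TopD_pb_snd]

theorem TopD_ext_pos (e : Fin n ⊕ Fin n → Fin 2) (t : Fin 2) (c : {b // e b = t} → ℝ)
    (b : {b // e b = t}) : TopD_ext e t c b.1 = c b := dif_pos b.2

theorem TopD_psi_inj (s : ℝ) (e : Fin n ⊕ Fin n → Fin 2) (t : Fin 2) :
    Function.Injective (TopD_psi K s e t) := by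
  rw [← LinearMap.ker_eq_bot, LinearMap.ker_eq_bot']
  intro x hx
  have h1 : x.2 = 0 := by
    funext b
    have h2 := congrFun hx (TopD_pb n K b.1)
    rw [TopD_psi_pb, TopD_ext_pos] at h2
    exact h2
  have h3 : Model_phi n K s x.1 = 0 := by
    have h4 := hx
    rw [TopD_psi_apply, h1, map_zero] at h4
    have h5 : (fun a : Iz n K => (0 : Fin n ⊕ Fin n → ℝ) a.2) = 0 := rfl
    rw [h5, add_zero] at h4
    exact h4
  have h6 : x.1 = 0 := by
    apply Model_phi_inj s
    rw [h3, map_zero]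
  exact Prod.ext h6 h1

theorem TopD_psi_hess (s : ℝ) (e : Fin n ⊕ Fin n → Fin 2) (t : Fin 2)
    (x : (Fin (K - 1) × Fin n → ℝ) × ({b // e b = t} → ℝ)) :
    hess (Model_f n K) (Model_z n K e) (TopD_psi K s e t x) =
      2 * QK n K (Model_phi n K s x.1) - TopD_s t * ∑ b, (2 * Real.pi * x.2 b) ^ 2 := by
  rw [TopD_hess]
  congr 1
  · rw [TopD_psi_apply, TopD_QK_const]
  · rw [Finset.mul_sum]
    have h1 : ∀ b, TopD_s (e b) * (2 * Real.pi * TopD_psi K s e t x (TopD_pb n K b)) ^ 2 =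
        if h : e b = t then TopD_s t * (2 * Real.pi * x.2 ⟨b, h⟩) ^ 2 else 0 := by
      intro b
      rw [TopD_psi_pb]
      show TopD_s (e b) * (2 * Real.pi * (if h : e b = t then x.2 ⟨b, h⟩ else 0)) ^ 2 = _
      by_cases h : e b = t
      · rw [dif_pos h, dif_pos h, h]
      · rw [dif_neg h, dif_neg h]
        ring
    rw [Finset.sum_congr rfl fun b _ => h1 b]
    symm
    have h2 := Finset.sum_subtype (Finset.univ.filter fun b => e b = t)
      (p := fun b => e b = t) (F := inferInstance) (fun b => by simp)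
      (fun b => if h : e b = t then TopD_s t * (2 * Real.pi * x.2 ⟨b, h⟩) ^ 2 else 0)
    rw [Finset.sum_filter] at h2
    have h3 : ∀ b, (if e b = t then
        (if h : e b = t then TopD_s t * (2 * Real.pi * x.2 ⟨b, h⟩) ^ 2 else 0) else 0) =
        if h : e b = t then TopD_s t * (2 * Real.pi * x.2 ⟨b, h⟩) ^ 2 else 0 := by
      intro b
      by_cases h : e b = t
      · rw [if_pos h]
      · rw [if_neg h, dif_neg h]
    rw [Finset.sum_congr rfl fun b _ => h3 b] at h2
    rw [h2]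
    refine Finset.sum_congr rfl fun b _ => ?_
    rw [dif_pos b.2]

theorem TopD_finrank (e : Fin n ⊕ Fin n → Fin 2) (t : Fin 2) (s : ℝ) :
    finrank ℝ (LinearMap.range (TopD_psi K s e t)) =
      n * (K - 1) + Fintype.card {b // e b = t} := by
  rw [LinearMap.finrank_range_of_inj (TopD_psi_inj s e t), Module.finrank_prod,
    Module.finrank_fintype_fun_eq_card, Module.finrank_fintype_fun_eq_card, Fintype.card_prod,
    Fintype.card_fin, Fintype.card_fin, mul_comm]

theorem TopD_pos {s : ℝ} {e : Fin n ⊕ Fin n → Fin 2} {t : Fin 2}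
    {x : (Fin (K - 1) × Fin n → ℝ) × ({b // e b = t} → ℝ)} (h : TopD_psi K s e t x ≠ 0) :
    0 < 2 * ∑ l, x.1 l ^ 2 + ∑ b, (2 * Real.pi * x.2 b) ^ 2 := by
  have hp := Real.pi_pos
  have h1 : 0 ≤ ∑ l, x.1 l ^ 2 := Finset.sum_nonneg fun _ _ => sq_nonneg _
  have h2 : 0 ≤ ∑ b, (2 * Real.pi * x.2 b) ^ 2 := Finset.sum_nonneg fun _ _ => sq_nonneg _
  rcases lt_or_eq_of_le h1 with h3 | h3
  · linarith
  rcases lt_or_eq_of_le h2 with h4 | h4
  · linarith
  exfalso
  apply h
  have e1 : x.1 = 0 := by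
    funext l
    have h5 := (Finset.sum_eq_zero_iff_of_nonneg (fun _ _ => sq_nonneg _)).1 h3.symm l
      (Finset.mem_univ l)
    exact pow_eq_zero_iff (two_ne_zero) |>.1 h5
  have e2 : x.2 = 0 := by
    funext b
    have h5 := (Finset.sum_eq_zero_iff_of_nonneg (fun _ _ => sq_nonneg _)).1 h4.symm b
      (Finset.mem_univ b)
    have h6 := pow_eq_zero_iff (two_ne_zero) |>.1 h5
    rcases mul_eq_zero.1 h6 with h7 | h7
    · linarith
    · exact h7
  have e3 : x = 0 := Prod.ext e1 e2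
  rw [e3, map_zero]

theorem TopD_sigNeg_le (e : Fin n ⊕ Fin n → Fin 2) :
    n * (K - 1) + Fintype.card {b // e b = 0} ≤ sigNeg (hess (Model_f n K) (Model_z n K e)) := by
  have h1 := Pool.Agent.H47.QG.le_sigNeg (hess (Model_f n K) (Model_z n K e))
    (LinearMap.range (TopD_psi K (-1) e 0)) ?_
  · rwa [TopD_finrank] at h1
  · rintro _ ⟨x, rfl⟩ hne
    have h2 := TopD_pos hne
    rw [TopD_psi_hess, Model_phi_neg]
    have h3 : TopD_s 0 = 1 := if_pos rfl
    rw [h3]
    linarith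

theorem TopD_sigPos_le (e : Fin n ⊕ Fin n → Fin 2) :
    n * (K - 1) + Fintype.card {b // e b = 1} ≤ sigPos (hess (Model_f n K) (Model_z n K e)) := by
  have h1 := Pool.Agent.H47.QG.le_sigNeg (-hess (Model_f n K) (Model_z n K e))
    (LinearMap.range (TopD_psi K 1 e 1)) ?_
  · rwa [TopD_finrank, sigNeg_neg] at h1
  · rintro _ ⟨x, rfl⟩ hne
    have h2 := TopD_pos hne
    show -(hess (Model_f n K) (Model_z n K e) (TopD_psi K 1 e 1 x)) < 0
    rw [TopD_psi_hess, Model_phi_pos]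
    have h3 : TopD_s 1 = -1 := if_neg (by decide)
    rw [h3]
    linarith

theorem TopD_card (hK : 0 < K) : Fintype.card (Iz n K) = 2 * (n * (K - 1)) + 2 * n := by
  rw [Fintype.card_prod, Fintype.card_sum, Fintype.card_fin, Fintype.card_fin]
  obtain ⟨m, rfl⟩ : ∃ m, K = m + 1 := ⟨K - 1, by omega⟩
  rw [Nat.add_sub_cancel]
  ring

/-- signature at the critical points of the model function -/
theorem TopD_sig (e : Fin n ⊕ Fin n → Fin 2) :
    sigNeg (hess (Model_f n K) (Model_z n K e)) = n * (K - 1) + Fintype.card {b // e b = 0} ∧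
    sigNeg (hess (Model_f n K) (Model_z n K e)) + sigPos (hess (Model_f n K) (Model_z n K e)) =
      Fintype.card (Iz n K) := by
  have h1 := TopD_sigNeg_le (K := K) e
  have h2 := TopD_sigPos_le (K := K) e
  have h3 := sigPos_add_sigNeg_add_radical (Q := hess (Model_f n K) (Model_z n K e))
  rw [Module.finrank_fintype_fun_eq_card] at h3
  have h4 : Fintype.card {b // e b = 0} + Fintype.card {b // e b = 1} = 2 * n := by
    rw [Fintype.card_subtype, Fintype.card_subtype]
    have h5 : (Finset.univ.filter fun b => e b = 1) = Finset.univ.filter fun b => ¬ e b = 0 := by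
      apply Finset.filter_congr
      intro b _
      omega
    rw [h5, Finset.card_filter_add_card_filter_not, Finset.card_univ, Fintype.card_sum,
      Fintype.card_fin]
    ring
  have h5 := TopD_card (n := n) (NeZero.pos K)
  constructor <;> omega

/-! ### Bands -/

/-- the band between the two ends of the domain -/
theorem TopD_band (f : (Iz n K → ℝ) → ℝ) (hf : ContDiff ℝ 2 f) (hfp : PerL (Lc n K) f) (C : ℝ)
    (hC : ∀ y b, |fderiv ℝ f y (Pi.single b 1) - DK n K y b| ≤ C) (Z : Finset (Iz n K → ℝ))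
    (hZ : ∀ z ∈ Z, fderiv ℝ f z = 0)
    (hZi : ∀ z ∈ Z, ∀ z' ∈ Z, ∀ l ∈ Lc n K, z' = z + rl l → z' = z)
    (hZc : ∀ y, fderiv ℝ f y = 0 → ∃ z ∈ Z, ∃ l ∈ Lc n K, y = z + rl l) :
    ∃ R₀ : ℝ, 0 < R₀ ∧ ∀ R ≥ R₀, ∀ a ≥ R₀, ∃ α β : ℝ,
      Band (Lc n K) (qK n K) (QK n K) f R a α β Z ∧
      (∀ m, Lv (qK n K) (QK n K) f R a α m = Am (qK n K) (QK n K) R a m) ∧
      ∀ m, Lv (qK n K) (QK n K) f R a β m = Xm (qK n K) R m := by
  obtain ⟨R₀, hR₀, hbd⟩ := dom_Bd n K one_pos C
  refine ⟨R₀, hR₀, fun R hR a ha => ?_⟩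
  have hdm : Dm (Lc n K) (qK n K) (QK n K) R a := by
    have h := dom_Dm n K one_pos R a
    simp only [one_mul] at h
    exact h
  have hb := hbd R hR a ha f (hf.differentiable (by norm_num))
    (fun y b => by
      rw [one_mul]
      exact hC y b)
  simp only [one_mul] at hb
  obtain ⟨hb1, hb2⟩ := hb
  obtain ⟨α₀, hα₀⟩ := Lv_low hdm hf.continuous hfp
  obtain ⟨β₀, hβ₀⟩ := Lv_high hdm hf.continuous hfp
  have hα := hα₀ (min α₀ (β₀ - 1)) (min_le_left _ _)
  have hβ := hβ₀ β₀ le_rfl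
  have hlt : min α₀ (β₀ - 1) < β₀ := lt_of_le_of_lt (min_le_right _ _) (by linarith)
  refine ⟨min α₀ (β₀ - 1), β₀, ⟨hdm, hf, hfp, hb1, hlt, ?_, hZi, ?_⟩, hα.2, hβ.2⟩
  · intro z hz
    have h2 := hb2 _ (hZ z hz)
    exact ⟨hZ z hz, h2.1, h2.2, hα.1 _ h2.1.le h2.2.le, hβ.1 _ h2.1.le h2.2.le⟩
  · intro y _ _ _ _ h3
    exact hZc y h3

theorem TopD_model_inj (e e' : Fin n ⊕ Fin n → Fin 2) (l : Iz n K → ℤ)
    (h : Model_z n K e' = Model_z n K e + rl l) : Model_z n K e' = Model_z n K e := by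
  have h1 : ∀ b, e' b = e b := by
    intro b
    have h2 := congrFun h (0, b)
    simp only [Model_z, Pi.add_apply, rl] at h2
    have h3 : ((e' b : ℕ) : ℤ) = (e b : ℕ) + 2 * l (0, b) := by
      have : (((e' b : ℕ) : ℤ) : ℝ) = (((e b : ℕ) + 2 * l (0, b) : ℤ) : ℝ) := by
        push_cast
        linarith
      exact_mod_cast this
    apply Fin.ext
    have h4 := (e' b).isLt
    have h5 := (e b).isLt
    omega
  funext a
  simp only [Model_z, h1]

theorem TopD_model_crit (y : Iz n K → ℝ) (h : fderiv ℝ (Model_f n K) y = 0) :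
    ∃ e : Fin n ⊕ Fin n → Fin 2, ∃ l ∈ Lc n K, y = Model_z n K e + rl l := by
  obtain ⟨k, hk⟩ := Model_crit h
  refine ⟨fun b => ⟨(k b % 2).toNat, by omega⟩, fun a => k a.2 / 2,
    ⟨fun b => k b / 2, fun j b => rfl⟩, ?_⟩
  funext ⟨j, b⟩
  rw [hk]
  simp only [Model_z, Pi.add_apply, rl]
  have h4 : ((k b % 2).toNat : ℤ) = k b % 2 := Int.toNat_of_nonneg (by omega)
  have h5 : (((k b % 2).toNat : ℕ) : ℝ) = ((k b % 2 : ℤ) : ℝ) := by
    exact_mod_cast congrArg (Int.cast (R := ℝ)) h4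
  rw [h5]
  have h6 : (k b : ℝ) = ((k b % 2 + 2 * (k b / 2) : ℤ) : ℝ) := by
    rw [Int.emod_add_mul_ediv]
  push_cast at h6 ⊢
  linarith

theorem TopD_LD (e : Fin n ⊕ Fin n → Fin 2) {ρ : ℝ} (hρ : 0 < ρ)
    (hu : ∀ x ∈ Metric.closedBall (Model_z n K e) ρ, fderiv ℝ (Model_f n K) x = 0 →
      x = Model_z n K e) :
    LD (Model_f n K) (Model_z n K e) ρ (Model_f n K) {Model_z n K e} := by
  have hs := TopD_sig (K := K) e
  refine ⟨Model_f_smooth, fun _ _ => rfl, fun y hy => ?_, fun y hy => ?_, fun y hy => ?_,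
    fun y hy => ?_, fun y hy => ?_⟩
  · rw [Finset.mem_singleton]
    exact ⟨hu y hy, fun h => by rw [h]; exact Model_z_crit e⟩
  · rw [Finset.mem_singleton.1 hy]
    exact Metric.mem_ball_self (half_pos hρ)
  · rw [Finset.mem_singleton.1 hy]
    exact hs.2
  · rw [Finset.mem_singleton.1 hy]
  · rw [Finset.mem_singleton.1 hy, hs.2]

theorem TopD_nK (n K : ℕ) [NeZero K] : n * (K - 1) + 2 * n = n * (K + 1) := by
  obtain ⟨m, hm⟩ : ∃ m, K = m + 1 := ⟨K - 1, by have := NeZero.pos K; omega⟩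
  rw [hm, Nat.add_sub_cancel]
  ring

/-- the ranks of the domain are at most `2 ^ (2 n)` in total, and the top one is positive -/
theorem TopD_model (F : Type*) [Field F] (n K : ℕ) [NeZero K] : ∃ R₀ : ℝ, 0 < R₀ ∧
    ∀ R ≥ R₀, ∀ a ≥ R₀, ∀ᶠ M : ℕ in atTop, ∃ r : ℕ → ℕ,
      (∀ j, HR F (lam (Lc n K) (2 ^ M)) (Xm (qK n K) R (2 ^ M))
        (Am (qK n K) (QK n K) R a (2 ^ M)) j (r j)) ∧
      (∀ J, ∑ j ∈ Finset.range J, r j ≤ 2 ^ (2 * n)) ∧ 1 ≤ r (n * (K + 1)) := by
  classical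
  obtain ⟨R₀, hR₀, hb⟩ := TopD_band (Model_f n K) Model_f_smooth Model_f_per (2 * Real.pi)
    (fun y b => by
      rw [Model_f_fderiv, add_sub_cancel_left]
      exact Model_G_le y b) (Finset.univ.image (Model_z n K))
    (fun z hz => by
      obtain ⟨e, _, rfl⟩ := Finset.mem_image.1 hz
      exact Model_z_crit e)
    (fun z hz z' hz' l _ h => by
      obtain ⟨e, _, rfl⟩ := Finset.mem_image.1 hz
      obtain ⟨e', _, rfl⟩ := Finset.mem_image.1 hz'
      exact TopD_model_inj e e' l h)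
    (fun y hy => by
      obtain ⟨e, l, hl, h⟩ := TopD_model_crit y hy
      exact ⟨_, Finset.mem_image_of_mem _ (Finset.mem_univ e), l, hl, h⟩)
  refine ⟨R₀, hR₀, fun R hR a ha => ?_⟩
  obtain ⟨α, β, hB, hα, hβ⟩ := hb R hR a ha
  obtain ⟨g, X, ρ, hg, hM⟩ := window F hB (fun z X => X = {z}) (fun z hz ρ hρ hu => by
    obtain ⟨e, _, rfl⟩ := Finset.mem_image.1 hz
    exact ⟨_, _, TopD_LD e hρ hu, rfl⟩)
  filter_upwards [hM] with M hM'
  refine ⟨fun j => ∑ z ∈ Finset.univ.image (Model_z n K),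
    ((X z).filter fun x => sigNeg (hess (g z) x) = j).card, fun j => ?_, fun J => ?_, ?_⟩
  · have h1 := hM' j
    rw [hα, hβ] at h1
    exact h1
  · rw [Finset.sum_comm]
    have h1 : ∀ z ∈ Finset.univ.image (Model_z n K), ∑ j ∈ Finset.range J,
        ((X z).filter fun x => sigNeg (hess (g z) x) = j).card ≤ 1 := by
      intro z hz
      rw [Finset.sum_card_fiberwise_eq_card_filter]
      refine (Finset.card_filter_le _ _).trans ?_
      rw [(hg z hz).2, Finset.card_singleton]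
    refine (Finset.sum_le_sum h1).trans ?_
    rw [Finset.sum_const, smul_eq_mul, mul_one]
    refine Finset.card_image_le.trans ?_
    rw [Finset.card_univ, Fintype.card_fun, Fintype.card_fin, Fintype.card_sum, Fintype.card_fin,
      two_mul]
  · have hz : Model_z n K (fun _ => 0) ∈ Finset.univ.image (Model_z n K) :=
      Finset.mem_image_of_mem _ (Finset.mem_univ _)
    have h0 := Finset.single_le_sum
      (f := fun z => ((X z).filter fun x => sigNeg (hess (g z) x) = n * (K + 1)).card)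
      (fun _ _ => Nat.zero_le _) hz
    refine le_trans ?_ h0
    obtain ⟨hLD, hX⟩ := hg _ hz
    have hmem : Model_z n K (fun _ => 0) ∈ X (Model_z n K (fun _ => 0)) := by
      rw [hX]
      exact Finset.mem_singleton_self _
    have h1 := hLD.lo _ hmem
    have h2 := hLD.hi _ hmem
    obtain ⟨h3, h4⟩ := TopD_sig (K := K) (fun _ : Fin n ⊕ Fin n => (0 : Fin 2))
    have h5 : Fintype.card {b : Fin n ⊕ Fin n // (fun _ : Fin n ⊕ Fin n => (0 : Fin 2)) b = 0} =
        2 * n := by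
      rw [Fintype.card_subtype, Finset.filter_true_of_mem (fun _ _ => rfl), Finset.card_univ,
        Fintype.card_sum, Fintype.card_fin, two_mul]
    rw [h5, TopD_nK] at h3
    exact Finset.card_pos.2 ⟨_, Finset.mem_filter.2 ⟨hmem, by omega⟩⟩

end model

/-- Some orbit has a window which contains `n (K + 1)`. -/
theorem exists_top {n : ℕ} {S : ℕ → Pt n → ℝ} {f : ℕ → Pt n → Pt n} (hS : ∀ j, Gen (S j) (f j))
    (hn : 0 < n) (K : ℕ) [NeZero K] (W : Finset (Pt n))
    (hW : ∀ w, flw f K w = w ↔ ∃ w' ∈ W, w - w' ∈ Zn n)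
    (hWd : ∀ w ∈ W, ∀ w' ∈ W, w - w' ∈ Zn n → w = w') :
    ∃ w ∈ W, sigNeg (hess (action S K) (oseq f K w)) ≤ n * (K + 1) ∧
      n * (K + 1) + sigPos (hess (action S K) (oseq f K w)) ≤ 2 * n * K := by
  classical
  by_contra hcon
  push Not at hcon
  obtain ⟨p, hpb, hp⟩ := Nat.exists_infinite_primes (2 * 2 ^ (2 * n) + 1)
  have hpf : Fact p.Prime := ⟨hp⟩
  obtain ⟨C, hC⟩ := fS_grad hS K
  have hZ : ∀ z, z ∈ W.image (zw f K) ↔ ∃ w ∈ W, zw f K w = z := fun z => Finset.mem_image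
  have hcr := GrowA_crit hS K W hW _ hZ
  obtain ⟨R₁, hR₁, hb1⟩ := TopD_band (fS S K) (fS_smooth hS K) (fS_per hS K) C hC
    (W.image (zw f K))
    (fun z hz => (hcr z).2 ⟨z, hz, 0, (Lc n K).zero_mem, by rw [Win_rl_zero, add_zero]⟩)
    (fun z hz z' hz' l hl he => by
      obtain ⟨w, hw, rfl⟩ := Finset.mem_image.1 hz
      obtain ⟨w', hw', rfl⟩ := Finset.mem_image.1 hz'
      rw [hWd w' hw' w hw ((zw_add hS _ w' w).1 ⟨l, hl, he⟩)])
    (fun y hy => (hcr y).1 hy)
  obtain ⟨R₂, hR₂, hb2⟩ := TopD_model (ZMod p) n K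
  obtain ⟨R, hR1, hR2⟩ : ∃ R, R₁ ≤ R ∧ R₂ ≤ R := ⟨_, le_max_left _ _, le_max_right _ _⟩
  obtain ⟨α, β, hB, hα, hβ⟩ := hb1 R hR1 R hR1
  obtain ⟨M, hM1, ⟨r, hr, hrs, hr1⟩, hM3⟩ :=
    ((window_out (ZMod p) hB).and ((hb2 R hR2 R hR2).and (eventually_ge_atTop 1))).exists
  have hcard : Fintype.card (Iz n K) = 2 * n * K := by
    rw [TopD_card (NeZero.pos K)]
    obtain ⟨m, hm⟩ : ∃ m, K = m + 1 := ⟨K - 1, by have := NeZero.pos K; omega⟩
    rw [hm, Nat.add_sub_cancel]
    ring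
  have hzero := hM1 (n * (K + 1)) (by
    rintro z hz ⟨h2, h3⟩
    obtain ⟨w, hw, rfl⟩ := Finset.mem_image.1 hz
    rw [(ActZ_hess hS K w).sigNeg_eq] at h2
    rw [(ActZ_hess hS K w).sigPos_eq, hcard] at h3
    have h4 := hcon w hw h2
    omega)
  rw [hα, hβ] at hzero
  have hlow := TopD_low n K (p := p) (by omega) (R := R) (a := R) (by linarith) (by linarith) hM3
    (fun j => if j = n * (K + 1) then 0 else r j) (fun j => by
      show HR _ _ _ _ j (if j = n * (K + 1) then 0 else r j)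
      by_cases hj : j = n * (K + 1)
      · rw [if_pos hj, hj]
        exact hzero
      · rw [if_neg hj]
        exact hr j)
  have hle : n * (K + 1) < Fintype.card (Iz n K) + 1 := by
    rw [hcard]
    have := NeZero.pos K
    nlinarith
  have h6 : ∑ j ∈ Finset.range (Fintype.card (Iz n K) + 1), r j =
      ∑ j ∈ Finset.range (Fintype.card (Iz n K) + 1), (if j = n * (K + 1) then 0 else r j) +
        r (n * (K + 1)) := by
    have h7 : ∀ j ∈ Finset.range (Fintype.card (Iz n K) + 1), r j =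
        (if j = n * (K + 1) then 0 else r j) + (if j = n * (K + 1) then r j else 0) :=
      fun j _ => by split_ifs <;> simp
    rw [Finset.sum_congr rfl h7, Finset.sum_add_distrib, Finset.sum_ite_eq',
      if_pos (Finset.mem_range.2 hle)]
  have h8 := hrs (Fintype.card (Iz n K) + 1)
  omega

end Pool.Agent.H45.AC
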