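import Pool.Agent.H45.AC.Main
import Pool.Agent.H45.AC.TopD
import Pool.Agent.H45.AC.MeanP

/-!
# Project AC: nondegenerate fixed points with different actions
-/

set_option autoImplicit false

open Module QuadraticForm Filter Topology Function
open Pool.Agent.H47.QG (Pt action flw oseq Gen ind hess Zn MeanIdx LocIdx Sys orbs Nondeg)
open Pool.Agent.H47.ST

namespace Pool.Agent.H45.AC

variable {n : ℕ}

/-- **Nondegenerate fixed points with different actions.** -/
theorem growth_gen {S : ℕ → Pt n → ℝ} {f : ℕ → Pt n → Pt n} (hS : ∀ j, Gen (S j) (f j))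
    (hn : 0 < n) {N : ℕ} (hN : 0 < N) (hper : ∀ j, S (j + N) = S j)
    (hfper : ∀ j, f (j + N) = f j) {X : Type*} {φ : X → X} {π : Pt n → X}
    (hsys : Sys (flw f N) φ π (Zn n)) (q : ℕ) [hqN : NeZero (q * N)]
    (hnd : ∀ w, flw f (q * N) w = w → Nondeg S f (q * N) w)
    (hact : ∀ w w', flw f (q * N) w = w → flw f (q * N) w' = w' →
      action S (q * N) (oseq f (q * N) w) = action S (q * N) (oseq f (q * N) w') →
      w - w' ∈ Zn n) : Grw φ := by
  classical
  have hq : 0 < q := Nat.pos_of_ne_zero (fun h0 => hqN.out (by rw [h0, zero_mul]))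
  have hK0 : 0 < q * N := Nat.mul_pos hq hN
  have hperK : ∀ m j, S (j + m * N) = S j := by
    intro m
    induction m with
    | zero => intro j; rw [zero_mul, add_zero]
    | succ m ih => intro j; rw [Nat.succ_mul, ← add_assoc, hper, ih]
  have hperK' : ∀ m j, f (j + m * N) = f j := by
    intro m
    induction m with
    | zero => intro j; rw [zero_mul, add_zero]
    | succ m ih => intro j; rw [Nat.succ_mul, ← add_assoc, hfper, ih]
  have hitk : ∀ w : Pt n, flw f (q * N) w = (flw f N)^[q] w := fun w => H47.QG.flw_mul hfper q w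
  have hit : ∀ (p : ℕ) (w : Pt n), flw f (p * (q * N)) w = (flw f N)^[q * p] w := by
    intro p w
    have e1 : p * (q * N) = (q * p) * N := by ring
    rw [e1, H47.QG.flw_mul hfper]
  have hfixA : ∀ w ∈ {w : Pt n | (flw f N)^[q] w = w}, ∀ e ∈ Zn n,
      w + e ∈ {w : Pt n | (flw f N)^[q] w = w} := by
    intro w hw e he
    change (flw f N)^[q] (w + e) = w + e
    rw [← hitk, H47.QG.flw_add_int hS _ _ _ he, hitk, show (flw f N)^[q] w = w from hw]
  have hmono : ∀ p : ℕ, {w : Pt n | (flw f N)^[q] w = w} ⊆ {w | (flw f N)^[q * p] w = w} := by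
    intro p w hw
    change (flw f N)^[q * p] w = w
    rw [Function.iterate_mul]
    exact Function.iterate_fixed hw p
  have hvmap : ∀ p w, (flw f N)^[q * p] w = w →
      ind S f (p * (q * N)) (flw f N w) = ind S f (p * (q * N)) w := by
    intro p w hw
    have e1 : p * (q * N) = (p * q) * N := by ring
    rw [e1]
    refine H47.QG.ind_map S f hS N hN hper hfper w (p * q) ?_
    rw [← e1, hit]; exact hw
  have hvtr : ∀ p w, ∀ e ∈ Zn n, (flw f N)^[q * p] w = w →
      ind S f (p * (q * N)) (w + e) = ind S f (p * (q * N)) w := by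
    rintro p w _ ⟨a, b, rfl⟩ _
    exact H47.QG.ind_translate S f hS _ w a b
  by_cases hfin : (π '' {w | (flw f N)^[q] w = w}).Finite
  swap
  · refine H47.QG.growth hsys q hq (fun p w => ind S f (p * (q * N)) w) hvmap hvtr 1 0 one_pos ?_
    intro p hp _ hf
    exact absurd (hf.subset (Set.image_mono (hmono p))) hfin
  obtain ⟨W, -, hW, hWd⟩ := H47.QG.exists_reps hsys.ker {w | (flw f N)^[q] w = w} hfixA hfin ∅
    (fun c hc => absurd hc (Finset.notMem_empty c)) (fun c hc => absurd hc (Finset.notMem_empty c))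
  obtain ⟨w, hwW, hw1, hw2⟩ := exists_top hS hn (q * N) W
    (fun w => by rw [hitk]; exact hW w) hWd
  have hfw : flw f (q * N) w = w := by
    rw [hitk]
    exact (hW w).2 ⟨w, hwW, by rw [sub_self]; exact (Zn n).zero_mem⟩
  have hsm : ContDiff ℝ 2 (action S (q * N)) :=
    H47.QG.action_smooth S (fun j => (hS j).smooth) (q * N)
  have hnd' : ∀ v, fderiv ℝ (fderiv ℝ (action S (q * N))) (oseq f (q * N) w) v = 0 → v = 0 :=
    hnd w hfw hK0.ne'
  have hind : ind S f (q * N) w = n * (q * N + 1) := by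
    rw [H47.QG.ind_eq]
    have h1 := H47.QG.LocN_sig (action S (q * N)) hsm (oseq f (q * N) w) hnd'
    have h2 : finrank ℝ (Fin (q * N) → Pt n) = 2 * n * (q * N) := by
      rw [Module.finrank_pi_fintype, Finset.sum_const, Finset.card_univ, Fintype.card_fin,
        Module.finrank_prod, Module.finrank_fin_fun, smul_eq_mul]
      ring
    omega
  obtain ⟨L, -, hL⟩ := H47.QG.almost_additive (fun p => (ind S f (p * (q * N)) w : ℝ)) (2 * n)
    (fun a b ha hb => H47.QG.ind_add S f hS (q * N) hK0 (hperK q) (hperK' q) w hfw a b ha hb)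
  have ht : MeanIdx S f (q * N) w (L - n * ((q * N : ℕ) : ℝ)) := by
    unfold MeanIdx
    rw [sub_add_cancel]
    exact hL
  have hpos := mean_pos hS hn hK0 (hperK q) (hperK' q) w hfw hind _ ht
  have h0 : fderiv ℝ (action S (q * N)) (oseq f (q * N) w) = 0 :=
    (H47.QG.crit_iff S f hS (q * N) (oseq f (q * N) w)).2 ⟨hfw, rfl⟩
  refine growth_AC hS hn hN hper hfper hsys q (L - n * ((q * N : ℕ) : ℝ))
    (action S (q * N) (oseq f (q * N) w)) hpos.ne' {w} ?_ ?_
    (fun _ => (-1) ^ sigNeg (hess (action S (q * N)) (oseq f (q * N) w))) ?_ ?_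
  · intro w'
    constructor
    · rintro ⟨h1, -, h3⟩
      exact ⟨w, Finset.mem_singleton_self w, hact w' w h1 hfw h3⟩
    · rintro ⟨c, hc, hz⟩
      rw [Finset.mem_singleton] at hc
      rw [hc] at hz
      obtain ⟨a, b, hab⟩ := id hz
      have hw' : w' = w + ((fun i => (a i : ℝ)), (fun i => (b i : ℝ))) := by
        rw [← sub_add_cancel w' w, ← hab]
        abel
      have hz' : ((fun i => (a i : ℝ)), (fun i => (b i : ℝ))) ∈ Zn n := ⟨a, b, rfl⟩
      refine ⟨?_, ?_, ?_⟩
      · rw [hw', H47.QG.flw_add_int hS _ _ _ hz', hfw]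
      · unfold MeanIdx at ht ⊢
        refine ht.congr fun m => ?_
        rw [hw', H47.QG.ind_translate S f hS]
      · have hos : oseq f (q * N) w' = oseq f (q * N) w +
            fun _ => ((fun i => (a i : ℝ)), (fun i => (b i : ℝ))) := by
          funext j
          rw [hw']
          exact H47.QG.IterT_flw S f hS a b w j
        rw [hos, H47.QG.IterT_action S f hS]
  · intro c hc c' hc' _
    rw [Finset.mem_singleton.1 hc, Finset.mem_singleton.1 hc']
  · intro c hc
    rw [Finset.mem_singleton.1 hc]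
    exact H47.QG.locIdx_nondeg (action S (q * N)) hsm (oseq f (q * N) w) h0 hnd'
  · rw [Finset.sum_singleton]
    exact pow_ne_zero _ (by norm_num)

end Pool.Agent.H45.AC
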