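import Pool.Agent.H45.AC.Pad

/-!
# Project AC: the index of the shortened system
-/

set_option autoImplicit false

open Module QuadraticForm Filter Topology
open Pool.Agent.H47.QG (Pt action flw oseq Gen ind hess Zn MeanIdx)
open Pool.Agent.H47.ST

namespace Pool.Agent.H45.AC

variable {n : ℕ}

/-- the index map which repeats position `p` -/
def PadI_pi {K : ℕ} [NeZero K] (p j : Fin (K + 1)) : Fin K :=
  if j.val ≤ p.val then Fin.ofNat K j.val else Fin.ofNat K (j.val - 1)

theorem PadI_val {K : ℕ} [NeZero K] (p j : Fin (K + 1)) :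
    (PadI_pi p j).val = (if j.val ≤ p.val then j.val else j.val - 1) % K := by
  unfold PadI_pi
  split_ifs <;> rfl

theorem PadI_sa {K : ℕ} (p : Fin (K + 1)) (i : Fin K) :
    (p.succAbove i).val = if i.val < p.val then i.val else i.val + 1 := by
  unfold Fin.succAbove
  by_cases h : i.castSucc < p
  · rw [if_pos h, if_pos (by simpa [Fin.lt_def] using h)]
    rfl
  · rw [if_neg h, if_neg (by simpa [Fin.lt_def] using h)]
    rfl

theorem PadI_pi_sa {K : ℕ} [NeZero K] (p : Fin (K + 1)) (i : Fin K) :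
    PadI_pi p (p.succAbove i) = i := by
  apply Fin.ext
  rw [PadI_val, PadI_sa]
  have hi := i.2
  by_cases h : i.val < p.val
  · rw [if_pos h, if_pos h.le, Nat.mod_eq_of_lt hi]
  · rw [if_neg h, if_neg (by omega), Nat.add_sub_cancel, Nat.mod_eq_of_lt hi]

theorem PadI_pi_sa_add {K : ℕ} [NeZero K] (p : Fin (K + 1)) (i : Fin K) :
    PadI_pi p (p.succAbove i + 1) = i + 1 := by
  apply Fin.ext
  rw [PadI_val, Pool.Agent.H47.QG.ActH_val, Pool.Agent.H47.QG.ActH_val, PadI_sa]
  have hi := i.2
  have hp := p.2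
  by_cases h : i.val < p.val
  · rw [if_pos h, Nat.mod_eq_of_lt (show i.val + 1 < K + 1 by omega), if_pos (by omega)]
  · rw [if_neg h]
    by_cases h2 : i.val + 1 + 1 < K + 1
    · rw [Nat.mod_eq_of_lt h2, if_neg (by omega)]
      congr 1
    · have h3 : i.val + 1 + 1 = K + 1 := by omega
      have h4 : i.val + 1 = K := by omega
      rw [h3, Nat.mod_self, if_pos (Nat.zero_le _), h4, Nat.mod_self, Nat.zero_mod]

theorem PadI_pi_p {K : ℕ} [NeZero K] (p : Fin (K + 1)) : PadI_pi p (p + 1) = PadI_pi p p := by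
  apply Fin.ext
  rw [PadI_val, PadI_val, Pool.Agent.H47.QG.ActH_val]
  have hp := p.2
  rw [if_pos (le_refl p.val)]
  by_cases h : p.val + 1 < K + 1
  · rw [Nat.mod_eq_of_lt h, if_neg (by omega)]
    congr 1
  · have h3 : p.val + 1 = K + 1 := by omega
    have h4 : p.val = K := by omega
    rw [h3, Nat.mod_self, if_pos (Nat.zero_le _), h4, Nat.mod_self, Nat.zero_mod]

theorem PadI_ne {K : ℕ} [NeZero K] (p : Fin (K + 1)) : p + 1 ≠ p := by
  intro h
  have h1 := congrArg Fin.val h
  rw [Pool.Agent.H47.QG.ActH_val] at h1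
  have hp := p.2
  have hK : 0 < K := NeZero.pos K
  by_cases h2 : p.val + 1 < K + 1
  · rw [Nat.mod_eq_of_lt h2] at h1
    omega
  · have h3 : p.val + 1 = K + 1 := by omega
    rw [h3, Nat.mod_self] at h1
    omega

/-- insertion of a step at position `p` -/
def PadI_Phi (n : ℕ) {K : ℕ} [NeZero K] (p : Fin (K + 1)) :
    ((Fin K → Pt n) × Pt n) →ₗ[ℝ] (Fin (K + 1) → Pt n) where
  toFun x j := ((x.1 (PadI_pi p j)).1 + (if j = p + 1 then x.2.1 else 0),
    (x.1 (PadI_pi p j)).2 + (if j = p then x.2.2 else 0))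
  map_add' x y := by
    funext j
    refine Prod.ext ?_ ?_
    · change ((x.1 (PadI_pi p j)).1 + (y.1 (PadI_pi p j)).1) +
        (if j = p + 1 then x.2.1 + y.2.1 else 0) =
        ((x.1 (PadI_pi p j)).1 + (if j = p + 1 then x.2.1 else 0)) +
        ((y.1 (PadI_pi p j)).1 + (if j = p + 1 then y.2.1 else 0))
      split_ifs
      · abel
      · abel
    · change ((x.1 (PadI_pi p j)).2 + (y.1 (PadI_pi p j)).2) +
        (if j = p then x.2.2 + y.2.2 else 0) =
        ((x.1 (PadI_pi p j)).2 + (if j = p then x.2.2 else 0)) +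
        ((y.1 (PadI_pi p j)).2 + (if j = p then y.2.2 else 0))
      split_ifs
      · abel
      · abel
  map_smul' a x := by
    funext j
    refine Prod.ext ?_ ?_
    · change a • (x.1 (PadI_pi p j)).1 + (if j = p + 1 then a • x.2.1 else 0) =
        a • ((x.1 (PadI_pi p j)).1 + (if j = p + 1 then x.2.1 else 0))
      split_ifs
      · rw [smul_add]
      · rw [add_zero, add_zero]
    · change a • (x.1 (PadI_pi p j)).2 + (if j = p then a • x.2.2 else 0) =
        a • ((x.1 (PadI_pi p j)).2 + (if j = p then x.2.2 else 0))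
      split_ifs
      · rw [smul_add]
      · rw [add_zero, add_zero]

theorem PadI_Phi1 {K : ℕ} [NeZero K] (p : Fin (K + 1)) (v : Fin K → Pt n) (u η : Fin n → ℝ)
    (j : Fin (K + 1)) : (PadI_Phi n p (v, (u, η)) j).1 =
      (v (PadI_pi p j)).1 + (if j = p + 1 then u else 0) := rfl

theorem PadI_Phi2 {K : ℕ} [NeZero K] (p : Fin (K + 1)) (v : Fin K → Pt n) (u η : Fin n → ℝ)
    (j : Fin (K + 1)) : (PadI_Phi n p (v, (u, η)) j).2 =
      (v (PadI_pi p j)).2 + (if j = p then η else 0) := rfl

theorem PadI_inj {K : ℕ} [NeZero K] (p : Fin (K + 1)) : Function.Injective (PadI_Phi n p) := by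
  rw [injective_iff_map_eq_zero]
  rintro ⟨v, ⟨u, η⟩⟩ h
  have h1 : ∀ j, (v (PadI_pi p j)).1 + (if j = p + 1 then u else 0) = 0 := fun j => by
    rw [← PadI_Phi1 p v u η j, h]
    rfl
  have h2 : ∀ j, (v (PadI_pi p j)).2 + (if j = p then η else 0) = 0 := fun j => by
    rw [← PadI_Phi2 p v u η j, h]
    rfl
  have hne : ∀ i : Fin K, p.succAbove i ≠ p := fun i => Fin.succAbove_ne p i
  have h3 : ∀ i, (v i).2 = 0 := by
    intro i
    have := h2 (p.succAbove i)
    rw [if_neg (hne i), add_zero, PadI_pi_sa] at this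
    exact this
  have h4 : (v (PadI_pi p p)).1 = 0 := by
    have := h1 p
    rw [if_neg (PadI_ne p).symm, add_zero] at this
    exact this
  have h5 : ∀ i, (v i).1 = 0 := by
    intro i
    by_cases hi : p.succAbove i = p + 1
    · have h6 : i = PadI_pi p p := by
        rw [← PadI_pi_p, ← hi, PadI_pi_sa]
      rw [h6, h4]
    · have := h1 (p.succAbove i)
      rw [if_neg hi, add_zero, PadI_pi_sa] at this
      exact this
  have h6 : u = 0 := by
    have := h1 (p + 1)
    rw [if_pos rfl, h5, zero_add] at this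
    exact this
  have h7 : η = 0 := by
    have := h2 p
    rw [if_pos rfl, h3, zero_add] at this
    exact this
  rw [h6, h7]
  refine Prod.ext ?_ rfl
  funext i
  exact Prod.ext (h5 i) (h3 i)

/-- insertion as an equivalence -/
noncomputable def PadI_E (n : ℕ) {K : ℕ} [NeZero K] (p : Fin (K + 1)) :
    ((Fin K → Pt n) × Pt n) ≃ₗ[ℝ] (Fin (K + 1) → Pt n) :=
  LinearEquiv.ofInjectiveOfFinrankEq (PadI_Phi n p) (PadI_inj p) (by
    simp only [Module.finrank_prod, Module.finrank_pi_fintype, Module.finrank_fintype_fun_eq_card,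
      Finset.sum_const, Finset.card_univ, Fintype.card_fin, smul_eq_mul]
    ring)

theorem PadI_E_apply {K : ℕ} [NeZero K] (p : Fin (K + 1)) (x : (Fin K → Pt n) × Pt n) :
    PadI_E n p x = PadI_Phi n p x := rfl

/-- the hyperbolic form -/
noncomputable def PadI_Q (n : ℕ) : QuadraticForm ℝ (Pt n) :=
  ∑ i, QuadraticMap.linMulLin
    ((2 : ℝ) • ((LinearMap.proj i : (Fin n → ℝ) →ₗ[ℝ] ℝ).comp (LinearMap.snd ℝ _ _)))
    ((LinearMap.proj i : (Fin n → ℝ) →ₗ[ℝ] ℝ).comp (LinearMap.fst ℝ _ _))

theorem PadI_Q_apply (x : Pt n) : PadI_Q n x = ∑ i, 2 * x.2 i * x.1 i := by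
  unfold PadI_Q
  rw [QuadraticMap.sum_apply]
  exact Finset.sum_congr rfl fun i _ => rfl

theorem PadI_diag (Q : QuadraticForm ℝ (Pt n)) (s : ℝ)
    (h : ∀ u : Fin n → ℝ, Q (u, s • u) = -2 * ∑ i, u i * u i) : n ≤ sigNeg Q := by
  let i : (Fin n → ℝ) →ₗ[ℝ] Pt n := LinearMap.id.prod (s • LinearMap.id)
  have hi : Function.Injective i := by
    intro a b hab
    exact congrArg Prod.fst hab
  have h1 : finrank ℝ (LinearMap.range i) = n := by
    rw [LinearMap.finrank_range_of_inj hi, Module.finrank_fintype_fun_eq_card, Fintype.card_fin]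
  have h2 : finrank ℝ (LinearMap.range i) ≤ sigNeg Q := by
    apply Pool.Agent.H47.QG.le_sigNeg
    rintro _ ⟨u, rfl⟩ hne
    have hu : u ≠ 0 := by
      rintro rfl
      exact hne (map_zero i)
    change Q (u, s • u) < 0
    rw [h]
    obtain ⟨k, hk⟩ := Function.ne_iff.1 hu
    have h3 : 0 < ∑ i, u i * u i :=
      Finset.sum_pos' (fun i _ => mul_self_nonneg _) ⟨k, Finset.mem_univ _, by
        exact mul_self_pos.2 hk⟩
    linarith
  omega

theorem PadI_Q_sig : sigNeg (PadI_Q n) = n := by
  have h1 : n ≤ sigNeg (PadI_Q n) := by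
    apply PadI_diag _ (-1)
    intro u
    rw [PadI_Q_apply, Finset.mul_sum]
    refine Finset.sum_congr rfl fun i _ => ?_
    change 2 * ((-1 : ℝ) * u i) * u i = _
    ring
  have h2 : n ≤ sigNeg (-PadI_Q n) := by
    apply PadI_diag _ 1
    intro u
    rw [neg_apply, PadI_Q_apply, Finset.mul_sum, ← Finset.sum_neg_distrib]
    refine Finset.sum_congr rfl fun i _ => ?_
    change -(2 * ((1 : ℝ) * u i) * u i) = _
    ring
  rw [sigNeg_neg] at h2
  have h3 := QuadraticForm.sigPos_add_sigNeg_add_radical (Q := PadI_Q n)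
  rw [Module.finrank_prod, Module.finrank_fintype_fun_eq_card, Fintype.card_fin] at h3
  omega

/-- the Hessian of the action after the insertion of an identity step -/
theorem PadI_hess {S S' : ℕ → Pt n → ℝ} (hS : ∀ j, ContDiff ℝ 2 (S j))
    (hS' : ∀ j, ContDiff ℝ 2 (S' j)) {K : ℕ} [NeZero K] (p : Fin (K + 1)) (h0 : S' p.val = 0)
    (h1 : ∀ i : Fin K, S' (p.succAbove i).val = S i.val) (z v : Fin K → Pt n)
    (u η : Fin n → ℝ) :
    hess (action S' (K + 1)) (fun j => z (PadI_pi p j)) (PadI_Phi n p (v, (u, η))) =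
      hess (action S K) z v + PadI_Q n (u, η) := by
  rw [Pool.Agent.H47.QG.hess_action S' hS', Pool.Agent.H47.QG.hess_action S hS, PadI_Q_apply]
  have hterm : ∀ j : Fin (K + 1),
      (2 * ∑ i, (PadI_Phi n p (v, (u, η)) j).2 i *
        ((PadI_Phi n p (v, (u, η)) (j + 1)).1 i - (PadI_Phi n p (v, (u, η)) j).1 i) -
      hess (S' j) ((z (PadI_pi p (j + 1))).1, (z (PadI_pi p j)).2)
        ((PadI_Phi n p (v, (u, η)) (j + 1)).1, (PadI_Phi n p (v, (u, η)) j).2)) =
      ((2 * ∑ i, (v (PadI_pi p j)).2 i *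
        ((v (PadI_pi p (j + 1))).1 i - (v (PadI_pi p j)).1 i)) -
      hess (S' j) ((z (PadI_pi p (j + 1))).1, (z (PadI_pi p j)).2)
        ((v (PadI_pi p (j + 1))).1, (v (PadI_pi p j)).2)) +
      ((if j = p then ∑ i, 2 * ((v (PadI_pi p p)).2 i + η i) * u i else 0) -
      (if j = p + 1 then ∑ i, 2 * (v (PadI_pi p p)).2 i * u i else 0)) := by
    intro j
    by_cases hj : j = p
    · subst hj
      rw [h0, if_pos rfl, if_neg (PadI_ne j).symm]
      have e1 : ∀ a b, hess (0 : Pt n → ℝ) a b = 0 := by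
        intro a b
        rw [Pool.Agent.H47.QG.hess_apply]
        have : fderiv ℝ (0 : Pt n → ℝ) = 0 := by
          funext x
          exact fderiv_const_apply _
        rw [this]
        have h3 : fderiv ℝ (0 : Pt n → (Pt n →L[ℝ] ℝ)) a = 0 := fderiv_const_apply _
        rw [h3]
        rfl
      rw [e1, e1, sub_zero, sub_zero, sub_zero]
      rw [Finset.mul_sum, Finset.mul_sum, ← Finset.sum_add_distrib]
      refine Finset.sum_congr rfl fun i _ => ?_
      rw [PadI_Phi1, PadI_Phi1, PadI_Phi2, if_pos rfl, if_neg (PadI_ne j).symm, if_pos rfl,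
        PadI_pi_p]
      change 2 * (((v (PadI_pi j j)).2 i + η i) *
        (((v (PadI_pi j j)).1 i + u i) - ((v (PadI_pi j j)).1 i + 0))) = _
      ring
    · have hj1 : j + 1 ≠ p + 1 := fun h => hj (add_right_cancel h)
      have e1 : (PadI_Phi n p (v, (u, η)) (j + 1)).1 = (v (PadI_pi p (j + 1))).1 := by
        rw [PadI_Phi1, if_neg hj1, add_zero]
      have e2 : (PadI_Phi n p (v, (u, η)) j).2 = (v (PadI_pi p j)).2 := by
        rw [PadI_Phi2, if_neg hj, add_zero]
      rw [e1, e2, if_neg hj, PadI_Phi1]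
      by_cases hj2 : j = p + 1
      · subst hj2
        rw [if_pos rfl, if_pos rfl, PadI_pi_p]
        have e3 : 2 * ∑ i, (v (PadI_pi p p)).2 i *
            ((v (PadI_pi p (p + 1 + 1))).1 i - ((v (PadI_pi p p)).1 + u) i) =
            2 * ∑ i, (v (PadI_pi p p)).2 i *
              ((v (PadI_pi p (p + 1 + 1))).1 i - (v (PadI_pi p p)).1 i) -
            ∑ i, 2 * (v (PadI_pi p p)).2 i * u i := by
          rw [Finset.mul_sum, Finset.mul_sum, ← Finset.sum_sub_distrib]
          refine Finset.sum_congr rfl fun i _ => ?_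
          change 2 * ((v (PadI_pi p p)).2 i *
            ((v (PadI_pi p (p + 1 + 1))).1 i - ((v (PadI_pi p p)).1 i + u i))) = _
          ring
        rw [e3]
        ring
      · rw [if_neg hj2, if_neg hj2, add_zero]
        ring
  rw [Finset.sum_congr rfl fun j _ => hterm j, Finset.sum_add_distrib,
    Finset.sum_sub_distrib (f := fun j : Fin (K + 1) => if j = p then
      ∑ i, 2 * ((v (PadI_pi p p)).2 i + η i) * u i else 0), Finset.sum_ite_eq',
    Finset.sum_ite_eq', if_pos (Finset.mem_univ _), if_pos (Finset.mem_univ _),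
    ← Finset.sum_sub_distrib, Fin.sum_univ_succAbove _ p]
  have e4 : (2 * ∑ i, (v (PadI_pi p p)).2 i *
        ((v (PadI_pi p (p + 1))).1 i - (v (PadI_pi p p)).1 i)) -
      hess (S' p) ((z (PadI_pi p (p + 1))).1, (z (PadI_pi p p)).2)
        ((v (PadI_pi p (p + 1))).1, (v (PadI_pi p p)).2) = 0 := by
    rw [PadI_pi_p, h0]
    have e1 : ∀ a b, hess (0 : Pt n → ℝ) a b = 0 := by
      intro a b
      rw [Pool.Agent.H47.QG.hess_apply]
      have : fderiv ℝ (0 : Pt n → ℝ) = 0 := by
        funext x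
        exact fderiv_const_apply _
      rw [this]
      have h3 : fderiv ℝ (0 : Pt n → (Pt n →L[ℝ] ℝ)) a = 0 := fderiv_const_apply _
      rw [h3]
      rfl
    rw [e1, sub_zero]
    have : ∑ i, (v (PadI_pi p p)).2 i *
        ((v (PadI_pi p p)).1 i - (v (PadI_pi p p)).1 i) = 0 :=
      Finset.sum_eq_zero fun i _ => by rw [sub_self, mul_zero]
    rw [this, mul_zero]
  rw [e4, zero_add]
  congr 1
  · refine Finset.sum_congr rfl fun i _ => ?_
    rw [PadI_pi_sa, PadI_pi_sa_add, h1]
  · refine Finset.sum_congr rfl fun i _ => ?_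
    change 2 * ((v (PadI_pi p p)).2 i + η i) * u i - 2 * (v (PadI_pi p p)).2 i * u i =
      2 * η i * u i
    ring

/-- the index grows by `n` if an identity step is inserted -/
theorem PadI_sig {S S' : ℕ → Pt n → ℝ} (hS : ∀ j, ContDiff ℝ 2 (S j))
    (hS' : ∀ j, ContDiff ℝ 2 (S' j)) {K : ℕ} [NeZero K] (p : Fin (K + 1)) (h0 : S' p.val = 0)
    (h1 : ∀ i : Fin K, S' (p.succAbove i).val = S i.val) (z : Fin K → Pt n)
    (z' : Fin (K + 1) → Pt n) (hz : ∀ j, z' j = z (PadI_pi p j)) :
    sigNeg (hess (action S' (K + 1)) z') = sigNeg (hess (action S K) z) + n := by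
  have hz' : z' = fun j => z (PadI_pi p j) := funext hz
  subst hz'
  have h2 : sigNeg (QuadraticMap.prod (hess (action S K) z) (PadI_Q n)) =
      sigNeg (hess (action S' (K + 1)) fun j => z (PadI_pi p j)) := by
    apply QuadraticMap.Equivalent.sigNeg_eq
    refine ⟨{ PadI_E n p with map_app' := ?_ }⟩
    rintro ⟨v, ⟨u, η⟩⟩
    change hess (action S' (K + 1)) (fun j => z (PadI_pi p j)) (PadI_Phi n p (v, (u, η))) = _
    rw [PadI_hess hS hS' p h0 h1, QuadraticMap.prod_apply]
  rw [← h2, Pool.Agent.H47.QG.sigNeg_prod, PadI_Q_sig]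

/-- one identity step inserted at position `p` -/
theorem PadI_step {S S' : ℕ → Pt n → ℝ} {f f' : ℕ → Pt n → Pt n}
    (hS : ∀ j, ContDiff ℝ 2 (S j)) (hS' : ∀ j, ContDiff ℝ 2 (S' j)) {K p : ℕ} (hK : 0 < K)
    (hp : p ≤ K) (h0 : S' p = 0) (h0f : f' p = id) (h1 : ∀ j < p, S' j = S j ∧ f' j = f j)
    (h2 : ∀ j, p ≤ j → S' (j + 1) = S j ∧ f' (j + 1) = f j) {w : Pt n} (hw : flw f K w = w) :
    flw f' (K + 1) w = w ∧ ind S' f' (K + 1) w = ind S f K w + n := by
  have hNZ : NeZero K := ⟨hK.ne'⟩
  have f1 : ∀ j ≤ p, flw f' j w = flw f j w := by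
    intro j
    induction j with
    | zero => intro _; rfl
    | succ j ih =>
      intro hj
      change f' j (flw f' j w) = f j (flw f j w)
      rw [ih (by omega), (h1 j (by omega)).2]
  have f2 : ∀ j, flw f' (p + 1 + j) w = flw f (p + j) w := by
    intro j
    induction j with
    | zero =>
      change f' p (flw f' p w) = flw f p w
      rw [h0f, f1 p le_rfl]
      rfl
    | succ j ih =>
      change f' (p + 1 + j) (flw f' (p + 1 + j) w) = f (p + j) (flw f (p + j) w)
      rw [ih, show p + 1 + j = p + j + 1 by ring, (h2 (p + j) (by omega)).2]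
  have f3 : flw f' (K + 1) w = w := by
    have := f2 (K - p)
    rw [show p + 1 + (K - p) = K + 1 by omega, show p + (K - p) = K by omega] at this
    rw [this, hw]
  refine ⟨f3, ?_⟩
  rw [Pool.Agent.H47.QG.ind_eq S' f' (K + 1) w, Pool.Agent.H47.QG.ind_eq S f K w]
  refine PadI_sig hS hS' ⟨p, by omega⟩ h0 ?_ _ _ ?_
  · intro i
    rw [PadI_sa]
    by_cases hi : i.val < p
    · rw [if_pos hi]
      exact (h1 _ hi).1
    · rw [if_neg hi]
      exact (h2 _ (by omega)).1
  · intro j
    change flw f' j w = flw f (PadI_pi ⟨p, by omega⟩ j : Fin K) w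
    rw [PadI_val]
    have hj := j.2
    change flw f' j w = flw f ((if j.val ≤ p then j.val else j.val - 1) % K) w
    by_cases h : j.val ≤ p
    · rw [if_pos h, f1 _ h]
      by_cases h3 : j.val < K
      · rw [Nat.mod_eq_of_lt h3]
      · have h4 : j.val = K := by omega
        rw [h4, Nat.mod_self, hw]
        rfl
    · rw [if_neg h]
      have h5 := f2 (j.val - (p + 1))
      rw [show p + 1 + (j.val - (p + 1)) = j.val by omega,
        show p + (j.val - (p + 1)) = j.val - 1 by omega] at h5
      rw [h5, Nat.mod_eq_of_lt (by omega)]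

/-- the index depends on the steps below `K` only -/
theorem PadI_congr {S S' : ℕ → Pt n → ℝ} {f f' : ℕ → Pt n → Pt n} {K : ℕ}
    (h : ∀ j < K, S' j = S j ∧ f' j = f j) (w : Pt n) : ind S' f' K w = ind S f K w := by
  rcases Nat.eq_zero_or_pos K with h0 | h0
  · subst h0
    unfold ind
    rw [dif_pos rfl, dif_pos rfl]
  · have hNZ : NeZero K := ⟨h0.ne'⟩
    rw [Pool.Agent.H47.QG.ind_eq S' f' K w, Pool.Agent.H47.QG.ind_eq S f K w]
    have h1 : action S' K = action S K := by
      funext z
      unfold action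
      exact Finset.sum_congr rfl fun j _ => by rw [(h j j.2).1]
    have h2 : oseq f' K w = oseq f K w := by
      funext j
      change flw f' j w = flw f j w
      have h3 : ∀ i : ℕ, i ≤ K → flw f' i w = flw f i w := by
        intro i
        induction i with
        | zero => intro _; rfl
        | succ i ih =>
          intro hi
          change f' i (flw f' i w) = f i (flw f i w)
          rw [ih (by omega), (h i (by omega)).2]
      exact h3 j j.2.le
    rw [h1, h2]

/-- number of steps below `j` which are not omitted -/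
def PadI_c (P Q j : ℕ) : ℕ := (j / P) * Q + min (j % P) Q

theorem PadI_c_zero (P Q : ℕ) : PadI_c P Q 0 = 0 := by
  simp [PadI_c]

theorem PadI_c_succ {P Q : ℕ} (hP : 0 < P) (hQ : Q ≤ P) (j : ℕ) :
    PadI_c P Q (j + 1) = PadI_c P Q j + if j % P < Q then 1 else 0 := by
  unfold PadI_c
  have h1 : j % P < P := Nat.mod_lt _ hP
  have h2 := Nat.div_add_mod j P
  by_cases h : j % P + 1 < P
  · have e1 : (j + 1) / P = j / P := by
      have e0 : j + 1 = j % P + 1 + P * (j / P) := by omega
      rw [e0, Nat.add_mul_div_left _ _ hP, Nat.div_eq_of_lt h, zero_add]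
    have e2 : (j + 1) % P = j % P + 1 := by
      have h3 := Nat.div_add_mod (j + 1) P
      rw [e1] at h3
      omega
    rw [e1, e2]
    split_ifs with h4
    · rw [min_eq_left (by omega), min_eq_left (by omega)]
      ring
    · rw [min_eq_right (by omega), min_eq_right (by omega)]
      ring
  · have h3 : j % P + 1 = P := by omega
    have e0 : j + 1 = P * (j / P + 1) := by
      have : P * (j / P + 1) = P * (j / P) + P := by ring
      omega
    have e1 : (j + 1) / P = j / P + 1 := by
      rw [e0, Nat.mul_div_cancel_left _ hP]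
    have e2 : (j + 1) % P = 0 := by
      rw [e0, Nat.mul_mod_right]
    rw [e1, e2, Nat.zero_min, add_mul, one_mul, add_zero, add_assoc]
    congr 1
    split_ifs with h4
    · rw [min_eq_left (by omega)]
      omega
    · rw [min_eq_right (by omega)]
      omega

theorem PadI_c_mul {P : ℕ} (hP : 0 < P) (Q m : ℕ) : PadI_c P Q (m * P) = m * Q := by
  unfold PadI_c
  rw [Nat.mul_div_cancel _ hP, Nat.mul_mod_left, Nat.zero_min, add_zero]

theorem PadI_c_le {P Q : ℕ} (hP : 0 < P) (hQ : Q ≤ P) (j : ℕ) : PadI_c P Q j ≤ j := by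
  induction j with
  | zero => rw [PadI_c_zero]
  | succ j ih =>
    rw [PadI_c_succ hP hQ]
    split_ifs
    · omega
    · omega

theorem PadI_c_mono {P Q : ℕ} (hP : 0 < P) (hQ : Q ≤ P) {i j : ℕ} (h : i ≤ j) :
    PadI_c P Q i ≤ PadI_c P Q j := by
  induction h with
  | refl => exact le_rfl
  | step _ ih =>
    refine ih.trans ?_
    rw [Nat.succ_eq_add_one, PadI_c_succ hP hQ]
    exact Nat.le_add_right _ _

theorem PadI_per {X : Type*} {g : ℕ → X} {N : ℕ} (hper : ∀ j, g (j + N) = g j) (j a : ℕ) :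
    g (j + a * N) = g j := by
  induction a with
  | zero => simp
  | succ a ih => rw [show j + (a + 1) * N = j + a * N + N by ring, hper, ih]

/-- the first `t` steps omitted or not, the others compressed -/
def PadI_T {X : Type*} (g g' : ℕ → X) (c t j : ℕ) : X := if j < t then g' j else g (c + (j - t))

/-- **The index grows by `n` for every omitted step.** -/
theorem pad_ind {S : ℕ → Pt n → ℝ} {f : ℕ → Pt n → Pt n} (hS : ∀ j, Gen (S j) (f j)) {N : ℕ}
    (hN : 0 < N) (hper : ∀ j, S (j + N) = S j) (hfper : ∀ j, f (j + N) = f j) {k k' : ℕ}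
    (hk0 : 0 < k') (hk : k' ≤ k) {m : ℕ} (hm : 0 < m) {w : Pt n}
    (hw : flw f (m * (k' * N)) w = w) :
    ind (padS S (k * N) (k' * N)) (padf f (k * N) (k' * N)) (m * (k * N)) w =
      ind S f (m * (k' * N)) w + n * (m * ((k - k') * N)) := by
  obtain ⟨P, hP⟩ : ∃ P, P = k * N := ⟨_, rfl⟩
  obtain ⟨Q, hQ⟩ : ∃ Q, Q = k' * N := ⟨_, rfl⟩
  have hP0 : 0 < P := by rw [hP]; exact Nat.mul_pos (by omega) hN
  have hQ0 : 0 < Q := by rw [hQ]; exact Nat.mul_pos hk0 hN
  have hQP : Q ≤ P := by rw [hP, hQ]; exact Nat.mul_le_mul_right _ hk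
  have hfin : m * ((k - k') * N) = m * P - m * Q := by
    rw [hP, hQ, Nat.sub_mul, Nat.mul_sub]
  rw [hfin, ← hP, ← hQ]
  rw [← hQ] at hw
  have hK0 : 0 < m * Q := Nat.mul_pos hm hQ0
  have hcK : ∀ t ≤ m * P, PadI_c P Q t ≤ m * Q := by
    intro t ht
    have := PadI_c_mono hP0 hQP ht
    rwa [PadI_c_mul hP0] at this
  -- periodicity
  have hcong : ∀ {X : Type} {g : ℕ → X}, (∀ j, g (j + N) = g j) → ∀ j, j % P < Q →
      g (PadI_c P Q j) = g j := by
    intro X g hg j hj
    have e1 : PadI_c P Q j = j % P + (j / P * k') * N := by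
      unfold PadI_c
      rw [min_eq_left hj.le, hQ]
      ring
    have e2 : g j = g (j % P + (j / P * k) * N) := by
      congr 1
      have h2 := Nat.div_add_mod j P
      rw [hP] at h2 ⊢
      rw [← h2]
      have h3 : (k * N * (j / (k * N)) + j % (k * N)) % (k * N) = j % (k * N) := by
        rw [Nat.mul_add_mod, Nat.mod_mod]
      have h4 : (k * N * (j / (k * N)) + j % (k * N)) / (k * N) = j / (k * N) := by rw [h2]
      rw [h3, h4]
      ring
    rw [e1, e2, PadI_per hg, PadI_per hg]
  have hpS : ∀ j, j % P < Q → padS S P Q j = S j := fun j hj => by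
    unfold padS
    rw [if_pos hj]
  have hpf : ∀ j, j % P < Q → padf f P Q j = f j := fun j hj => by
    unfold padf
    rw [if_pos hj]
  have hpS0 : ∀ j, ¬ j % P < Q → padS S P Q j = 0 := fun j hj => by
    unfold padS
    rw [if_neg hj]
  have hpf0 : ∀ j, ¬ j % P < Q → padf f P Q j = id := fun j hj => by
    unfold padf
    rw [if_neg hj]
  have hcd : ∀ j, ContDiff ℝ 2 (S j) := fun j => (hS j).smooth
  have hcdP : ∀ j, ContDiff ℝ 2 (padS S P Q j) := by
    intro j
    by_cases h : j % P < Q
    · rw [hpS j h]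
      exact hcd j
    · rw [hpS0 j h]
      exact contDiff_const
  have hcdT : ∀ t j, ContDiff ℝ 2 (PadI_T S (padS S P Q) (PadI_c P Q t) t j) := by
    intro t j
    unfold PadI_T
    split_ifs
    · exact hcdP j
    · exact hcd _
  have key : ∀ t ≤ m * P,
      flw (PadI_T f (padf f P Q) (PadI_c P Q t) t) (t + (m * Q - PadI_c P Q t)) w = w ∧
      ind (PadI_T S (padS S P Q) (PadI_c P Q t) t) (PadI_T f (padf f P Q) (PadI_c P Q t) t)
        (t + (m * Q - PadI_c P Q t)) w = ind S f (m * Q) w + n * (t - PadI_c P Q t) := by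
    intro t
    induction t with
    | zero =>
      intro _
      rw [PadI_c_zero]
      have e1 : PadI_T f (padf f P Q) 0 0 = f := by
        funext j
        unfold PadI_T
        rw [if_neg (Nat.not_lt_zero j), Nat.sub_zero, zero_add]
      have e2 : PadI_T S (padS S P Q) 0 0 = S := by
        funext j
        unfold PadI_T
        rw [if_neg (Nat.not_lt_zero j), Nat.sub_zero, zero_add]
      rw [e1, e2, Nat.sub_zero, zero_add, Nat.sub_zero, mul_zero, add_zero]
      exact ⟨hw, rfl⟩
    | succ t ih =>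
      intro ht
      have ih' := ih (by omega)
      have hc1 := PadI_c_le hP0 hQP t
      have hc2 := hcK t (by omega)
      have hc3 := hcK (t + 1) ht
      have hcs := PadI_c_succ hP0 hQP t
      by_cases h : t % P < Q
      · rw [if_pos h] at hcs
        have e : ∀ {X : Type} {g g' : ℕ → X}, (∀ j, g (j + N) = g j) → g' t = g t →
            PadI_T g g' (PadI_c P Q (t + 1)) (t + 1) = PadI_T g g' (PadI_c P Q t) t := by
          intro X g g' hg hgt
          funext j
          unfold PadI_T
          rcases lt_trichotomy j t with hj | hj | hj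
          · rw [if_pos (by omega), if_pos hj]
          · subst hj
            rw [if_pos (by omega), if_neg (by omega), Nat.sub_self, add_zero, hgt,
              hcong hg j h]
          · rw [if_neg (by omega), if_neg (by omega), hcs]
            congr 1
            omega
        rw [e hfper (hpf t h), e hper (hpS t h)]
        have e3 : t + 1 + (m * Q - PadI_c P Q (t + 1)) = t + (m * Q - PadI_c P Q t) := by omega
        have e4 : t + 1 - PadI_c P Q (t + 1) = t - PadI_c P Q t := by omega
        rw [e3, e4]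
        exact ih'
      · rw [if_neg h, add_zero] at hcs
        have e3 : t + 1 + (m * Q - PadI_c P Q (t + 1)) =
            t + (m * Q - PadI_c P Q t) + 1 := by omega
        have e4 : t + 1 - PadI_c P Q (t + 1) = t - PadI_c P Q t + 1 := by omega
        rw [e3, e4]
        have h5 := PadI_step (S := PadI_T S (padS S P Q) (PadI_c P Q t) t)
          (S' := PadI_T S (padS S P Q) (PadI_c P Q (t + 1)) (t + 1))
          (f := PadI_T f (padf f P Q) (PadI_c P Q t) t)
          (f' := PadI_T f (padf f P Q) (PadI_c P Q (t + 1)) (t + 1))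
          (hcdT t) (hcdT (t + 1)) (K := t + (m * Q - PadI_c P Q t)) (p := t) (by omega)
          (by omega) ?_ ?_ ?_ ?_ ih'.1
        · refine ⟨h5.1, ?_⟩
          rw [h5.2, ih'.2]
          ring
        · unfold PadI_T
          rw [if_pos (by omega)]
          exact hpS0 t h
        · unfold PadI_T
          rw [if_pos (by omega)]
          exact hpf0 t h
        · intro j hj
          unfold PadI_T
          rw [if_pos (by omega), if_pos hj, if_pos (by omega), if_pos hj]
          exact ⟨rfl, rfl⟩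
        · intro j hj
          unfold PadI_T
          rw [if_neg (by omega), if_neg (by omega), if_neg (by omega), if_neg (by omega), hcs,
            Nat.add_sub_add_right]
          exact ⟨rfl, rfl⟩
  have hend := (key (m * P) le_rfl).2
  rw [PadI_c_mul hP0, Nat.sub_self, add_zero] at hend
  rw [← hend]
  apply PadI_congr
  intro j hj
  unfold PadI_T
  rw [if_pos hj, if_pos hj]
  exact ⟨rfl, rfl⟩

end Pool.Agent.H45.AC
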