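import Mathlib

/-!
# Project AC: sum inequality
-/

set_option autoImplicit false

namespace Pool.Agent.H45.AC

/-- A sum of truncated numbers. -/
theorem SumI_min_sum (m : ℝ) (hm : 0 ≤ m) (a : ℕ → ℝ) (J : ℕ) (ha : ∀ j < J, 0 ≤ a j) :
    min (∑ j ∈ Finset.range J, a j) m ≤ ∑ j ∈ Finset.range J, min (a j) m := by
  induction J with
  | zero => simp
  | succ n ih =>
    rw [Finset.sum_range_succ, Finset.sum_range_succ]
    have h1 := ih (fun j hj => ha j (by omega))
    have h2 : 0 ≤ a n := ha n (by omega)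
    have h3 : 0 ≤ ∑ j ∈ Finset.range n, a j :=
      Finset.sum_nonneg (fun j hj => ha j (by have := Finset.mem_range.1 hj; omega))
    generalize (∑ j ∈ Finset.range n, a j) = A at h1 h3 ⊢
    generalize (∑ j ∈ Finset.range n, min (a j) m) = B at h1 ⊢
    rcases le_total A m with hA | hA
    · rw [min_eq_left hA] at h1
      rcases le_total (a n) m with h | h
      · rw [min_eq_left h]
        exact le_trans (min_le_left _ _) (by linarith)
      · rw [min_eq_right h]
        exact le_trans (min_le_right _ _) (by linarith)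
    · rw [min_eq_right hA] at h1
      have h4 : 0 ≤ min (a n) m := le_min h2 hm
      exact le_trans (min_le_right _ _) (by linarith)

/-- The number of levels below a number. -/
theorem SumI_count (m : ℕ) (C y : ℝ) (hC : 0 < C) :
    min (y / C) m ≤ 1 + (((Finset.Icc 1 m).filter fun i : ℕ => C * i < y).card : ℝ) := by
  rcases le_or_gt (y / C) m with h | h
  · rw [min_eq_left h]
    have h1 : Finset.Icc 1 (⌈y / C⌉₊ - 1) ⊆ (Finset.Icc 1 m).filter fun i : ℕ => C * i < y := by
      intro i hi
      rw [Finset.mem_Icc] at hi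
      have h2 : i < ⌈y / C⌉₊ := by omega
      have h3 : ⌈y / C⌉₊ ≤ m := Nat.ceil_le.2 h
      rw [Finset.mem_filter, Finset.mem_Icc]
      refine ⟨⟨hi.1, by omega⟩, ?_⟩
      have h4 : (i : ℝ) < y / C := Nat.lt_ceil.1 h2
      rw [lt_div_iff₀ hC] at h4
      linarith
    have h2 := Finset.card_le_card h1
    rw [Nat.card_Icc] at h2
    have h3 : (⌈y / C⌉₊ : ℝ) ≤ 1 +
        (((Finset.Icc 1 m).filter fun i : ℕ => C * i < y).card : ℝ) := by
      have : ⌈y / C⌉₊ ≤ 1 + ((Finset.Icc 1 m).filter fun i : ℕ => C * i < y).card := by omega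
      exact_mod_cast this
    exact le_trans (Nat.le_ceil _) h3
  · rw [min_eq_right h.le]
    have h1 : (Finset.Icc 1 m).filter (fun i : ℕ => C * i < y) = Finset.Icc 1 m := by
      apply Finset.filter_true_of_mem
      intro i hi
      rw [Finset.mem_Icc] at hi
      have h2 : (i : ℝ) ≤ m := by exact_mod_cast hi.2
      have h3 : (i : ℝ) < y / C := lt_of_le_of_lt h2 h
      rw [lt_div_iff₀ hC] at h3
      linarith
    rw [h1, Nat.card_Icc]
    have : ((m + 1 - 1 : ℕ) : ℝ) = m := by simp
    rw [this]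
    linarith

/-- **Sum inequality.** -/
theorem sum_ineq (J m : ℕ) (x : ℕ → ℝ) (hx : ∀ j < J, 0 ≤ x j) (C s : ℝ) (hC : 0 < C)
    (hs : s ≤ ∑ j ∈ Finset.range J, x j) (c : ℕ → ℕ) (h0 : J ≤ c 0)
    (hi : ∀ i, 1 ≤ i → i ≤ m → ((Finset.range J).filter fun j => C * i < x j).card ≤ c i) :
    min (s / C) m ≤ ∑ i ∈ Finset.range (m + 1), (c i : ℝ) := by
  have h1 : min (s / C) (m : ℝ) ≤ min (∑ j ∈ Finset.range J, x j / C) m := by
    apply min_le_min_right
    rw [← Finset.sum_div]
    exact div_le_div_of_nonneg_right hs hC.le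
  have h2 := SumI_min_sum (m : ℝ) (Nat.cast_nonneg m) (fun j => x j / C) J
    (fun j hj => div_nonneg (hx j hj) hC.le)
  have h3 : ∑ j ∈ Finset.range J, min (x j / C) (m : ℝ) ≤ ∑ j ∈ Finset.range J,
      (1 + (((Finset.Icc 1 m).filter fun i : ℕ => C * i < x j).card : ℝ)) :=
    Finset.sum_le_sum (fun j _ => SumI_count m C (x j) hC)
  have h4 : ∑ j ∈ Finset.range J,
      (1 + (((Finset.Icc 1 m).filter fun i : ℕ => C * i < x j).card : ℝ)) =
      (J : ℝ) + ∑ i ∈ Finset.Icc 1 m,
        ((((Finset.range J).filter fun j => C * i < x j).card : ℕ) : ℝ) := by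
    rw [Finset.sum_add_distrib]
    congr 1
    · simp
    · have h5 : ∀ j, ((((Finset.Icc 1 m).filter fun i : ℕ => C * i < x j).card : ℕ) : ℝ) =
          ∑ i ∈ Finset.Icc 1 m, if C * (i : ℝ) < x j then (1 : ℝ) else 0 := by
        intro j
        rw [Finset.card_filter]
        push_cast
        rfl
      have h6 : ∀ i : ℕ, ((((Finset.range J).filter fun j => C * i < x j).card : ℕ) : ℝ) =
          ∑ j ∈ Finset.range J, if C * (i : ℝ) < x j then (1 : ℝ) else 0 := by
        intro i
        rw [Finset.card_filter]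
        push_cast
        rfl
      rw [Finset.sum_congr rfl (fun j _ => h5 j), Finset.sum_congr rfl (fun i _ => h6 i),
        Finset.sum_comm]
  have h7 : (J : ℝ) + ∑ i ∈ Finset.Icc 1 m,
        ((((Finset.range J).filter fun j => C * i < x j).card : ℕ) : ℝ) ≤
      ∑ i ∈ Finset.range (m + 1), (c i : ℝ) := by
    rw [Finset.sum_range_succ']
    have h8 : ∑ i ∈ Finset.Icc 1 m,
        ((((Finset.range J).filter fun j => C * i < x j).card : ℕ) : ℝ) ≤
        ∑ i ∈ Finset.Icc 1 m, (c i : ℝ) := by
      apply Finset.sum_le_sum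
      intro i hi'
      rw [Finset.mem_Icc] at hi'
      exact_mod_cast hi i hi'.1 hi'.2
    have h9 : ∑ i ∈ Finset.Icc 1 m, (c i : ℝ) = ∑ i ∈ Finset.range m, (c (i + 1) : ℝ) := by
      rw [Finset.sum_bij (fun i _ => i - 1)]
      · intro i hi'
        rw [Finset.mem_Icc] at hi'
        rw [Finset.mem_range]
        omega
      · intro i hi' j hj' hij
        rw [Finset.mem_Icc] at hi' hj'
        omega
      · intro i hi'
        rw [Finset.mem_range] at hi'
        exact ⟨i + 1, by rw [Finset.mem_Icc]; omega, by simp⟩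
      · intro i hi'
        rw [Finset.mem_Icc] at hi'
        congr 2
        omega
    have h10 : (J : ℝ) ≤ c 0 := by exact_mod_cast h0
    linarith
  linarith

end Pool.Agent.H45.AC
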