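import Pool.Agent.H45.AC.PadA
import Pool.Agent.H45.AC.PadI
import Pool.Agent.H45.AC.Top
import Pool.Agent.H45.AC.SumI

/-!
# Project AC: many action values for one prime, given the thresholds
-/

set_option autoImplicit false

open Module QuadraticForm Filter Topology
open Pool.Agent.H47.QG (Pt action flw oseq Gen ind hess Zn MeanIdx LocIdx)
open Pool.Agent.H47.ST

namespace Pool.Agent.H45.AC

variable {n : ℕ}

/-- the values of the action on the points of period `m` with mean index `t` -/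
def LevB_Val (S : ℕ → Pt n → ℝ) (f : ℕ → Pt n → Pt n) (N m : ℕ) (t : ℝ) : Set ℝ :=
  {x | ∃ w, flw f (m * N) w = w ∧ MeanIdx S f (m * N) w t ∧ av S f (m * N) w = x}

theorem LevB_mulper {X : Type*} {g : ℕ → X} {N : ℕ} (h : ∀ j, g (j + N) = g j) (m : ℕ) :
    ∀ j, g (j + m * N) = g j := by
  induction m with
  | zero => intro j; rw [Nat.zero_mul, Nat.add_zero]
  | succ m ih => intro j; rw [Nat.succ_mul, ← Nat.add_assoc, h, ih]

/-- the shift by `N` steps does not change the action -/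
theorem LevB_shift {S : ℕ → Pt n → ℝ} {N q K : ℕ} [NeZero K] (hK : K = q * N)
    (hper : ∀ j, S (j + N) = S j) (y : Iz n K → ℝ) : fS S K (y ∘ shG n K N) = fS S K y := by
  subst hK
  exact fS_shift q N hper y

theorem LevB_fold {S : ℕ → Pt n → ℝ} {N q K : ℕ} [NeZero N] [NeZero K] (hK : K = q * N)
    (hper : ∀ j, S (j + N) = S j) (y : Iz n N → ℝ) :
    fS S K (y ∘ rdG n K N) = q * fS S N y := by
  subst hK
  exact fS_fold q N hper y

theorem LevB_zwfold {f : ℕ → Pt n → Pt n} {N q K : ℕ} [NeZero N] [NeZero K] (hK : K = q * N)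
    (hfper : ∀ j, f (j + N) = f j) (w : Pt n) (hw : flw f N w = w) :
    zw f K w = zw f N w ∘ rdG n K N := by
  subst hK
  exact zw_fold q N hfper w hw

theorem LevB_crit {S : ℕ → Pt n → ℝ} {f : ℕ → Pt n → Pt n} (hS : ∀ j, Gen (S j) (f j))
    {N q K : ℕ} [NeZero N] [NeZero K] (hK : K = q * N) (hq : 2 ≤ q)
    (hfper : ∀ j, f (j + N) = f j) (y : Iz n N → ℝ)
    (hy : fderiv ℝ (fS S K) (y ∘ rdG n K N) = 0) :
    ∃ w, flw f N w = w ∧ flw f K w = w ∧ y = zw f N w ∧ y ∘ rdG n K N = zw f K w := by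
  subst hK
  exact GrowA_fold hS hq hfper y hy

/-- local indices of the restricted action -/
theorem LevB_loc {S : ℕ → Pt n → ℝ} {f : ℕ → Pt n → Pt n} (hS : ∀ j, Gen (S j) (f j))
    {N q K : ℕ} [NeZero N] [NeZero K] (hK : K = q * N) (hq : 0 < q)
    (hper : ∀ j, S (j + N) = S j) (w : Pt n) (s : ℤ)
    (h : LocIdx (action S N) (oseq f N w) s) :
    LocIdx (fun y : Iz n N → ℝ => fS S K (y ∘ rdG n K N)) (zw f N w) s := by
  have h1 := Pool.Agent.H47.QG.locIdx_comp (action S N)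
    (Pool.Agent.H47.QG.action_smooth S (fun j => (hS j).smooth) N) (oseq f N w) s h (eK n N)
    (q : ℝ) (by exact_mod_cast hq)
  have h2 : (fun y : Iz n N → ℝ => fS S K (y ∘ rdG n K N)) =
      fun y => (q : ℝ) * action S N (eK n N y) := by
    funext y
    rw [LevB_fold hK hper]
    rfl
  rw [h2]
  exact h1

theorem LevB_av (S : ℕ → Pt n → ℝ) (f : ℕ → Pt n → Pt n) (K : ℕ) [NeZero K] (w : Pt n) :
    fS S K (zw f K w) = av S f K w := by
  rw [av_eq]
  unfold fS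
  rw [GrowA_eK_zw]

theorem LevB_av_mul {S : ℕ → Pt n → ℝ} {f : ℕ → Pt n → Pt n} {M m : ℕ} (hM : 0 < M)
    (hm : 0 < m) (hper : ∀ j, S (j + M) = S j) (hfper : ∀ j, f (j + M) = f j) (w : Pt n)
    (hw : flw f M w = w) : av S f (m * M) w = m * av S f M w := by
  have : NeZero M := ⟨hM.ne'⟩
  have : NeZero (m * M) := ⟨(Nat.mul_pos hm hM).ne'⟩
  rw [← LevB_av, ← LevB_av, zw_fold m M hfper w hw, fS_fold m M hper]

theorem LevB_av_add {S : ℕ → Pt n → ℝ} {f : ℕ → Pt n → Pt n} (hS : ∀ j, Gen (S j) (f j))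
    (K : ℕ) [NeZero K] (w w' : Pt n) (h : w - w' ∈ Zn n) : av S f K w = av S f K w' := by
  obtain ⟨l, hl, he⟩ := (zw_add hS K w w').2 h
  rw [← LevB_av, ← LevB_av, he, fS_per hS K l hl]

/-- the values form a finite set -/
theorem LevB_fin {S : ℕ → Pt n → ℝ} {f : ℕ → Pt n → Pt n} (hS : ∀ j, Gen (S j) (f j))
    {N m : ℕ} [NeZero (m * N)] (V : Finset (Pt n))
    (hV : ∀ w, flw f (m * N) w = w ↔ ∃ w' ∈ V, w - w' ∈ Zn n) (t : ℝ) :
    (LevB_Val S f N m t).Finite := by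
  refine (V.finite_toSet.image (av S f (m * N))).subset ?_
  rintro x ⟨w, hw, -, rfl⟩
  obtain ⟨w', hw', h⟩ := (hV w).1 hw
  exact ⟨w', hw', (LevB_av_add hS (m * N) w w' h).symm⟩

/-- **The function of the shortened system is admissible.** -/
theorem LevB_adm {S : ℕ → Pt n → ℝ} {f : ℕ → Pt n → Pt n} (hS : ∀ j, Gen (S j) (f j)) {N : ℕ}
    (hN : 0 < N) (hper : ∀ j, S (j + N) = S j) (hfper : ∀ j, f (j + N) = f j) {k k' r : ℕ}
    (hk0 : 0 < k') (hk : k' ≤ k) (hr : 0 < r) [NeZero (r * (k * N))] (C : ℝ)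
    (hC : ∀ y b, |fderiv ℝ (fS (padS S (k * N) (k' * N)) (r * (k * N))) y (Pi.single b 1) -
      DK n (r * (k * N)) y b| ≤ C) (G₁ G₂ : ℕ) (W : Finset (Pt n))
    (hW : ∀ w, flw f (r * (k' * N)) w = w ↔ ∃ w' ∈ W, w - w' ∈ Zn n)
    (hWd : ∀ w ∈ W, ∀ w' ∈ W, w - w' ∈ Zn n → w = w')
    (hwin : ∀ w, flw f (r * (k' * N)) w = w → ∀ G, (G = G₁ ∨ G = G₂) →
      ¬ (ind S f (r * (k' * N)) w + n * (r * ((k - k') * N)) < G ∧
        G ≤ ind S f (r * (k' * N)) w + n * (r * ((k - k') * N)) + 2 * n + 1))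
    (Z : Finset (Iz n (r * (k * N)) → ℝ))
    (hZ : ∀ z, z ∈ Z ↔ ∃ w ∈ W, zw (padf f (k * N) (k' * N)) (r * (k * N)) w = z) :
    Adm n (r * (k * N)) (shp n r (k * N)) C G₁ G₂
      (fS (padS S (k * N) (k' * N)) (r * (k * N))) Z := by
  have hS' := pad_gen hS (k * N) (k' * N)
  have hper' := padS_per (LevB_mulper hper k) (k' * N)
  have hWf : ∀ w ∈ W, flw f (r * (k' * N)) w = w := fun w hw =>
    (hW w).2 ⟨w, hw, by rw [sub_self]; exact (Zn n).zero_mem⟩
  refine ⟨fS_smooth hS' _, fS_per hS' _, fS_shift r (k * N) hper', hC,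
    GrowA_crit hS' (r * (k * N)) W (fun w => by rw [pad_flw hfper hk r w]; exact hW w) Z hZ,
    ?_, ?_⟩
  · intro z hz z' hz' l hl he
    obtain ⟨w, hw, rfl⟩ := (hZ z).1 hz
    obtain ⟨w', hw', rfl⟩ := (hZ z').1 hz'
    rw [hWd w' hw' w hw ((zw_add hS' _ w' w).1 ⟨l, hl, he⟩)]
  · intro z hz G hG
    obtain ⟨w, hw, rfl⟩ := (hZ z).1 hz
    rintro ⟨h1, h2⟩
    rw [fS_sigNeg hS', pad_ind hS hN hper hfper hk0 hk hr (hWf w hw)] at h1
    have h3 := fS_null hS' (r * (k * N)) w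
    rw [pad_ind hS hN hper hfper hk0 hk hr (hWf w hw)] at h3
    exact hwin w (hWf w hw) G hG ⟨h1, by omega⟩

/-- **The critical values of class I at the invariant critical points** of the function of the
shortened system are values of the action. -/
theorem LevB_lam {S : ℕ → Pt n → ℝ} {f : ℕ → Pt n → Pt n} (hS : ∀ j, Gen (S j) (f j)) {N : ℕ}
    (hN : 0 < N) (hper : ∀ j, S (j + N) = S j) (hfper : ∀ j, f (j + N) = f j) {k k' r : ℕ}
    (hk0 : 0 < k') (hk : k' ≤ k) (hr : 2 ≤ r) [NeZero (r * (k * N))] (G₁ G₂ : ℕ)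
    (Z : Finset (Iz n (r * (k * N)) → ℝ))
    (hZ : ∀ z ∈ Z, ∃ w, flw f (r * (k' * N)) w = w ∧
      zw (padf f (k * N) (k' * N)) (r * (k * N)) w = z) (t : ℝ)
    (hfin : (LevB_Val S f N k' t).Finite)
    (ht : ∀ w, flw f (k' * N) w = w →
      G₁ ≤ ind S f (r * (k' * N)) w + n * (r * ((k - k') * N)) →
      ind S f (r * (k' * N)) w + n * (r * ((k - k') * N)) + 1 < G₂ →
      MeanIdx S f (k' * N) w t) :
    (Lam (shp n r (k * N)) G₁ G₂ (fS (padS S (k * N) (k' * N)) (r * (k * N))) Z).card ≤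
      (LevB_Val S f N k' t).ncard := by
  classical
  have hS' := pad_gen hS (k * N) (k' * N)
  have hkN : 0 < k * N := Nat.mul_pos (by omega) hN
  have hlt : k * N < r * (k * N) := by nlinarith
  have hsub : ((Lam (shp n r (k * N)) G₁ G₂
      (fS (padS S (k * N) (k' * N)) (r * (k * N))) Z : Finset ℝ) : Set ℝ) ⊆
      (fun x => (r : ℝ) * x) '' (LevB_Val S f N k' t) := by
    intro x hx
    obtain ⟨z, hz, rfl⟩ := Finset.mem_image.1 (Finset.mem_coe.1 hx)
    rw [Finset.mem_filter] at hz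
    obtain ⟨hz, hzT, hzI⟩ := hz
    obtain ⟨w, hw, rfl⟩ := hZ z hz
    obtain ⟨hI1, hI2⟩ := hzI
    rw [fS_sigNeg hS', pad_ind hS hN hper hfper hk0 hk (by omega) hw] at hI1 hI2
    -- the orbit is fixed by the shortened period
    have hfix : flw f (k' * N) w = w := by
      have h1 : eK n (r * (k * N))
          (zw (padf f (k * N) (k' * N)) (r * (k * N)) w ∘ shp n r (k * N)) 0 =
          eK n (r * (k * N)) (zw (padf f (k * N) (k' * N)) (r * (k * N)) w) 0 :=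
        congrArg (fun y => eK n (r * (k * N)) y 0) hzT
      rw [GrowA_eK_zw0] at h1
      have h2 : eK n (r * (k * N))
          (zw (padf f (k * N) (k' * N)) (r * (k * N)) w ∘ shp n r (k * N)) 0 =
          eK n (r * (k * N)) (zw (padf f (k * N) (k' * N)) (r * (k * N)) w) ⟨k * N, hlt⟩ := by
        rw [eK_apply, eK_apply]
        have h3 : ∀ b, (zw (padf f (k * N) (k' * N)) (r * (k * N)) w ∘ shp n r (k * N)) (0, b) =
            zw (padf f (k * N) (k' * N)) (r * (k * N)) w (⟨k * N, hlt⟩, b) := by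
          intro b
          change zw (padf f (k * N) (k' * N)) (r * (k * N)) w
            (0 + Fin.ofNat (r * (k * N)) (k * N), b) = _
          congr 2
          rw [zero_add]
          apply Fin.ext
          rw [Fin.val_ofNat, Nat.mod_eq_of_lt hlt]
        simp only [h3]
      rw [h2, GrowA_eK_zw] at h1
      have h4 : flw (padf f (k * N) (k' * N)) (k * N) w = w := h1
      have h5 := pad_flw hfper hk 1 w
      rw [one_mul, one_mul, h4] at h5
      exact h5.symm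
    refine ⟨av S f (k' * N) w, ⟨w, hfix, ht w hfix hI1 hI2, rfl⟩, ?_⟩
    show (r : ℝ) * av S f (k' * N) w = _
    rw [LevB_av, pad_av hS hN hper hfper hk0 hk (by omega) hw,
      LevB_av_mul (Nat.mul_pos hk0 hN) (by omega) (LevB_mulper hper k') (LevB_mulper hfper k')
        w hfix]
  have h1 := Set.ncard_le_ncard hsub (hfin.image _)
  rw [Set.ncard_coe_finset] at h1
  exact h1.trans (Set.ncard_image_le hfin)

/-- the critical points of the action which are invariant under the shift by `N` steps -/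
theorem LevB_Cf {S : ℕ → Pt n → ℝ} {f : ℕ → Pt n → Pt n} (hS : ∀ j, Gen (S j) (f j))
    {N q K : ℕ} [NeZero N] [NeZero K] (hK : K = q * N) (hq : 2 ≤ q)
    (hper : ∀ j, S (j + N) = S j) (hfper : ∀ j, f (j + N) = f j) (s a κ : ℝ) (hκ0 : 0 < κ)
    (hκ : ∀ w, flw f N w = w → MeanIdx S f N w s → |action S N (oseq f N w) - a| < κ →
      action S N (oseq f N w) = a) (C : Finset (Pt n))
    (hC : ∀ w, (flw f N w = w ∧ MeanIdx S f N w s ∧ action S N (oseq f N w) = a) ↔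
      ∃ c ∈ C, w - c ∈ Zn n) (G₁ G₂ : ℕ)
    (hcl : ∀ w, flw f N w = w → (MeanIdx S f N w s ↔
      G₁ ≤ ind S f K w ∧ ind S f K w + 1 < G₂)) (Cf : Finset (Iz n N → ℝ))
    (hCf : ∀ z, z ∈ Cf ↔ ∃ c ∈ C, zw f N c = z) (y : Iz n N → ℝ) :
    (fderiv ℝ (fS S K) (y ∘ rdG n K N) = 0 ∧ ClI G₁ G₂ (fS S K) (y ∘ rdG n K N) ∧
      q * a - q * κ < fS S K (y ∘ rdG n K N) ∧ fS S K (y ∘ rdG n K N) < q * a + q * κ) ↔
      ∃ c ∈ Cf, ∃ l ∈ Lc n N, y = c + rl l := by
  have hq0 : (0 : ℝ) < q := by exact_mod_cast (by omega : 0 < q)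
  constructor
  · rintro ⟨h1, ⟨h2, h3⟩, h4, h5⟩
    obtain ⟨w, hw, hw', hy, hy'⟩ := LevB_crit hS hK hq hfper y h1
    rw [hy', fS_sigNeg hS] at h2 h3
    have hm := (hcl w hw).2 ⟨h2, h3⟩
    have hval : fS S K (y ∘ rdG n K N) = q * action S N (oseq f N w) := by
      rw [LevB_fold hK hper, hy]
      unfold fS
      rw [GrowA_eK_zw]
    rw [hval] at h4 h5
    have hab : |action S N (oseq f N w) - a| < κ := by
      rw [abs_lt]
      constructor
      · have : (q : ℝ) * (a - κ) < q * action S N (oseq f N w) := by linarith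
        have := lt_of_mul_lt_mul_left this hq0.le
        linarith
      · have : (q : ℝ) * action S N (oseq f N w) < q * (a + κ) := by linarith
        have := lt_of_mul_lt_mul_left this hq0.le
        linarith
    obtain ⟨c, hc, he⟩ := (hC w).1 ⟨hw, hm, hκ w hw hm hab⟩
    obtain ⟨l, hl, hl'⟩ := (zw_add hS N w c).2 he
    exact ⟨zw f N c, (hCf _).2 ⟨c, hc, rfl⟩, l, hl, by rw [hy, hl']⟩
  · rintro ⟨z, hz, l, hl, he⟩
    obtain ⟨c, hc, rfl⟩ := (hCf z).1 hz
    obtain ⟨e, he', hj⟩ := (lat_iff N y (zw f N c)).1 ⟨l, hl, he⟩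
    set w : Pt n := c + e with hw
    have hwc : w - c ∈ Zn n := by rw [hw, add_sub_cancel_left]; exact he'
    obtain ⟨h1, h2, h3⟩ := (hC w).2 ⟨c, hc, hwc⟩
    have hy : y = zw f N w := by
      refine GrowA_zw_of _ _ _ _ ?_
      ext1 j
      rw [hj j, GrowA_eK_zw]
      exact (Pool.Agent.H47.QG.flw_add_int hS _ c e he').symm
    have hy' : y ∘ rdG n K N = zw f K w := by rw [hy, LevB_zwfold hK hfper w h1]
    have hwK : flw f K w = w := by
      have h4 := Pool.Agent.H47.QG.flw_mod hfper w h1 K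
      rw [hK, Nat.mul_mod_left] at h4
      rw [hK, ← h4]
      rfl
    have hval : fS S K (y ∘ rdG n K N) = q * a := by
      rw [LevB_fold hK hper, hy, ← h3]
      unfold fS
      rw [GrowA_eK_zw]
    have hqκ : 0 < (q : ℝ) * κ := mul_pos hq0 hκ0
    refine ⟨?_, ?_, by rw [hval]; linarith, by rw [hval]; linarith⟩
    · rw [fS_crit hS, hy', GrowA_eK_zw0, GrowA_eK_zw]
      exact ⟨hwK, rfl⟩
    · rw [hy']
      unfold ClI
      rw [fS_sigNeg hS]
      exact (hcl w h1).1 h2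

/-- **Many action values**, for given thresholds `G₁`, `G₂` and a given prime `r`. -/
theorem LevB_main {S : ℕ → Pt n → ℝ} {f : ℕ → Pt n → Pt n} (hS : ∀ j, Gen (S j) (f j))
    {N : ℕ} [NeZero N] (hper : ∀ j, S (j + N) = S j)
    (hfper : ∀ j, f (j + N) = f j) (B : ℝ) (hB0 : 0 ≤ B) (hB : ∀ j z, |S j z| ≤ B)
    (s a κ : ℝ) (hκ0 : 0 < κ)
    (hκ : ∀ w, flw f N w = w → MeanIdx S f N w s → |action S N (oseq f N w) - a| < κ →
      action S N (oseq f N w) = a) (C : Finset (Pt n))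
    (hC : ∀ w, (flw f N w = w ∧ MeanIdx S f N w s ∧ action S N (oseq f N w) = a) ↔
      ∃ c ∈ C, w - c ∈ Zn n)
    (hCd : ∀ c ∈ C, ∀ c' ∈ C, c - c' ∈ Zn n → c = c') (σ : Pt n → ℤ)
    (hσ : ∀ c ∈ C, LocIdx (action S N) (oseq f N c) (σ c))
    (k : ℕ) (hk : 0 < k)
    (hfin : ∀ m : ℕ, 0 < m → ∃ W : Finset (Pt n),
      (∀ w, flw f (m * N) w = w ↔ ∃ w' ∈ W, w - w' ∈ Zn n) ∧
      ∀ w ∈ W, ∀ w' ∈ W, w - w' ∈ Zn n → w = w')
    (r : ℕ) [Fact r.Prime] (hsum : ((∑ c ∈ C, σ c : ℤ) : ZMod r) ≠ 0) (G₁ G₂ : ℕ)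
    (h12 : G₁ < G₂)
    (hwin : ∀ i ≤ k / 2, ∀ w, flw f (r * ((k - i) * N)) w = w → ∀ G, (G = G₁ ∨ G = G₂) →
      ¬ (ind S f (r * ((k - i) * N)) w + n * (r * (i * N)) < G ∧
        G ≤ ind S f (r * ((k - i) * N)) w + n * (r * (i * N)) + 2 * n + 1))
    (hcl : ∀ i ≤ k / 2, ∀ w, flw f ((k - i) * N) w = w →
      G₁ ≤ ind S f (r * ((k - i) * N)) w + n * (r * (i * N)) →
      ind S f (r * ((k - i) * N)) w + n * (r * (i * N)) + 1 < G₂ →
      MeanIdx S f ((k - i) * N) w (k * s))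
    (hcl0 : ∀ w, flw f N w = w → (MeanIdx S f N w s ↔
      G₁ ≤ ind S f (r * (k * N)) w ∧ ind S f (r * (k * N)) w + 1 < G₂)) :
    min (k * κ / (2 * N * B + 1)) ((k / 2 : ℕ) : ℝ) ≤
      ∑ i ∈ Finset.range (k / 2 + 1), ((LevB_Val S f N (k - i) (k * s)).ncard : ℝ) := by
  classical
  have hN : 0 < N := Nat.pos_of_ne_zero (NeZero.ne N)
  have hr : 2 ≤ r := (Fact.out : r.Prime).two_le
  have hr0 : 0 < r := by omega
  have hkN : 0 < k * N := Nat.mul_pos hk hN
  have hne1 : NeZero (k * N) := ⟨hkN.ne'⟩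
  have hne2 : NeZero (r * (k * N)) := ⟨(Nat.mul_pos hr0 hkN).ne'⟩
  have hpos : ∀ i ≤ k / 2, 0 < k - i := fun i hi => by omega
  have hkk : ∀ i ≤ k / 2, k - (k - i) = i := fun i hi => by omega
  have hrR : (0 : ℝ) < r := by exact_mod_cast hr0
  have hkR : (0 : ℝ) < k := by exact_mod_cast hk
  -- the functions
  obtain ⟨g, hg⟩ : ∃ g : ℕ → (Iz n (r * (k * N)) → ℝ) → ℝ,
      g = fun i => fS (padS S (k * N) ((k - i) * N)) (r * (k * N)) := ⟨_, rfl⟩
  have hgi : ∀ i, g i = fS (padS S (k * N) ((k - i) * N)) (r * (k * N)) := fun i => by rw [hg]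
  have hg0 : g 0 = fS S (r * (k * N)) := by rw [hgi, Nat.sub_zero, padS_self S hkN]
  have hgrad : ∃ Cg : ℝ, ∀ i ≤ k / 2, ∀ y b,
      |fderiv ℝ (g i) y (Pi.single b 1) - DK n (r * (k * N)) y b| ≤ Cg := by
    choose Cg hCg using fun i => fS_grad (pad_gen hS (k * N) ((k - i) * N)) (r * (k * N))
    refine ⟨∑ i ∈ Finset.range (k / 2 + 1), |Cg i|, fun i hi y b => ?_⟩
    rw [hgi]
    refine (hCg i y b).trans ((le_abs_self _).trans ?_)
    exact Finset.single_le_sum (f := fun j => |Cg j|) (fun j _ => abs_nonneg (Cg j))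
      (Finset.mem_range.2 (by omega))
  obtain ⟨Cg, hCg⟩ := hgrad
  -- the critical points
  choose! Wf hWf hWd using hfin
  have hWi : ∀ i ≤ k / 2, ∀ w, flw f (r * ((k - i) * N)) w = w ↔
      ∃ w' ∈ Wf (r * (k - i)), w - w' ∈ Zn n := by
    intro i hi w
    rw [← Nat.mul_assoc]
    exact hWf _ (Nat.mul_pos hr0 (hpos i hi)) w
  obtain ⟨Z, hZ⟩ : ∃ Z : ℕ → Finset (Iz n (r * (k * N)) → ℝ), ∀ i z, z ∈ Z i ↔
      ∃ w ∈ Wf (r * (k - i)), zw (padf f (k * N) ((k - i) * N)) (r * (k * N)) w = z :=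
    ⟨fun i => (Wf (r * (k - i))).image (zw (padf f (k * N) ((k - i) * N)) (r * (k * N))),
      fun i z => Finset.mem_image⟩
  have hadm : ∀ i ≤ k / 2, Adm n (r * (k * N)) (shp n r (k * N)) Cg G₁ G₂ (g i) (Z i) := by
    intro i hi
    rw [hgi]
    refine LevB_adm hS hN hper hfper (hpos i hi) (Nat.sub_le k i) hr0 Cg ?_ G₁ G₂
      (Wf (r * (k - i))) (hWi i hi) (hWd _ (Nat.mul_pos hr0 (hpos i hi))) ?_ (Z i) (hZ i)
    · rw [← hgi]
      exact hCg i hi
    · rw [hkk i hi]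
      exact hwin i hi
  -- distance of the functions
  have hη : ∀ i ≤ k / 2, ∀ y, |g i y - g 0 y| ≤ (r : ℝ) * ((i : ℝ) * N) * B := by
    intro i hi y
    rw [hg0, hgi]
    have h1 := pad_sup hB (N := N) (k := k) (k' := k - i) (m := r) (Nat.sub_le k i) y
    rw [hkk i hi] at h1
    exact h1
  have hη0 : ∀ i : ℕ, 0 ≤ (r : ℝ) * ((i : ℝ) * N) * B := fun i => by positivity
  have hK : r * (k * N) = (r * k) * N := (Nat.mul_assoc r k N).symm
  have hq : 2 ≤ r * k := by nlinarith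
  have hqR : (0 : ℝ) < ((r * k : ℕ) : ℝ) := by exact_mod_cast (by omega : 0 < r * k)
  have hqκ : 0 < ((r * k : ℕ) : ℝ) * κ := mul_pos hqR hκ0
  have hCfix : ∀ c ∈ C, flw f N c = c ∧ MeanIdx S f N c s ∧ action S N (oseq f N c) = a :=
    fun c hc => (hC c).2 ⟨c, hc, by rw [sub_self]; exact (Zn n).zero_mem⟩
  have hinj := GrowA_zw_inj (n := n) f N
  obtain ⟨u₀, u₁, hu, J, ρ, hρ0, hρJ, hρm, hρL, hρc⟩ :=
    top_main (n := n) (p := r) (k := k) (N := N) (C := Cg) h12 (k / 2) g Z hadm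
    (by rw [hg0]; exact LevB_shift hK hper) (fun i => (r : ℝ) * ((i : ℝ) * N) * B) hη0 hη
    (((r * k : ℕ) : ℝ) * a - ((r * k : ℕ) : ℝ) * κ) (((r * k : ℕ) : ℝ) * a)
    (((r * k : ℕ) : ℝ) * a + ((r * k : ℕ) : ℝ) * κ) (by linarith) (by linarith)
    (C.image (zw f N)) (fun y => σ (eK n N y 0))
    (by
      rw [hg0]
      exact LevB_Cf hS hK hq hper hfper s a κ hκ0 hκ C hC G₁ G₂ hcl0 _
        (fun z => Finset.mem_image))
    (by
      intro z hz
      obtain ⟨c, hc, rfl⟩ := Finset.mem_image.1 hz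
      rw [hg0, LevB_fold hK hper]
      have h1 : fS S N (zw f N c) = a := by
        unfold fS
        rw [GrowA_eK_zw]
        exact (hCfix c hc).2.2
      rw [h1])
    (by
      intro z hz z' hz' l hl he
      obtain ⟨c, hc, rfl⟩ := Finset.mem_image.1 hz
      obtain ⟨c', hc', rfl⟩ := Finset.mem_image.1 hz'
      rw [hCd c' hc' c hc ((zw_add hS N c' c).1 ⟨l, hl, he⟩)])
    (by
      intro z hz
      obtain ⟨c, hc, rfl⟩ := Finset.mem_image.1 hz
      rw [hg0]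
      simp only [GrowA_eK_zw0]
      exact LevB_loc hS hK (by omega) hper c (σ c) (hσ c hc))
    (by
      rw [Finset.sum_image (fun a _ b _ h => hinj h)]
      simp only [GrowA_eK_zw0]
      exact hsum) 1 one_pos
  -- the numbers of critical values
  have hLam : ∀ i ≤ k / 2, (Lam (shp n r (k * N)) G₁ G₂ (g i) (Z i)).card ≤
      (LevB_Val S f N (k - i) (k * s)).ncard := by
    intro i hi
    have hne3 : NeZero ((k - i) * N) := ⟨(Nat.mul_pos (hpos i hi) hN).ne'⟩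
    rw [hgi]
    refine LevB_lam hS hN hper hfper (hpos i hi) (Nat.sub_le k i) hr G₁ G₂ (Z i) ?_ (k * s)
      (LevB_fin hS (Wf (k - i)) (hWf _ (hpos i hi)) _) ?_
    · intro z hz
      obtain ⟨w, hw, he⟩ := (hZ i z).1 hz
      exact ⟨w, (hWi i hi w).2 ⟨w, hw, by rw [sub_self]; exact (Zn n).zero_mem⟩, he⟩
    · rw [hkk i hi]
      exact hcl i hi
  have hCp : (0 : ℝ) < 2 * N * B + 1 := by positivity
  refine sum_ineq J (k / 2) (fun j => (ρ (j + 1) - ρ j) / r)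
    (fun j hj => div_nonneg (by linarith [hρm j hj]) hrR.le) (2 * N * B + 1) (k * κ) hCp ?_
    (fun i => (LevB_Val S f N (k - i) (k * s)).ncard) ?_ ?_
  · rw [← Finset.sum_div, Finset.sum_range_sub, le_div_iff₀ hrR]
    have h1 : u₁ - u₀ = ((r * k : ℕ) : ℝ) * κ := by
      rcases hu with ⟨h1, h2⟩ | ⟨h1, h2⟩
      · rw [h1, h2]; ring
      · rw [h1, h2]; ring
    rw [hρ0]
    push_cast at h1
    nlinarith
  · have h1 := count_chain J ρ _ hρm hρL
    exact h1.trans (hLam 0 (Nat.zero_le _))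
  · intro i hi1 hi2
    refine le_trans (Finset.card_le_card ?_) ((hρc i hi2).trans (hLam i hi2))
    intro j hj
    rw [Finset.mem_filter] at hj ⊢
    refine ⟨hj.1, ?_⟩
    have h1 := hj.2
    rw [lt_div_iff₀ hrR] at h1
    have h2 : (1 : ℝ) ≤ i := by exact_mod_cast hi1
    have h3 : (1 : ℝ) ≤ r := by exact_mod_cast hr0
    have h4 : (1 : ℝ) ≤ (i : ℝ) * r := by nlinarith
    have h5 : 2 * ((r : ℝ) * ((i : ℝ) * N) * B) + 1 ≤ (2 * N * B + 1) * i * r := by nlinarith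
    linarith

end Pool.Agent.H45.AC
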