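import Pool.Agent.H45.AC.LevK3
import Pool.Agent.H45.AC.SumI

/-!
# Project AC: many action values for one prime

The set `Val` of the values of the action is defined in `LevK3.lean`.
-/

set_option autoImplicit false

open Module QuadraticForm Filter Topology
open Pool.Agent.H47.QG (Pt action flw oseq Gen ind hess Zn MeanIdx LocIdx)
open Pool.Agent.H47.ST

namespace Pool.Agent.H45.AC

variable {n : ℕ}

/-- **Many action values.** -/
theorem level_k {S : ℕ → Pt n → ℝ} {f : ℕ → Pt n → Pt n} (hS : ∀ j, Gen (S j) (f j))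
    (hn : 0 < n) {N : ℕ} [NeZero N] (hper : ∀ j, S (j + N) = S j)
    (hfper : ∀ j, f (j + N) = f j) (B : ℝ) (hB0 : 0 ≤ B) (hB : ∀ j z, |S j z| ≤ B)
    (s a κ : ℝ) (hκ0 : 0 < κ)
    (hκ : ∀ w, flw f N w = w → MeanIdx S f N w s → |action S N (oseq f N w) - a| < κ →
      action S N (oseq f N w) = a) (C : Finset (Pt n))
    (hC : ∀ w, (flw f N w = w ∧ MeanIdx S f N w s ∧ action S N (oseq f N w) = a) ↔
      ∃ c ∈ C, w - c ∈ Zn n)
    (hCd : ∀ c ∈ C, ∀ c' ∈ C, c - c' ∈ Zn n → c = c') (σ : Pt n → ℤ)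
    (hσ : ∀ c ∈ C, LocIdx (action S N) (oseq f N c) (σ c)) (hsum : ∑ c ∈ C, σ c ≠ 0)
    (k : ℕ) (hk : 0 < k)
    (hfin : ∀ m : ℕ, 0 < m → ∃ W : Finset (Pt n),
      (∀ w, flw f (m * N) w = w ↔ ∃ w' ∈ W, w - w' ∈ Zn n) ∧
      ∀ w ∈ W, ∀ w' ∈ W, w - w' ∈ Zn n → w = w')
    (hgood : ∀ ε > 0, ∀ r₀ : ℕ, ∃ r : ℕ, r.Prime ∧ r₀ ≤ r ∧ ∀ k', 0 < k' → k' ≤ k →
      ({v : ℕ | ∃ w, flw f (r * (k' * N)) w = w ∧ flw f (k' * N) w ≠ w ∧
        ind S f (r * (k' * N)) w = v}.ncard : ℝ) ≤ ε * r) :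
    min (k * κ / (2 * N * B + 1)) ((k / 2 : ℕ) : ℝ) ≤
      ∑ i ∈ Finset.range (k / 2 + 1), ((Val S f N (k - i) (k * s)).ncard : ℝ) := by
  classical
  have hN : 0 < N := Nat.pos_of_ne_zero (NeZero.ne N)
  have hkN : 0 < k * N := Nat.mul_pos hk hN
  have hNZ : NeZero (k * N) := ⟨hkN.ne'⟩
  have hkr : (0 : ℝ) < k := by exact_mod_cast hk
  have hNr0 : (0 : ℝ) < N := by exact_mod_cast hN
  have hCfix : ∀ c ∈ C, flw f N c = c ∧ MeanIdx S f N c s ∧ action S N (oseq f N c) = a :=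
    fun c hc => (hC c).2 ⟨c, hc, by rw [sub_self]; exact (Zn n).zero_mem⟩
  -- the cluster is not empty
  have hL0 : 0 ≤ (k : ℝ) * s + n * ((k * N : ℕ) : ℝ) := by
    obtain ⟨c, hc⟩ : ∃ c, c ∈ C := by
      by_contra hcon
      push Not at hcon
      exact hsum (Finset.sum_eq_zero fun c hc => absurd hc (hcon c))
    obtain ⟨hc1, hc2, _⟩ := hCfix c hc
    have h1 := (LevK_mean_mul hS hN hk hper hfper c hc1 s).2 hc2
    exact ge_of_tendsto' h1 (fun p => by positivity)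
  obtain ⟨r, hr, hr1, G₁, G₂, h12, hG⟩ := LevK_thr hS hN hper hfper s k hk hL0 hfin hgood
    ((∑ c ∈ C, σ c).natAbs + 1)
  have hr0 := hr.pos
  have hr2 := hr.two_le
  have hrr : (0 : ℝ) < r := by exact_mod_cast hr0
  have hrr1 : (1 : ℝ) ≤ r := by exact_mod_cast hr0
  have hrP : Fact r.Prime := ⟨hr⟩
  have hNr : NeZero (r * (k * N)) := ⟨(Nat.mul_pos hr0 hkN).ne'⟩
  have hK : r * (k * N) = (r * k) * N := (Nat.mul_assoc r k N).symm
  have hrk : 2 ≤ r * k := le_trans hr2 (Nat.le_mul_of_pos_right r hk)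
  have hrkr : (0 : ℝ) < r * k := mul_pos hrr hkr
  -- representatives
  have hWW : ∀ m : ℕ, ∃ W : Finset (Pt n), 0 < m →
      (∀ w, flw f (m * N) w = w ↔ ∃ w' ∈ W, w - w' ∈ Zn n) ∧
      ∀ w ∈ W, ∀ w' ∈ W, w - w' ∈ Zn n → w = w' := by
    intro m
    by_cases hm : 0 < m
    · obtain ⟨W, hW⟩ := hfin m hm
      exact ⟨W, fun _ => hW⟩
    · exact ⟨∅, fun h => absurd h hm⟩
  choose WW hWW using hWW
  have hWr : ∀ k', 0 < k' → ∀ w, flw f (r * (k' * N)) w = w ↔ ∃ w' ∈ WW (r * k'), w - w' ∈ Zn n := by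
    intro k' hk' w
    rw [← Nat.mul_assoc]
    exact (hWW (r * k') (Nat.mul_pos hr0 hk')).1 w
  -- bounds for the gradients
  choose Cg hCg using fun k' : ℕ => fS_grad (pad_gen hS (k * N) (k' * N)) (r * (k * N))
  set Cs : ℝ := ∑ k' ∈ Finset.range (k + 1), |Cg k'| with hCs
  have hCgs : ∀ k' ≤ k, Cg k' ≤ Cs := by
    intro k' hk'
    exact (le_abs_self _).trans (Finset.single_le_sum (f := fun k' => |Cg k'|)
      (fun _ _ => abs_nonneg _) (Finset.mem_range.2 (by omega)))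
  -- the functions
  obtain ⟨Fn, hFn⟩ : ∃ Fn : ℕ → (Iz n (r * (k * N)) → ℝ) → ℝ,
      ∀ i, Fn i = fS (padS S (k * N) ((k - i) * N)) (r * (k * N)) := ⟨_, fun _ => rfl⟩
  obtain ⟨Wn, hWn⟩ : ∃ Wn : ℕ → Finset (Iz n (r * (k * N)) → ℝ),
      ∀ i, Wn i = (WW (r * (k - i))).image (zw (padf f (k * N) ((k - i) * N)) (r * (k * N))) :=
    ⟨_, fun _ => rfl⟩
  have hF0 : Fn 0 = fS S (r * (k * N)) := by
    rw [hFn, Nat.sub_zero, padS_self S hkN]
  have hi0 : ∀ i, i ≤ k / 2 → 0 < k - i := by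
    intro i hi
    omega
  have hadm : ∀ i ≤ k / 2, Adm n (r * (k * N)) (shp n r (k * N)) Cs G₁ G₂ (Fn i) (Wn i) := by
    intro i hi
    rw [hFn, hWn]
    refine LevK_adm hS hN hper hfper (hi0 i hi) (Nat.sub_le k i) hr0 (WW (r * (k - i)))
      (hWr _ (hi0 i hi)) (hWW _ (Nat.mul_pos hr0 (hi0 i hi))).2 Cs
      (fun y b => (hCg (k - i) y b).trans (hCgs _ (Nat.sub_le k i))) G₁ G₂
      (hG (k - i) (hi0 i hi) (Nat.sub_le k i)).1
  have hγ : ∀ y, Fn 0 (y ∘ shG n (r * (k * N)) N) = Fn 0 y := by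
    intro y
    rw [hF0]
    exact LevK_shG hK hper y
  have hη : ∀ i ≤ k / 2, ∀ y, |Fn i y - Fn 0 y| ≤ r * (i * N) * B := by
    intro i hi y
    rw [hF0, hFn]
    have h1 := pad_sup hB (N := N) (m := r) (Nat.sub_le k i) y
    have h2 : k - (k - i) = i := by omega
    rw [h2] at h1
    exact h1
  -- fixed orbits
  have hzK : ∀ w, flw f N w = w → zw f (r * (k * N)) w = zw f N w ∘ rdG n (r * (k * N)) N :=
    fun w hw => LevK_zw hK hfper w hw
  have hcrit0 : ∀ w, flw f N w = w → fderiv ℝ (fS S (r * (k * N))) (zw f (r * (k * N)) w) = 0 := by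
    intro w hw
    rw [fS_crit hS, GrowA_eK_zw0, GrowA_eK_zw]
    refine ⟨?_, rfl⟩
    rw [hK]
    exact LevK_mul_fix hfper _ w hw
  have hval : ∀ w, flw f N w = w → fS S (r * (k * N)) (zw f (r * (k * N)) w) =
      r * k * action S N (oseq f N w) := by
    intro w hw
    rw [hzK w hw, LevK_rdG hK hper]
    unfold fS
    rw [GrowA_eK_zw]
    push_cast
    ring
  have hcl : ∀ w, flw f N w = w →
      (ClI G₁ G₂ (fS S (r * (k * N))) (zw f (r * (k * N)) w) ↔ MeanIdx S f N w s) := by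
    intro w hw
    have h1 := (hG k hk le_rfl).2 w (LevK_mul_fix hfper k w hw)
    rw [LevK_mean_mul hS hN hk hper hfper w hw] at h1
    rw [← h1]
    unfold ClI LevKi
    simp only [fS_sigNeg hS, Nat.sub_self, Nat.zero_mul, Nat.mul_zero, Nat.add_zero]
  -- the topological theorem
  obtain ⟨u₀, u₁, hu, J, ρ, hρ0, hρJ, hρm, hρL, hρc⟩ := top_main (n := n) (p := r) (k := k)
    (N := N) (C := Cs) h12 (k / 2) Fn Wn hadm hγ (fun i => r * (i * N) * B)
    (fun i => by positivity) hη (r * k * (a - κ)) (r * k * a) (r * k * (a + κ))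
    (mul_lt_mul_of_pos_left (by linarith) hrkr) (mul_lt_mul_of_pos_left (by linarith) hrkr)
    (C.image (zw f N)) (fun t => σ (eK n N t 0))
    (by
      intro y
      rw [hF0]
      constructor
      · rintro ⟨h1, h2, h3, h4⟩
        obtain ⟨w, hw, _, rfl, hw3⟩ := LevK_fold hS hK hrk hfper y h1
        rw [hw3] at h2 h3 h4
        have h5 := (hcl w hw).1 h2
        rw [hval w hw] at h3 h4
        have h6 : a - κ < action S N (oseq f N w) := lt_of_mul_lt_mul_left h3 hrkr.le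
        have h7 : action S N (oseq f N w) < a + κ := lt_of_mul_lt_mul_left h4 hrkr.le
        have h8 := hκ w hw h5 (by rw [abs_lt]; constructor <;> linarith)
        obtain ⟨c, hc, hwc⟩ := (hC w).1 ⟨hw, h5, h8⟩
        obtain ⟨l, hl, he⟩ := (zw_add hS N w c).2 hwc
        exact ⟨zw f N c, Finset.mem_image_of_mem _ hc, l, hl, he⟩
      · rintro ⟨z, hz, l, hl, rfl⟩
        obtain ⟨c, hc, rfl⟩ := Finset.mem_image.1 hz
        -- the translated point
        obtain ⟨e, he, hj⟩ := (lat_iff N (zw f N c + rl l) (zw f N c)).1 ⟨l, hl, rfl⟩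
        have hce : c + e - c ∈ Zn n := by rw [add_sub_cancel_left]; exact he
        have hy : zw f N c + rl l = zw f N (c + e) := by
          refine GrowA_zw_of _ _ _ _ ?_
          ext1 j
          rw [hj j, GrowA_eK_zw]
          exact (Pool.Agent.H47.QG.flw_add_int hS _ c e he).symm
        obtain ⟨hw1, hw2, hw3⟩ := (hC (c + e)).2 ⟨c, hc, hce⟩
        rw [hy, ← hzK _ hw1]
        refine ⟨hcrit0 _ hw1, (hcl _ hw1).2 hw2, ?_, ?_⟩
        · rw [hval _ hw1, hw3]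
          exact mul_lt_mul_of_pos_left (by linarith) hrkr
        · rw [hval _ hw1, hw3]
          exact mul_lt_mul_of_pos_left (by linarith) hrkr)
    (by
      intro z hz
      obtain ⟨c, hc, rfl⟩ := Finset.mem_image.1 hz
      obtain ⟨h1, _, h3⟩ := hCfix c hc
      rw [hF0, ← hzK c h1, hval c h1, h3])
    (by
      intro z hz z' hz' l hl he
      obtain ⟨w, hw, rfl⟩ := Finset.mem_image.1 hz
      obtain ⟨w', hw', rfl⟩ := Finset.mem_image.1 hz'
      rw [hCd w' hw' w hw ((zw_add hS _ w' w).1 ⟨l, hl, he⟩)])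
    (by
      intro z hz
      obtain ⟨c, hc, rfl⟩ := Finset.mem_image.1 hz
      have h1 : (fun y : Iz n N → ℝ => Fn 0 (y ∘ rdG n (r * (k * N)) N)) =
          fun y => (r * k : ℝ) * action S N (eK n N y) := by
        funext y
        rw [hF0, LevK_rdG hK hper]
        unfold fS
        push_cast
        ring
      rw [h1, GrowA_eK_zw0]
      exact Pool.Agent.H47.QG.locIdx_comp (action S N)
        (Pool.Agent.H47.QG.action_smooth S (fun j => (hS j).smooth) N) (oseq f N c) (σ c)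
        (hσ c hc) (eK n N) (r * k : ℝ) hrkr)
    (by
      rw [Finset.sum_image (fun a _ b _ h => GrowA_zw_inj f N h)]
      simp only [GrowA_eK_zw0]
      intro h0
      rw [ZMod.intCast_zmod_eq_zero_iff_dvd] at h0
      refine hsum (Int.eq_zero_of_abs_lt_dvd h0 ?_)
      have : (∑ c ∈ C, σ c).natAbs < r := by omega
      rw [Int.abs_eq_natAbs]
      exact_mod_cast this) 1 one_pos
  -- counting
  have hvf : ∀ k', 0 < k' → (Val S f N k' (k * s)).Finite := fun k' hk' =>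
    LevK_val_fin hS hN hk' _ (WW k') (hWW k' hk').1
  have hLam : ∀ i ≤ k / 2, (Lam (shp n r (k * N)) G₁ G₂ (Fn i) (Wn i)).card ≤
      (Val S f N (k - i) (k * s)).ncard := by
    intro i hi
    rw [hFn, hWn]
    exact LevK_Lam hS hN hper hfper (hi0 i hi) (Nat.sub_le k i) hr2 (WW (r * (k - i)))
      (hWr _ (hi0 i hi)) G₁ G₂ (k * s) (hG (k - i) (hi0 i hi) (Nat.sub_le k i)).2
      (hvf _ (hi0 i hi))
  refine sum_ineq J (k / 2) (fun j => (ρ (j + 1) - ρ j) / r) ?_ (2 * N * B + 1) (k * κ)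
    (by positivity) ?_ (fun i => (Val S f N (k - i) (k * s)).ncard) ?_ ?_
  · intro j hj
    exact div_nonneg (by linarith [hρm j hj]) hrr.le
  · rw [← Finset.sum_div, Finset.sum_range_sub, le_div_iff₀ hrr, hρ0]
    have h1 : (r : ℝ) * k * (a - κ) = r * k * a - r * k * κ := by ring
    have h2 : (r : ℝ) * k * (a + κ) = r * k * a + r * k * κ := by ring
    have h3 : (k : ℝ) * κ * r = r * k * κ := by ring
    rw [h3]
    rcases hu with ⟨h4, h5⟩ | ⟨h4, h5⟩
    · rw [h4, h1]; rw [h5] at hρJ; linarith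
    · rw [h4]; rw [h5, h2] at hρJ; linarith
  · exact (count_chain J ρ _ hρm hρL).trans (hLam 0 (Nat.zero_le _))
  · intro i hi1 hi2
    refine le_trans ?_ ((hρc i hi2).trans (hLam i hi2))
    refine Finset.card_le_card ?_
    intro j hj
    rw [Finset.mem_filter] at hj ⊢
    refine ⟨hj.1, ?_⟩
    have h1 := hj.2
    rw [lt_div_iff₀ hrr] at h1
    have hi1' : (1 : ℝ) ≤ i := by exact_mod_cast hi1
    have h2 : 2 * (r * (i * N) * B) + 1 ≤ (2 * N * B + 1) * i * (r : ℝ) := by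
      have h3 : (1 : ℝ) ≤ r * i := by nlinarith
      nlinarith
    linarith

end Pool.Agent.H45.AC
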