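import Pool.Agent.H45.AC.PadA
import Pool.Agent.H45.AC.PadI
import Pool.Agent.H45.AC.Top

/-!
# Project AC: many action values for one prime, elementary facts
-/

set_option autoImplicit false

open Module QuadraticForm Filter Topology
open Pool.Agent.H47.QG (Pt action flw oseq Gen ind hess Zn MeanIdx LocIdx)
open Pool.Agent.H47.ST

namespace Pool.Agent.H45.AC

variable {n : ℕ}

theorem LevK_per {α : Type*} {g : ℕ → α} {N : ℕ} (hg : ∀ j, g (j + N) = g j) (m j : ℕ) :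
    g (j + m * N) = g j := by
  induction m generalizing j with
  | zero => rw [zero_mul, add_zero]
  | succ m ih => rw [Nat.succ_mul, ← add_assoc, hg, ih]

theorem LevK_shG {S : ℕ → Pt n → ℝ} {N K q : ℕ} [NeZero K] (hK : K = q * N)
    (hper : ∀ j, S (j + N) = S j) (y : Iz n K → ℝ) : fS S K (y ∘ shG n K N) = fS S K y := by
  subst hK
  exact fS_shift q N hper y

theorem LevK_rdG {S : ℕ → Pt n → ℝ} {N K q : ℕ} [NeZero N] [NeZero K] (hK : K = q * N)
    (hper : ∀ j, S (j + N) = S j) (y : Iz n N → ℝ) :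
    fS S K (y ∘ rdG n K N) = q * fS S N y := by
  subst hK
  exact fS_fold q N hper y

theorem LevK_fold {S : ℕ → Pt n → ℝ} {f : ℕ → Pt n → Pt n} (hS : ∀ j, Gen (S j) (f j))
    {N K q : ℕ} [NeZero N] [NeZero K] (hK : K = q * N) (hq : 2 ≤ q)
    (hfper : ∀ j, f (j + N) = f j) (y : Iz n N → ℝ)
    (hy : fderiv ℝ (fS S K) (y ∘ rdG n K N) = 0) :
    ∃ w, flw f N w = w ∧ flw f K w = w ∧ y = zw f N w ∧ y ∘ rdG n K N = zw f K w := by
  subst hK
  exact GrowA_fold hS hq hfper y hy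

theorem LevK_zw {f : ℕ → Pt n → Pt n} {N K q : ℕ} [NeZero N] [NeZero K] (hK : K = q * N)
    (hfper : ∀ j, f (j + N) = f j) (w : Pt n) (hw : flw f N w = w) :
    zw f K w = zw f N w ∘ rdG n K N := by
  subst hK
  exact zw_fold q N hfper w hw

theorem LevK_mul_fix {f : ℕ → Pt n → Pt n} {N : ℕ} (hfper : ∀ j, f (j + N) = f j) (q : ℕ)
    (w : Pt n) (hw : flw f N w = w) : flw f (q * N) w = w := by
  rw [Pool.Agent.H47.QG.flw_mul hfper]
  exact Function.iterate_fixed hw q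

theorem LevK_fix_add {S : ℕ → Pt n → ℝ} {f : ℕ → Pt n → Pt n} (hS : ∀ j, Gen (S j) (f j))
    (K : ℕ) {w w' : Pt n} (hw : flw f K w = w) (h : w' - w ∈ Zn n) : flw f K w' = w' := by
  have h3 := Pool.Agent.H47.QG.flw_add_int hS K w (w' - w) h
  rw [add_sub_cancel, hw, add_sub_cancel] at h3
  exact h3

theorem LevK_ind_add {S : ℕ → Pt n → ℝ} {f : ℕ → Pt n → Pt n} (hS : ∀ j, Gen (S j) (f j))
    (K : ℕ) {w w' : Pt n} (h : w' - w ∈ Zn n) : ind S f K w' = ind S f K w := by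
  obtain ⟨a, b, hab⟩ := h
  have h1 : w' = w + ((fun i => (a i : ℝ)), (fun i => (b i : ℝ))) := by
    rw [← sub_eq_iff_eq_add']
    exact hab
  rw [h1]
  exact Pool.Agent.H47.QG.ind_translate S f hS K w a b

/-- an invariant orbit -/
theorem LevK_inv {f : ℕ → Pt n → Pt n} {p P : ℕ} [NeZero (p * P)] (hp : 2 ≤ p) (hP : 0 < P)
    {w : Pt n} (h : zw f (p * P) w ∘ shp n p P = zw f (p * P) w) : flw f P w = w := by
  have hlt : P < p * P := by nlinarith
  have h1 := congrFun (congrArg (eK n (p * P)) h) 0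
  rw [GrowA_eK_zw, GrowA_oseq0] at h1
  have h3 : ((Fin.ofNat (p * P) P : Fin (p * P)) : ℕ) = P := Nat.mod_eq_of_lt hlt
  have h2 : eK n (p * P) (zw f (p * P) w ∘ shp n p P) 0 =
      eK n (p * P) (zw f (p * P) w) (0 + Fin.ofNat (p * P) P) := rfl
  rw [h2, GrowA_eK_zw, zero_add] at h1
  have h4 : oseq f (p * P) w (Fin.ofNat (p * P) P) =
      flw f ((Fin.ofNat (p * P) P : Fin (p * P)) : ℕ) w := rfl
  rw [h4, h3] at h1
  exact h1

theorem LevK_fS_zw (S : ℕ → Pt n → ℝ) (f : ℕ → Pt n → Pt n) (K : ℕ) [NeZero K] (w : Pt n) :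
    fS S K (zw f K w) = av S f K w := by
  rw [av_eq]
  unfold fS
  rw [GrowA_eK_zw]

/-- the action of an iterated orbit -/
theorem LevK_av_mul {S : ℕ → Pt n → ℝ} {f : ℕ → Pt n → Pt n} {P r : ℕ} (hP : 0 < P)
    (hr : 0 < r) (hper : ∀ j, S (j + P) = S j) (hfper : ∀ j, f (j + P) = f j) (w : Pt n)
    (hw : flw f P w = w) : av S f (r * P) w = r * av S f P w := by
  have : NeZero P := ⟨hP.ne'⟩
  have : NeZero (r * P) := ⟨(Nat.mul_pos hr hP).ne'⟩
  rw [← LevK_fS_zw, ← LevK_fS_zw, zw_fold r P hfper w hw, fS_fold r P hper]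

theorem LevK_av_add {S : ℕ → Pt n → ℝ} {f : ℕ → Pt n → Pt n} (hS : ∀ j, Gen (S j) (f j))
    {P : ℕ} (hP : 0 < P) {w w' : Pt n} (h : w' - w ∈ Zn n) : av S f P w' = av S f P w := by
  have : NeZero P := ⟨hP.ne'⟩
  rw [← LevK_fS_zw, ← LevK_fS_zw]
  obtain ⟨l, hl, he⟩ := (zw_add hS P w' w).2 h
  rw [he]
  exact fS_per hS P l hl _

end Pool.Agent.H45.AC
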