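import Pool.Agent.H45.AC.LevK2

/-!
# Project AC: many action values for one prime, the shortened systems
-/

set_option autoImplicit false

open Module QuadraticForm Filter Topology
open Pool.Agent.H47.QG (Pt action flw oseq Gen ind hess Zn MeanIdx LocIdx)
open Pool.Agent.H47.ST

namespace Pool.Agent.H45.AC

variable {n : ℕ}

/-- the values of the action on the points of period `m` with mean index `t` -/
def Val (S : ℕ → Pt n → ℝ) (f : ℕ → Pt n → Pt n) (N m : ℕ) (t : ℝ) : Set ℝ :=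
  {x | ∃ w, flw f (m * N) w = w ∧ MeanIdx S f (m * N) w t ∧ av S f (m * N) w = x}

theorem LevK_val_fin {S : ℕ → Pt n → ℝ} {f : ℕ → Pt n → Pt n} (hS : ∀ j, Gen (S j) (f j))
    {N m : ℕ} (hN : 0 < N) (hm : 0 < m) (t : ℝ) (W : Finset (Pt n))
    (hW : ∀ w, flw f (m * N) w = w ↔ ∃ w' ∈ W, w - w' ∈ Zn n) : (Val S f N m t).Finite := by
  classical
  refine ((W.image (av S f (m * N))).finite_toSet).subset ?_
  rintro x ⟨w, h1, _, rfl⟩
  obtain ⟨w', hw', hww⟩ := (hW w).1 h1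
  exact Finset.mem_coe.2 (Finset.mem_image.2 ⟨w', hw',
    (LevK_av_add hS (Nat.mul_pos hm hN) hww).symm⟩)

theorem LevK_sig {S : ℕ → Pt n → ℝ} {f : ℕ → Pt n → Pt n} (hS : ∀ j, Gen (S j) (f j)) {N : ℕ}
    (hN : 0 < N) (hper : ∀ j, S (j + N) = S j) (hfper : ∀ j, f (j + N) = f j) {k k' r : ℕ}
    (hk0 : 0 < k') (hk : k' ≤ k) (hr : 0 < r) [NeZero (r * (k * N))] {w : Pt n}
    (hw : flw f (r * (k' * N)) w = w) :
    sigNeg (hess (fS (padS S (k * N) (k' * N)) (r * (k * N)))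
      (zw (padf f (k * N) (k' * N)) (r * (k * N)) w)) = LevKi S f N k r k' w := by
  rw [fS_sigNeg (pad_gen hS (k * N) (k' * N)), pad_ind hS hN hper hfper hk0 hk hr hw]
  rfl

theorem LevK_adm {S : ℕ → Pt n → ℝ} {f : ℕ → Pt n → Pt n} (hS : ∀ j, Gen (S j) (f j)) {N : ℕ}
    (hN : 0 < N) (hper : ∀ j, S (j + N) = S j) (hfper : ∀ j, f (j + N) = f j) {k k' r : ℕ}
    (hk0 : 0 < k') (hk : k' ≤ k) (hr : 0 < r) [NeZero (r * (k * N))] (W' : Finset (Pt n))
    (hW : ∀ w, flw f (r * (k' * N)) w = w ↔ ∃ w' ∈ W', w - w' ∈ Zn n)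
    (hWd : ∀ w ∈ W', ∀ w' ∈ W', w - w' ∈ Zn n → w = w') (C : ℝ)
    (hC : ∀ y b, |fderiv ℝ (fS (padS S (k * N) (k' * N)) (r * (k * N))) y (Pi.single b 1) -
      DK n (r * (k * N)) y b| ≤ C) (G₁ G₂ : ℕ)
    (hG : ∀ w, flw f (r * (k' * N)) w = w → ∀ G, (G = G₁ ∨ G = G₂) →
        ¬ (LevKi S f N k r k' w < G ∧ G ≤ LevKi S f N k r k' w + 2 * n + 1)) :
    Adm n (r * (k * N)) (shp n r (k * N)) C G₁ G₂ (fS (padS S (k * N) (k' * N)) (r * (k * N)))
      (W'.image (zw (padf f (k * N) (k' * N)) (r * (k * N)))) := by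
  have hgen := pad_gen hS (k * N) (k' * N)
  have hpS : ∀ j, padS S (k * N) (k' * N) (j + k * N) = padS S (k * N) (k' * N) j :=
    padS_per (LevK_per hper k) (k' * N)
  have hfl : ∀ w, flw (padf f (k * N) (k' * N)) (r * (k * N)) w = flw f (r * (k' * N)) w :=
    fun w => pad_flw hfper hk r w
  refine ⟨fS_smooth hgen _, fS_per hgen _, fS_shift r (k * N) hpS, hC, ?_, ?_, ?_⟩
  · refine GrowA_crit hgen (r * (k * N)) W' (fun w => ?_) _ (fun z => Finset.mem_image)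
    rw [hfl]
    exact hW w
  · intro z hz z' hz' l hl he
    obtain ⟨w, hw, rfl⟩ := Finset.mem_image.1 hz
    obtain ⟨w', hw', rfl⟩ := Finset.mem_image.1 hz'
    rw [hWd w' hw' w hw ((zw_add hgen _ w' w).1 ⟨l, hl, he⟩)]
  · intro z hz G hG' ⟨h1, h2⟩
    obtain ⟨w, hw, rfl⟩ := Finset.mem_image.1 hz
    have hwf : flw f (r * (k' * N)) w = w :=
      (hW w).2 ⟨w, hw, by rw [sub_self]; exact (Zn n).zero_mem⟩
    have h3 := fS_null hgen (r * (k * N)) w
    have h4 : ind (padS S (k * N) (k' * N)) (padf f (k * N) (k' * N)) (r * (k * N)) w =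
        LevKi S f N k r k' w := pad_ind hS hN hper hfper hk0 hk hr hwf
    rw [h4] at h3
    rw [LevK_sig hS hN hper hfper hk0 hk hr hwf] at h1
    exact hG w hwf G hG' ⟨h1, by omega⟩

/-- the levels give values of the action -/
theorem LevK_Lam {S : ℕ → Pt n → ℝ} {f : ℕ → Pt n → Pt n} (hS : ∀ j, Gen (S j) (f j)) {N : ℕ}
    (hN : 0 < N) (hper : ∀ j, S (j + N) = S j) (hfper : ∀ j, f (j + N) = f j) {k k' r : ℕ}
    (hk0 : 0 < k') (hk : k' ≤ k) (hr : 2 ≤ r) [NeZero (r * (k * N))] (W' : Finset (Pt n))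
    (hW : ∀ w, flw f (r * (k' * N)) w = w ↔ ∃ w' ∈ W', w - w' ∈ Zn n) (G₁ G₂ : ℕ) (t : ℝ)
    (hG : ∀ w, flw f (k' * N) w = w →
        ((G₁ ≤ LevKi S f N k r k' w ∧ LevKi S f N k r k' w + 1 < G₂) ↔
          MeanIdx S f (k' * N) w t)) (hfin : (Val S f N k' t).Finite) :
    (Lam (shp n r (k * N)) G₁ G₂ (fS (padS S (k * N) (k' * N)) (r * (k * N)))
      (W'.image (zw (padf f (k * N) (k' * N)) (r * (k * N))))).card ≤ (Val S f N k' t).ncard := by
  classical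
  have hkN : 0 < k * N := Nat.mul_pos (lt_of_lt_of_le hk0 hk) hN
  have hk'N : 0 < k' * N := Nat.mul_pos hk0 hN
  have hr0 : 0 < r := by omega
  have hrr : (r : ℝ) ≠ 0 := by exact_mod_cast hr0.ne'
  rw [Set.ncard_eq_toFinset_card _ hfin,
    ← Finset.card_image_of_injective hfin.toFinset (f := fun x : ℝ => (r : ℝ) * x)
      (mul_right_injective₀ hrr)]
  refine Finset.card_le_card ?_
  intro x hx
  unfold Lam at hx
  obtain ⟨z, hz, rfl⟩ := Finset.mem_image.1 hx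
  obtain ⟨hz1, hz2, hz3⟩ := Finset.mem_filter.1 hz
  obtain ⟨w, hw, rfl⟩ := Finset.mem_image.1 hz1
  have hwf : flw f (r * (k' * N)) w = w :=
    (hW w).2 ⟨w, hw, by rw [sub_self]; exact (Zn n).zero_mem⟩
  have hwk : flw f (k' * N) w = w := by
    have h1 := LevK_inv hr hkN hz2
    have h2 := pad_flw hfper hk 1 w
    rw [one_mul, one_mul] at h2
    rw [← h2]
    exact h1
  have hm : MeanIdx S f (k' * N) w t := by
    refine (hG w hwk).1 ?_
    unfold ClI at hz3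
    rw [LevK_sig hS hN hper hfper hk0 hk hr0 hwf] at hz3
    exact hz3
  refine Finset.mem_image.2 ⟨av S f (k' * N) w, ?_, ?_⟩
  · rw [Set.Finite.mem_toFinset]
    exact ⟨w, hwk, hm, rfl⟩
  · rw [LevK_fS_zw, pad_av hS hN hper hfper hk0 hk hr0 hwf,
      LevK_av_mul hk'N hr0 (LevK_per hper k') (LevK_per hfper k') w hwk]

end Pool.Agent.H45.AC
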