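import Pool.Agent.H45.AC.LevK
import Pool.Agent.H45.AC.CntB
import Pool.Agent.H47.ST.GrowB

/-!
# Project AC: action clusters give quadratic growth
-/

set_option autoImplicit false

open Module QuadraticForm Filter Topology Function
open Pool.Agent.H47.QG (Pt action flw oseq Gen ind hess Zn MeanIdx LocIdx Sys orbs)
open Pool.Agent.H47.ST

namespace Pool.Agent.H45.AC

variable {n : ℕ}

/-- the action is invariant along the orbit -/
theorem av_map {S : ℕ → Pt n → ℝ} {f : ℕ → Pt n → Pt n} (hS : ∀ j, Gen (S j) (f j)) {N : ℕ}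
    (hN : 0 < N) (hper : ∀ j, S (j + N) = S j) (hfper : ∀ j, f (j + N) = f j) (w : Pt n) (m : ℕ)
    (hw : flw f (m * N) w = w) : av S f (m * N) (flw f N w) = av S f (m * N) w := by
  unfold av
  by_cases h : m * N = 0
  · rw [dif_pos h, dif_pos h]
  rw [dif_neg h, dif_neg h]
  have : NeZero (m * N) := ⟨h⟩
  have hp : 0 < m := Nat.pos_of_ne_zero fun h0 => h (by rw [h0, Nat.zero_mul])
  have hNK : N ≤ m * N := Nat.le_mul_of_pos_left N hp
  have hz : oseq f (m * N) (flw f N w) = H47.QG.shiftN n (m * N) N (oseq f (m * N) w) := by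
    funext j
    show flw f j (flw f N w) = flw f ((j + Fin.ofNat (m * N) N : Fin (m * N)) : ℕ) w
    rw [← H47.QG.IterT_flw_add f N hfper, Fin.val_add]
    have e : ((Fin.ofNat (m * N) N : Fin (m * N)) : ℕ) = N % (m * N) := rfl
    rw [e, Nat.add_mod_mod]
    by_cases hj : (j : ℕ) + N < m * N
    · rw [Nat.mod_eq_of_lt hj]
    · have hj' : m * N ≤ (j : ℕ) + N := not_lt.1 hj
      have hlt : (j : ℕ) + N - m * N < m * N := by
        have := j.2
        omega
      have e2 : ((j : ℕ) + N) % (m * N) = (j : ℕ) + N - m * N := by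
        rw [Nat.mod_eq_sub_mod hj', Nat.mod_eq_of_lt hlt]
      rw [e2]
      have e3 : (j : ℕ) + N = ((j : ℕ) + N - m * N) + m * N := by omega
      conv_lhs => rw [e3]
      rw [H47.QG.IterT_flw_add f (m * N) (H47.QG.IterT_per f N m hfper), hw]
  rw [hz]
  exact H47.QG.action_shift S m N hper _

theorem av_translate {S : ℕ → Pt n → ℝ} {f : ℕ → Pt n → Pt n} (hS : ∀ j, Gen (S j) (f j))
    (K : ℕ) (w e : Pt n) (he : e ∈ Zn n) (hw : flw f K w = w) :
    av S f K (w + e) = av S f K w := by
  obtain ⟨a, b, rfl⟩ := he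
  unfold av
  by_cases h : K = 0
  · rw [dif_pos h, dif_pos h]
  rw [dif_neg h, dif_neg h]
  have : NeZero K := ⟨h⟩
  have hz : oseq f K (w + ((fun i => (a i : ℝ)), (fun i => (b i : ℝ)))) =
      oseq f K w + fun _ => ((fun i => (a i : ℝ)), (fun i => (b i : ℝ))) := by
    funext j
    exact H47.QG.IterT_flw S f hS a b w j
  rw [hz, H47.QG.IterT_action S f hS]

theorem Main_av (S : ℕ → Pt n → ℝ) (f : ℕ → Pt n → Pt n) (K : ℕ) [h : NeZero K] (w : Pt n) :
    av S f K w = action S K (oseq f K w) := by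
  unfold av
  rw [dif_neg h.ne]

/-- a gap around `a` for finitely many values -/
theorem Main_gap {ι : Type*} (act : ι → ℝ) (a : ℝ) (W : Finset ι) :
    ∃ κ > 0, ∀ w ∈ W, act w ≠ a → κ ≤ |act w - a| := by
  classical
  induction W using Finset.induction_on with
  | empty => exact ⟨1, one_pos, fun w hw => absurd hw (Finset.notMem_empty w)⟩
  | insert w W hw ih =>
    obtain ⟨κ, hκ, h⟩ := ih
    by_cases hwa : act w = a
    · refine ⟨κ, hκ, fun w' hw' hne => ?_⟩
      rcases Finset.mem_insert.1 hw' with rfl | h'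
      · exact absurd hwa hne
      · exact h w' h' hne
    · refine ⟨min κ |act w - a|, lt_min hκ (abs_pos.2 (sub_ne_zero.2 hwa)), fun w' hw' hne => ?_⟩
      rcases Finset.mem_insert.1 hw' with rfl | h'
      · exact min_le_right _ _
      · exact (min_le_left _ _).trans (h w' h' hne)

/-- infinitely many fixed points give growth -/
theorem Main_inf {F : Pt n → Pt n} {X : Type*} {φ : X → X} {π : Pt n → X}
    {Λ : AddSubgroup (Pt n)} (hsys : Sys F φ π Λ) {m : ℕ} (hm : 0 < m)
    (hinf : ¬ (π '' {w | F^[m] w = w}).Finite) : Grw φ := by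
  refine ⟨1, one_pos, ?_⟩
  filter_upwards [eventually_ge_atTop (m : ℝ)] with T hT
  have h1 := H47.QG.Cnt_infinite hsys hm hinf hT
  rw [h1.encard_eq]
  simp

/-- the mean index of multiples of the period -/
theorem Main_mul (S : ℕ → Pt n → ℝ) (f : ℕ → Pt n → Pt n) (K j : ℕ) (hj : 0 < j) (w : Pt n) (x : ℝ)
    (h : MeanIdx S f K w x) : MeanIdx S f (j * K) w (j * x) := by
  unfold MeanIdx at h ⊢
  have hj' : (j : ℝ) ≠ 0 := Nat.cast_ne_zero.2 hj.ne'
  have h1 : Tendsto (fun i : ℕ => i * j) atTop atTop :=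
    tendsto_id.atTop_mul_const' hj
  have h2 := (h.comp h1).mul_const (j : ℝ)
  have e1 : (j : ℝ) * x + n * ((j * K : ℕ) : ℝ) = (x + n * K) * j := by
    push_cast
    ring
  rw [e1]
  refine h2.congr fun i => ?_
  simp only [Function.comp_apply]
  rw [mul_assoc i j K]
  push_cast
  by_cases hi : (i : ℝ) = 0
  · rw [hi]
    simp
  · field_simp

/-- **Action clusters.** -/
theorem growth_AC {S : ℕ → Pt n → ℝ} {f : ℕ → Pt n → Pt n} (hS : ∀ j, Gen (S j) (f j))
    (hn : 0 < n) {N : ℕ} (hN : 0 < N) (hper : ∀ j, S (j + N) = S j)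
    (hfper : ∀ j, f (j + N) = f j) {X : Type*} {φ : X → X} {π : Pt n → X}
    (hsys : Sys (flw f N) φ π (Zn n)) (q : ℕ) [hqN : NeZero (q * N)] (s a : ℝ) (hs : s ≠ 0)
    (C : Finset (Pt n))
    (hC : ∀ w, (flw f (q * N) w = w ∧ MeanIdx S f (q * N) w s ∧
      action S (q * N) (oseq f (q * N) w) = a) ↔ ∃ c ∈ C, w - c ∈ Zn n)
    (hCd : ∀ c ∈ C, ∀ c' ∈ C, c - c' ∈ Zn n → c = c') (σ : Pt n → ℤ)
    (hσ : ∀ c ∈ C, LocIdx (action S (q * N)) (oseq f (q * N) c) (σ c))
    (hsum : ∑ c ∈ C, σ c ≠ 0) : Grw φ := by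
  classical
  by_contra hno
  have hq : 0 < q := Nat.pos_of_ne_zero (fun h0 => hqN.out (by rw [h0, zero_mul]))
  have hK0 : 0 < q * N := Nat.mul_pos hq hN
  have hperK : ∀ m j, S (j + m * N) = S j := by
    intro m
    induction m with
    | zero => intro j; rw [zero_mul, add_zero]
    | succ m ih => intro j; rw [Nat.succ_mul, ← add_assoc, hper, ih]
  have hperK' : ∀ m j, f (j + m * N) = f j := by
    intro m
    induction m with
    | zero => intro j; rw [zero_mul, add_zero]
    | succ m ih => intro j; rw [Nat.succ_mul, ← add_assoc, hfper, ih]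
  have hit : ∀ (p : ℕ) (w : Pt n), flw f (p * (q * N)) w = (flw f N)^[q * p] w := by
    intro p w
    have e1 : p * (q * N) = (q * p) * N := by ring
    rw [e1, H47.QG.flw_mul hfper]
  have hitk : ∀ w : Pt n, flw f (q * N) w = (flw f N)^[q] w := fun w => H47.QG.flw_mul hfper q w
  have hfixA : ∀ m : ℕ, ∀ w ∈ {w : Pt n | (flw f N)^[m] w = w}, ∀ e ∈ Zn n,
      w + e ∈ {w : Pt n | (flw f N)^[m] w = w} := by
    intro m w hw e he
    change (flw f N)^[m] (w + e) = w + e
    rw [← H47.QG.flw_mul hfper, H47.QG.flw_add_int hS _ _ _ he, H47.QG.flw_mul hfper,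
      show (flw f N)^[m] w = w from hw]
  have hfinm : ∀ m : ℕ, 0 < m → (π '' {w | (flw f N)^[m] w = w}).Finite := by
    intro m hm
    by_contra hinf
    exact hno (Main_inf hsys hm hinf)
  have hreps : ∀ m : ℕ, 0 < m → ∃ W : Finset (Pt n),
      (∀ w, flw f (m * (q * N)) w = w ↔ ∃ w' ∈ W, w - w' ∈ Zn n) ∧
      ∀ w ∈ W, ∀ w' ∈ W, w - w' ∈ Zn n → w = w' := by
    intro m hm
    obtain ⟨W, -, hW, hWd⟩ := H47.QG.exists_reps hsys.ker {w | (flw f N)^[q * m] w = w}
      (hfixA (q * m)) (hfinm (q * m) (Nat.mul_pos hq hm)) ∅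
      (fun c hc => absurd hc (Finset.notMem_empty c))
      (fun c hc => absurd hc (Finset.notMem_empty c))
    exact ⟨W, fun w => by rw [hit]; exact hW w, hWd⟩
  have hvmap : ∀ m w, (flw f N)^[q * m] w = w →
      ind S f (m * (q * N)) (flw f N w) = ind S f (m * (q * N)) w := by
    intro m w hw
    have e1 : m * (q * N) = (m * q) * N := by ring
    rw [e1]
    refine H47.QG.ind_map S f hS N hN hper hfper w (m * q) ?_
    rw [← e1, hit]; exact hw
  have hvtr : ∀ m w, ∀ e ∈ Zn n, (flw f N)^[q * m] w = w →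
      ind S f (m * (q * N)) (w + e) = ind S f (m * (q * N)) w := by
    rintro m w _ ⟨a, b, rfl⟩ _
    exact H47.QG.ind_translate S f hS _ w a b
  obtain ⟨B, hB0, hB⟩ := S_bdd hS hN hper
  -- the gap
  obtain ⟨W, hW, -⟩ := hreps 1 one_pos
  obtain ⟨κ, hκ0, hκ⟩ := Main_gap (fun w => action S (q * N) (oseq f (q * N) w)) a W
  have hκ' : ∀ w, flw f (q * N) w = w → MeanIdx S f (q * N) w s →
      |action S (q * N) (oseq f (q * N) w) - a| < κ →
      action S (q * N) (oseq f (q * N) w) = a := by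
    intro w hw _ hlt
    obtain ⟨w', hw', he⟩ := (hW w).1 (by rw [one_mul]; exact hw)
    have hfw' : flw f (q * N) w' = w' := by
      have := (hW w').2 ⟨w', hw', by rw [sub_self]; exact (Zn n).zero_mem⟩
      rwa [one_mul] at this
    have h1 : action S (q * N) (oseq f (q * N) w) = action S (q * N) (oseq f (q * N) w') := by
      have h2 := av_translate hS (q * N) w' (w - w') he hfw'
      rw [add_sub_cancel, Main_av, Main_av] at h2
      exact h2
    by_contra hne
    have h3 := hκ w' hw' (by rw [← h1]; exact hne)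
    rw [← h1] at h3
    linarith
  set C1 : ℝ := 2 * ((q * N : ℕ) : ℝ) * B + 1 with hC1
  have hC10 : 0 < C1 := by positivity
  refine hno (ac_growth hsys q hq (fun m w => av S f (m * (q * N)) w)
    (fun m w x => MeanIdx S f (m * (q * N)) w x) ?_ ?_ ?_ ?_ ?_ ?_ s hs
    (min (κ / C1) (1 / 4)) 1 (lt_min (by positivity) (by norm_num))
    (fun m hm => hfinm (q * m) (Nat.mul_pos hq hm)) ?_)
  · intro m w hw
    have e1 : m * (q * N) = (m * q) * N := by ring
    rw [e1]
    refine av_map hS hN hper hfper w (m * q) ?_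
    rw [← e1, hit]; exact hw
  · intro m w e he hw
    exact av_translate hS _ w e he (by rw [hit]; exact hw)
  · intro m w x hw
    unfold MeanIdx
    refine tendsto_congr fun i => ?_
    have e1 : i * (m * (q * N)) = (i * m) * (q * N) := by ring
    rw [e1, hvmap (i * m) w]
    have e2 : q * (i * m) = (q * m) * i := by ring
    rw [e2, Function.iterate_mul]
    exact Function.iterate_fixed hw i
  · intro m w x e he hw
    unfold MeanIdx
    refine tendsto_congr fun i => ?_
    have e1 : i * (m * (q * N)) = (i * m) * (q * N) := by ring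
    rw [e1, hvtr (i * m) w e he]
    have e2 : q * (i * m) = (q * m) * i := by ring
    rw [e2, Function.iterate_mul]
    exact Function.iterate_fixed hw i
  · intro m w x x' h1 h2
    have h3 := tendsto_nhds_unique h1 h2
    linarith
  · intro m j w x hj _ h1
    have h2 := Main_mul S f (m * (q * N)) j hj w x h1
    rwa [← mul_assoc] at h2
  · intro k hkp
    have hk := hkp.pos
    have h1 := level_k hS hn (N := q * N) (hperK q) (hperK' q) B hB0 hB s a κ hκ0 hκ' C hC hCd σ
      hσ hsum k hk hreps (by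
        intro ε hε r₀
        obtain ⟨r, hr, hr0, hrk⟩ := good_primes hsys q hq (fun m w => ind S f (m * (q * N)) w)
          hvmap hvtr hno k ε hε r₀
        refine ⟨r, hr, hr0, fun k' hk' hkk => ?_⟩
        have h2 := hrk k' hk' hkk
        have h3 : {v : ℕ | ∃ w, flw f (r * (k' * (q * N))) w = w ∧ flw f (k' * (q * N)) w ≠ w ∧
            ind S f (r * (k' * (q * N))) w = v} =
            {v : ℕ | ∃ w, (flw f N)^[q * (r * k')] w = w ∧ (flw f N)^[q * k'] w ≠ w ∧
            ind S f ((r * k') * (q * N)) w = v} := by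
          ext v
          refine exists_congr fun w => ?_
          rw [← mul_assoc r k' (q * N), hit, hit]
        rw [h3]
        exact h2)
    have h2 : ∀ i ∈ Finset.range (k / 2 + 1), ((Val S f (q * N) (k - i) (k * s)).ncard : ℝ) =
        ({x : ℝ | ∃ w, (flw f N)^[q * (k - i)] w = w ∧
          MeanIdx S f ((k - i) * (q * N)) w (k * s) ∧
          av S f ((k - i) * (q * N)) w = x}.ncard : ℝ) := by
      intro i _
      have h3 : Val S f (q * N) (k - i) (k * s) = {x : ℝ | ∃ w, (flw f N)^[q * (k - i)] w = w ∧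
          MeanIdx S f ((k - i) * (q * N)) w (k * s) ∧
          av S f ((k - i) * (q * N)) w = x} := by
        unfold Val
        ext x
        refine exists_congr fun w => ?_
        rw [hit]
      rw [h3]
    rw [Finset.sum_congr rfl h2] at h1
    refine le_trans (le_min ?_ ?_) h1
    · have h3 : min (κ / C1) (1 / 4) ≤ κ / C1 := min_le_left _ _
      have h4 : (0 : ℝ) ≤ k := Nat.cast_nonneg k
      have h5 : (k : ℝ) * κ / C1 = κ / C1 * k := by ring
      rw [h5]
      have h6 := mul_le_mul_of_nonneg_right h3 h4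
      linarith
    · have h3 : min (κ / C1) (1 / 4) ≤ 1 / 4 := min_le_right _ _
      have h4 : (0 : ℝ) ≤ k := Nat.cast_nonneg k
      have h5 := mul_le_mul_of_nonneg_right h3 h4
      have h6 : (k : ℝ) ≤ 2 * ((k / 2 : ℕ) : ℝ) + 1 := by
        exact_mod_cast (by omega : k ≤ 2 * (k / 2) + 1)
      linarith

end Pool.Agent.H45.AC
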