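import Pool.Agent.H47.ST.GrowA

/-!
# Project AC: the second variation of an iterate, in blocks
-/

set_option autoImplicit false

open Module QuadraticForm
open Pool.Agent.H47.QG (Pt action flw oseq Gen ind hess Zn MeanIdx)
open Pool.Agent.H47.ST

namespace Pool.Agent.H45.AC

variable {n : ℕ}

/-- a long sequence from its blocks -/
def blk (n K M : ℕ) (v : Fin M → Fin K → Pt n) : Fin (M * K) → Pt n :=
  fun j => v j.divNat j.modNat

theorem MeanA_blk (K M : ℕ) (v : Fin M → Fin K → Pt n) (i : Fin M) (j : Fin K) :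
    blk n K M v (finProdFinEquiv (i, j)) = v i j := by
  have h := finProdFinEquiv.symm_apply_apply (i, j)
  have h1 : (finProdFinEquiv (i, j)).divNat = i := congrArg Prod.fst h
  have h2 : (finProdFinEquiv (i, j)).modNat = j := congrArg Prod.snd h
  unfold blk
  rw [h1, h2]

theorem MeanA_val (K M : ℕ) (i : Fin M) (j : Fin K) :
    ((finProdFinEquiv (i, j) : Fin (M * K)) : ℕ) = i * K + j := by
  rw [finProdFinEquiv_apply_val, Nat.mul_comm, Nat.add_comm]

/-- the next position, inside a block -/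
theorem MeanA_next (K M : ℕ) [NeZero K] [NeZero (M * K)] (i : Fin M) (j : Fin K)
    (h : (j : ℕ) + 1 < K) (h' : ((j + 1 : Fin K) : ℕ) = j + 1) :
    (finProdFinEquiv (i, j) : Fin (M * K)) + 1 = finProdFinEquiv (i, j + 1) := by
  apply Fin.ext
  have h1 := (finProdFinEquiv (i, j + 1) : Fin (M * K)).isLt
  rw [MeanA_val, h'] at h1
  rw [Pool.Agent.H47.QG.ActH_val, MeanA_val, MeanA_val, h', Nat.add_assoc, Nat.mod_eq_of_lt h1]

/-- the next position, at the end of a block -/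
theorem MeanA_last (K M : ℕ) [NeZero K] [NeZero M] [NeZero (M * K)] (i : Fin M) (j : Fin K)
    (h : (j : ℕ) + 1 = K) :
    (finProdFinEquiv (i, j) : Fin (M * K)) + 1 = finProdFinEquiv (i + 1, 0) := by
  apply Fin.ext
  have h1 : ((0 : Fin K) : ℕ) = 0 := Fin.val_zero _
  rw [Pool.Agent.H47.QG.ActH_val, MeanA_val, MeanA_val, h1, Pool.Agent.H47.QG.ActH_val,
    Nat.add_assoc, h, add_zero]
  have h2 : (i : ℕ) * K + K = K * (i + 1) := by ring
  rw [h2, Nat.mul_comm M K, Nat.mul_mod_mul_left, Nat.mul_comm]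

/-- the change of a quadratic form -/
theorem MeanA_quad (B : Pt n →L[ℝ] Pt n →L[ℝ] ℝ) (a d y : Fin n → ℝ) (r : ℝ) (ha : ‖a‖ ≤ r)
    (hy : ‖y‖ ≤ r) :
    2 * ∑ i, y i * d i - (B (a + d, y) (a + d, y) - B (a, y) (a, y)) ≤
      (2 * n + 2 * ‖B‖) * ‖d‖ * (r + ‖d‖) := by
  have hr : 0 ≤ r := (norm_nonneg _).trans ha
  have h1 : ∑ i, y i * d i ≤ n * (r * ‖d‖) := by
    have h2 : ∀ i ∈ (Finset.univ : Finset (Fin n)), y i * d i ≤ r * ‖d‖ := by
      intro i _
      refine (le_abs_self _).trans ?_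
      rw [abs_mul]
      have h3 : |y i| ≤ r := (norm_le_pi_norm y i).trans hy
      have h4 : |d i| ≤ ‖d‖ := norm_le_pi_norm d i
      exact mul_le_mul h3 h4 (abs_nonneg _) hr
    refine (Finset.sum_le_sum h2).trans ?_
    rw [Finset.sum_const, Finset.card_univ, Fintype.card_fin, nsmul_eq_mul]
  set u : Pt n := (a, y) with hu
  set e : Pt n := (d, 0) with he
  have h3 : ((a + d, y) : Pt n) = u + e := by
    rw [hu, he, Prod.mk_add_mk, add_zero]
  have h4 : ‖u‖ ≤ r := by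
    rw [hu, Prod.norm_mk]
    exact max_le ha hy
  have h5 : ‖e‖ = ‖d‖ := by
    rw [he, Prod.norm_mk, norm_zero]
    exact max_eq_left (norm_nonneg _)
  have h6 : B (u + e) (u + e) - B u u = B u e + B e u + B e e := by
    rw [map_add B u e, ContinuousLinearMap.add_apply, map_add (B u), map_add (B e)]
    ring
  have hb : ∀ x z : Pt n, |B x z| ≤ ‖B‖ * ‖x‖ * ‖z‖ := fun x z => by
    rw [← Real.norm_eq_abs]
    exact B.le_opNorm₂ x z
  have h7 : |B u e| ≤ ‖B‖ * r * ‖d‖ := (hb u e).trans (by rw [h5]; gcongr)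
  have h8 : |B e u| ≤ ‖B‖ * r * ‖d‖ := (hb e u).trans (by
    rw [h5, mul_right_comm]; gcongr)
  have h9 : |B e e| ≤ ‖B‖ * ‖d‖ * ‖d‖ := (hb e e).trans (by rw [h5])
  rw [h3, h6]
  have k7 := (abs_le.1 h7).1
  have k8 := (abs_le.1 h8).1
  have k9 := (abs_le.1 h9).1
  have hB : 0 ≤ ‖B‖ := by positivity
  have hd : 0 ≤ ‖d‖ := norm_nonneg _
  have hn : (0 : ℝ) ≤ n := Nat.cast_nonneg n
  have e1 : 0 ≤ (n : ℝ) * (‖d‖ * ‖d‖) := by positivity
  have e2 : 0 ≤ ‖B‖ * ‖d‖ * ‖d‖ := by positivity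
  nlinarith

/-- second variation of an iterate, in blocks -/
theorem long_hess {S : ℕ → Pt n → ℝ} {f : ℕ → Pt n → Pt n} (hS : ∀ j, Gen (S j) (f j))
    (K : ℕ) [NeZero K] (hper : ∀ j, S (j + K) = S j) (hfper : ∀ j, f (j + K) = f j) (w : Pt n)
    (hw : flw f K w = w) :
    ∃ C : ℝ, 0 ≤ C ∧ ∀ (M : ℕ) [NeZero M] [NeZero (M * K)] (v : Fin M → Fin K → Pt n),
      hess (action S (M * K)) (oseq f (M * K) w) (blk n K M v) ≤
        ∑ i, (hess (action S K) (oseq f K w) (v i) +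
          C * ‖(v (i + 1) 0).1 - (v i 0).1‖ * (‖v i‖ + ‖(v (i + 1) 0).1 - (v i 0).1‖)) := by
  set B : Pt n →L[ℝ] Pt n →L[ℝ] ℝ := fderiv ℝ (fderiv ℝ (S (K - 1)))
    ((flw f K w).1, (flw f (K - 1) w).2) with hB
  refine ⟨2 * n + 2 * ‖B‖, by positivity, fun M hM hMK v => ?_⟩
  have hSm : ∀ j, ContDiff ℝ 2 (S j) := fun j => (hS j).smooth
  have hM0 : flw f (M * K) w = w := by
    have h := Pool.Agent.H47.QG.IterA_flw_mul f hfper hw M 0
    rw [add_zero] at h
    exact h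
  rw [Pool.Agent.H47.QG.hess_action S hSm (M * K), ← finProdFinEquiv.sum_comp,
    Fintype.sum_prod_type]
  refine Finset.sum_le_sum fun i _ => ?_
  rw [Pool.Agent.H47.QG.hess_action S hSm K]
  set c : ℝ := (2 * n + 2 * ‖B‖) * ‖(v (i + 1) 0).1 - (v i 0).1‖ *
    (‖v i‖ + ‖(v (i + 1) 0).1 - (v i 0).1‖) with hc
  have hc1 : ∑ j : Fin K, (if (j : ℕ) + 1 = K then c else 0) = c := by
    have hKp : 0 < K := Nat.pos_of_neZero K
    rw [Finset.sum_eq_single (⟨K - 1, by omega⟩ : Fin K)]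
    · rw [if_pos]
      change K - 1 + 1 = K
      omega
    · intro j _ hj
      rw [if_neg]
      intro h
      apply hj
      apply Fin.ext
      change (j : ℕ) = K - 1
      omega
    · intro h
      exact absurd (Finset.mem_univ _) h
  rw [← hc1, ← Finset.sum_add_distrib]
  refine Finset.sum_le_sum fun j _ => ?_
  -- the points of the orbit
  have h1 : S ((finProdFinEquiv (i, j) : Fin (M * K)) : ℕ) = S j := by
    rw [MeanA_val, Pool.Agent.H47.QG.IterA_S_mul S hper]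
  have h2 : oseq f (M * K) w (finProdFinEquiv (i, j) + 1) = flw f (j + 1) w := by
    rw [Pool.Agent.H47.QG.IterA_oseq f hM0, MeanA_val, Nat.add_assoc,
      Pool.Agent.H47.QG.IterA_flw_mul f hfper hw]
  have h3 : oseq f (M * K) w (finProdFinEquiv (i, j)) = flw f j w := by
    change flw f ((finProdFinEquiv (i, j) : Fin (M * K)) : ℕ) w = _
    rw [MeanA_val, Pool.Agent.H47.QG.IterA_flw_mul f hfper hw]
  have h4 : oseq f K w (j + 1) = flw f (j + 1) w := Pool.Agent.H47.QG.IterA_oseq f hw j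
  have h5 : oseq f K w j = flw f j w := rfl
  rw [h1, h2, h3, h4, h5, MeanA_blk]
  rcases Pool.Agent.H47.QG.IterA_succ K j with ⟨e1, e2⟩ | ⟨e1, e2⟩
  · rw [MeanA_next K M i j e1 e2, MeanA_blk, if_neg (by omega), add_zero]
  · have e3 : (j + 1 : Fin K) = 0 := by
      apply Fin.ext
      rw [e2]
      exact (Fin.val_zero _).symm
    rw [MeanA_last K M i j e1, MeanA_blk, if_pos e1, e3]
    have e4 : (j : ℕ) = K - 1 := by omega
    have e5 : hess (S j) ((flw f (j + 1) w).1, (flw f j w).2) =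
        hess (S (K - 1)) ((flw f K w).1, (flw f (K - 1) w).2) := by
      rw [e1, e4]
    rw [e5, Pool.Agent.H47.QG.hess_apply, Pool.Agent.H47.QG.hess_apply, ← hB]
    have ha : ‖(v i 0).1‖ ≤ ‖v i‖ := (norm_fst_le _).trans (norm_le_pi_norm (v i) 0)
    have hy : ‖(v i j).2‖ ≤ ‖v i‖ := (norm_snd_le _).trans (norm_le_pi_norm (v i) j)
    have hq := MeanA_quad B (v i 0).1 ((v (i + 1) 0).1 - (v i 0).1) (v i j).2 ‖v i‖ ha hy
    rw [add_sub_cancel, ← hc] at hq
    have e6 : ∑ l, (v i j).2 l * ((v (i + 1) 0).1 l - (v i j).1 l) =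
        ∑ l, (v i j).2 l * ((v i 0).1 l - (v i j).1 l) +
          ∑ l, (v i j).2 l * ((v (i + 1) 0).1 - (v i 0).1) l := by
      rw [← Finset.sum_add_distrib]
      refine Finset.sum_congr rfl fun l _ => ?_
      rw [Pi.sub_apply]
      ring
    rw [e6]
    linarith

/-- index of an iterate from a space of blocks -/
theorem le_ind_blk {S : ℕ → Pt n → ℝ} {f : ℕ → Pt n → Pt n} (K : ℕ) [NeZero K] (w : Pt n)
    (M : ℕ) [NeZero M] (W : Submodule ℝ (Fin M → Fin K → Pt n))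
    (hW : ∀ v ∈ W, v ≠ 0 →
      haveI : NeZero (M * K) := ⟨Nat.mul_ne_zero (NeZero.ne M) (NeZero.ne K)⟩
      hess (action S (M * K)) (oseq f (M * K) w) (blk n K M v) < 0) :
    finrank ℝ W ≤ ind S f (M * K) w := by
  have : NeZero (M * K) := ⟨Nat.mul_ne_zero (NeZero.ne M) (NeZero.ne K)⟩
  rw [Pool.Agent.H47.QG.ind_eq]
  let e : (Fin M → Fin K → Pt n) →ₗ[ℝ] (Fin (M * K) → Pt n) :=
    { toFun := blk n K M
      map_add' := fun _ _ => rfl
      map_smul' := fun _ _ => rfl }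
  have he : Function.Injective e := by
    intro v v' h
    funext i j
    rw [← MeanA_blk K M v i j, ← MeanA_blk K M v' i j]
    exact congrFun h _
  rw [(Submodule.equivMapOfInjective e he W).finrank_eq]
  apply Pool.Agent.H47.QG.le_sigNeg
  rintro _ ⟨v, hv, rfl⟩ hne
  exact hW v hv (fun h0 => hne (by rw [h0, map_zero]))

end Pool.Agent.H45.AC
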