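import Pool.Agent.H47.ST.GrowA

/-!
# Project AC: systems with omitted steps
-/

set_option autoImplicit false

open Module QuadraticForm
open Pool.Agent.H47.QG (Pt action flw oseq Gen ind hess Zn)
open Pool.Agent.H47.ST

namespace Pool.Agent.H45.AC

variable {n : ℕ}

/-- the generating functions, the last `P - Q` steps of every block of `P` steps omitted -/
def padS (S : ℕ → Pt n → ℝ) (P Q : ℕ) (j : ℕ) : Pt n → ℝ := if j % P < Q then S j else 0

/-- the maps, the last `P - Q` steps of every block of `P` steps omitted -/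
def padf (f : ℕ → Pt n → Pt n) (P Q : ℕ) (j : ℕ) : Pt n → Pt n := if j % P < Q then f j else id

/-- the action of the orbit of `w` -/
noncomputable def av (S : ℕ → Pt n → ℝ) (f : ℕ → Pt n → Pt n) (K : ℕ) (w : Pt n) : ℝ :=
  if h : K = 0 then 0 else
    haveI : NeZero K := ⟨h⟩
    action S K (oseq f K w)

theorem av_eq (S : ℕ → Pt n → ℝ) (f : ℕ → Pt n → Pt n) (K : ℕ) [NeZero K] (w : Pt n) :
    av S f K w = action S K (oseq f K w) := by
  unfold av
  rw [dif_neg (NeZero.ne K)]

theorem padS_self (S : ℕ → Pt n → ℝ) {P : ℕ} (hP : 0 < P) : padS S P P = S := by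
  funext j
  unfold padS
  rw [if_pos (Nat.mod_lt j hP)]

theorem padf_self (f : ℕ → Pt n → Pt n) {P : ℕ} (hP : 0 < P) : padf f P P = f := by
  funext j
  unfold padf
  rw [if_pos (Nat.mod_lt j hP)]

theorem gen_zero : Gen (0 : Pt n → ℝ) (id : Pt n → Pt n) := by
  have h1 : fderiv ℝ (0 : Pt n → ℝ) = 0 := by
    ext1 z
    exact (hasFDerivAt_const (0 : ℝ) z).fderiv
  refine ⟨contDiff_const, fun _ _ _ => rfl, fun z z' => ?_, fun z v hv => ?_⟩
  · rw [h1]
    constructor
    · rintro rfl i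
      constructor
      · change z.1 i = z.1 i + 0
        rw [add_zero]
      · change z.2 i = z.2 i - 0
        rw [sub_zero]
    · intro h
      refine Prod.ext (funext fun i => ?_) (funext fun i => ?_)
      · have h2 : z'.1 i = z.1 i + 0 := (h i).1
        rw [add_zero] at h2
        exact h2.symm
      · have h2 : z'.2 i = z.2 i - 0 := (h i).2
        rw [sub_zero] at h2
        exact h2.symm
  · have h2 : fderiv ℝ (0 : Pt n → (Pt n →L[ℝ] ℝ)) z = 0 :=
      (hasFDerivAt_const (0 : Pt n →L[ℝ] ℝ) z).fderiv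
    rw [h1] at hv
    ext i
    rw [hv i, h2]
    rfl

theorem pad_gen {S : ℕ → Pt n → ℝ} {f : ℕ → Pt n → Pt n} (hS : ∀ j, Gen (S j) (f j))
    (P Q : ℕ) : ∀ j, Gen (padS S P Q j) (padf f P Q j) := by
  intro j
  unfold padS padf
  by_cases h : j % P < Q
  · rw [if_pos h, if_pos h]
    exact hS j
  · rw [if_neg h, if_neg h]
    exact gen_zero

theorem padS_per {S : ℕ → Pt n → ℝ} {P : ℕ} (hper : ∀ j, S (j + P) = S j) (Q : ℕ) :
    ∀ j, padS S P Q (j + P) = padS S P Q j := by
  intro j
  unfold padS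
  rw [Nat.add_mod_right, hper]

theorem padf_per {f : ℕ → Pt n → Pt n} {P : ℕ} (hper : ∀ j, f (j + P) = f j) (Q : ℕ) :
    ∀ j, padf f P Q (j + P) = padf f P Q j := by
  intro j
  unfold padf
  rw [Nat.add_mod_right, hper]

/-- one block of the shortened system -/
theorem Pad_block (f : ℕ → Pt n → Pt n) {P Q : ℕ} (r : ℕ) (hr : r ≤ P) :
    flw (padf f P Q) r = flw f (min r Q) := by
  induction r with
  | zero => rw [Nat.zero_min]; rfl
  | succ r ih =>
    change padf f P Q r ∘ flw (padf f P Q) r = _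
    rw [ih (by omega)]
    unfold padf
    rw [Nat.mod_eq_of_lt (by omega : r < P)]
    by_cases h : r < Q
    · rw [if_pos h, min_eq_left h.le, min_eq_left (by omega : r + 1 ≤ Q)]
      rfl
    · rw [if_neg h, min_eq_right (by omega : Q ≤ r), min_eq_right (by omega : Q ≤ r + 1)]
      rfl

/-- multiples of a period are periods -/
theorem Pad_mul_per {α : Type*} {f : ℕ → α} {N : ℕ} (h : ∀ j, f (j + N) = f j) (k j : ℕ) :
    f (j + k * N) = f j := by
  induction k with
  | zero => rw [zero_mul, add_zero]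
  | succ k ih => rw [Nat.succ_mul, ← add_assoc, h, ih]

/-- the flow of the shortened system -/
theorem pad_flw {f : ℕ → Pt n → Pt n} {N : ℕ} (hfper : ∀ j, f (j + N) = f j) {k k' : ℕ}
    (hk : k' ≤ k) (m : ℕ) (w : Pt n) :
    flw (padf f (k * N) (k' * N)) (m * (k * N)) w = flw f (m * (k' * N)) w := by
  rw [Pool.Agent.H47.QG.flw_mul (padf_per (Pad_mul_per hfper k) _),
    Pool.Agent.H47.QG.flw_mul (Pad_mul_per hfper k'), Pad_block f _ le_rfl,
    min_eq_right (Nat.mul_le_mul_right N hk)]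

/-- a function with periodic differential table is bounded -/
theorem Pad_bdd {S : Pt n → ℝ} {f : Pt n → Pt n} (h : Gen S f) : ∃ C, ∀ z, |S z| ≤ C := by
  obtain ⟨C, hC⟩ := (isCompact_closedBall (0 : Pt n) 1).exists_bound_of_continuousOn
    h.smooth.continuous.continuousOn
  refine ⟨C, fun z => ?_⟩
  have h1 := h.periodic (fun i => Int.fract (z.1 i), fun i => Int.fract (z.2 i))
    (fun i => ⌊z.1 i⌋) (fun i => ⌊z.2 i⌋)
  have h2 : ((fun i => Int.fract (z.1 i)) + (fun i => ((⌊z.1 i⌋ : ℤ) : ℝ)) : Fin n → ℝ) = z.1 :=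
    funext fun i => Int.fract_add_floor _
  have h3 : ((fun i => Int.fract (z.2 i)) + (fun i => ((⌊z.2 i⌋ : ℤ) : ℝ)) : Fin n → ℝ) = z.2 :=
    funext fun i => Int.fract_add_floor _
  change S ((fun i => Int.fract (z.1 i)) + (fun i => ((⌊z.1 i⌋ : ℤ) : ℝ)),
    (fun i => Int.fract (z.2 i)) + (fun i => ((⌊z.2 i⌋ : ℤ) : ℝ))) = _ at h1
  rw [h2, h3] at h1
  change S z = _ at h1
  rw [h1, ← Real.norm_eq_abs]
  refine hC _ ?_
  rw [mem_closedBall_zero_iff, Prod.norm_def]
  refine max_le ?_ ?_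
  · refine (pi_norm_le_iff_of_nonneg zero_le_one).2 fun i => ?_
    rw [Real.norm_eq_abs, abs_of_nonneg (Int.fract_nonneg _)]
    exact (Int.fract_lt_one _).le
  · refine (pi_norm_le_iff_of_nonneg zero_le_one).2 fun i => ?_
    rw [Real.norm_eq_abs, abs_of_nonneg (Int.fract_nonneg _)]
    exact (Int.fract_lt_one _).le

/-- the generating functions are bounded -/
theorem S_bdd {S : ℕ → Pt n → ℝ} {f : ℕ → Pt n → Pt n} (hS : ∀ j, Gen (S j) (f j)) {N : ℕ}
    (hN : 0 < N) (hper : ∀ j, S (j + N) = S j) : ∃ B : ℝ, 0 ≤ B ∧ ∀ j z, |S j z| ≤ B := by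
  choose C hC using fun j => Pad_bdd (hS j)
  have h0 : ∀ j, 0 ≤ C j := fun j => (abs_nonneg _).trans (hC j 0)
  refine ⟨∑ j ∈ Finset.range N, C j, Finset.sum_nonneg fun j _ => h0 j, fun j z => ?_⟩
  have h1 : S j = S (j % N) := by
    have h2 := Pad_mul_per hper (j / N) (j % N)
    rw [mul_comm, Nat.mod_add_div] at h2
    exact h2
  rw [h1]
  exact (hC _ z).trans (Finset.single_le_sum (f := C) (fun i _ => h0 i)
    (Finset.mem_range.2 (Nat.mod_lt j hN)))

/-- the number of the omitted positions -/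
theorem Pad_count (P Q m : ℕ) (hQ : Q ≤ P) (B : ℝ) :
    ∑ j ∈ Finset.range (m * P), (if j % P < Q then (0 : ℝ) else B) = m * ((P - Q : ℕ) : ℝ) * B := by
  induction m with
  | zero => simp
  | succ m ih =>
    rw [Nat.succ_mul, Finset.sum_range_add, ih]
    have h1 : ∑ x ∈ Finset.range P, (if (m * P + x) % P < Q then (0 : ℝ) else B) =
        ((P - Q : ℕ) : ℝ) * B := by
      obtain ⟨r, rfl⟩ := Nat.exists_eq_add_of_le hQ
      rw [Finset.sum_range_add]
      have h2 : ∑ x ∈ Finset.range Q, (if (m * (Q + r) + x) % (Q + r) < Q then (0 : ℝ) else B) =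
          0 := by
        refine Finset.sum_eq_zero fun x hx => ?_
        rw [Finset.mem_range] at hx
        rw [if_pos]
        rw [Nat.mul_comm m, Nat.mul_add_mod, Nat.mod_eq_of_lt (by omega)]
        exact hx
      have h3 : ∀ x ∈ Finset.range r,
          (if (m * (Q + r) + (Q + x)) % (Q + r) < Q then (0 : ℝ) else B) = B := by
        intro x hx
        rw [Finset.mem_range] at hx
        rw [if_neg]
        rw [Nat.mul_comm m, Nat.mul_add_mod, Nat.mod_eq_of_lt (by omega)]
        omega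
      rw [h2, zero_add, Finset.sum_congr rfl h3, Finset.sum_const, Finset.card_range,
        nsmul_eq_mul, Nat.add_sub_cancel_left]
    rw [h1]
    push_cast
    ring

/-- sup norm distance of the actions -/
theorem pad_sup {S : ℕ → Pt n → ℝ} {B : ℝ} (hB : ∀ j z, |S j z| ≤ B) {N k k' m : ℕ}
    (hk : k' ≤ k) [NeZero (m * (k * N))] (y : Iz n (m * (k * N)) → ℝ) :
    |fS (padS S (k * N) (k' * N)) (m * (k * N)) y - fS S (m * (k * N)) y| ≤
      m * ((k - k' : ℕ) * N) * B := by
  rw [ActZ_split, ActZ_split, sub_sub_sub_cancel_left, ← Finset.sum_sub_distrib]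
  refine (Finset.abs_sum_le_sum_abs _ _).trans ?_
  have h1 : ∀ j : Fin (m * (k * N)), ∀ z : Pt n,
      |S j z - padS S (k * N) (k' * N) j z| ≤
        (if (j : ℕ) % (k * N) < k' * N then (0 : ℝ) else B) := by
    intro j z
    unfold padS
    by_cases h : (j : ℕ) % (k * N) < k' * N
    · rw [if_pos h, if_pos h, sub_self, abs_zero]
    · rw [if_neg h, if_neg h]
      change |S j z - 0| ≤ B
      rw [sub_zero]
      exact hB _ _
  refine (Finset.sum_le_sum fun j _ => h1 j _).trans ?_
  rw [Fin.sum_univ_eq_sum_range (fun j => if j % (k * N) < k' * N then (0 : ℝ) else B),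
    Pad_count _ _ _ (Nat.mul_le_mul_right N hk), ← Nat.sub_mul]
  push_cast
  exact le_rfl

end Pool.Agent.H45.AC
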