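import Pool.Agent.H45.AC.Pad

/-!
# Project AC: the action and the index of the shortened system
-/

set_option autoImplicit false

open Module QuadraticForm Filter Topology
open Pool.Agent.H47.QG (Pt action flw oseq Gen ind hess Zn MeanIdx)
open Pool.Agent.H47.ST

namespace Pool.Agent.H45.AC

variable {n : ℕ}

/-- one term of the action -/
noncomputable def PadA_T (S : ℕ → Pt n → ℝ) (f : ℕ → Pt n → Pt n) (w : Pt n) (j : ℕ) : ℝ :=
  ∑ i, (flw f j w).2 i * ((flw f (j + 1) w).1 i - (flw f j w).1 i) -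
    S j ((flw f (j + 1) w).1, (flw f j w).2)

theorem PadA_succ (f : ℕ → Pt n → Pt n) {K : ℕ} [NeZero K] {w : Pt n} (hw : flw f K w = w)
    (j : Fin K) : oseq f K w (j + 1) = flw f (j + 1) w := by
  unfold oseq
  by_cases h : (j : ℕ) + 1 < K
  · have h1 : ((j + 1 : Fin K) : ℕ) = (j : ℕ) + 1 := by
      rw [Fin.val_add, Fin.val_one', Nat.add_mod_mod, Nat.mod_eq_of_lt h]
    rw [h1]
  · have h2 : (j : ℕ) + 1 = K := by
      have := j.2
      omega
    have h1 : ((j + 1 : Fin K) : ℕ) = 0 := by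
      rw [Fin.val_add, Fin.val_one', Nat.add_mod_mod, h2, Nat.mod_self]
    rw [h1, h2, hw]
    rfl

theorem PadA_av (S : ℕ → Pt n → ℝ) (f : ℕ → Pt n → Pt n) {K : ℕ} (hK : 0 < K) {w : Pt n}
    (hw : flw f K w = w) : av S f K w = ∑ j ∈ Finset.range K, PadA_T S f w j := by
  haveI : NeZero K := ⟨hK.ne'⟩
  rw [av_eq, ← Fin.sum_univ_eq_sum_range]
  unfold action
  refine Finset.sum_congr rfl fun j _ => ?_
  rw [PadA_succ f hw j]
  rfl

theorem PadA_mul {α : Type*} {F : ℕ → α} {N : ℕ} (h : ∀ j, F (j + N) = F j) (a i : ℕ) :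
    F (a * N + i) = F i := by
  induction a with
  | zero => rw [zero_mul, zero_add]
  | succ a ih => rw [show (a + 1) * N + i = (a * N + i) + N by ring, h, ih]

theorem PadA_blk {P : ℕ} {b i : ℕ} (hi : i < P) : (b * P + i) % P = i := by
  rw [Nat.mul_comm, Nat.mul_add_mod, Nat.mod_eq_of_lt hi]

theorem PadA_flw {f : ℕ → Pt n → Pt n} {N : ℕ} (hfper : ∀ j, f (j + N) = f j) {k k' : ℕ}
    (hk : k' ≤ k) (b : ℕ) (w : Pt n) {i : ℕ} (hi : i ≤ k * N) :
    flw (padf f (k * N) (k' * N)) (b * (k * N) + i) w =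
      flw f (b * (k' * N) + min i (k' * N)) w := by
  induction i with
  | zero => rw [add_zero, Nat.zero_min, add_zero, pad_flw hfper hk]
  | succ i ih =>
    have hi' : i < k * N := hi
    have ih' := ih hi'.le
    rw [← add_assoc]
    change padf f (k * N) (k' * N) (b * (k * N) + i)
      (flw (padf f (k * N) (k' * N)) (b * (k * N) + i) w) = _
    rw [ih']
    unfold padf
    rw [PadA_blk hi']
    by_cases h : i < k' * N
    · rw [if_pos h, min_eq_left h.le, min_eq_left (show i + 1 ≤ k' * N from h), ← add_assoc]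
      change _ = f (b * (k' * N) + i) (flw f (b * (k' * N) + i) w)
      rw [show b * (k * N) + i = (b * k) * N + i by ring, PadA_mul hfper,
        show b * (k' * N) + i = (b * k') * N + i by ring, PadA_mul hfper]
    · rw [if_neg h, min_eq_right (not_lt.1 h), min_eq_right ((not_lt.1 h).trans (Nat.le_succ i))]
      rfl

theorem PadA_term {S : ℕ → Pt n → ℝ} {f : ℕ → Pt n → Pt n} {N : ℕ}
    (hper : ∀ j, S (j + N) = S j) (hfper : ∀ j, f (j + N) = f j) {k k' : ℕ}
    (hk : k' ≤ k) (b : ℕ) (w : Pt n) {i : ℕ} (hi : i < k * N) :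
    PadA_T (padS S (k * N) (k' * N)) (padf f (k * N) (k' * N)) w (b * (k * N) + i) =
      if i < k' * N then PadA_T S f w (b * (k' * N) + i) else 0 := by
  unfold PadA_T
  rw [add_assoc, PadA_flw hfper hk b w (i := i + 1) hi, PadA_flw hfper hk b w hi.le]
  unfold padS
  rw [PadA_blk hi]
  by_cases h : i < k' * N
  · rw [if_pos h, if_pos h, min_eq_left h.le, min_eq_left (show i + 1 ≤ k' * N from h), ← add_assoc,
      show b * (k * N) + i = (b * k) * N + i by ring, PadA_mul hper,
      show S (b * (k' * N) + i) = S i by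
        rw [show b * (k' * N) + i = (b * k') * N + i by ring, PadA_mul hper]]
  · rw [if_neg h, if_neg h, min_eq_right (not_lt.1 h),
      min_eq_right ((not_lt.1 h).trans (Nat.le_succ i))]
    simp

/-- the actions of corresponding orbits are equal -/
theorem pad_av {S : ℕ → Pt n → ℝ} {f : ℕ → Pt n → Pt n} (hS : ∀ j, Gen (S j) (f j)) {N : ℕ}
    (hN : 0 < N) (hper : ∀ j, S (j + N) = S j) (hfper : ∀ j, f (j + N) = f j) {k k' : ℕ}
    (hk0 : 0 < k') (hk : k' ≤ k) {m : ℕ} (hm : 0 < m) {w : Pt n}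
    (hw : flw f (m * (k' * N)) w = w) :
    av (padS S (k * N) (k' * N)) (padf f (k * N) (k' * N)) (m * (k * N)) w =
      av S f (m * (k' * N)) w := by
  have hQ : 0 < k' * N := Nat.mul_pos hk0 hN
  have hP : 0 < k * N := Nat.mul_pos (hk0.trans_le hk) hN
  have hQP : k' * N ≤ k * N := Nat.mul_le_mul_right N hk
  rw [PadA_av _ _ (Nat.mul_pos hm hP) (by rw [pad_flw hfper hk, hw]),
    PadA_av _ _ (Nat.mul_pos hm hQ) hw]
  have hsum : ∀ (F : ℕ → ℝ) (R : ℕ), ∑ j ∈ Finset.range (m * R), F j =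
      ∑ b ∈ Finset.range m, ∑ i ∈ Finset.range R, F (b * R + i) := by
    intro F R
    clear hw hm
    induction m with
    | zero => simp
    | succ m ih =>
      rw [Finset.sum_range_succ, ← ih, show (m + 1) * R = m * R + R by ring,
        Finset.sum_range_add]
  rw [hsum, hsum]
  refine Finset.sum_congr rfl fun b _ => ?_
  rw [Finset.sum_congr rfl fun i hi => PadA_term hper hfper hk b w (Finset.mem_range.1 hi)]
  rw [← Finset.sum_filter]
  refine Finset.sum_congr ?_ fun _ _ => rfl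
  ext i
  simp only [Finset.mem_filter, Finset.mem_range]
  omega

end Pool.Agent.H45.AC
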