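import Pool.Agent.H45.AC.T3E

/-!
# The supertrace of a Tate exact complex is zero: conclusion
-/

set_option autoImplicit false

namespace Pool.Agent.H45.AC.T3X

open Pool.Agent.H47.ST (the del TK RK sq Ops Sub)

variable {F : Type*} [Field F]

theorem stab_bot {E : Type*} [AddCommGroup E] [Module F E] (g : E →ₗ[F] E) :
    Stab g (⊥ : Submodule F E) := by
  intro x hx
  rw [Submodule.mem_bot] at hx ⊢
  rw [hx, map_zero]

section step

variable {E : Type*} [AddCommGroup E] [Module F E] {p : ℕ}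

theorem Dat.tg_top {d T g : E →ₗ[F] E} {B A : ℕ → Submodule F E} {M : ℕ} [NeZero p]
    [CharP F p] (D : Dat p d T g B A (M + 2)) :
    tg (gE p g) (Bn p d T B A M M) - tg (gE p g) (An p A M M) =
      (tg g (B M) - tg g (A M)) - (tg g (B (M + 1)) - tg g (A (M + 1))) := by
  have hf1 := D.fin M (by omega)
  have hf2 := D.fin (M + 1) (by omega)
  have hf3 : FiniteDimensional F (A M) := Submodule.finiteDimensional_of_le (D.le M)
  have hf4 : FiniteDimensional F (A (M + 1)) := Submodule.finiteDimensional_of_le (D.le (M + 1))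
  have hf5 := Jm_fin (ι := ZMod p) (B (M + 1))
  have hf6 := Jm_fin (ι := ZMod p) (A (M + 1))
  have hBg := D.Bg M (by omega)
  have hBg' := D.Bg (M + 1) (by omega)
  have hAg := D.Ag M (by omega)
  have hAg' := D.Ag (M + 1) (by omega)
  have hcard : (Fintype.card (ZMod p) : F) = 0 := by
    rw [ZMod.card, CharP.cast_eq_zero]
  have h1 : tg (gE p g) ((B M).prod (Jm (ZMod p) (B (M + 1)))) = tg g (B M) := by
    unfold gE
    rw [tg_prod hBg hBg'.jm, tg_Jm hBg', hcard, zero_mul, add_zero]
  have h2 : tg (gE p g) ((A M).prod (Jm (ZMod p) (A (M + 1)))) = tg g (A M) := by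
    unfold gE
    rw [tg_prod hAg hAg'.jm, tg_Jm hAg', hcard, zero_mul, add_zero]
  -- the projection to `B (M + 1) / A (M + 1)`
  set P := (B M).prod (Jm (ZMod p) (B (M + 1))) with hP
  have hPst : Stab (gE p g) P := fun x hx => ⟨hBg _ hx.1, hBg'.jm _ hx.2⟩
  have hPfin : FiniteDimensional F P := by
    let f : P →ₗ[F] (B M) × (Jm (ZMod p) (B (M + 1))) :=
      { toFun := fun x => (⟨x.1.1, x.2.1⟩, ⟨x.1.2, x.2.2⟩)
        map_add' := fun x y => rfl
        map_smul' := fun a x => rfl }
    refine Module.Finite.of_injective f ?_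
    intro x y hxy
    apply Subtype.ext
    have h1 := Prod.ext_iff.1 hxy
    exact Prod.ext (congrArg Subtype.val h1.1) (congrArg Subtype.val h1.2)
  have h3 := tg_map (g' := (A (M + 1)).mapQ (A (M + 1)) g hAg')
    (f := (A (M + 1)).mkQ ∘ₗ dpi p d T) hPst (fun x _ => by
      change (A (M + 1)).mkQ (d (g x.1) - pi p T (gJ (ZMod p) g x.2)) =
        (A (M + 1)).mapQ (A (M + 1)) g hAg' ((A (M + 1)).mkQ (d x.1 - pi p T x.2))
      rw [D.dg, pi_comm D.Tg, ← map_sub]
      rfl)
  have h4 : P ⊓ LinearMap.ker ((A (M + 1)).mkQ ∘ₗ dpi p d T) = Bn p d T B A M M := by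
    rw [Bn_eq]
    ext x
    rw [Submodule.mem_inf, LinearMap.mem_ker, LinearMap.comp_apply, Submodule.mkQ_apply,
      Submodule.Quotient.mk_eq_zero]
    rfl
  have h5 : P.map ((A (M + 1)).mkQ ∘ₗ dpi p d T) = (B (M + 1)).map (A (M + 1)).mkQ := by
    rw [Submodule.map_comp]
    congr 1
    apply le_antisymm
    · rintro _ ⟨x, hx, rfl⟩
      exact Submodule.sub_mem _ (D.Bd M _ hx.1) (pi_mem (D.BT _) hx.2)
    · intro b hb
      refine ⟨(0, Pi.single 0 (-b)), ⟨Submodule.zero_mem _, ?_⟩, ?_⟩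
      · change Pi.single 0 (-b) ∈ Jm (ZMod p) (B (M + 1))
        rw [mem_Jm]
        intro i
        by_cases hi : i = 0
        · subst hi
          rw [Pi.single_eq_same]
          exact Submodule.neg_mem _ hb
        · rw [Pi.single_eq_of_ne hi]
          exact Submodule.zero_mem _
      · rw [dpi_apply]
        change d 0 - pi p T (Pi.single 0 (-b)) = b
        rw [map_zero, pi_single, zero_sub, neg_neg]
  rw [h4, h5, tg_quot hBg' hAg' (D.le (M + 1)), h1] at h3
  rw [An_eq, h2]
  linear_combination -h3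

theorem Dat.tg_low {d T g : E →ₗ[F] E} {B A : ℕ → Submodule F E} {M : ℕ} [NeZero p]
    (D : Dat p d T g B A (M + 2)) {j : ℕ} (hj : j < M) :
    tg (gE p g) (Bn p d T B A M j) - tg (gE p g) (An p A M j) =
      tg g (B j) - tg g (A j) := by
  have hf1 := D.fin j (by omega)
  have hf3 : FiniteDimensional F (A j) := Submodule.finiteDimensional_of_le (D.le j)
  unfold gE
  rw [Bn_lt hj, An_lt hj, tg_prod (D.Bg j (by omega)) (stab_bot _),
    tg_prod (D.Ag j (by omega)) (stab_bot _), tg_bot]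
  ring

end step

universe u

theorem T3_main {p : ℕ} [Fact p.Prime] [CharP F p] (J : ℕ) :
    ∀ {E : Type u} [AddCommGroup E] [Module F E] {d T g : E →ₗ[F] E}
      {B A : ℕ → Submodule F E} (_ : Dat p d T g B A J),
      ∑ j ∈ Finset.range J, (-1 : F) ^ j * (tg g (B j) - tg g (A j)) = 0 := by
  have : NeZero p := ⟨(Fact.out : p.Prime).ne_zero⟩
  induction J using Nat.strong_induction_on with
  | _ J ih =>
    intro E _ _ d T g B A D
    match J, ih, D with
    | 0, _, _ => simp
    | 1, _, D =>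
      have hf := D.fin 0 one_pos
      have h1 : tg g (B 0) = tg g (A 0) := by
        refine T3_one D.pow D.Tg (D.le 0) (D.BT 0) (D.AT 0) (D.Bg 0 one_pos) (D.Ag 0 one_pos) ?_
        intro x hx hx'
        obtain ⟨y, hy, hy'⟩ := D.ex 0 (fun j => if j = 0 then x else 0) (fun j => by
          by_cases hj : j = 0
          · subst hj
            simpa using hx
          · simp [hj]) (fun j => by
          cases j with
          | zero =>
            change 0 + (-1 : F) ^ 0 • the (T - 1) (nuT p T) 0 x ∈ A 0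
            rw [zero_add, pow_zero, one_smul]
            exact hx'
          | succ j =>
            cases j with
            | zero =>
              change d x + (-1 : F) ^ 1 • the (T - 1) (nuT p T) (0 + 1) 0 ∈ A 1
              rw [map_zero, smul_zero, add_zero, ← D.top 1 le_rfl]
              exact D.Bd 0 x hx
            | succ j =>
              change d 0 + (-1 : F) ^ (j + 2) • the (T - 1) (nuT p T) (0 + (j + 2)) 0 ∈ A (j + 2)
              rw [map_zero, map_zero, smul_zero, add_zero]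
              exact Submodule.zero_mem _)
        refine ⟨y 0, hy 0, ?_⟩
        have h2 := hy' 0
        change x - (0 + (-1 : F) ^ 0 • nuT p T (y 0)) ∈ A 0 at h2
        rwa [zero_add, pow_zero, one_smul] at h2
      rw [Finset.sum_range_one, h1, sub_self, mul_zero]
    | M + 2, ih, D =>
      have h1 := ih (M + 1) (by omega) D.step
      rw [Finset.sum_range_succ] at h1
      rw [Finset.sum_range_succ, Finset.sum_range_succ]
      have h2 : ∑ j ∈ Finset.range M, (-1 : F) ^ j *
          (tg (gE p g) (Bn p d T B A M j) - tg (gE p g) (An p A M j)) =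
          ∑ j ∈ Finset.range M, (-1 : F) ^ j * (tg g (B j) - tg g (A j)) :=
        Finset.sum_congr rfl fun j hj => by rw [D.tg_low (Finset.mem_range.1 hj)]
      rw [h2, D.tg_top] at h1
      rw [← h1, pow_succ]
      ring

/-- **The supertrace of a Tate exact (relative) complex is zero.** -/
theorem st_TK {p : ℕ} [Fact p.Prime] {E : Type*} [AddCommGroup E] [Module (ZMod p) E]
    {d T g : E →ₗ[ZMod p] E} (hdd : ∀ x, d (d x) = 0) (hdT : ∀ x, d (T x) = T (d x))
    (hdg : ∀ x, d (g x) = g (d x)) (hTg : ∀ x, T (g x) = g (T x)) (hT : T ^ p = 1)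
    {B A : ℕ → Submodule (ZMod p) E}
    (hB : Sub d (T - 1) (∑ i ∈ Finset.range p, T ^ i) B)
    (hA : Sub d (T - 1) (∑ i ∈ Finset.range p, T ^ i) A) (hle : ∀ j, A j ≤ B j)
    (hgB : ∀ j, Stab g (B j)) (hgA : ∀ j, Stab g (A j))
    (hfin : ∀ j, FiniteDimensional (ZMod p) (B j)) {J : ℕ} (hJ : ∀ j, J ≤ j → B j = A j)
    (hTK : ∀ k, TK d (T - 1) (∑ i ∈ Finset.range p, T ^ i) k B A 0) :
    ∑ j ∈ Finset.range J, (-1 : ZMod p) ^ j * (tg g (B j) - tg g (A j)) = 0 := by
  have hT' : ∀ {C : ℕ → Submodule (ZMod p) E},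
      Sub d (T - 1) (∑ i ∈ Finset.range p, T ^ i) C → ∀ j, Stab T (C j) := by
    intro C hC j x hx
    have h1 := (C j).add_mem (hC.t j x hx) hx
    rwa [LinearMap.sub_apply, Module.End.one_apply, sub_add_cancel] at h1
  exact T3_main J
    { dd := hdd, dT := hdT, dg := hdg, Tg := hTg, pow := hT, Bd := hB.d, Ad := hA.d,
      BT := hT' hB, AT := hT' hA, Bg := fun j _ => hgB j, Ag := fun j _ => hgA j, le := hle,
      fin := fun j _ => hfin j, top := hJ, ex := fun k => TX_of_TK (hTK k) }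

/-- the same with `T - id` -/
theorem st_TK_id {p : ℕ} [Fact p.Prime] {E : Type*} [AddCommGroup E] [Module (ZMod p) E]
    {d T g : E →ₗ[ZMod p] E} (hdd : ∀ x, d (d x) = 0) (hdT : ∀ x, d (T x) = T (d x))
    (hdg : ∀ x, d (g x) = g (d x)) (hTg : ∀ x, T (g x) = g (T x)) (hT : T ^ p = 1)
    {B A : ℕ → Submodule (ZMod p) E}
    (hB : Sub d (T - LinearMap.id) (∑ i ∈ Finset.range p, T ^ i) B)
    (hA : Sub d (T - LinearMap.id) (∑ i ∈ Finset.range p, T ^ i) A) (hle : ∀ j, A j ≤ B j)
    (hgB : ∀ j, Stab g (B j)) (hgA : ∀ j, Stab g (A j))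
    (hfin : ∀ j, FiniteDimensional (ZMod p) (B j)) {J : ℕ} (hJ : ∀ j, J ≤ j → B j = A j)
    (hTK : ∀ k, TK d (T - LinearMap.id) (∑ i ∈ Finset.range p, T ^ i) k B A 0) :
    ∑ j ∈ Finset.range J, (-1 : ZMod p) ^ j * (tg g (B j) - tg g (A j)) = 0 :=
  st_TK hdd hdT hdg hTg hT hB hA hle hgB hgA hfin hJ hTK

end Pool.Agent.H45.AC.T3X
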