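import Pool.Agent.H45.AC.Tq
import Pool.Agent.H45.AC.T3F

/-!
# Project AC: Tate exact complexes have supertrace zero
-/

set_option autoImplicit false

namespace Pool.Agent.H45.AC

open Pool.Agent.H47.ST

theorem T3_tq_eq {F E : Type*} [Field F] [AddCommGroup E] [Module F E] (g : E →ₗ[F] E)
    (B : Submodule F E) : tq g B = tg g B := rfl

/-- **Theorem T3.** -/
theorem st_T3 {p : ℕ} [Fact p.Prime] {E : Type*} [AddCommGroup E] [Module (ZMod p) E]
    {d T g : E →ₗ[ZMod p] E} (hdd : ∀ x, d (d x) = 0) (hdT : ∀ x, d (T x) = T (d x))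
    (hT : T ^ p = 1) (hdg : ∀ x, d (g x) = g (d x)) (hTg : ∀ x, T (g x) = g (T x))
    {A B : ℕ → Submodule (ZMod p) E} (hA : Gs d g A) (hB : Gs d g B)
    (hAT : ∀ j, ∀ x ∈ A j, T x ∈ A j) (hBT : ∀ j, ∀ x ∈ B j, T x ∈ B j) (hAB : ∀ j, A j ≤ B j)
    (J : ℕ) (hJ : ∀ j, J ≤ j → B j ≤ A j)
    (hTK : ∀ k, TK d (T - LinearMap.id) (∑ i ∈ Finset.range p, T ^ i) k B A 0) :
    st g B A J = 0 := by
  have hsub : ∀ {C : ℕ → Submodule (ZMod p) E}, Gs d g C → (∀ j, ∀ x ∈ C j, T x ∈ C j) →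
      Sub d (T - LinearMap.id) (∑ i ∈ Finset.range p, T ^ i) C := by
    intro C hC hCT
    refine ⟨hC.d, fun j => ?_, fun j => ?_⟩
    · exact Stab.sub_one (T := T) (hCT j)
    · exact Stab.nu (T := T) (hCT j) p
  unfold st
  simp only [T3_tq_eq]
  exact T3X.st_TK_id hdd hdT hdg hTg hT (hsub hB hBT) (hsub hA hAT) hAB (fun j => hB.g j)
    (fun j => hA.g j) hB.fin (fun j hj => le_antisymm (hJ j hj) (hAB j)) hTK

end Pool.Agent.H45.AC
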