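import Pool.Agent.H45.AC.T3J

/-!
# The supertrace of a Tate exact complex is zero
-/

set_option autoImplicit false

namespace Pool.Agent.H45.AC.T3X

open Pool.Agent.H47.ST (the del TK RK sq Ops Sub)

variable {F : Type*} [Field F]

section basic

variable {E : Type*} [AddCommGroup E] [Module F E]

theorem T3_mem_sq {B : ℕ → Submodule F E} {x : ℕ → E} : x ∈ sq B ↔ ∀ j, x j ∈ B j :=
  Pool.Agent.H47.ST.mem_sq

/-- the first part of the total differential -/
def pv (d : E →ₗ[F] E) (x : ℕ → E) : ℕ → E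
  | 0 => 0
  | j + 1 => d (x j)

theorem T3_del (d τ ν : E →ₗ[F] E) (k : ℕ) (x : ℕ → E) (j : ℕ) :
    del d τ ν k x j = pv d x j + (-1 : F) ^ j • the τ ν (k + j) (x j) := by
  cases j with
  | zero =>
    rw [Pool.Agent.H47.ST.del_zero]
    simp [pv]
  | succ j => rfl

/-- Tate exactness -/
def TX (d τ ν : E →ₗ[F] E) (k : ℕ) (B A : ℕ → Submodule F E) : Prop :=
  ∀ x, (∀ j, x j ∈ B j) →
    (∀ j, pv d x j + (-1 : F) ^ j • the τ ν (k + j) (x j) ∈ A j) →
    ∃ y : ℕ → E, (∀ j, y j ∈ B j) ∧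
      ∀ j, x j - (pv d y j + (-1 : F) ^ j • the τ ν (k + 1 + j) (y j)) ∈ A j

theorem TX_of_TK {d τ ν : E →ₗ[F] E} {k : ℕ} {B A : ℕ → Submodule F E}
    (h : TK d τ ν k B A 0) : TX d τ ν k B A := by
  obtain ⟨ℓ, hℓ⟩ := h
  intro x hx hx'
  obtain ⟨y, hy, hy'⟩ := hℓ x (T3_mem_sq.2 hx) (T3_mem_sq.2 fun j => by
    rw [T3_del]; exact hx' j) (funext fun i => i.elim0)
  refine ⟨y, T3_mem_sq.1 hy, fun j => ?_⟩
  have h1 := T3_mem_sq.1 hy' j
  rw [Pi.sub_apply, T3_del] at h1
  exact h1

theorem T3_the_two (τ ν : E →ₗ[F] E) (m : ℕ) : the τ ν (m + 2) = the τ ν m :=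
  Pool.Agent.H47.ST.TKb_the_two τ ν m

end basic

/-- The data: operators `d`, `T`, `g` and the graded submodules `A j ≤ B j`, interesting for
`j < J`. -/
structure Dat {E : Type*} [AddCommGroup E] [Module F E] (p : ℕ) (d T g : E →ₗ[F] E)
    (B A : ℕ → Submodule F E) (J : ℕ) : Prop where
  dd : ∀ x, d (d x) = 0
  dT : ∀ x, d (T x) = T (d x)
  dg : ∀ x, d (g x) = g (d x)
  Tg : ∀ x, T (g x) = g (T x)
  pow : T ^ p = 1
  Bd : ∀ j, ∀ x ∈ B j, d x ∈ B (j + 1)
  Ad : ∀ j, ∀ x ∈ A j, d x ∈ A (j + 1)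
  BT : ∀ j, Stab T (B j)
  AT : ∀ j, Stab T (A j)
  Bg : ∀ j < J, Stab g (B j)
  Ag : ∀ j < J, Stab g (A j)
  le : ∀ j, A j ≤ B j
  fin : ∀ j < J, FiniteDimensional F (B j)
  top : ∀ j, J ≤ j → B j = A j
  ex : ∀ k, TX d (T - 1) (nuT p T) k B A

section step

variable {E : Type*} [AddCommGroup E] [Module F E] {p : ℕ}

/-- `d` on `E × J` -/
def dE (p : ℕ) (d : E →ₗ[F] E) : (E × (ZMod p → E)) →ₗ[F] (E × (ZMod p → E)) := d.prodMap 0

/-- `T` on `E × J` -/
def TE (p : ℕ) (T : E →ₗ[F] E) : (E × (ZMod p → E)) →ₗ[F] (E × (ZMod p → E)) :=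
  T.prodMap (TJ F E p)

/-- `g` on `E × J` -/
def gE (p : ℕ) (g : E →ₗ[F] E) : (E × (ZMod p → E)) →ₗ[F] (E × (ZMod p → E)) :=
  g.prodMap (gJ (ZMod p) g)

theorem TE_pow (T : E →ₗ[F] E) (i : ℕ) (x : E × (ZMod p → E)) :
    ((TE p T) ^ i) x = ((T ^ i) x.1, ((TJ F E p) ^ i) x.2) := by
  induction i with
  | zero => rfl
  | succ i ih =>
    rw [pow_succ', Module.End.mul_apply, ih, pow_succ', pow_succ']
    rfl

theorem TE_the (T : E →ₗ[F] E) (m : ℕ) (x : E × (ZMod p → E)) :
    the (TE p T - 1) (nuT p (TE p T)) m x =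
      (the (T - 1) (nuT p T) m x.1, the (TJ F E p - 1) (nuT p (TJ F E p)) m x.2) := by
  unfold the
  split_ifs
  · rfl
  · rw [nuT_apply, nuT_apply, nuT_apply]
    apply Prod.ext
    · rw [Prod.fst_sum]
      exact Finset.sum_congr rfl fun i _ => by rw [TE_pow]
    · rw [Prod.snd_sum]
      exact Finset.sum_congr rfl fun i _ => by rw [TE_pow]

variable [NeZero p]

/-- `(w, h) ↦ d w - π h` -/
noncomputable def dpi (p : ℕ) [NeZero p] (d T : E →ₗ[F] E) : (E × (ZMod p → E)) →ₗ[F] E :=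
  d ∘ₗ LinearMap.fst F E (ZMod p → E) - (pi p T) ∘ₗ LinearMap.snd F E (ZMod p → E)

theorem dpi_apply (d T : E →ₗ[F] E) (x : E × (ZMod p → E)) :
    dpi p d T x = d x.1 - pi p T x.2 := rfl

/-- the new top module -/
noncomputable def XB (p : ℕ) [NeZero p] (d T : E →ₗ[F] E) (B A : ℕ → Submodule F E) (M : ℕ) :
    Submodule F (E × (ZMod p → E)) :=
  (B M).prod (Jm (ZMod p) (B (M + 1))) ⊓ (A (M + 1)).comap (dpi p d T)

/-- the new submodules `B` -/
noncomputable def Bn (p : ℕ) [NeZero p] (d T : E →ₗ[F] E) (B A : ℕ → Submodule F E) (M : ℕ)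
    (j : ℕ) : Submodule F (E × (ZMod p → E)) :=
  if j < M then (B j).prod ⊥ else if j = M then XB p d T B A M else ⊤

/-- the new submodules `A` -/
noncomputable def An (p : ℕ) (A : ℕ → Submodule F E) (M : ℕ)
    (j : ℕ) : Submodule F (E × (ZMod p → E)) :=
  if j < M then (A j).prod ⊥ else if j = M then (A M).prod (Jm (ZMod p) (A (M + 1))) else ⊤

theorem Bn_lt {d T : E →ₗ[F] E} {B A : ℕ → Submodule F E} {M j : ℕ} (h : j < M) :
    Bn p d T B A M j = (B j).prod ⊥ := if_pos h

theorem Bn_eq {d T : E →ₗ[F] E} {B A : ℕ → Submodule F E} {M : ℕ} :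
    Bn p d T B A M M = XB p d T B A M := by
  unfold Bn
  rw [if_neg (lt_irrefl M), if_pos rfl]

theorem Bn_gt {d T : E →ₗ[F] E} {B A : ℕ → Submodule F E} {M j : ℕ} (h : M < j) :
    Bn p d T B A M j = ⊤ := by
  unfold Bn
  rw [if_neg (by omega), if_neg (by omega)]

omit [NeZero p] in
theorem An_lt {A : ℕ → Submodule F E} {M j : ℕ} (h : j < M) :
    An p A M j = (A j).prod ⊥ := if_pos h

omit [NeZero p] in
theorem An_eq {A : ℕ → Submodule F E} {M : ℕ} :
    An p A M M = (A M).prod (Jm (ZMod p) (A (M + 1))) := by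
  unfold An
  rw [if_neg (lt_irrefl M), if_pos rfl]

omit [NeZero p] in
theorem An_gt {A : ℕ → Submodule F E} {M j : ℕ} (h : M < j) :
    An p A M j = ⊤ := by
  unfold An
  rw [if_neg (by omega), if_neg (by omega)]

theorem mem_XB {d T : E →ₗ[F] E} {B A : ℕ → Submodule F E} {M : ℕ} {x : E × (ZMod p → E)} :
    x ∈ XB p d T B A M ↔
      (x.1 ∈ B M ∧ x.2 ∈ Jm (ZMod p) (B (M + 1))) ∧ d x.1 - pi p T x.2 ∈ A (M + 1) := Iff.rfl

omit [NeZero p] in
theorem Jm_TJ {B : Submodule F E} {h : ZMod p → E} (hh : h ∈ Jm (ZMod p) B) :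
    TJ F E p h ∈ Jm (ZMod p) B := by
  rw [mem_Jm] at hh ⊢
  exact fun i => hh _

omit [NeZero p] in
theorem the_the {T : E →ₗ[F] E} (hT : T ^ p = 1) (m : ℕ) (x : E) :
    the (T - 1) (nuT p T) (m + 1) (the (T - 1) (nuT p T) m x) = 0 := by
  have h1 := mul_geom_sum T p
  have h2 := geom_sum_mul T p
  rw [hT, sub_self] at h1 h2
  unfold the
  by_cases hm : Even m
  · rw [if_pos hm, if_neg (by rw [Nat.even_add_one]; exact not_not.2 hm)]
    exact LinearMap.congr_fun h2 x
  · rw [if_neg hm, if_pos (by rw [Nat.even_add_one]; exact hm)]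
    exact LinearMap.congr_fun h1 x

theorem Dat.step_ex {d T g : E →ₗ[F] E} {B A : ℕ → Submodule F E} {M : ℕ}
    (D : Dat p d T g B A (M + 2)) (k : ℕ) :
    TX (dE p d) (TE p T - 1) (nuT p (TE p T)) k (Bn p d T B A M) (An p A M) := by
  intro x' hxB hxA
  set u : ℕ → E := fun j => (x' j).1 with hu
  set h : ZMod p → E := (x' M).2 with hh
  have hpv1 : ∀ (z : ℕ → E × (ZMod p → E)) j, (pv (dE p d) z j).1 = pv d (fun i => (z i).1) j := by
    intro z j
    cases j <;> rfl
  have hpv2 : ∀ (z : ℕ → E × (ZMod p → E)) j, (pv (dE p d) z j).2 = 0 := by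
    intro z j
    cases j <;> rfl
  -- the data in degrees `≤ M`
  have huB : ∀ j ≤ M, u j ∈ B j := by
    intro j hj
    rcases lt_or_eq_of_le hj with h1 | h1
    · have h2 := hxB j
      rw [Bn_lt h1] at h2
      exact h2.1
    · subst h1
      have h2 := hxB j
      rw [Bn_eq] at h2
      exact (mem_XB.1 h2).1.1
  have hu2 : ∀ j < M, (x' j).2 = 0 := by
    intro j hj
    have h2 := hxB j
    rw [Bn_lt hj] at h2
    exact (Submodule.mem_bot F).1 h2.2
  have hXM := hxB M
  rw [Bn_eq, mem_XB] at hXM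
  obtain ⟨⟨-, hhB⟩, hdpi⟩ := hXM
  have hA1 : ∀ j ≤ M, pv d u j + (-1 : F) ^ j • the (T - 1) (nuT p T) (k + j) (u j) ∈ A j := by
    intro j hj
    have h2 := hxA j
    rw [TE_the] at h2
    rcases lt_or_eq_of_le hj with h1 | h1
    · rw [An_lt h1] at h2
      have h3 := h2.1
      rw [Prod.fst_add, hpv1] at h3
      exact h3
    · subst h1
      rw [An_eq] at h2
      have h3 := h2.1
      rw [Prod.fst_add, hpv1] at h3
      exact h3
  have hA2 : the (TJ F E p - 1) (nuT p (TJ F E p)) (k + M) h ∈ Jm (ZMod p) (A (M + 1)) := by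
    have h2 := hxA M
    rw [TE_the, An_eq] at h2
    have h3 := h2.2
    rw [Prod.snd_add, hpv2, zero_add] at h3
    change (-1 : F) ^ M • the (TJ F E p - 1) (nuT p (TJ F E p)) (k + M) h ∈ _ at h3
    have h4 := (Jm (ZMod p) (A (M + 1))).smul_mem ((-1 : F) ^ M) h3
    rwa [smul_smul, ← pow_add, ← two_mul, pow_mul, neg_one_sq, one_pow, one_smul] at h4
  obtain ⟨h', hh'B, hh'A⟩ := J_exact (k + M) hhB hA2
  -- the old cocycle
  set x : ℕ → E := fun j => if j ≤ M then u j else
    if j = M + 1 then (-1 : F) ^ M • pi p T h' else 0 with hx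
  have hx1 : ∀ j ≤ M, x j = u j := fun j hj => if_pos hj
  have hx2 : x (M + 1) = (-1 : F) ^ M • pi p T h' := by
    rw [hx]
    simp
  have hx3 : ∀ j, M + 1 < j → x j = 0 := by
    intro j hj
    rw [hx]
    simp only
    rw [if_neg (by omega), if_neg (by omega)]
  have hpvx : ∀ j ≤ M, pv d x j = pv d u j := by
    intro j hj
    cases j with
    | zero => rfl
    | succ j =>
      change d (x j) = d (u j)
      rw [hx1 j (by omega)]
  obtain ⟨y, hyB, hyA⟩ := D.ex k x (by
    intro j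
    rcases Nat.lt_or_ge M j with h1 | h1
    · rcases Nat.lt_or_ge (M + 1) j with h2 | h2
      · rw [hx3 j h2]
        exact (B j).zero_mem
      · have h3 : j = M + 1 := by omega
        subst h3
        rw [hx2]
        exact (B (M + 1)).smul_mem _ (pi_mem (D.BT _) hh'B)
    · rw [hx1 j h1]
      exact huB j h1) (by
    intro j
    rcases Nat.lt_or_ge M j with h1 | h1
    · rcases Nat.lt_or_ge (M + 1) j with h2 | h2
      · rw [hx3 j h2, map_zero, smul_zero, add_zero]
        obtain ⟨i, rfl⟩ : ∃ i, j = i + 1 := ⟨j - 1, by omega⟩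
        change d (x i) ∈ A (i + 1)
        rw [← D.top (i + 1) (by omega)]
        apply D.Bd
        rcases Nat.lt_or_ge (M + 1) i with h3 | h3
        · rw [hx3 i h3]
          exact (B i).zero_mem
        · have h4 : i = M + 1 := by omega
          subst h4
          rw [hx2]
          exact (B (M + 1)).smul_mem _ (pi_mem (D.BT _) hh'B)
      · have h3 : j = M + 1 := by omega
        subst h3
        change d (x M) + _ ∈ A (M + 1)
        rw [hx1 M le_rfl, hx2, map_smul, smul_smul, ← pow_add, ← pi_the D.pow]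
        have h4 : ((-1 : F) ^ (M + 1 + M)) = -1 := by
          rw [show M + 1 + M = 2 * M + 1 by ring, pow_succ, pow_mul, neg_one_sq, one_pow, one_mul]
        rw [h4, neg_one_smul]
        have h5 := (A (M + 1)).add_mem hdpi (pi_mem (D.AT (M + 1)) hh'A)
        rw [map_sub] at h5
        have h6 : d (x' M).1 - pi p T (x' M).2 + (pi p T h - pi p T
            (the (TJ F E p - 1) (nuT p (TJ F E p)) (k + M + 1) h')) = d (u M) +
            -pi p T (the (TJ F E p - 1) (nuT p (TJ F E p)) (k + (M + 1)) h') := by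
          rw [hh, hu, add_assoc k M 1]
          abel
        rwa [h6] at h5
    · rw [hx1 j h1, hpvx j h1]
      exact hA1 j h1)
  -- the new primitive
  set κ : ZMod p → E := Pi.single 0 (y (M + 1)) with hκ
  have hκB : κ ∈ Jm (ZMod p) (B (M + 1)) := by
    rw [mem_Jm]
    intro i
    by_cases hi : i = 0
    · subst hi
      rw [hκ, Pi.single_eq_same]
      exact hyB _
    · rw [hκ, Pi.single_eq_of_ne hi]
      exact (B (M + 1)).zero_mem
  set h'' : ZMod p → E := (-1 : F) ^ M •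
    (h' + the (TJ F E p - 1) (nuT p (TJ F E p)) (k + M) κ) with hh''
  have hh''B : h'' ∈ Jm (ZMod p) (B (M + 1)) :=
    (Jm (ZMod p) (B (M + 1))).smul_mem _ ((Jm (ZMod p) (B (M + 1))).add_mem hh'B (Jm_the _ hκB))
  set y' : ℕ → E × (ZMod p → E) := fun j => if j < M then (y j, 0) else
    if j = M then (y M, h'') else 0 with hy'
  have hy1 : ∀ j < M, y' j = (y j, 0) := fun j hj => if_pos hj
  have hy2 : y' M = (y M, h'') := by
    rw [hy']
    simp
  have hy3 : ∀ j ≤ M, (y' j).1 = y j := by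
    intro j hj
    rcases lt_or_eq_of_le hj with h1 | h1
    · rw [hy1 j h1]
    · subst h1
      rw [hy2]
  have hpvy : ∀ j ≤ M, pv d (fun i => (y' i).1) j = pv d y j := by
    intro j hj
    cases j with
    | zero => rfl
    | succ j =>
      change d (y' j).1 = d (y j)
      rw [hy3 j (by omega)]
  refine ⟨y', fun j => ?_, fun j => ?_⟩
  · rcases lt_trichotomy j M with h1 | h1 | h1
    · rw [Bn_lt h1, hy1 j h1]
      exact ⟨hyB j, Submodule.zero_mem _⟩
    · subst h1
      rw [Bn_eq, hy2, mem_XB]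
      refine ⟨⟨hyB j, hh''B⟩, ?_⟩
      have h2 := hyA (j + 1)
      change x (j + 1) - (d (y j) + _) ∈ A (j + 1) at h2
      rw [hx2, show k + 1 + (j + 1) = k + j + 2 by ring, T3_the_two] at h2
      have h3 : pi p T h'' = (-1 : F) ^ j • (pi p T h' +
          the (T - 1) (nuT p T) (k + j) (y (j + 1))) := by
        rw [hh'', map_smul, map_add, pi_the D.pow, hκ, pi_single]
      change d (y j) - pi p T h'' ∈ A (j + 1)
      rw [h3]
      have h4 := (A (j + 1)).neg_mem h2
      have h5 : -((-1 : F) ^ j • pi p T h' - (d (y j) +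
          (-1 : F) ^ (j + 1) • the (T - 1) (nuT p T) (k + j) (y (j + 1)))) =
          d (y j) - (-1 : F) ^ j • (pi p T h' +
          the (T - 1) (nuT p T) (k + j) (y (j + 1))) := by
        rw [pow_succ, mul_neg_one, neg_smul, smul_add]
        abel
      rwa [h5] at h4
    · rw [Bn_gt h1]
      exact Submodule.mem_top
  · rw [TE_the]
    rcases lt_trichotomy j M with h1 | h1 | h1
    · rw [An_lt h1]
      refine ⟨?_, ?_⟩
      · rw [Prod.fst_sub, Prod.fst_add, hpv1, hpvy j h1.le]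
        have h2 := hyA j
        rw [hx1 j h1.le] at h2
        change u j - (pv d y j + (-1 : F) ^ j • the (T - 1) (nuT p T) (k + 1 + j) (y' j).1) ∈ A j
        rw [hy3 j h1.le]
        exact h2
      · rw [Prod.snd_sub, Prod.snd_add, hpv2, hu2 j h1]
        change 0 - (0 + (-1 : F) ^ j • the (TJ F E p - 1) (nuT p (TJ F E p)) (k + 1 + j)
          (y' j).2) ∈ (⊥ : Submodule F (ZMod p → E))
        rw [hy1 j h1]
        simp
    · subst h1
      rw [An_eq]
      refine ⟨?_, ?_⟩
      · rw [Prod.fst_sub, Prod.fst_add, hpv1, hpvy j le_rfl]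
        have h2 := hyA j
        rw [hx1 j le_rfl] at h2
        change u j - (pv d y j + (-1 : F) ^ j • the (T - 1) (nuT p T) (k + 1 + j) (y' j).1) ∈ A j
        rw [hy3 j le_rfl]
        exact h2
      · rw [Prod.snd_sub, Prod.snd_add, hpv2]
        change h - (0 + (-1 : F) ^ j • the (TJ F E p - 1) (nuT p (TJ F E p)) (k + 1 + j)
          (y' j).2) ∈ _
        rw [hy2]
        change h - (0 + (-1 : F) ^ j • the (TJ F E p - 1) (nuT p (TJ F E p)) (k + 1 + j)
          h'') ∈ _
        have h3 : the (TJ F E p - 1) (nuT p (TJ F E p)) (k + j + 1)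
            (the (TJ F E p - 1) (nuT p (TJ F E p)) (k + j) κ) = 0 :=
          the_the (TJ_pow_p p) _ _
        rw [zero_add, hh'', map_smul, map_add, show k + 1 + j = k + j + 1 by ring, h3, add_zero,
          smul_smul, ← pow_add, ← two_mul, pow_mul, neg_one_sq, one_pow, one_smul]
        exact hh'A
    · rw [An_gt h1]
      exact Submodule.mem_top

theorem Dat.step {d T g : E →ₗ[F] E} {B A : ℕ → Submodule F E} {M : ℕ}
    (D : Dat p d T g B A (M + 2)) :
    Dat p (dE p d) (TE p T) (gE p g) (Bn p d T B A M) (An p A M) (M + 1) where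
  dd x := by
    change (d (d x.1), (0 : ZMod p → E)) = 0
    rw [D.dd]
    rfl
  dT x := by
    change (d (T x.1), (0 : ZMod p → E)) = (T (d x.1), TJ F E p 0)
    rw [D.dT, map_zero]
  dg x := by
    change (d (g x.1), (0 : ZMod p → E)) = (g (d x.1), gJ (ZMod p) g 0)
    rw [D.dg, map_zero]
  Tg x := by
    change (T (g x.1), TJ F E p (gJ (ZMod p) g x.2)) = (g (T x.1), gJ (ZMod p) g (TJ F E p x.2))
    rw [D.Tg]
    rfl
  pow := by
    ext1
    · ext x
      · change ((TE p T ^ p) (x, 0)).1 = x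
        rw [TE_pow, D.pow]
        rfl
      · change ((TE p T ^ p) (x, 0)).2 _ = _
        rw [TE_pow, TJ_pow_p]
        rfl
    · apply LinearMap.ext
      intro x
      change ((TE p T ^ p) (0, x)) = (0, x)
      rw [TE_pow, TJ_pow_p, D.pow]
      rfl
  Bd j x hx := by
    rcases Nat.lt_or_ge j M with h1 | h1
    · rw [Bn_lt h1] at hx
      rcases Nat.lt_or_ge (j + 1) M with h2 | h2
      · rw [Bn_lt h2]
        exact ⟨D.Bd j _ hx.1, Submodule.zero_mem _⟩
      · have h3 : M = j + 1 := by omega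
        subst h3
        rw [Bn_eq, mem_XB]
        refine ⟨⟨D.Bd j _ hx.1, Submodule.zero_mem _⟩, ?_⟩
        change d (d x.1) - pi p T 0 ∈ _
        rw [D.dd, map_zero, sub_zero]
        exact Submodule.zero_mem _
    · rw [Bn_gt (by omega)]
      exact Submodule.mem_top
  Ad j x hx := by
    rcases Nat.lt_or_ge j M with h1 | h1
    · rw [An_lt h1] at hx
      rcases Nat.lt_or_ge (j + 1) M with h2 | h2
      · rw [An_lt h2]
        exact ⟨D.Ad j _ hx.1, Submodule.zero_mem _⟩
      · have h3 : M = j + 1 := by omega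
        subst h3
        rw [An_eq]
        exact ⟨D.Ad j _ hx.1, Submodule.zero_mem _⟩
    · rw [An_gt (by omega)]
      exact Submodule.mem_top
  BT j x hx := by
    rcases lt_trichotomy j M with h1 | h1 | h1
    · rw [Bn_lt h1] at hx ⊢
      refine ⟨D.BT j _ hx.1, ?_⟩
      have h2 := (Submodule.mem_bot F).1 hx.2
      change TJ F E p x.2 ∈ (⊥ : Submodule F (ZMod p → E))
      rw [h2, map_zero]
      exact Submodule.zero_mem _
    · subst h1
      rw [Bn_eq, mem_XB] at hx ⊢
      refine ⟨⟨D.BT j _ hx.1.1, Jm_TJ hx.1.2⟩, ?_⟩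
      change d (T x.1) - pi p T (TJ F E p x.2) ∈ _
      rw [D.dT, pi_TJ D.pow, ← map_sub]
      exact D.AT _ _ hx.2
    · rw [Bn_gt h1]
      exact Submodule.mem_top
  AT j x hx := by
    rcases lt_trichotomy j M with h1 | h1 | h1
    · rw [An_lt h1] at hx ⊢
      refine ⟨D.AT j _ hx.1, ?_⟩
      have h2 := (Submodule.mem_bot F).1 hx.2
      change TJ F E p x.2 ∈ (⊥ : Submodule F (ZMod p → E))
      rw [h2, map_zero]
      exact Submodule.zero_mem _
    · subst h1
      rw [An_eq] at hx ⊢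
      exact ⟨D.AT j _ hx.1, Jm_TJ hx.2⟩
    · rw [An_gt h1]
      exact Submodule.mem_top
  Bg j hj x hx := by
    rcases lt_trichotomy j M with h1 | h1 | h1
    · rw [Bn_lt h1] at hx ⊢
      refine ⟨D.Bg j (by omega) _ hx.1, ?_⟩
      have h2 := (Submodule.mem_bot F).1 hx.2
      change gJ (ZMod p) g x.2 ∈ (⊥ : Submodule F (ZMod p → E))
      rw [h2, map_zero]
      exact Submodule.zero_mem _
    · subst h1
      rw [Bn_eq, mem_XB] at hx ⊢
      refine ⟨⟨D.Bg j (by omega) _ hx.1.1, (D.Bg (j + 1) (by omega)).jm _ hx.1.2⟩, ?_⟩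
      change d (g x.1) - pi p T (gJ (ZMod p) g x.2) ∈ _
      rw [D.dg, pi_comm D.Tg, ← map_sub]
      exact D.Ag _ (by omega) _ hx.2
    · omega
  Ag j hj x hx := by
    rcases lt_trichotomy j M with h1 | h1 | h1
    · rw [An_lt h1] at hx ⊢
      refine ⟨D.Ag j (by omega) _ hx.1, ?_⟩
      have h2 := (Submodule.mem_bot F).1 hx.2
      change gJ (ZMod p) g x.2 ∈ (⊥ : Submodule F (ZMod p → E))
      rw [h2, map_zero]
      exact Submodule.zero_mem _
    · subst h1
      rw [An_eq] at hx ⊢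
      exact ⟨D.Ag j (by omega) _ hx.1, (D.Ag (j + 1) (by omega)).jm _ hx.2⟩
    · omega
  le j := by
    rcases lt_trichotomy j M with h1 | h1 | h1
    · rw [Bn_lt h1, An_lt h1]
      exact Submodule.prod_mono (D.le j) le_rfl
    · subst h1
      rw [Bn_eq, An_eq]
      intro x hx
      rw [mem_XB]
      have h2 : x.2 ∈ Jm (ZMod p) (A (j + 1)) := hx.2
      refine ⟨⟨D.le j hx.1, ?_⟩, ?_⟩
      · rw [mem_Jm] at h2 ⊢
        exact fun i => D.le (j + 1) (h2 i)
      · exact Submodule.sub_mem _ (D.Ad j _ hx.1) (pi_mem (D.AT _) h2)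
    · rw [Bn_gt h1, An_gt h1]
  fin j hj := by
    have hprod : ∀ (C : Submodule F E) (C' : Submodule F (ZMod p → E)) [FiniteDimensional F C]
        [FiniteDimensional F C'], FiniteDimensional F (C.prod C') := by
      intro C C' _ _
      let f : C.prod C' →ₗ[F] C × C' :=
        { toFun := fun x => (⟨x.1.1, x.2.1⟩, ⟨x.1.2, x.2.2⟩)
          map_add' := fun x y => rfl
          map_smul' := fun a x => rfl }
      refine Module.Finite.of_injective f ?_
      intro x y hxy
      apply Subtype.ext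
      have h1 := Prod.ext_iff.1 hxy
      exact Prod.ext (congrArg Subtype.val h1.1) (congrArg Subtype.val h1.2)
    rcases lt_trichotomy j M with h1 | h1 | h1
    · rw [Bn_lt h1]
      have := D.fin j (by omega)
      exact hprod _ _
    · subst h1
      rw [Bn_eq]
      have := D.fin j (by omega)
      have := D.fin (j + 1) (by omega)
      have := Jm_fin (ι := ZMod p) (B (j + 1))
      have h2 := hprod (B j) (Jm (ZMod p) (B (j + 1)))
      exact Submodule.finiteDimensional_of_le (inf_le_left (a := (B j).prod (Jm (ZMod p)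
        (B (j + 1)))))
    · omega
  top j hj := by
    rw [Bn_gt (by omega), An_gt (by omega)]
  ex k := D.step_ex k

end step

end Pool.Agent.H45.AC.T3X
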