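import Pool.Agent.H45.AC.T3one
import Pool.Agent.H47.ST.TKb

/-!
# The free module `J` of functions on `ZMod p`
-/

set_option autoImplicit false

namespace Pool.Agent.H45.AC.T3X

open Pool.Agent.H47.ST (the del TK RK sq Ops Sub)

variable {F E : Type*} [Field F] [AddCommGroup E] [Module F E]

/-- the shift of functions on `ZMod p` -/
def TJ (F E : Type*) [Field F] [AddCommGroup E] [Module F E] (p : ℕ) :
    (ZMod p → E) →ₗ[F] (ZMod p → E) where
  toFun h i := h (i - 1)
  map_add' _ _ := rfl
  map_smul' _ _ := rfl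

theorem TJ_apply (p : ℕ) (h : ZMod p → E) (i : ZMod p) : TJ F E p h i = h (i - 1) := rfl

theorem TJ_pow (p : ℕ) (m : ℕ) (h : ZMod p → E) (i : ZMod p) :
    ((TJ F E p) ^ m) h i = h (i - m) := by
  induction m generalizing i with
  | zero => simp
  | succ m ih =>
    rw [pow_succ', Module.End.mul_apply, TJ_apply, ih]
    congr 1
    push_cast
    ring

theorem TJ_pow_p (p : ℕ) : (TJ F E p) ^ p = 1 := by
  ext h i
  rw [TJ_pow, CharP.cast_eq_zero, sub_zero]
  rfl

section

variable (p : ℕ) [NeZero p]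

theorem T3_sum_zmod (f : ZMod p → E) :
    ∑ m ∈ Finset.range p, f (m : ZMod p) = ∑ a, f a := by
  symm
  refine Finset.sum_bij (fun a _ => a.val) (fun a _ => Finset.mem_range.2 (ZMod.val_lt a))
    (fun a _ b _ hab => ZMod.val_injective p hab) (fun m hm => ?_) (fun a _ => ?_)
  · refine ⟨(m : ZMod p), Finset.mem_univ _, ?_⟩
    exact ZMod.val_cast_of_lt (Finset.mem_range.1 hm)
  · rw [ZMod.natCast_zmod_val]

theorem nuT_TJ (h : ZMod p → E) (i : ZMod p) :
    nuT p (TJ F E p) h i = ∑ a, h a := by
  rw [nuT_apply, Finset.sum_apply]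
  simp only [TJ_pow]
  rw [T3_sum_zmod p (fun a => h (i - a))]
  exact Equiv.sum_comp (Equiv.subLeft i) h

/-- the map `J → E` -/
noncomputable def pi (T : E →ₗ[F] E) : (ZMod p → E) →ₗ[F] E where
  toFun h := ∑ j, (T ^ (ZMod.val j)) (h j)
  map_add' x y := by simp [Finset.sum_add_distrib]
  map_smul' a x := by simp [Finset.smul_sum]

theorem pi_apply (T : E →ₗ[F] E) (h : ZMod p → E) :
    pi p T h = ∑ j, (T ^ (ZMod.val j)) (h j) := rfl

variable {p}

theorem pi_TJ {T : E →ₗ[F] E} (hT : T ^ p = 1) (h : ZMod p → E) :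
    pi p T (TJ F E p h) = T (pi p T h) := by
  rw [pi_apply, pi_apply, map_sum]
  rw [← Equiv.sum_comp (Equiv.addRight (1 : ZMod p))]
  refine Finset.sum_congr rfl fun j _ => ?_
  rw [TJ_apply, Equiv.coe_addRight, add_sub_cancel_right]
  have h1 : T ^ (ZMod.val (j + 1)) = T ^ (ZMod.val j + 1) := by
    have h2 : ZMod.val (j + 1) % p = (ZMod.val j + 1) % p := by
      rw [← ZMod.natCast_eq_natCast_iff', ZMod.natCast_zmod_val]
      push_cast
      rw [ZMod.natCast_zmod_val]
    have h3 : ∀ a : ℕ, T ^ a = T ^ (a % p) := by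
      intro a
      conv_lhs => rw [← Nat.div_add_mod a p, pow_add, pow_mul, hT, one_pow, one_mul]
    rw [h3, h2, ← h3]
  rw [h1, pow_succ', Module.End.mul_apply]

theorem pi_single (T : E →ₗ[F] E) (x : E) : pi p T (Pi.single 0 x) = x := by
  rw [pi_apply, Finset.sum_eq_single 0]
  · rw [Pi.single_eq_same, ZMod.val_zero]
    rfl
  · intro b _ hb
    rw [Pi.single_eq_of_ne hb, map_zero]
  · intro h
    exact absurd (Finset.mem_univ _) h

theorem pi_mem {T : E →ₗ[F] E} {B : Submodule F E} (hB : Stab T B) {h : ZMod p → E}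
    (hh : h ∈ Jm (ZMod p) B) : pi p T h ∈ B := by
  rw [pi_apply]
  exact B.sum_mem fun j _ => hB.pow _ _ (mem_Jm.1 hh j)

theorem pi_comm {T g : E →ₗ[F] E} (hTg : ∀ x, T (g x) = g (T x)) (h : ZMod p → E) :
    pi p T (gJ (ZMod p) g h) = g (pi p T h) := by
  rw [pi_apply, pi_apply, map_sum]
  refine Finset.sum_congr rfl fun j _ => ?_
  have h1 : ∀ (m : ℕ) (x : E), (T ^ m) (g x) = g ((T ^ m) x) := by
    intro m
    induction m with
    | zero => intro x; rfl
    | succ m ih => intro x; rw [pow_succ, Module.End.mul_apply, Module.End.mul_apply, hTg, ih]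
  exact h1 _ _

theorem pi_the {T : E →ₗ[F] E} (hT : T ^ p = 1) (m : ℕ) (h : ZMod p → E) :
    pi p T (the (TJ F E p - 1) (nuT p (TJ F E p)) m h) =
      the (T - 1) (nuT p T) m (pi p T h) := by
  have h1 : ∀ (i : ℕ) (h : ZMod p → E), pi p T (((TJ F E p) ^ i) h) = (T ^ i) (pi p T h) := by
    intro i
    induction i with
    | zero => intro h; rfl
    | succ i ih => intro h; rw [pow_succ', pow_succ', Module.End.mul_apply,
        Module.End.mul_apply, pi_TJ hT, ih]
  unfold the
  split_ifs
  · rw [LinearMap.sub_apply, LinearMap.sub_apply, map_sub, pi_TJ hT]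
    rfl
  · rw [nuT_apply, nuT_apply, map_sum]
    exact Finset.sum_congr rfl fun i _ => h1 i h

omit [NeZero p] in
theorem Jm_the {B : Submodule F E} (m : ℕ) {h : ZMod p → E} (hh : h ∈ Jm (ZMod p) B) :
    the (TJ F E p - 1) (nuT p (TJ F E p)) m h ∈ Jm (ZMod p) B := by
  have h1 : Stab (TJ F E p) (Jm (ZMod p) B) := by
    intro x hx
    rw [mem_Jm] at hx ⊢
    exact fun i => hx _
  unfold the
  split_ifs
  · exact h1.sub_one h hh
  · exact h1.nu p h hh

/-- relative exactness of `J` -/
theorem J_exact {B A : Submodule F E} (m : ℕ) {h : ZMod p → E}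
    (hB : h ∈ Jm (ZMod p) B) (hA : the (TJ F E p - 1) (nuT p (TJ F E p)) m h ∈ Jm (ZMod p) A) :
    ∃ h' ∈ Jm (ZMod p) B,
      h - the (TJ F E p - 1) (nuT p (TJ F E p)) (m + 1) h' ∈ Jm (ZMod p) A := by
  rw [mem_Jm] at hB hA
  unfold the at hA ⊢
  by_cases hm : Even m
  · -- `h (i - 1) - h i ∈ A`
    rw [if_pos hm] at hA
    rw [if_neg (by rw [Nat.even_add_one]; exact not_not.2 hm)]
    refine ⟨Pi.single 0 (h 0), ?_, ?_⟩
    · rw [mem_Jm]
      intro i
      by_cases hi : i = 0
      · subst hi
        rw [Pi.single_eq_same]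
        exact hB 0
      · rw [Pi.single_eq_of_ne hi]
        exact B.zero_mem
    · rw [mem_Jm]
      intro i
      rw [Pi.sub_apply, nuT_TJ, Finset.sum_pi_single']
      rw [if_pos (Finset.mem_univ _)]
      have h1 : ∀ k : ℕ, h (k : ZMod p) - h 0 ∈ A := by
        intro k
        induction k with
        | zero => simp
        | succ k ih =>
          have h2 : (TJ F E p - 1) h ((k : ZMod p) + 1) ∈ A := hA _
          rw [LinearMap.sub_apply, Pi.sub_apply, TJ_apply, add_sub_cancel_right] at h2
          change h (k : ZMod p) - h ((k : ZMod p) + 1) ∈ A at h2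
          push_cast
          have h3 := A.sub_mem ih h2
          have h4 : h (k : ZMod p) - h 0 - (h (k : ZMod p) - h ((k : ZMod p) + 1)) =
              h ((k : ZMod p) + 1) - h 0 := by abel
          rwa [h4] at h3
      have h2 := h1 (ZMod.val i)
      rwa [ZMod.natCast_zmod_val] at h2
  · -- `∑ h ∈ A`
    rw [if_neg hm] at hA
    rw [if_pos (by rw [Nat.even_add_one]; exact hm)]
    have hs : ∑ a, h a ∈ A := by
      have h1 := hA 0
      rwa [nuT_TJ] at h1
    set h' : ZMod p → E := fun j => -∑ l ∈ Finset.range (ZMod.val j), h ((l + 1 : ℕ) : ZMod p)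
      with hh'
    refine ⟨h', ?_, ?_⟩
    · rw [mem_Jm]
      intro j
      exact B.neg_mem (B.sum_mem fun l _ => hB _)
    · rw [mem_Jm]
      intro i
      have hp : 0 < p := Nat.pos_of_ne_zero (NeZero.ne p)
      rw [Pi.sub_apply, LinearMap.sub_apply, Pi.sub_apply, TJ_apply, Module.End.one_apply]
      obtain ⟨j, rfl⟩ : ∃ j, i = j + 1 := ⟨i - 1, by ring⟩
      rw [add_sub_cancel_right]
      by_cases hj : ZMod.val j + 1 < p
      · have h1 : ZMod.val (j + 1) = ZMod.val j + 1 := by
          have h2 : (((ZMod.val j + 1 : ℕ)) : ZMod p) = j + 1 := by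
            push_cast
            rw [ZMod.natCast_zmod_val]
          rw [← h2, ZMod.val_cast_of_lt hj]
        have h2 : h' j - h' (j + 1) = h (j + 1) := by
          rw [hh']
          simp only
          rw [h1, Finset.sum_range_succ]
          have h3 : (((ZMod.val j + 1 : ℕ)) : ZMod p) = j + 1 := by
            push_cast
            rw [ZMod.natCast_zmod_val]
          rw [h3]
          abel
        rw [h2, sub_self]
        exact A.zero_mem
      · have h1 : ZMod.val j + 1 = p := by
          have := ZMod.val_lt j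
          omega
        have h2 : j + 1 = 0 := by
          have h3 : (((ZMod.val j + 1 : ℕ)) : ZMod p) = j + 1 := by
            push_cast
            rw [ZMod.natCast_zmod_val]
          rw [← h3, h1, CharP.cast_eq_zero]
        rw [h2]
        have h3 : h' 0 = 0 := by
          rw [hh']
          simp
        have h4 : h' j = -(∑ a, h a - h 0) := by
          rw [hh']
          simp only
          congr 1
          have h6 : ∀ q, q = ZMod.val j + 1 → ∑ l ∈ Finset.range q, h (l : ZMod p) =
              ∑ l ∈ Finset.range (ZMod.val j), h ((l + 1 : ℕ) : ZMod p) + h 0 := by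
            rintro q rfl
            rw [Finset.sum_range_succ', Nat.cast_zero]
          rw [← T3_sum_zmod p h, h6 p h1.symm]
          abel
        rw [h3, h4, sub_zero]
        have h5 : h 0 - -(∑ a, h a - h 0) = ∑ a, h a := by abel
        rw [h5]
        exact hs

end

end Pool.Agent.H45.AC.T3X
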