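import Pool.Agent.H45.AC.Tg

/-!
# Trace over one module which is Tate exact
-/

set_option autoImplicit false

namespace Pool.Agent.H45.AC.T3X

variable {F E : Type*} [Field F] [AddCommGroup E] [Module F E]

/-- the norm `1 + T + … + T^(p-1)` -/
noncomputable def nuT (p : ℕ) (T : E →ₗ[F] E) : E →ₗ[F] E := ∑ i ∈ Finset.range p, T ^ i

theorem nuT_apply (p : ℕ) (T : E →ₗ[F] E) (x : E) :
    nuT p T x = ∑ i ∈ Finset.range p, (T ^ i) x := by
  unfold nuT
  rw [LinearMap.sum_apply]

section poly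

open Polynomial

variable (F)

theorem T3_poly_pow (p : ℕ) [Fact p.Prime] [CharP F p] :
    ((X : F[X]) - 1) ^ p = X ^ p - 1 := by
  have h : ExpChar F[X] p := ExpChar.prime (Fact.out)
  rw [sub_pow_expChar, one_pow]

theorem T3_poly_nu (p : ℕ) [Fact p.Prime] [CharP F p] :
    ((X : F[X]) - 1) ^ (p - 1) = ∑ i ∈ Finset.range p, X ^ i := by
  have hp : 0 < p := (Fact.out : p.Prime).pos
  have h1 : ((X : F[X]) - 1) ≠ 0 := by
    rw [← Polynomial.C_1]
    exact Polynomial.X_sub_C_ne_zero 1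
  apply mul_right_cancel₀ h1
  rw [geom_sum_mul, ← pow_succ, Nat.sub_add_cancel hp, T3_poly_pow]

end poly

theorem T3_tau_pow {p : ℕ} [Fact p.Prime] [CharP F p] {T : E →ₗ[F] E} (hT : T ^ p = 1) :
    (T - 1) ^ p = 0 := by
  have h1 := congrArg (Polynomial.aeval T) (T3_poly_pow F p)
  rw [map_pow, map_sub, map_sub, map_pow, Polynomial.aeval_X, map_one, hT, sub_self] at h1
  exact h1

theorem T3_tau_nu (p : ℕ) [Fact p.Prime] [CharP F p] (T : E →ₗ[F] E) :
    (T - 1) ^ (p - 1) = nuT p T := by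
  have h1 := congrArg (Polynomial.aeval T) (T3_poly_nu F p)
  rw [map_pow, map_sub, Polynomial.aeval_X, map_one, map_sum] at h1
  rw [h1]
  unfold nuT
  refine Finset.sum_congr rfl fun i _ => ?_
  rw [map_pow, Polynomial.aeval_X]

theorem _root_.Pool.Agent.H45.AC.Stab.sub_one {T : E →ₗ[F] E} {B : Submodule F E} (hB : Stab T B) : Stab (T - 1) B := by
  intro x hx
  rw [LinearMap.sub_apply]
  exact B.sub_mem (hB x hx) hx

theorem _root_.Pool.Agent.H45.AC.Stab.pow {T : E →ₗ[F] E} {B : Submodule F E} (hB : Stab T B) (i : ℕ) :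
    Stab (T ^ i) B := by
  induction i with
  | zero => intro x hx; exact hx
  | succ i ih =>
    intro x hx
    rw [pow_succ, Module.End.mul_apply]
    exact ih _ (hB x hx)

theorem _root_.Pool.Agent.H45.AC.Stab.nu {T : E →ₗ[F] E} {B : Submodule F E} (hB : Stab T B) (p : ℕ) :
    Stab (nuT p T) B := by
  intro x hx
  rw [nuT_apply]
  exact B.sum_mem fun i _ => hB.pow i x hx

theorem T3_comm_pow {T g : E →ₗ[F] E} (h : ∀ x, T (g x) = g (T x)) (i : ℕ) (x : E) :
    ((T - 1) ^ i) (g x) = g (((T - 1) ^ i) x) := by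
  induction i generalizing x with
  | zero => rfl
  | succ i ih =>
    rw [pow_succ, Module.End.mul_apply, Module.End.mul_apply, LinearMap.sub_apply,
      LinearMap.sub_apply, h, Module.End.one_apply, Module.End.one_apply, ← map_sub, ih]

/-- one module -/
theorem T3_one {p : ℕ} [Fact p.Prime] [CharP F p] {T g : E →ₗ[F] E} (hT : T ^ p = 1)
    (hTg : ∀ x, T (g x) = g (T x)) {B A : Submodule F E} [FiniteDimensional F B] (hAB : A ≤ B)
    (hBT : Stab T B) (hAT : Stab T A) (hBg : Stab g B) (hAg : Stab g A)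
    (hex : ∀ x ∈ B, (T - 1) x ∈ A → ∃ y ∈ B, x - nuT p T y ∈ A) : tg g B = tg g A := by
  set τ := T - 1 with hτ
  set U : ℕ → Submodule F E := fun i => B.map (τ ^ i) ⊔ A with hU
  have hτB : Stab τ B := hBT.sub_one
  have hτA : Stab τ A := hAT.sub_one
  have hUB : ∀ i, U i ≤ B := by
    intro i
    refine sup_le ?_ hAB
    rintro _ ⟨x, hx, rfl⟩
    exact hτB.pow i x hx
  have hUg : ∀ i, Stab g (U i) := by
    intro i
    refine Stab.sup ?_ hAg
    exact hBg.map fun x _ => T3_comm_pow hTg i x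
  have hUf : ∀ i, FiniteDimensional F (U i) := fun i => Submodule.finiteDimensional_of_le (hUB i)
  set K : Submodule F E := B ⊓ A.comap τ with hK
  have hstep : ∀ i < p, tg g (U i) = tg g K + (tg g (U (i + 1)) - tg g A) := by
    intro i hi
    have := hUf i
    have := hUf (i + 1)
    have h1 := tg_map (g' := A.mapQ A g hAg) (f := A.mkQ ∘ₗ τ) (hUg i) (fun x _ => by
      change A.mkQ (τ (g x)) = A.mapQ A g hAg (A.mkQ (τ x))
      have h2 := T3_comm_pow hTg 1 x
      rw [pow_one] at h2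
      rw [h2]
      rfl)
    have h2 : U i ⊓ LinearMap.ker (A.mkQ ∘ₗ τ) = K := by
      ext x
      have h3 : x ∈ LinearMap.ker (A.mkQ ∘ₗ τ) ↔ τ x ∈ A := by
        rw [LinearMap.mem_ker, LinearMap.comp_apply, Submodule.mkQ_apply,
          Submodule.Quotient.mk_eq_zero]
      rw [Submodule.mem_inf, h3, hK, Submodule.mem_inf, Submodule.mem_comap]
      constructor
      · rintro ⟨hx1, hx2⟩
        exact ⟨hUB i hx1, hx2⟩
      · rintro ⟨hx1, hx2⟩
        refine ⟨?_, hx2⟩
        obtain ⟨y, hy, hy'⟩ := hex x hx1 hx2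
        have h4 : nuT p T y = (τ ^ i) ((τ ^ (p - 1 - i)) y) := by
          rw [← T3_tau_nu, ← Module.End.mul_apply, ← pow_add]
          congr 2
          omega
        have h5 : x = (τ ^ i) ((τ ^ (p - 1 - i)) y) + (x - nuT p T y) := by
          rw [h4]; abel
        rw [h5]
        exact Submodule.add_mem_sup ⟨_, hτB.pow _ y hy, rfl⟩ hy'
    have h3 : (U i).map (A.mkQ ∘ₗ τ) = (U (i + 1)).map A.mkQ := by
      rw [Submodule.map_comp]
      change ((B.map (τ ^ i) ⊔ A).map τ).map A.mkQ = (B.map (τ ^ (i + 1)) ⊔ A).map A.mkQ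
      have h4 : B.map (τ ^ (i + 1)) = (B.map (τ ^ i)).map τ := by
        rw [← Submodule.map_comp]
        congr 1
        rw [pow_succ']
        rfl
      rw [Submodule.map_sup, Submodule.map_sup, Submodule.map_sup, h4, Submodule.mkQ_map_self]
      congr 1
      rw [eq_bot_iff]
      rintro _ ⟨_, ⟨x, hx, rfl⟩, rfl⟩
      rw [Submodule.mem_bot, Submodule.mkQ_apply, Submodule.Quotient.mk_eq_zero]
      exact hτA x hx
    rw [h2, h3, tg_quot (hUg (i + 1)) hAg le_sup_right] at h1
    exact h1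
  have hsum : ∀ i ≤ p, tg g (U 0) = i * (tg g K - tg g A) + tg g (U i) := by
    intro i
    induction i with
    | zero => intro _; simp
    | succ i ih =>
      intro hi
      rw [ih (by omega), hstep i (by omega)]
      push_cast
      ring
  have h0 : U 0 = B := by
    change B.map (τ ^ 0) ⊔ A = B
    rw [pow_zero]
    change B.map LinearMap.id ⊔ A = B
    rw [Submodule.map_id]
    exact sup_eq_left.2 hAB
  have hp : U p = A := by
    change B.map (τ ^ p) ⊔ A = A
    rw [hτ, T3_tau_pow hT, Submodule.map_zero, bot_sup_eq]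
  have h1 := hsum p le_rfl
  rw [h0, hp, CharP.cast_eq_zero, zero_mul, zero_add] at h1
  exact h1

end Pool.Agent.H45.AC.T3X
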