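import Mathlib

/-!
# Traces on stable submodules
-/

set_option autoImplicit false

namespace Pool.Agent.H45.AC

variable {F E E' : Type*} [Field F] [AddCommGroup E] [Module F E] [AddCommGroup E'] [Module F E']

/-- `B` is stable under `g` -/
def Stab (g : E →ₗ[F] E) (B : Submodule F E) : Prop := ∀ x ∈ B, g x ∈ B

open Classical in
/-- trace of `g` on the stable submodule `B` (and `0` if `B` is not stable) -/
noncomputable def tg (g : E →ₗ[F] E) (B : Submodule F E) : F :=
  if h : Stab g B then LinearMap.trace F B (g.restrict h) else 0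

theorem tg_eq {g : E →ₗ[F] E} {B : Submodule F E} (h : Stab g B) :
    tg g B = LinearMap.trace F B (g.restrict h) := dif_pos h

theorem tg_bot (g : E →ₗ[F] E) : tg g (⊥ : Submodule F E) = 0 := by
  have h : Stab g (⊥ : Submodule F E) := by
    intro x hx
    rw [Submodule.mem_bot] at hx ⊢
    rw [hx, map_zero]
  rw [tg_eq h]
  have h1 : g.restrict h = 0 := Subsingleton.elim _ _
  rw [h1, map_zero]

theorem Stab.inf {g : E →ₗ[F] E} {B C : Submodule F E} (hB : Stab g B) (hC : Stab g C) :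
    Stab g (B ⊓ C) := fun x hx => ⟨hB x hx.1, hC x hx.2⟩

theorem Stab.sup {g : E →ₗ[F] E} {B C : Submodule F E} (hB : Stab g B) (hC : Stab g C) :
    Stab g (B ⊔ C) := by
  intro x hx
  obtain ⟨b, hb, c, hc, rfl⟩ := Submodule.mem_sup.1 hx
  rw [map_add]
  exact Submodule.mem_sup.2 ⟨g b, hB b hb, g c, hC c hc, rfl⟩

theorem Stab.map {g : E →ₗ[F] E} {g' : E' →ₗ[F] E'} {B : Submodule F E} (hB : Stab g B)
    {f : E →ₗ[F] E'} (hf : ∀ x ∈ B, f (g x) = g' (f x)) : Stab g' (B.map f) := by
  rintro _ ⟨x, hx, rfl⟩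
  exact ⟨g x, hB x hx, hf x hx⟩

/-- additivity: kernel and image of an equivariant linear map -/
theorem tg_map {g : E →ₗ[F] E} {g' : E' →ₗ[F] E'} {B : Submodule F E} [FiniteDimensional F B]
    (hB : Stab g B) {f : E →ₗ[F] E'} (hf : ∀ x ∈ B, f (g x) = g' (f x)) :
    tg g B = tg g (B ⊓ LinearMap.ker f) + tg g' (B.map f) := by
  classical
  have hK : Stab g (B ⊓ LinearMap.ker f) := by
    intro x hx
    refine ⟨hB x hx.1, ?_⟩
    change f (g x) = 0
    rw [hf x hx.1, LinearMap.mem_ker.1 hx.2, map_zero]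
  have hR : Stab g' (B.map f) := hB.map hf
  rw [tg_eq hB, tg_eq hK, tg_eq hR]
  -- the maps
  set fR : B →ₗ[F] (B.map f) := f.submoduleMap B with hfR
  have hfRs : Function.Surjective fR := f.submoduleMap_surjective B
  obtain ⟨s, hs⟩ := LinearMap.exists_rightInverse_of_surjective fR (LinearMap.range_eq_top.2 hfRs)
  have hsx : ∀ y, fR (s y) = y := fun y => LinearMap.congr_fun hs y
  have hfRx : ∀ x : B, (fR x : E') = f (x : E) := fun x => rfl
  set ι : (B ⊓ LinearMap.ker f : Submodule F E) →ₗ[F] B := Submodule.inclusion inf_le_left with hι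
  set π₀ : B →ₗ[F] B := LinearMap.id - s ∘ₗ fR with hπ₀
  have hπ₀x : ∀ x, π₀ x = x - s (fR x) := fun x => rfl
  have hker : ∀ x, fR (π₀ x) = 0 := by
    intro x
    rw [hπ₀x, map_sub, hsx, sub_self]
  set π : B →ₗ[F] (B ⊓ LinearMap.ker f : Submodule F E) :=
    (B.subtype ∘ₗ π₀).codRestrict _ (fun x => by
      refine ⟨(π₀ x).2, ?_⟩
      have h1 := congrArg Subtype.val (hker x)
      exact h1) with hπ
  have hπx : ∀ x, ((π x : (B ⊓ LinearMap.ker f : Submodule F E)) : E) = (x : E) - (s (fR x) : E) :=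
    fun x => rfl
  set G := g.restrict hB with hG
  have h1 : G = G ∘ₗ (ι ∘ₗ π) + G ∘ₗ (s ∘ₗ fR) := by
    ext x
    change g (x : E) = g ((x : E) - (s (fR x) : E)) + g (s (fR x) : E)
    rw [map_sub, sub_add_cancel]
  have h2 : LinearMap.trace F B (G ∘ₗ (ι ∘ₗ π)) =
      LinearMap.trace F (B ⊓ LinearMap.ker f : Submodule F E) (g.restrict hK) := by
    have h3 : G ∘ₗ (ι ∘ₗ π) = (G ∘ₗ ι) ∘ₗ π := rfl
    rw [h3, LinearMap.trace_comp_comm']
    congr 1
    ext x
    change ((π (G (ι x)) : (B ⊓ LinearMap.ker f : Submodule F E)) : E) = g (x : E)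
    rw [hπx]
    have h4 : fR (G (ι x)) = 0 := by
      apply Subtype.ext
      rw [hfRx]
      change f (g (x : E)) = 0
      rw [hf x x.2.1, LinearMap.mem_ker.1 x.2.2, map_zero]
    rw [h4, map_zero]
    change g (x : E) - 0 = _
    rw [sub_zero]
  have h3 : LinearMap.trace F B (G ∘ₗ (s ∘ₗ fR)) =
      LinearMap.trace F (B.map f) (g'.restrict hR) := by
    have h4 : G ∘ₗ (s ∘ₗ fR) = (G ∘ₗ s) ∘ₗ fR := rfl
    rw [h4, LinearMap.trace_comp_comm']
    congr 1
    ext y
    change (fR (G (s y)) : E') = g' (y : E')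
    rw [hfRx]
    change f (g (s y : E)) = _
    rw [hf _ (s y).2, ← hfRx, hsx]
  rw [h1, map_add, h2, h3]

/-- isomorphisms -/
theorem tg_map_inj {g : E →ₗ[F] E} {g' : E' →ₗ[F] E'} {B : Submodule F E} [FiniteDimensional F B]
    (hB : Stab g B) {f : E →ₗ[F] E'} (hf : ∀ x ∈ B, f (g x) = g' (f x))
    (hi : ∀ x ∈ B, f x = 0 → x = 0) : tg g' (B.map f) = tg g B := by
  rw [tg_map hB hf]
  have h1 : B ⊓ LinearMap.ker f = ⊥ := by
    rw [eq_bot_iff]
    intro x hx
    exact hi x hx.1 hx.2
  rw [h1, tg_bot, zero_add]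

/-- the map induced on `E / A` -/
theorem tg_quot {g : E →ₗ[F] E} {B A : Submodule F E} [FiniteDimensional F B]
    (hB : Stab g B) (hA : Stab g A) (hAB : A ≤ B) :
    tg (A.mapQ A g hA) (B.map A.mkQ) = tg g B - tg g A := by
  have h1 := tg_map (g' := A.mapQ A g hA) (f := A.mkQ) hB (fun x _ => rfl)
  rw [A.ker_mkQ, inf_eq_right.2 hAB] at h1
  rw [h1]
  ring

/-- modular law -/
theorem tg_sup_inf {g : E →ₗ[F] E} {B C : Submodule F E} [FiniteDimensional F B]
    [FiniteDimensional F C] (hB : Stab g B) (hC : Stab g C) :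
    tg g (B ⊔ C) + tg g (B ⊓ C) = tg g B + tg g C := by
  have h1 := tg_map (B := B) (g := g) (g' := C.mapQ C g hC) (f := C.mkQ) hB (fun x _ => rfl)
  have h2 := tg_map (B := B ⊔ C) (g := g) (g' := C.mapQ C g hC) (f := C.mkQ) (hB.sup hC)
    (fun x _ => rfl)
  rw [C.ker_mkQ] at h1 h2
  have h3 : (B ⊔ C) ⊓ C = C := inf_eq_right.2 le_sup_right
  have h4 : (B ⊔ C).map C.mkQ = B.map C.mkQ := by
    rw [Submodule.map_sup, Submodule.mkQ_map_self, sup_bot_eq]
  rw [h3, h4] at h2
  rw [h2, h1]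
  ring

/-- products -/
theorem tg_prod {g : E →ₗ[F] E} {g' : E' →ₗ[F] E'} {B : Submodule F E} {C : Submodule F E'}
    [FiniteDimensional F B] [FiniteDimensional F C] (hB : Stab g B) (hC : Stab g' C) :
    tg (g.prodMap g') (B.prod C) = tg g B + tg g' C := by
  have hst : Stab (g.prodMap g') (B.prod C) := fun x hx => ⟨hB _ hx.1, hC _ hx.2⟩
  have hfin : FiniteDimensional F (B.prod C) := by
    let f : B.prod C →ₗ[F] B × C :=
      { toFun := fun x => (⟨x.1.1, x.2.1⟩, ⟨x.1.2, x.2.2⟩)
        map_add' := fun x y => rfl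
        map_smul' := fun a x => rfl }
    refine Module.Finite.of_injective f ?_
    intro x y hxy
    apply Subtype.ext
    have h1 := Prod.ext_iff.1 hxy
    exact Prod.ext (congrArg Subtype.val h1.1) (congrArg Subtype.val h1.2)
  have h1 := tg_map (g' := g) (f := LinearMap.fst F E E') hst (fun x _ => rfl)
  have h2 : (B.prod C).map (LinearMap.fst F E E') = B := by
    ext a
    rw [Submodule.mem_map]
    constructor
    · rintro ⟨x, hx, rfl⟩
      exact hx.1
    · intro ha
      exact ⟨(a, 0), ⟨ha, C.zero_mem⟩, rfl⟩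
  have h3 : B.prod C ⊓ LinearMap.ker (LinearMap.fst F E E') = C.map (LinearMap.inr F E E') := by
    ext ⟨a, b⟩
    rw [Submodule.mem_inf, Submodule.mem_prod, LinearMap.mem_ker, LinearMap.fst_apply,
      Submodule.mem_map]
    constructor
    · rintro ⟨⟨-, hb⟩, ha⟩
      exact ⟨b, hb, by rw [LinearMap.inr_apply]; exact Prod.ext ha.symm rfl⟩
    · rintro ⟨c, hc, hcab⟩
      rw [LinearMap.inr_apply] at hcab
      have h4 := Prod.ext_iff.1 hcab
      simp only at h4
      obtain ⟨h5, h6⟩ := h4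
      subst h5
      subst h6
      exact ⟨⟨B.zero_mem, hc⟩, rfl⟩
  have h4 : tg (g.prodMap g') (C.map (LinearMap.inr F E E')) = tg g' C := by
    refine tg_map_inj hC (fun x _ => ?_) (fun x _ hx => ?_)
    · rw [LinearMap.inr_apply, LinearMap.inr_apply, LinearMap.prodMap_apply]
      simp
    · rw [LinearMap.inr_apply] at hx
      exact (Prod.ext_iff.1 hx).2
  rw [h1, h2, h3, h4]
  ring

/-- functions on a finite set with values in `B` -/
def Jm (ι : Type*) (B : Submodule F E) : Submodule F (ι → E) := Submodule.pi Set.univ fun _ => B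

theorem mem_Jm {ι : Type*} {B : Submodule F E} {h : ι → E} : h ∈ Jm ι B ↔ ∀ i, h i ∈ B := by
  unfold Jm
  rw [Submodule.mem_pi]
  simp

/-- `g` on all components -/
def gJ (ι : Type*) (g : E →ₗ[F] E) : (ι → E) →ₗ[F] (ι → E) where
  toFun h i := g (h i)
  map_add' x y := by ext i; simp
  map_smul' a x := by ext i; simp

theorem Stab.jm {ι : Type*} {g : E →ₗ[F] E} {B : Submodule F E} (hB : Stab g B) :
    Stab (gJ ι g) (Jm ι B) := by
  intro h hh
  rw [mem_Jm] at hh ⊢
  exact fun i => hB _ (hh i)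

theorem Jm_fin {ι : Type*} [Finite ι] (B : Submodule F E) [FiniteDimensional F B] :
    FiniteDimensional F (Jm ι B) := by
  let f : Jm ι B →ₗ[F] (ι → B) :=
    { toFun := fun h i => ⟨h.1 i, mem_Jm.1 h.2 i⟩
      map_add' := fun x y => rfl
      map_smul' := fun a x => rfl }
  refine Module.Finite.of_injective f ?_
  intro x y hxy
  apply Subtype.ext
  funext i
  exact congrArg Subtype.val (congrFun hxy i)

theorem tg_Jm {ι : Type*} [Fintype ι] {g : E →ₗ[F] E} {B : Submodule F E} [FiniteDimensional F B]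
    (hB : Stab g B) : tg (gJ ι g) (Jm ι B) = (Fintype.card ι : F) * tg g B := by
  classical
  have := Jm_fin (ι := ι) B
  rw [tg_eq hB, tg_eq hB.jm]
  set G := (gJ ι g).restrict (hB.jm (ι := ι)) with hG
  let s : ι → (B →ₗ[F] Jm ι B) := fun i =>
    { toFun := fun b => ⟨Pi.single i (b : E), mem_Jm.2 fun j => by
        by_cases h : j = i
        · subst h
          rw [Pi.single_eq_same]
          exact b.2
        · rw [Pi.single_eq_of_ne h]
          exact B.zero_mem⟩
      map_add' := fun x y => by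
        apply Subtype.ext
        change (Pi.single i ((x : E) + (y : E)) : ι → E) = Pi.single i (x : E) + Pi.single i (y : E)
        exact Pi.single_add _ _ _
      map_smul' := fun a x => by
        apply Subtype.ext
        change (Pi.single i (a • (x : E)) : ι → E) = a • Pi.single i (x : E)
        exact Pi.single_smul _ _ _ }
  let p : ι → (Jm ι B →ₗ[F] B) := fun i =>
    { toFun := fun h => ⟨h.1 i, mem_Jm.1 h.2 i⟩
      map_add' := fun x y => rfl
      map_smul' := fun a x => rfl }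
  have h1 : G = ∑ i, (G ∘ₗ s i) ∘ₗ p i := by
    ext x
    rw [LinearMap.sum_apply]
    have h2 : x = ∑ i, s i (p i x) := by
      apply Subtype.ext
      rw [Submodule.coe_sum]
      exact (Finset.univ_sum_single (x : ι → E)).symm
    conv_lhs => rw [h2, map_sum]
    rfl
  have h2 : ∀ i, LinearMap.trace F (Jm ι B) ((G ∘ₗ s i) ∘ₗ p i) =
      LinearMap.trace F B (g.restrict hB) := by
    intro i
    rw [LinearMap.trace_comp_comm']
    congr 1
    ext x
    change g ((Pi.single i (x : E) : ι → E) i) = g (x : E)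
    rw [Pi.single_eq_same]
  rw [h1, map_sum, Finset.sum_congr rfl fun i _ => h2 i, Finset.sum_const, Finset.card_univ,
    nsmul_eq_mul]

end Pool.Agent.H45.AC
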