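import Pool.Agent.H45.AC.TopZ
import Pool.Agent.H45.AC.FunT
import Pool.Agent.H45.AC.Chain

/-!
# Project AC: the topological theorem for separated critical values
-/

set_option autoImplicit false

namespace Pool.Agent.H45.AC

open Filter Topology QuadraticForm
open Pool.Agent.H47.ST
open Pool.Agent.H47.QG (hess LocIdx)

open Classical in
/-- the critical values of class I at the invariant critical points -/
noncomputable def Lam {n K : ℕ} (T : Equiv.Perm (Iz n K)) (G₁ G₂ : ℕ)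
    (f : (Iz n K → ℝ) → ℝ) (W : Finset (Iz n K → ℝ)) : Finset ℝ :=
  (W.filter fun z => z ∘ T = z ∧ ClI G₁ G₂ f z).image f

theorem TopC_mem_Lam {n K : ℕ} {T : Equiv.Perm (Iz n K)} {G₁ G₂ : ℕ}
    {f : (Iz n K → ℝ) → ℝ} {W : Finset (Iz n K → ℝ)} {x : ℝ} :
    x ∈ Lam T G₁ G₂ f W ↔ ∃ z ∈ W, z ∘ T = z ∧ ClI G₁ G₂ f z ∧ f z = x := by
  classical
  unfold Lam
  rw [Finset.mem_image]
  constructor
  · rintro ⟨z, hz, rfl⟩
    obtain ⟨h1, h2, h3⟩ := Finset.mem_filter.1 hz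
    exact ⟨z, h1, h2, h3, rfl⟩
  · rintro ⟨z, h1, h2, h3, rfl⟩
    exact ⟨z, Finset.mem_filter.2 ⟨h1, h2, h3⟩, rfl⟩

/-- the smallest gap of a finite set -/
theorem TopC_gap (S : Finset ℝ) : ∃ g : ℝ, 0 < g ∧ ∀ x ∈ S, ∀ y ∈ S, x < y → g ≤ y - x := by
  classical
  rcases ((S ×ˢ S).filter fun q => q.1 < q.2).eq_empty_or_nonempty with h | h
  · refine ⟨1, one_pos, fun x hx y hy hxy => ?_⟩
    exfalso
    have h1 : (x, y) ∈ (S ×ˢ S).filter fun q => q.1 < q.2 :=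
      Finset.mem_filter.2 ⟨Finset.mem_product.2 ⟨hx, hy⟩, hxy⟩
    rw [h] at h1
    exact Finset.notMem_empty _ h1
  · obtain ⟨q, hq, hmin⟩ := Finset.exists_min_image _ (fun q : ℝ × ℝ => q.2 - q.1) h
    refine ⟨q.2 - q.1, sub_pos.2 (Finset.mem_filter.1 hq).2, fun x hx y hy hxy => ?_⟩
    exact hmin (x, y) (Finset.mem_filter.2 ⟨Finset.mem_product.2 ⟨hx, hy⟩, hxy⟩)

/-- a small number with `x + δ`, `x - δ`, `x + δ + η`, `x - δ - η` outside a finite set -/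
theorem TopC_delta (S V : Finset ℝ) (I : ℕ) (η : ℕ → ℝ) (δ₀ : ℝ) (hδ₀ : 0 < δ₀) :
    ∃ δ : ℝ, 0 < δ ∧ δ < δ₀ ∧ (∀ x ∈ S, x + δ ∉ V ∧ x - δ ∉ V) ∧
      ∀ x ∈ S, ∀ i ≤ I, x + δ + η i ∉ V ∧ x - δ - η i ∉ V := by
  classical
  set Bad : Finset ℝ := (S ×ˢ (V ×ˢ Finset.range (I + 1))).biUnion fun q =>
    {q.2.1 - q.1, q.1 - q.2.1, q.2.1 - q.1 - η q.2.2, q.1 - η q.2.2 - q.2.1} with hBad
  obtain ⟨δ, hδ, hδB⟩ := (Set.Ioo_infinite hδ₀).exists_notMem_finset Bad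
  have key : ∀ x ∈ S, ∀ v ∈ V, ∀ i ≤ I, δ ≠ v - x ∧ δ ≠ x - v ∧ δ ≠ v - x - η i ∧
      δ ≠ x - η i - v := by
    intro x hx v hv i hi
    have h1 : ∀ y ∈ ({v - x, x - v, v - x - η i, x - η i - v} : Finset ℝ), δ ≠ y := by
      intro y hy e
      refine hδB (Finset.mem_biUnion.2 ⟨(x, v, i), ?_, ?_⟩)
      · exact Finset.mem_product.2 ⟨hx, Finset.mem_product.2 ⟨hv,
          Finset.mem_range.2 (Nat.lt_succ_of_le hi)⟩⟩
      · rw [e]
        exact hy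
    refine ⟨h1 _ ?_, h1 _ ?_, h1 _ ?_, h1 _ ?_⟩ <;> simp
  refine ⟨δ, hδ.1, hδ.2, fun x hx => ⟨fun h => ?_, fun h => ?_⟩,
    fun x hx i hi => ⟨fun h => ?_, fun h => ?_⟩⟩
  · exact (key x hx _ h 0 (Nat.zero_le _)).1 (by ring)
  · exact (key x hx _ h 0 (Nat.zero_le _)).2.1 (by ring)
  · exact (key x hx _ h i hi).2.2.1 (by ring)
  · exact (key x hx _ h i hi).2.2.2 (by ring)

/-- **Topological theorem**, for functions with separated critical values. -/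
theorem top_core {n p k N : ℕ} [NeZero N] [NeZero (k * N)] [NeZero (p * (k * N))] [Fact p.Prime]
    {C : ℝ} {G₁ G₂ : ℕ} (h12 : G₁ < G₂) (I : ℕ) (f : ℕ → (Iz n (p * (k * N)) → ℝ) → ℝ)
    (W : ℕ → Finset (Iz n (p * (k * N)) → ℝ))
    (hf : ∀ i ≤ I, Adm n (p * (k * N)) (shp n p (k * N)) C G₁ G₂ (f i) (W i))
    (hsep : ∀ i ≤ I, SepI G₁ G₂ (f i) (W i))
    (hγ : ∀ y, f 0 (y ∘ shG n (p * (k * N)) N) = f 0 y)
    (η : ℕ → ℝ) (hη0 : ∀ i, 0 ≤ η i) (hη : ∀ i ≤ I, ∀ y, |f i y - f 0 y| ≤ η i)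
    (um u up : ℝ) (hum : um < u) (hup : u < up)
    (Cf : Finset (Iz n N → ℝ)) (s : (Iz n N → ℝ) → ℤ)
    (hCf : ∀ y : Iz n N → ℝ, (fderiv ℝ (f 0) (y ∘ rdG n (p * (k * N)) N) = 0 ∧
      ClI G₁ G₂ (f 0) (y ∘ rdG n (p * (k * N)) N) ∧ um < f 0 (y ∘ rdG n (p * (k * N)) N) ∧
      f 0 (y ∘ rdG n (p * (k * N)) N) < up) ↔ ∃ c ∈ Cf, ∃ l ∈ Lc n N, y = c + rl l)
    (hCu : ∀ c ∈ Cf, f 0 (c ∘ rdG n (p * (k * N)) N) = u)
    (hCd : ∀ c ∈ Cf, ∀ c' ∈ Cf, ∀ l ∈ Lc n N, c' = c + rl l → c' = c)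
    (hs : ∀ c ∈ Cf, LocIdx (fun y : Iz n N → ℝ => f 0 (y ∘ rdG n (p * (k * N)) N)) c (s c))
    (hsum : ((∑ c ∈ Cf, s c : ℤ) : ZMod p) ≠ 0) (ε : ℝ) (hε : 0 < ε) :
    ∃ u₀ u₁ : ℝ, ((u₀ = um ∧ u₁ = u) ∨ (u₀ = u ∧ u₁ = up)) ∧ ∃ (J : ℕ) (ρ : ℕ → ℝ), ρ 0 = u₀ ∧
      u₁ ≤ ρ J ∧ (∀ j < J, ρ j < ρ (j + 1)) ∧
      (∀ j < J, ρ (j + 1) ∈ Lam (shp n p (k * N)) G₁ G₂ (f 0) (W 0)) ∧
      ∀ i ≤ I, ((Finset.range J).filter fun j => 2 * η i + ε < ρ (j + 1) - ρ j).card ≤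
        (Lam (shp n p (k * N)) G₁ G₂ (f i) (W i)).card := by
  classical
  have hp : p.Prime := Fact.out
  have hkN : k * N ≠ 0 := NeZero.ne (k * N)
  have hk0 : 0 < k := Nat.pos_of_ne_zero fun h => hkN (by rw [h, Nat.zero_mul])
  have hp0 : (0 : ℝ) < p := by exact_mod_cast hp.pos
  have hpk : (0 : ℝ) < ((p * k : ℕ) : ℝ) := by exact_mod_cast Nat.mul_pos hp.pos hk0
  -- the radius
  obtain ⟨R₁, -, hR₁⟩ := exists_Rgd n (p * (k * N)) one_pos C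
  obtain ⟨R₂, -, hR₂⟩ := exists_Rgd n (k * N) hp0 (p * C)
  obtain ⟨R₃, -, hR₃⟩ := exists_Rgd n N hpk ((p * k : ℕ) * C)
  set R : ℝ := max R₁ (max R₂ R₃) with hRdef
  have hr1 : Rgd n (p * (k * N)) 1 C R := hR₁ R (le_max_left _ _)
  have hr2 : Rgd n (k * N) p (p * C) R := hR₂ R ((le_max_left _ _).trans (le_max_right _ _))
  have hr3 : Rgd n N ((p * k : ℕ) : ℝ) ((p * k : ℕ) * C) R :=
    hR₃ R ((le_max_right _ _).trans (le_max_right _ _))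
  -- the values
  set Λ : Finset ℝ := Lam (shp n p (k * N)) G₁ G₂ (f 0) (W 0) with hΛ
  set S : Finset ℝ := insert um (insert u (insert up Λ)) with hS
  set V : Finset ℝ := (Finset.range (I + 1)).biUnion fun i => (W i).image (f i) with hV
  have hVi : ∀ i ≤ I, ∀ z ∈ W i, f i z ∈ V := fun i hi z hz =>
    Finset.mem_biUnion.2 ⟨i, Finset.mem_range.2 (Nat.lt_succ_of_le hi),
      Finset.mem_image_of_mem _ hz⟩
  have humS : um ∈ S := Finset.mem_insert_self _ _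
  have huS : u ∈ S := Finset.mem_insert_of_mem (Finset.mem_insert_self _ _)
  have hupS : up ∈ S := Finset.mem_insert_of_mem (Finset.mem_insert_of_mem
    (Finset.mem_insert_self _ _))
  have hΛS : ∀ x ∈ Λ, x ∈ S := fun x hx =>
    Finset.mem_insert_of_mem (Finset.mem_insert_of_mem (Finset.mem_insert_of_mem hx))
  obtain ⟨g, hg0, hg⟩ := TopC_gap S
  obtain ⟨δ, hδ, hδ1, hδV, hδη⟩ := TopC_delta S V I η (min (g / 4) (ε / 2))
    (lt_min (by linarith) (by linarith))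
  have hδg : 4 * δ < g := by
    have := lt_of_lt_of_le hδ1 (min_le_left _ _)
    linarith
  have hδε : 2 * δ < ε := by
    have := lt_of_lt_of_le hδ1 (min_le_right _ _)
    linarith
  have hf0 := hf 0 (Nat.zero_le _)
  obtain ⟨t₀, ht₀⟩ := Bc_top (F := ZMod p) (G₁ := G₁) (G₂ := G₂) (R := R)
    hf0.smooth.continuous hf0.per
  obtain ⟨t, ht⟩ : ∃ t : ℝ, ∀ y ∈ insert t₀ (S.image (fun x => x + δ) ∪ V), y < t := by
    obtain ⟨b, hb⟩ := (insert t₀ (S.image (fun x => x + δ) ∪ V)).bddAbove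
    exact ⟨b + 1, fun y hy => lt_of_le_of_lt (hb (Finset.mem_coe.2 hy)) (lt_add_one b)⟩
  have htt : t₀ ≤ t := (ht t₀ (Finset.mem_insert_self _ _)).le
  have htS : ∀ x ∈ S, x + δ < t := fun x hx => ht _ (Finset.mem_insert_of_mem
    (Finset.mem_union_left _ (Finset.mem_image_of_mem _ hx)))
  have htV : t ∉ V := fun h => lt_irrefl t (ht t (Finset.mem_insert_of_mem
    (Finset.mem_union_right _ h)))
  -- the levels
  set B : Finset ℝ := insert t (S.image (fun x => x + δ) ∪ S.image (fun x => x - δ)) with hB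
  have htB : t ∈ B := Finset.mem_insert_self _ _
  have hB1 : ∀ x ∈ S, x + δ ∈ B := fun x hx => Finset.mem_insert_of_mem
    (Finset.mem_union_left _ (Finset.mem_image_of_mem _ hx))
  have hB2 : ∀ x ∈ S, x - δ ∈ B := fun x hx => Finset.mem_insert_of_mem
    (Finset.mem_union_right _ (Finset.mem_image_of_mem _ hx))
  have hBV : ∀ b ∈ B, b ∉ V := by
    intro b hb
    rcases Finset.mem_insert.1 hb with rfl | hb
    · exact htV
    rcases Finset.mem_union.1 hb with hb | hb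
    · obtain ⟨x, hx, rfl⟩ := Finset.mem_image.1 hb
      exact (hδV x hx).1
    · obtain ⟨x, hx, rfl⟩ := Finset.mem_image.1 hb
      exact (hδV x hx).2
  have hreg : ∀ i ≤ I, ∀ b ∉ V, ∀ z ∈ W i, f i z ≠ b := fun i hi b hb z hz e =>
    hb (by rw [← e]; exact hVi i hi z hz)
  -- the complexes
  set T := shp n p (k * N) with hT
  have hadm0 : Adm n (p * (k * N)) (shG n (p * (k * N)) N) C G₁ G₂ (f 0) (W 0) :=
    ⟨hf0.smooth, hf0.per, hγ, hf0.grad, hf0.crit, hf0.inj, hf0.win⟩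
  -- (a) bands of `f 0`
  have hevA : ∀ᶠ M : ℕ in atTop, ∀ q ∈ B ×ˢ B, q.1 < q.2 → (∀ l ∈ Λ, ¬ (q.1 < l ∧ l < q.2)) →
      ∀ j, TK (dX (F := ZMod p) (Xs n (p * (k * N)) R (2 ^ M)))
        (ta (ZMod p) T) (nu (ZMod p) T p) j
        (Bc (ZMod p) n (p * (k * N)) G₁ G₂ R (2 ^ M) (f 0) q.1)
        (Bc (ZMod p) n (p * (k * N)) G₁ G₂ R (2 ^ M) (f 0) q.2) 0 := by
    refine (Filter.eventually_all_finset _).2 fun q hq => ?_
    obtain ⟨hq1, hq2⟩ := Finset.mem_product.1 hq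
    by_cases h1 : q.1 < q.2
    swap
    · exact Filter.Eventually.of_forall fun M h => absurd h h1
    by_cases h2 : ∀ l ∈ Λ, ¬ (q.1 < l ∧ l < q.2)
    swap
    · exact Filter.Eventually.of_forall fun M _ h => absurd h h2
    filter_upwards [fun_TK h12 hf0 (hsep 0 (Nat.zero_le _)) hr1 hr2 h1
      (fun z hz => ⟨hreg 0 (Nat.zero_le _) _ (hBV _ hq1) z hz,
        hreg 0 (Nat.zero_le _) _ (hBV _ hq2) z hz⟩)
      (fun z hz hzT hzI => h2 _ (TopC_mem_Lam.2 ⟨z, hz, hzT, hzI, rfl⟩))] with M hM _ _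
    exact hM
  -- (b) nonvanishing
  have hevB : ∀ᶠ M : ℕ in atTop, ∀ q ∈ B ×ˢ B, um < q.1 → q.1 < u → u < q.2 → q.2 < up →
      ¬ (Zr (dX (F := ZMod p) (Xs n (p * (k * N)) R (2 ^ M)))
          (ta (ZMod p) T) (nu (ZMod p) T p)
          (Bc (ZMod p) n (p * (k * N)) G₁ G₂ R (2 ^ M) (f 0) q.1)
          (Bc (ZMod p) n (p * (k * N)) G₁ G₂ R (2 ^ M) (f 0) q.1)
          (Lw (ZMod p) n (p * (k * N)) G₁ R (2 ^ M)) ∧
        Zr (dX (F := ZMod p) (Xs n (p * (k * N)) R (2 ^ M)))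
          (ta (ZMod p) T) (nu (ZMod p) T p)
          (Bc (ZMod p) n (p * (k * N)) G₁ G₂ R (2 ^ M) (f 0) q.2)
          (Bc (ZMod p) n (p * (k * N)) G₁ G₂ R (2 ^ M) (f 0) q.2)
          (Lw (ZMod p) n (p * (k * N)) G₁ R (2 ^ M))) := by
    refine (Filter.eventually_all_finset _).2 fun q hq => ?_
    obtain ⟨hq1, hq2⟩ := Finset.mem_product.1 hq
    by_cases h1 : um < q.1 ∧ q.1 < u ∧ u < q.2 ∧ q.2 < up
    swap
    · exact Filter.Eventually.of_forall fun M a b c d => absurd ⟨a, b, c, d⟩ h1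
    obtain ⟨e1, e2, e3, e4⟩ := h1
    have hCf' : ∀ y : Iz n N → ℝ, (fderiv ℝ (f 0) (y ∘ rdG n (p * (k * N)) N) = 0 ∧
        ClI G₁ G₂ (f 0) (y ∘ rdG n (p * (k * N)) N) ∧ q.1 < f 0 (y ∘ rdG n (p * (k * N)) N) ∧
        f 0 (y ∘ rdG n (p * (k * N)) N) < q.2) ↔ ∃ c ∈ Cf, ∃ l ∈ Lc n N, y = c + rl l := by
      intro y
      constructor
      · rintro ⟨a1, a2, a3, a4⟩
        exact (hCf y).1 ⟨a1, a2, e1.trans a3, a4.trans e4⟩
      · intro hy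
        obtain ⟨a1, a2, -, -⟩ := (hCf y).2 hy
        obtain ⟨c, hc, l, hl, rfl⟩ := hy
        have hval : f 0 ((c + rl l) ∘ rdG n (p * (k * N)) N) = u := by
          obtain ⟨v, hv⟩ := hl
          have h3 : (l ∘ rdG n (p * (k * N)) N) ∈ Lc n (p * (k * N)) := ⟨v, fun j b => hv _ _⟩
          have h4 := hf0.per _ h3 (c ∘ rdG n (p * (k * N)) N)
          rw [← hCu c hc, ← h4]
          rfl
        refine ⟨a1, a2, ?_, ?_⟩
        · rw [hval]; exact e2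
        · rw [hval]; exact e3
    filter_upwards [not_Zr (p := p) (k := k) h12 hadm0 (hsep 0 (Nat.zero_le _)) hr1 hr3
      (e2.trans e3)
      (fun z hz => ⟨hreg 0 (Nat.zero_le _) _ (hBV _ hq1) z hz,
        hreg 0 (Nat.zero_le _) _ (hBV _ hq2) z hz⟩) Cf s hCf' hCd hs hsum] with M hM _ _ _ _
    exact hM
  -- (c) bands of `f i`
  have hevC : ∀ᶠ M : ℕ in atTop, ∀ q ∈ Finset.range (I + 1) ×ˢ Λ,
      (∀ l ∈ Lam T G₁ G₂ (f q.1) (W q.1), ¬ (q.2 - δ - η q.1 < l ∧ l < q.2 + δ + η q.1)) →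
      ∀ j, TK (dX (F := ZMod p) (Xs n (p * (k * N)) R (2 ^ M)))
        (ta (ZMod p) T) (nu (ZMod p) T p) j
        (Bc (ZMod p) n (p * (k * N)) G₁ G₂ R (2 ^ M) (f q.1) (q.2 - δ - η q.1))
        (Bc (ZMod p) n (p * (k * N)) G₁ G₂ R (2 ^ M) (f q.1) (q.2 + δ + η q.1)) 0 := by
    refine (Filter.eventually_all_finset _).2 fun q hq => ?_
    obtain ⟨hq1, hq2⟩ := Finset.mem_product.1 hq
    have hi : q.1 ≤ I := Nat.lt_succ_iff.1 (Finset.mem_range.1 hq1)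
    by_cases h2 : ∀ l ∈ Lam T G₁ G₂ (f q.1) (W q.1),
        ¬ (q.2 - δ - η q.1 < l ∧ l < q.2 + δ + η q.1)
    swap
    · exact Filter.Eventually.of_forall fun M h => absurd h h2
    have h1 : q.2 - δ - η q.1 < q.2 + δ + η q.1 := by
      have := hη0 q.1
      linarith
    obtain ⟨v1, v2⟩ := hδη q.2 (hΛS _ hq2) q.1 hi
    filter_upwards [fun_TK h12 (hf q.1 hi) (hsep q.1 hi) hr1 hr2 h1
      (fun z hz => ⟨hreg q.1 hi _ v2 z hz, hreg q.1 hi _ v1 z hz⟩)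
      (fun z hz hzT hzI => h2 _ (TopC_mem_Lam.2 ⟨z, hz, hzT, hzI, rfl⟩))] with M hM _
    exact hM
  obtain ⟨M, hMA, hMB, hMC⟩ := (hevA.and (hevB.and hevC)).exists
  -- the operators
  have hops : Ops (dX (F := ZMod p) (Xs n (p * (k * N)) R (2 ^ M))) (ta (ZMod p) T)
      (nu (ZMod p) T p) :=
    Free_ops (shp_pow n p (k * N)) (Xs_pinv (N := k * N))
  set Z : ℝ → ℝ → Prop := fun b l =>
    Zr (dX (F := ZMod p) (Xs n (p * (k * N)) R (2 ^ M))) (ta (ZMod p) T) (nu (ZMod p) T p)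
      (Bc (ZMod p) n (p * (k * N)) G₁ G₂ R (2 ^ M) (f 0) l)
      (Bc (ZMod p) n (p * (k * N)) G₁ G₂ R (2 ^ M) (f 0) b)
      (Lw (ZMod p) n (p * (k * N)) G₁ R (2 ^ M)) with hZ
  have h2 : ∀ b ∈ (B : Set ℝ), ∀ l₁ ∈ (B : Set ℝ), ∀ l₂ ∈ (B : Set ℝ), b ≤ l₁ → l₁ < l₂ →
      (∀ l ∈ Λ, ¬ (l₁ < l ∧ l < l₂)) → Z b l₂ → Z b l₁ := by
    intro b _ l₁ hl₁ l₂ hl₂ hb hl hno hZb
    exact Zr.source hops (hMA (l₁, l₂) (Finset.mem_product.2 ⟨Finset.mem_coe.1 hl₁,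
      Finset.mem_coe.1 hl₂⟩) hl hno) (fun j => Lw_le j) (fun j => Bc_anti hb j) hZb
  have h5 : ∀ b ∈ (B : Set ℝ), b ≤ t → Z b t := by
    intro b _ _
    show Zr _ _ _ _ _ _
    rw [ht₀ t htt (2 ^ M)]
    exact Zr_bot _ _
  -- the interval
  obtain ⟨u₀, u₁, hu01, h01, h4⟩ : ∃ u₀ u₁ : ℝ, ((u₀ = um ∧ u₁ = u) ∨ (u₀ = u ∧ u₁ = up)) ∧
      u₀ < u₁ ∧ ∀ b ∈ (B : Set ℝ), u₀ < b → b < u₁ → ¬ Z b b := by
    by_cases hc : ∀ b ∈ (B : Set ℝ), um < b → b < u → ¬ Z b b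
    · exact ⟨um, u, Or.inl ⟨rfl, rfl⟩, hum, hc⟩
    · refine ⟨u, up, Or.inr ⟨rfl, rfl⟩, hup, fun b₂ hb₂ a1 a2 hZ2 => hc fun b₁ hb₁ a3 a4 hZ1 => ?_⟩
      exact hMB (b₁, b₂) (Finset.mem_product.2 ⟨Finset.mem_coe.1 hb₁, Finset.mem_coe.1 hb₂⟩)
        a3 a4 a1 a2 ⟨hZ1, hZ2⟩
  have hu0S : u₀ ∈ S := by
    rcases hu01 with ⟨e, -⟩ | ⟨e, -⟩
    · rw [e]; exact humS
    · rw [e]; exact huS
  have hu1S : u₁ ∈ S := by
    rcases hu01 with ⟨-, e⟩ | ⟨-, e⟩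
    · rw [e]; exact huS
    · rw [e]; exact hupS
  have hins : ∀ x ∈ insert u₀ (insert u₁ Λ), x ∈ S := by
    intro x hx
    rcases Finset.mem_insert.1 hx with rfl | hx
    · exact hu0S
    rcases Finset.mem_insert.1 hx with rfl | hx
    · exact hu1S
    · exact hΛS x hx
  have hins' : ∀ x ∈ insert u₀ Λ, x ∈ S := by
    intro x hx
    rcases Finset.mem_insert.1 hx with rfl | hx
    · exact hu0S
    · exact hΛS x hx
  obtain ⟨J, ρ, r0, r1, r2, r3, -, r5⟩ := chain_levels Λ u₀ u₁ δ t h01 hδ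
    (fun x hx y hy hxy => lt_of_lt_of_le hδg (hg x (hins x hx) y (hins y hy) hxy)) (B : Set ℝ)
    (Finset.mem_coe.2 htB)
    (fun x hx => ⟨Finset.mem_coe.2 (hB1 x (hins' x hx)), Finset.mem_coe.2 (hB2 x (hins' x hx))⟩)
    (fun x hx => htS x (hins x hx)) Z h2 h4 h5
  refine ⟨u₀, u₁, hu01, J, ρ, r0, r1, r2, r3, fun i hi => ?_⟩
  have hcount := count_levels J ρ (η i + ε / 2) (Lam T G₁ G₂ (f i) (W i)) r2 ?_
  · have e : (2 : ℝ) * (η i + ε / 2) = 2 * η i + ε := by ring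
    rw [e] at hcount
    exact hcount
  intro j hj hlong
  by_contra hcon
  push_neg at hcon
  obtain ⟨z1, z2⟩ := r5 j hj
  refine z2 ?_
  set x := ρ (j + 1) with hx
  have hxΛ : x ∈ Λ := r3 j hj
  have hTK := hMC (i, x) (Finset.mem_product.2 ⟨Finset.mem_range.2 (Nat.lt_succ_of_le hi), hxΛ⟩)
    (fun l hl hh => by
      have h6 := hcon l hl
      have h7 : |l - x| ≤ η i + ε / 2 := by
        rw [abs_le]
        constructor
        · have := hh.1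
          simp only at this
          linarith
        · have := hh.2
          simp only at this
          linarith
      exact absurd h7 (not_le.2 h6))
  simp only at hTK
  have hs1 : Zr (dX (F := ZMod p) (Xs n (p * (k * N)) R (2 ^ M))) (ta (ZMod p) T)
      (nu (ZMod p) T p)
      (Bc (ZMod p) n (p * (k * N)) G₁ G₂ R (2 ^ M) (f i) (x + δ + η i))
      (Bc (ZMod p) n (p * (k * N)) G₁ G₂ R (2 ^ M) (f 0) (ρ j + δ))
      (Lw (ZMod p) n (p * (k * N)) G₁ R (2 ^ M)) :=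
    Zr.mono z1 (fun m => Bc_mono (fun y => hη i hi y) le_rfl m) (fun m => le_rfl)
  have hs2 := Zr.source hops hTK (fun m => Lw_le m)
    (fun m => Bc_mono (η := η i) (b := ρ j + δ) (b' := x - δ - η i) (fun y => hη i hi y)
      (by linarith) m) hs1
  exact Zr.mono hs2 (fun m => Bc_mono (η := η i) (fun y => by
    rw [abs_sub_comm]
    exact hη i hi y) (by linarith) m) (fun m => le_rfl)

end Pool.Agent.H45.AC
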