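import Pool.Agent.H45.AC.FunS
import Pool.Agent.H45.AC.T3

/-!
# Project AC: a level which is not acyclic
-/

set_option autoImplicit false

namespace Pool.Agent.H45.AC

open Filter Topology QuadraticForm
open Pool.Agent.H47.ST
open Pool.Agent.H47.QG (hess LocIdx)

theorem TopZ_comm {ι F : Type*} [Field F] (π : Equiv.Perm ι) (k : ℕ) (c : Co ι F) :
    Tp (π ^ k) (Tp π c) = Tp π (Tp (π ^ k) c) := by
  ext σ
  rw [Free_Tp, Free_Tp, Free_Tp, Free_Tp, ← Free_mul, ← Free_mul, ← pow_succ, ← pow_succ']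

section gs

variable {F : Type*} [Field F] {n K N q : ℕ} [NeZero K] [NeZero N] {R : ℝ} {m : ℕ}

theorem TopZ_gsV (hK : K = q * N) (hm : 2 ≤ m) :
    Gs (dX (F := F) (Xs n K R m)) (Tp (shG n K N))
      (co (F := F) (lam (Lc n K) m) (Xs n K R m) (Vs n K R m)) :=
  Gs_co (Per_shG hK hm) Xs_pinv Vs_pinv (Xs_inv (by omega)) (Vs_inv (by omega))
    (XV_fin (by omega))

theorem TopZ_gsL (hK : K = q * N) (hm : 2 ≤ m) {f : (Iz n K → ℝ) → ℝ} (hf : PerL (Lc n K) f)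
    (hfN : ∀ y, f (y ∘ shG n K N) = f y) (b : ℝ) :
    Gs (dX (F := F) (Xs n K R m)) (Tp (shG n K N))
      (co (F := F) (lam (Lc n K) m) (Xs n K R m) (Ls n K R m f b)) := by
  refine Gs_co (Per_shG hK hm) Xs_pinv (Ls_pinv hfN b) (Xs_inv (by omega))
    (Ls_inv hf b (by omega)) ?_
  obtain ⟨D, hD⟩ := XV_fin (n := n) (K := K) (R := R) (m := m) (by omega)
  refine ⟨D, fun v hv hvL => hD v hv fun hvV => hvL ?_⟩
  exact ⟨hvV.1, Or.inl hvV.2⟩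

theorem TopZ_comm_d (c : Co (Iz n K) F) :
    dX (Xs n K R m) (Tp (shG n K N) c) = Tp (shG n K N) (dX (Xs n K R m) c) :=
  Free_dT Xs_pinv c

theorem TopZ_gsLw (hK : K = q * N) (hm : 2 ≤ m) (G₁ : ℕ) :
    Gs (dX (F := F) (Xs n K R m)) (Tp (shG n K N)) (Lw F n K G₁ R m) :=
  (TopZ_gsV hK hm).trun (dX_dX _) TopZ_comm_d G₁

theorem TopZ_gsBc (hK : K = q * N) (hm : 2 ≤ m) {f : (Iz n K → ℝ) → ℝ} (hf : PerL (Lc n K) f)
    (hfN : ∀ y, f (y ∘ shG n K N) = f y) (b : ℝ) (G₁ G₂ : ℕ) :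
    Gs (dX (F := F) (Xs n K R m)) (Tp (shG n K N)) (Bc F n K G₁ G₂ R m f b) :=
  (TopZ_gsV hK hm).trf (dX_dX _) TopZ_comm_d (TopZ_gsL hK hm hf hfN b) G₁ G₂

end gs

theorem TopZ_big {F : Type*} [Field F] {n K : ℕ} [NeZero K] {G₁ G₂ : ℕ} {R : ℝ} {m : ℕ}
    {f : (Iz n K → ℝ) → ℝ} {b : ℝ} {j : ℕ} (hj : Fintype.card (Iz n K) + 2 ≤ j) :
    Bc F n K G₁ G₂ R m f b j ≤ Lw F n K G₁ R m j := by
  have h1 : co (F := F) (lam (Lc n K) m) (Xs n K R m) (Vs n K R m) j = ⊥ :=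
    co_big _ _ _ (by omega)
  have h2 : Bc F n K G₁ G₂ R m f b j ≤ ⊥ := by
    refine sup_le ((Trunc_le _ _).trans h1.le) (inf_le_left.trans ((Trunc_le _ _).trans h1.le))
  exact h2.trans bot_le

theorem TopZ_inv {α : Type*} {f : (α → ℝ) → ℝ} {γ : Equiv.Perm α} (hf : ∀ y, f (y ∘ γ) = f y)
    (k : ℕ) : ∀ y, f (y ∘ ⇑(γ ^ k)) = f y := by
  induction k with
  | zero => intro y; rfl
  | succ k ih =>
    intro y
    have h1 : y ∘ ⇑(γ ^ (k + 1)) = (y ∘ ⇑(γ ^ k)) ∘ ⇑γ := by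
      rw [pow_succ]
      rfl
    rw [h1, hf, ih]

theorem TopZ_key {n p k N : ℕ} [NeZero N] [NeZero (k * N)] [NeZero (p * (k * N))] [Fact p.Prime]
    {G₁ G₂ : ℕ} {f : (Iz n (p * (k * N)) → ℝ) → ℝ} (hf : PerL (Lc n (p * (k * N))) f)
    (hfN : ∀ y, f (y ∘ shG n (p * (k * N)) N) = f y) {R b : ℝ} {m : ℕ} (hm : 2 ≤ m)
    (hZ : Zr (dX (F := ZMod p) (Xs n (p * (k * N)) R m))
          (ta (ZMod p) (shp n p (k * N))) (nu (ZMod p) (shp n p (k * N)) p)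
          (Bc (ZMod p) n (p * (k * N)) G₁ G₂ R m f b)
          (Bc (ZMod p) n (p * (k * N)) G₁ G₂ R m f b)
          (Lw (ZMod p) n (p * (k * N)) G₁ R m)) :
    st (Tp (shG n (p * (k * N)) N)) (Bc (ZMod p) n (p * (k * N)) G₁ G₂ R m f b)
      (Lw (ZMod p) n (p * (k * N)) G₁ R m) (Fintype.card (Iz n (p * (k * N))) + 2) = 0 := by
  have hK : p * (k * N) = (p * k) * N := (mul_assoc p k N).symm
  have hpow : shp n p (k * N) = shG n (p * (k * N)) N ^ k := by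
    rw [← shG_eq n p (k * N)]
    exact shG_pow n (p * (k * N)) N k
  have hfk : ∀ y, f (y ∘ shG n (p * (k * N)) (k * N)) = f y := by
    rw [shG_pow n (p * (k * N)) N k]
    exact TopZ_inv hfN k
  have hcom : ∀ c : Co (Iz n (p * (k * N))) (ZMod p), Tp (shp n p (k * N))
      (Tp (shG n (p * (k * N)) N) c) = Tp (shG n (p * (k * N)) N) (Tp (shp n p (k * N)) c) := by
    intro c
    rw [hpow]
    exact TopZ_comm _ k c
  refine st_T3 (d := dX (F := ZMod p) (Xs n (p * (k * N)) R m)) (T := Tp (shp n p (k * N)))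
    (g := Tp (shG n (p * (k * N)) N)) (dX_dX _) ?_ (Free_pow_p (shp_pow n p (k * N))) ?_ hcom
    (TopZ_gsLw hK hm G₁) (TopZ_gsBc hK hm hf hfN b G₁ G₂) ?_ ?_ (fun j => Lw_le j) _
    (fun j hj => TopZ_big hj) ?_
  · exact fun c => TopZ_comm_d (N := k * N) c
  · exact fun c => TopZ_comm_d (N := N) c
  · exact (TopZ_gsLw (N := k * N) (q := p) rfl hm G₁).g
  · exact (TopZ_gsBc (N := k * N) (q := p) rfl hm hf hfk b G₁ G₂).g
  · exact Zr_refl_iff.1 hZ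

/-- The level `b` is not acyclic for one of the two intervals. -/
theorem not_Zr {n p k N : ℕ} [NeZero N] [NeZero (k * N)] [NeZero (p * (k * N))] [Fact p.Prime]
    {C : ℝ} {G₁ G₂ : ℕ} (h12 : G₁ < G₂) {f : (Iz n (p * (k * N)) → ℝ) → ℝ}
    {W : Finset (Iz n (p * (k * N)) → ℝ)}
    (h : Adm n (p * (k * N)) (shG n (p * (k * N)) N) C G₁ G₂ f W) (hsep : SepI G₁ G₂ f W) {R : ℝ}
    (hR : Rgd n (p * (k * N)) 1 C R) (hR' : Rgd n N ((p * k : ℕ) : ℝ) ((p * k : ℕ) * C) R)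
    {b₁ b₂ : ℝ} (hb : b₁ < b₂)
    (hreg : ∀ z ∈ W, f z ≠ b₁ ∧ f z ≠ b₂) (Cf : Finset (Iz n N → ℝ)) (s : (Iz n N → ℝ) → ℤ)
    (hCf : ∀ y : Iz n N → ℝ, (fderiv ℝ f (y ∘ rdG n (p * (k * N)) N) = 0 ∧
      ClI G₁ G₂ f (y ∘ rdG n (p * (k * N)) N) ∧ b₁ < f (y ∘ rdG n (p * (k * N)) N) ∧
      f (y ∘ rdG n (p * (k * N)) N) < b₂) ↔ ∃ c ∈ Cf, ∃ l ∈ Lc n N, y = c + rl l)
    (hCd : ∀ c ∈ Cf, ∀ c' ∈ Cf, ∀ l ∈ Lc n N, c' = c + rl l → c' = c)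
    (hs : ∀ c ∈ Cf, LocIdx (fun y : Iz n N → ℝ => f (y ∘ rdG n (p * (k * N)) N)) c (s c))
    (hsum : ((∑ c ∈ Cf, s c : ℤ) : ZMod p) ≠ 0) :
    ∀ᶠ M : ℕ in atTop,
      ¬ (Zr (dX (F := ZMod p) (Xs n (p * (k * N)) R (2 ^ M)))
          (ta (ZMod p) (shp n p (k * N))) (nu (ZMod p) (shp n p (k * N)) p)
          (Bc (ZMod p) n (p * (k * N)) G₁ G₂ R (2 ^ M) f b₁)
          (Bc (ZMod p) n (p * (k * N)) G₁ G₂ R (2 ^ M) f b₁)
          (Lw (ZMod p) n (p * (k * N)) G₁ R (2 ^ M)) ∧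
        Zr (dX (F := ZMod p) (Xs n (p * (k * N)) R (2 ^ M)))
          (ta (ZMod p) (shp n p (k * N))) (nu (ZMod p) (shp n p (k * N)) p)
          (Bc (ZMod p) n (p * (k * N)) G₁ G₂ R (2 ^ M) f b₂)
          (Bc (ZMod p) n (p * (k * N)) G₁ G₂ R (2 ^ M) f b₂)
          (Lw (ZMod p) n (p * (k * N)) G₁ R (2 ^ M))) := by
  have hK : p * (k * N) = (p * k) * N := (mul_assoc p k N).symm
  have h1 := fun_st (ZMod p) hK h12 h hsep hR hR' hb hreg Cf s hCf hCd hs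
  filter_upwards [h1, Filter.eventually_ge_atTop 1] with M hM hM1
  rintro ⟨z1, z2⟩
  have hm : 2 ≤ 2 ^ M := by
    calc 2 = 2 ^ 1 := rfl
      _ ≤ 2 ^ M := Nat.pow_le_pow_right (by norm_num) hM1
  have e1 := TopZ_key h.per h.inv hm z1
  have e2 := TopZ_key h.per h.inv hm z2
  rw [st_trans _ _ (Bc (ZMod p) n (p * (k * N)) G₁ G₂ R (2 ^ M) f b₂), e2, add_zero, hM,
    neg_eq_zero] at e1
  exact hsum e1

end Pool.Agent.H45.AC
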