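import Pool.Agent.H47.ST.Trunc

/-!
# Project AC: supertraces of an operator on the quotients of a filtered complex
-/

set_option autoImplicit false

namespace Pool.Agent.H45.AC

open Pool.Agent.H47.ST

variable {F E : Type*} [Field F] [AddCommGroup E] [Module F E]

open Classical in
/-- trace of `g` on the submodule `B` (zero if `B` is not stable) -/
noncomputable def tq (g : E →ₗ[F] E) (B : Submodule F E) : F :=
  if h : ∀ x ∈ B, g x ∈ B then LinearMap.trace F B (g.restrict h) else 0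

/-- the supertrace of `g` on `B / A`, degrees below `J` -/
noncomputable def st (g : E →ₗ[F] E) (B A : ℕ → Submodule F E) (J : ℕ) : F :=
  ∑ j ∈ Finset.range J, (-1) ^ j * (tq g (B j) - tq g (A j))

/-- finite dimensional graded submodule stable under `d` and `g` -/
structure Gs (d g : E →ₗ[F] E) (B : ℕ → Submodule F E) : Prop where
  d : ∀ j, ∀ x ∈ B j, d x ∈ B (j + 1)
  g : ∀ j, ∀ x ∈ B j, g x ∈ B j
  fin : ∀ j, FiniteDimensional F (B j)

/-- trace and exact sequences -/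
theorem Tq_ses {K V Q : Type*} [AddCommGroup K] [Module F K] [AddCommGroup V] [Module F V]
    [AddCommGroup Q] [Module F Q] [FiniteDimensional F K] [FiniteDimensional F V]
    [FiniteDimensional F Q] (ι : K →ₗ[F] V) (q : V →ₗ[F] Q) (hι : Function.Injective ι)
    (hq : Function.Surjective q) (hex : ∀ x, q x = 0 ↔ ∃ y, ι y = x) (gK : K →ₗ[F] K)
    (gV : V →ₗ[F] V) (gQ : Q →ₗ[F] Q) (h1 : ∀ x, gV (ι x) = ι (gK x))
    (h2 : ∀ x, q (gV x) = gQ (q x)) :
    LinearMap.trace F V gV = LinearMap.trace F K gK + LinearMap.trace F Q gQ := by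
  obtain ⟨s, hs⟩ := q.exists_rightInverse_of_surjective (LinearMap.range_eq_top.2 hq)
  obtain ⟨P0, hP0⟩ := ι.exists_leftInverse_of_injective (LinearMap.ker_eq_bot.2 hι)
  have hs' : ∀ x, q (s x) = x := LinearMap.congr_fun hs
  have hP0' : ∀ x, P0 (ι x) = x := LinearMap.congr_fun hP0
  have hqι : ∀ x, q (ι x) = 0 := fun x => (hex _).2 ⟨x, rfl⟩
  let P : V →ₗ[F] K := P0 ∘ₗ (LinearMap.id - s ∘ₗ q)
  have hP : ∀ x, ι (P x) = x - s (q x) := by
    intro x
    have h3 : q (x - s (q x)) = 0 := by rw [map_sub, hs', sub_self]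
    obtain ⟨y, hy⟩ := (hex _).1 h3
    show ι (P0 (x - s (q x))) = x - s (q x)
    rw [← hy, hP0']
  have hPι : ∀ x, P (ι x) = x := by
    intro x
    show P0 (ι x - s (q (ι x))) = x
    rw [hqι, map_zero, sub_zero, hP0']
  have e : gV = (gV ∘ₗ ι) ∘ₗ P + (gV ∘ₗ s) ∘ₗ q := by
    ext x
    show gV x = gV (ι (P x)) + gV (s (q x))
    rw [← map_add, hP, sub_add_cancel]
  have e1 : P ∘ₗ (gV ∘ₗ ι) = gK := by
    ext x
    show P (gV (ι x)) = gK x
    rw [h1, hPι]
  have e2 : q ∘ₗ (gV ∘ₗ s) = gQ := by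
    ext x
    show q (gV (s x)) = gQ x
    rw [h2, hs']
  rw [e, map_add, LinearMap.trace_comp_comm', e1, LinearMap.trace_comp_comm', e2]

/-- Isomorphic quotients have the same trace. -/
theorem tq_iso {g φ : E →ₗ[F] E} {B A B' A' : Submodule F E} [FiniteDimensional F B]
    [FiniteDimensional F B'] (hAB : A ≤ B) (hAB' : A' ≤ B') (hA : ∀ x ∈ A, g x ∈ A)
    (hB : ∀ x ∈ B, g x ∈ B) (hA' : ∀ x ∈ A', g x ∈ A') (hB' : ∀ x ∈ B', g x ∈ B')
    (hφ : ∀ x ∈ B, φ x ∈ B') (hg : ∀ x ∈ B, φ (g x) = g (φ x))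
    (hsur : ∀ y ∈ B', ∃ x ∈ B, y - φ x ∈ A') (hinj : ∀ x ∈ B, φ x ∈ A' ↔ x ∈ A) :
    tq g B - tq g A = tq g B' - tq g A' := by
  have hfA : FiniteDimensional F A := Submodule.finiteDimensional_of_le hAB
  have hfA' : FiniteDimensional F A' := Submodule.finiteDimensional_of_le hAB'
  rw [tq, tq, tq, tq, dif_pos hA, dif_pos hB, dif_pos hA', dif_pos hB']
  let K : Submodule F B' := A'.comap B'.subtype
  have hK : K ≤ K.comap (g.restrict hB') := fun x hx => hA' x.1 hx
  have h1 := Tq_ses (Submodule.inclusion hAB') K.mkQ (Submodule.inclusion_injective hAB')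
    K.mkQ_surjective (fun x => by
      rw [Submodule.mkQ_apply, Submodule.Quotient.mk_eq_zero]
      constructor
      · intro h
        exact ⟨⟨x.1, h⟩, rfl⟩
      · rintro ⟨y, rfl⟩
        exact y.2) (g.restrict hA') (g.restrict hB') (K.mapQ K (g.restrict hB') hK)
    (fun x => rfl) (fun x => rfl)
  have h2 := Tq_ses (Submodule.inclusion hAB) (K.mkQ ∘ₗ φ.restrict hφ)
    (Submodule.inclusion_injective hAB) (fun y => by
      obtain ⟨y, rfl⟩ := K.mkQ_surjective y
      obtain ⟨x, hx, hxy⟩ := hsur y.1 y.2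
      refine ⟨⟨x, hx⟩, ?_⟩
      symm
      rw [LinearMap.comp_apply, ← sub_eq_zero, ← map_sub, Submodule.mkQ_apply,
        Submodule.Quotient.mk_eq_zero]
      exact hxy) (fun x => by
      rw [LinearMap.comp_apply, Submodule.mkQ_apply, Submodule.Quotient.mk_eq_zero]
      constructor
      · intro h
        exact ⟨⟨x.1, (hinj x.1 x.2).1 h⟩, rfl⟩
      · rintro ⟨y, rfl⟩
        exact (hinj y.1 (hAB y.2)).2 y.2) (g.restrict hA) (g.restrict hB)
    (K.mapQ K (g.restrict hB') hK) (fun x => rfl) (fun x => by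
      show K.mkQ (φ.restrict hφ (g.restrict hB x)) = K.mkQ (g.restrict hB' (φ.restrict hφ x))
      congr 1
      exact Subtype.ext (hg x.1 x.2))
  rw [h1, h2]
  ring

/-- second isomorphism theorem -/
theorem tq_sup_inf {g : E →ₗ[F] E} {P Q : Submodule F E} [FiniteDimensional F P]
    [FiniteDimensional F Q] (hP : ∀ x ∈ P, g x ∈ P) (hQ : ∀ x ∈ Q, g x ∈ Q) :
    tq g (P ⊔ Q) - tq g Q = tq g P - tq g (P ⊓ Q) := by
  have h := tq_iso (φ := LinearMap.id) (g := g) (B := P) (A := P ⊓ Q) (B' := P ⊔ Q) (A' := Q)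
    inf_le_left le_sup_right (fun x hx => ⟨hP x hx.1, hQ x hx.2⟩) hP hQ (fun x hx => by
      obtain ⟨a, ha, b, hb, rfl⟩ := Submodule.mem_sup.1 hx
      rw [map_add]
      exact Submodule.add_mem_sup (hP a ha) (hQ b hb)) (fun x hx => Submodule.mem_sup_left hx)
    (fun x _ => rfl) (fun y hy => by
      obtain ⟨a, ha, b, hb, rfl⟩ := Submodule.mem_sup.1 hy
      refine ⟨a, ha, ?_⟩
      rw [LinearMap.id_apply, add_sub_cancel_left]
      exact hb) (fun x hx => ⟨fun h => ⟨hx, h⟩, fun h => h.2⟩)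
  exact h.symm

theorem st_trans (g : E →ₗ[F] E) (C B A : ℕ → Submodule F E) (J : ℕ) :
    st g C A J = st g C B J + st g B A J := by
  unfold st
  rw [← Finset.sum_add_distrib]
  exact Finset.sum_congr rfl fun j _ => by ring

theorem st_self (g : E →ₗ[F] E) (B : ℕ → Submodule F E) (J : ℕ) : st g B B J = 0 := by
  simp [st]

/-- **Exact quotients have supertrace zero.** -/
theorem st_exact {d g : E →ₗ[F] E} (hdd : ∀ x, d (d x) = 0) (hdg : ∀ x, d (g x) = g (d x))
    {A B : ℕ → Submodule F E} (hA : Gs d g A) (hB : Gs d g B) (hAB : ∀ j, A j ≤ B j) (J : ℕ)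
    (hJ : ∀ j, J ≤ j → B j ≤ A j)
    (hex : ∀ j, ∀ x ∈ B j, d x ∈ A (j + 1) → ∃ y ∈ pr B j, x - d y ∈ A j) :
    st g B A J = 0 := by
  let S : ℕ → Submodule F E := fun j => B j ⊓ (A (j + 1)).comap d
  have hS : ∀ j x, x ∈ S j ↔ x ∈ B j ∧ d x ∈ A (j + 1) := fun j x => Iff.rfl
  have hAS : ∀ j, A j ≤ S j := fun j x hx => ⟨hAB j hx, hA.d j x hx⟩
  have hSg : ∀ j, ∀ x ∈ S j, g x ∈ S j := by
    intro j x hx
    rw [hS] at hx ⊢
    refine ⟨hB.g j x hx.1, ?_⟩
    rw [hdg]
    exact hA.g _ _ hx.2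
  have hS0 : S 0 = A 0 := by
    apply le_antisymm _ (hAS 0)
    intro x hx
    obtain ⟨y, hy, hxy⟩ := hex 0 x hx.1 hx.2
    have hy0 : y = 0 := (Submodule.mem_bot F).1 hy
    rwa [hy0, map_zero, sub_zero] at hxy
  have hSJ : S J = A J := le_antisymm (fun x hx => hJ J le_rfl hx.1) (hAS J)
  have key : ∀ j, tq g (B j) - tq g (S j) = tq g (S (j + 1)) - tq g (A (j + 1)) := by
    intro j
    have f1 := hB.fin j
    have f2 := hB.fin (j + 1)
    have f3 : FiniteDimensional F (S (j + 1)) :=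
      Submodule.finiteDimensional_of_le (S₂ := B (j + 1)) inf_le_left
    refine tq_iso (φ := d) inf_le_left (hAS (j + 1)) (hSg j) (hB.g j) (hA.g (j + 1))
      (hSg (j + 1)) (fun x hx => ?_) (fun x _ => hdg x) (fun y hy => ?_) (fun x hx => ?_)
    · rw [hS]
      refine ⟨hB.d j x hx, ?_⟩
      rw [hdd]
      exact Submodule.zero_mem _
    · exact hex (j + 1) y hy.1 hy.2
    · exact ⟨fun h => ⟨hx, h⟩, fun h => h.2⟩
  have tel : ∀ N, st g B A N = (tq g (S 0) - tq g (A 0)) -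
      (-1) ^ N * (tq g (S N) - tq g (A N)) := by
    intro N
    induction N with
    | zero => simp [st]
    | succ N ih =>
      rw [st, Finset.sum_range_succ]
      rw [st] at ih
      rw [ih]
      have h1 := key N
      rw [pow_succ]
      linear_combination (-1) ^ N * h1
  rw [tel, hS0, hSJ]
  ring

end Pool.Agent.H45.AC
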