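import Pool.Agent.H45.AC.Tq

/-!
# Project AC: supertraces of the bands of a truncated complex
-/

set_option autoImplicit false

namespace Pool.Agent.H45.AC

open Pool.Agent.H47.ST

variable {F E : Type*} [Field F] [AddCommGroup E] [Module F E]

theorem TqB_inf {d g : E →ₗ[F] E} {A B : ℕ → Submodule F E} (hA : Gs d g A) (hB : Gs d g B) :
    Gs d g (fun j => A j ⊓ B j) where
  d j x hx := ⟨hA.d j x hx.1, hB.d j x hx.2⟩
  g j x hx := ⟨hA.g j x hx.1, hB.g j x hx.2⟩
  fin j := by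
    have := hA.fin j
    exact Submodule.finiteDimensional_of_le (S₂ := A j) inf_le_left

theorem TqB_sup {d g : E →ₗ[F] E} {A B : ℕ → Submodule F E} (hA : Gs d g A) (hB : Gs d g B) :
    Gs d g (fun j => A j ⊔ B j) where
  d j x hx := by
    obtain ⟨a, ha, b, hb, rfl⟩ := Submodule.mem_sup.1 hx
    rw [map_add]
    exact Submodule.add_mem_sup (hA.d j a ha) (hB.d j b hb)
  g j x hx := by
    obtain ⟨a, ha, b, hb, rfl⟩ := Submodule.mem_sup.1 hx
    rw [map_add]
    exact Submodule.add_mem_sup (hA.g j a ha) (hB.g j b hb)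
  fin j := by
    have := hA.fin j
    have := hB.fin j
    exact Submodule.finiteDimensional_sup (A j) (B j)

theorem Gs.trun {d g : E →ₗ[F] E} (hdd : ∀ x, d (d x) = 0) (hdg : ∀ x, d (g x) = g (d x))
    {V : ℕ → Submodule F E} (hV : Gs d g V) (G : ℕ) :
    Gs d g (Pool.Agent.H47.ST.trun d V G) where
  d j x hx := by
    rcases lt_trichotomy j G with hj | rfl | hj
    · rw [Trunc_lt hj] at hx
      rcases lt_or_eq_of_le (Nat.succ_le_of_lt hj) with hj' | hj'
      · rw [Trunc_lt hj']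
        exact hV.d j x hx
      · subst hj'
        have : Pool.Agent.H47.ST.trun d V (j + 1) (j + 1) = V (j + 1) ⊓ LinearMap.ker d :=
          Trunc_eq
        rw [this]
        exact ⟨hV.d j x hx, LinearMap.mem_ker.2 (hdd x)⟩
    · rw [Trunc_eq] at hx
      rw [LinearMap.mem_ker.1 hx.2]
      exact Submodule.zero_mem _
    · rw [Trunc_gt hj, Submodule.mem_bot] at hx
      rw [hx, map_zero]
      exact Submodule.zero_mem _
  g j x hx := by
    rcases lt_trichotomy j G with hj | rfl | hj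
    · rw [Trunc_lt hj] at hx ⊢
      exact hV.g j x hx
    · rw [Trunc_eq] at hx ⊢
      refine ⟨hV.g j x hx.1, LinearMap.mem_ker.2 ?_⟩
      rw [hdg, LinearMap.mem_ker.1 hx.2, map_zero]
    · rw [Trunc_gt hj, Submodule.mem_bot] at hx
      rw [hx, map_zero]
      exact Submodule.zero_mem _
  fin j := by
    have := hV.fin j
    exact Submodule.finiteDimensional_of_le (S₂ := V j) (Trunc_le G j)

theorem Gs.trf {d g : E →ₗ[F] E} (hdd : ∀ x, d (d x) = 0) (hdg : ∀ x, d (g x) = g (d x))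
    {V G : ℕ → Submodule F E} (hV : Gs d g V) (hG : Gs d g G) (g₁ g₂ : ℕ) :
    Gs d g (Pool.Agent.H47.ST.trf d V g₁ g₂ G) :=
  TqB_sup (hV.trun hdd hdg g₁) (TqB_inf (hV.trun hdd hdg g₂) hG)

/-- a band without cohomology in the degrees from `g₁` to `g₂` (compare `TK_band_out`) -/
theorem st_band_out {d g : E →ₗ[F] E} (hdd : ∀ x, d (d x) = 0) (hdg : ∀ x, d (g x) = g (d x))
    {V G G' : ℕ → Submodule F E} (hV : Gs d g V) (hG : Gs d g G) (hG' : Gs d g G')
    (hGG : ∀ j, G' j ≤ G j) (hGV : ∀ j, G j ≤ V j) (J : ℕ) (hJ : ∀ j, J ≤ j → V j = ⊥)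
    {g₁ g₂ : ℕ} (h12 : g₁ < g₂) (hb : ∀ j, g₁ ≤ j → j ≤ g₂ → HK d G G' j 0) :
    st g (trf d V g₁ g₂ G) (trf d V g₁ g₂ G') J = 0 := by
  refine st_exact hdd hdg (hV.trf hdd hdg hG' g₁ g₂) (hV.trf hdd hdg hG g₁ g₂)
    (Trunc_trf_mono hGG g₁ g₂) J
    (fun j hj => (Trunc_trf_le g₁ g₂ j).trans ((hJ j hj).le.trans bot_le)) (fun j c hc hdc => ?_)
  rcases Nat.lt_or_ge j g₁ with hj | hj
  · -- below `g₁`
    refine ⟨0, Submodule.zero_mem _, ?_⟩
    rw [map_zero, sub_zero]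
    have h1 : c ∈ trun d V g₁ j := by
      rw [Trunc_lt hj]
      exact Trunc_trf_le g₁ g₂ j hc
    exact Submodule.mem_sup_left h1
  rcases Nat.lt_or_ge g₂ j with hj2 | hj2
  · -- above `g₂`
    refine ⟨0, Submodule.zero_mem _, ?_⟩
    rw [map_zero, sub_zero]
    have h1 : trf d V g₁ g₂ G j = ⊥ := by
      unfold trf
      rw [Trunc_gt hj2, Trunc_gt (h12.trans hj2)]
      simp
    rw [h1, Submodule.mem_bot] at hc
    rw [hc]
    exact Submodule.zero_mem _
  -- the middle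
  obtain ⟨l, hl, b, hb', rfl⟩ := Submodule.mem_sup.1 hc
  have hdl : d l = 0 := by
    rcases Nat.lt_or_ge g₁ j with hj3 | hj3
    · rw [Trunc_gt hj3, Submodule.mem_bot] at hl
      rw [hl, map_zero]
    · obtain rfl : j = g₁ := le_antisymm hj3 hj
      rw [Trunc_eq] at hl
      exact LinearMap.mem_ker.1 hl.2
  have hdb : d b ∈ G' (j + 1) := by
    rw [map_add, hdl, zero_add] at hdc
    have h1 : trf d V g₁ g₂ G' (j + 1) ≤ G' (j + 1) := by
      unfold trf
      rw [Trunc_gt (show g₁ < j + 1 by omega), bot_sup_eq]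
      exact inf_le_right
    exact h1 hdc
  obtain ⟨y, hy, hxy⟩ := RK_zero.1 (hb j hj hj2) b hb'.2 hdb
  refine ⟨y, ?_, ?_⟩
  · refine Trunc_pr_mono (fun i hi => ?_) hy
    refine le_trans ?_ (le_sup_right : _ ≤ trf d V g₁ g₂ G i)
    refine le_inf ?_ le_rfl
    rw [Trunc_lt (show i < g₂ by omega)]
    exact hGV i
  · have hdy : d y ∈ trun d V g₂ j := by
      cases j with
      | zero =>
        have h0 : y = 0 := by simpa [pr] using hy
        rw [h0, map_zero]
        exact Submodule.zero_mem _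
      | succ i =>
        refine (hV.trun hdd hdg g₂).d i y ?_
        rw [Trunc_lt (show i < g₂ by omega)]
        exact hGV i hy
    rw [add_sub_assoc]
    exact Submodule.add_mem_sup hl ⟨Submodule.sub_mem _ hb'.1 hdy, hxy⟩

/-- a band with cohomology only in the degrees between `g₁` and `g₂` (compare `TK_band_in`) -/
theorem st_band_in {d g : E →ₗ[F] E} (hdd : ∀ x, d (d x) = 0) (hdg : ∀ x, d (g x) = g (d x))
    {V G G' : ℕ → Submodule F E} (hV : Gs d g V) (hG : Gs d g G) (hG' : Gs d g G')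
    (hGG : ∀ j, G' j ≤ G j) (hGV : ∀ j, G j ≤ V j) (J : ℕ) (hJ : ∀ j, J ≤ j → V j = ⊥)
    {g₁ g₂ : ℕ} (h12 : g₁ < g₂) (hb : ∀ j, (j ≤ g₁ ∨ g₂ ≤ j) → HK d G G' j 0) :
    st g (trf d V g₁ g₂ G) (trf d V g₁ g₂ G') J = st g G G' J := by
  set L := trun d V g₁ with hL
  set B := trun d V g₂ with hB
  have hLS : Gs d g L := hV.trun hdd hdg g₁
  have hBS : Gs d g B := hV.trun hdd hdg g₂
  have hLB : ∀ j, L j ≤ B j := fun j => Trunc_mono h12 j
  -- `P = G' + (B ⊓ G)`
  have hPS : Gs d g (fun j => G' j ⊔ (B j ⊓ G j)) := TqB_sup hG' (TqB_inf hBS hG)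
  have h1 : st g G (fun j => G' j ⊔ (B j ⊓ G j)) J = 0 := by
    refine st_exact hdd hdg hPS hG (fun j => sup_le (hGG j) inf_le_right) J
      (fun j hj => (hGV j).trans ((hJ j hj).le.trans bot_le)) (fun j x hx hdx => ?_)
    rcases Nat.lt_or_ge j g₂ with hj | hj
    · refine ⟨0, Submodule.zero_mem _, ?_⟩
      rw [map_zero, sub_zero]
      refine Submodule.mem_sup_right ⟨?_, hx⟩
      rw [hB, Trunc_lt hj]
      exact hGV j hx
    · have h2 : d x ∈ G' (j + 1) := by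
        have h3 : B (j + 1) = ⊥ := Trunc_gt (show g₂ < j + 1 by omega)
        simp only [h3, bot_inf_eq, sup_bot_eq] at hdx
        exact hdx
      obtain ⟨y, hy, hxy⟩ := RK_zero.1 (hb j (Or.inr hj)) x hx h2
      exact ⟨y, hy, Submodule.mem_sup_left hxy⟩
  -- `P` modulo `G'` is `B ⊓ G` modulo `B ⊓ G'`
  have h2 : st g (fun j => G' j ⊔ (B j ⊓ G j)) G' J =
      st g (fun j => B j ⊓ G j) (fun j => B j ⊓ G' j) J := by
    unfold st
    refine Finset.sum_congr rfl fun j _ => ?_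
    have f1 : FiniteDimensional F (B j ⊓ G j : Submodule F E) := (TqB_inf hBS hG).fin j
    have f2 := hG'.fin j
    have e := tq_sup_inf (g := g) (P := B j ⊓ G j) (Q := G' j) ((TqB_inf hBS hG).g j) (hG'.g j)
    rw [sup_comm, inf_assoc, inf_eq_right.2 (hGG j)] at e
    rw [e]
  -- `M = (L ⊓ G) + (B ⊓ G')`
  have hMS : Gs d g (fun j => (L j ⊓ G j) ⊔ (B j ⊓ G' j)) :=
    TqB_sup (TqB_inf hLS hG) (TqB_inf hBS hG')
  have hMG : ∀ j, (L j ⊓ G j) ⊔ (B j ⊓ G' j) ≤ B j ⊓ G j := fun j =>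
    sup_le (inf_le_inf_right _ (hLB j)) (inf_le_inf_left _ (hGG j))
  have h4 : st g (fun j => (L j ⊓ G j) ⊔ (B j ⊓ G' j)) (fun j => B j ⊓ G' j) J = 0 := by
    refine st_exact hdd hdg (TqB_inf hBS hG') hMS (fun j => le_sup_right) J
      (fun j hj => ((hMG j).trans (inf_le_right.trans (hGV j))).trans ((hJ j hj).le.trans bot_le))
      (fun j x hx hdx => ?_)
    rcases Nat.lt_or_ge g₁ j with hj | hj
    · refine ⟨0, Submodule.zero_mem _, ?_⟩
      rw [map_zero, sub_zero]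
      have h5 : L j = ⊥ := Trunc_gt hj
      simp only [h5, bot_inf_eq, bot_sup_eq] at hx
      exact hx
    · have hxG : x ∈ B j ⊓ G j := hMG j hx
      obtain ⟨y, hy, hxy⟩ := RK_zero.1 (hb j (Or.inl hj)) x hxG.2 hdx.2
      have hyL : ∀ i, i + 1 = j → G i ≤ L i ⊓ G i := fun i hi => by
        refine le_inf ?_ le_rfl
        rw [hL, Trunc_lt (show i < g₁ by omega)]
        exact hGV i
      refine ⟨y, Trunc_pr_mono (fun i hi => (hyL i hi).trans le_sup_left) hy, ?_, hxy⟩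
      refine Submodule.sub_mem _ hxG.1 ?_
      cases j with
      | zero =>
        have h0 : y = 0 := by simpa [pr] using hy
        rw [h0, map_zero]
        exact Submodule.zero_mem _
      | succ i => exact hBS.d i y (hLB i ((hyL i rfl) hy).1)
  -- the last step
  have h5 : st g (trf d V g₁ g₂ G) (trf d V g₁ g₂ G') J =
      st g (fun j => B j ⊓ G j) (fun j => (L j ⊓ G j) ⊔ (B j ⊓ G' j)) J := by
    unfold st
    refine Finset.sum_congr rfl fun j _ => ?_
    have f1 : FiniteDimensional F (B j ⊓ G j : Submodule F E) := (TqB_inf hBS hG).fin j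
    have f2 : FiniteDimensional F (L j ⊔ (B j ⊓ G' j) : Submodule F E) :=
      (TqB_sup hLS (TqB_inf hBS hG')).fin j
    have e := tq_sup_inf (g := g) (P := B j ⊓ G j) (Q := L j ⊔ (B j ⊓ G' j))
      ((TqB_inf hBS hG).g j) ((TqB_sup hLS (TqB_inf hBS hG')).g j)
    have e1 : (B j ⊓ G j) ⊔ (L j ⊔ (B j ⊓ G' j)) = L j ⊔ (B j ⊓ G j) := by
      rw [sup_left_comm, sup_eq_left.2 (inf_le_inf_left _ (hGG j))]
    have e2 : (B j ⊓ G j) ⊓ (L j ⊔ (B j ⊓ G' j)) = (L j ⊓ G j) ⊔ (B j ⊓ G' j) := by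
      rw [inf_comm, sup_comm (L j),
        sup_inf_assoc_of_le (L j) (inf_le_inf_left (B j) (hGG j)), ← inf_assoc,
        inf_eq_left.2 (hLB j), sup_comm]
    rw [e1, e2] at e
    have e3 : trf d V g₁ g₂ G j = L j ⊔ (B j ⊓ G j) := rfl
    have e4 : trf d V g₁ g₂ G' j = L j ⊔ (B j ⊓ G' j) := rfl
    rw [e3, e4, e]
  rw [h5, st_trans g G (fun j => G' j ⊔ (B j ⊓ G j)) G', h1, zero_add, h2,
    st_trans g (fun j => B j ⊓ G j) (fun j => (L j ⊓ G j) ⊔ (B j ⊓ G' j)) (fun j => B j ⊓ G' j),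
    h4, add_zero]

end Pool.Agent.H45.AC
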