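import Pool.Agent.H47.ST.Trunc

/-!
# Project AC: relative Tate cocycles of `P` which bound in `Q`
-/

set_option autoImplicit false

namespace Pool.Agent.H45.AC

open Pool.Agent.H47.ST

variable {F E : Type*} [Field F] [AddCommGroup E] [Module F E]

/-- the relative Tate cocycles of `(P, L)` are relative coboundaries of `(Q, L)` -/
def Zr (d τ ν : E →ₗ[F] E) (P Q L : ℕ → Submodule F E) : Prop :=
  ∀ k, ∀ x ∈ sq P, del d τ ν k x ∈ sq L → ∃ y ∈ sq Q, x - del d τ ν (k + 1) y ∈ sq L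

theorem Zr.mono {d τ ν : E →ₗ[F] E} {P P' Q Q' L : ℕ → Submodule F E} (h : Zr d τ ν P Q L)
    (hP : ∀ j, P' j ≤ P j) (hQ : ∀ j, Q j ≤ Q' j) : Zr d τ ν P' Q' L := by
  intro k x hx hdx
  obtain ⟨y, hy, hxy⟩ := h k x (TKb_sq_mono hP hx) hdx
  exact ⟨y, TKb_sq_mono hQ hy, hxy⟩

/-- The source may be enlarged by a band with vanishing Tate cohomology. -/
theorem Zr.source {d τ ν : E →ₗ[F] E} (h : Ops d τ ν) {P₁ P₂ Q L : ℕ → Submodule F E}
    (hTK : ∀ k, TK d τ ν k P₁ P₂ 0) (hLP : ∀ j, L j ≤ P₂ j) (hPQ : ∀ j, P₁ j ≤ Q j)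
    (hZ : Zr d τ ν P₂ Q L) : Zr d τ ν P₁ Q L := by
  intro k x hx hdx
  obtain ⟨z, hz, hxz⟩ := RK_zero.1 (hTK k) x hx (TKb_sq_mono hLP hdx)
  obtain ⟨y, hy, hxy⟩ := hZ k _ hxz (by
    rw [map_sub, TKb_del_del' h, sub_zero]
    exact hdx)
  refine ⟨z + y, (sq Q).add_mem (TKb_sq_mono hPQ hz) hy, ?_⟩
  rw [map_add, ← sub_sub]
  exact hxy

theorem Zr_refl_iff {d τ ν : E →ₗ[F] E} {B L : ℕ → Submodule F E} :
    Zr d τ ν B B L ↔ ∀ k, TK d τ ν k B L 0 :=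
  forall_congr' fun _ => RK_zero.symm

theorem Zr_bot {d τ ν : E →ₗ[F] E} (Q L : ℕ → Submodule F E) : Zr d τ ν L Q L := by
  intro k x hx _
  refine ⟨0, (sq Q).zero_mem, ?_⟩
  rw [map_zero, sub_zero]
  exact hx

/-- the chain version: no Tate cohomology in a union of bands -/
theorem TK_chain {d τ ν : E →ₗ[F] E} (h : Ops d τ ν) (B : ℕ → ℕ → Submodule F E) (M : ℕ)
    (hB : ∀ i, Sub d τ ν (B i)) (hmono : ∀ i j, B (i + 1) j ≤ B i j)
    (hTK : ∀ i < M, ∀ k, TK d τ ν k (B i) (B (i + 1)) 0) (k : ℕ) :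
    TK d τ ν k (B 0) (B M) 0 := by
  have hle : ∀ i j, B i j ≤ B 0 j := by
    intro i j
    induction i with
    | zero => exact le_rfl
    | succ i ih => exact (hmono i j).trans ih
  induction M with
  | zero => exact TKb_refl _ _
  | succ M ih =>
    have h1 := ih fun i hi => hTK i (by omega)
    exact TK.trans h (hB (M + 1)) (hmono M) (hle M) h1 (hTK M (Nat.lt_succ_self M) k)

end Pool.Agent.H45.AC
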